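import Pool.Agent.Helper54.Mix.Pos

/-!
# Existence of a density with a rank one averaged mixing matrix when `n + 1` is a prime
-/

set_option autoImplicit false

namespace Pool.Agent.Helper54.Mix

open MeasureTheory Polynomial

noncomputable section

/-- For a prime `2r+1` the numbers `2 cos (2 π (a+1) / (2r+1))`, `a < r`, are independent over the
integers. -/
lemma indep_cos {r : ℕ} (hp : (2 * r + 1).Prime) (m : Fin r → ℤ)
    (h : ∑ a : Fin r, (m a : ℝ) * (2 * Real.cos (2 * Real.pi * (((a : ℕ) : ℝ) + 1) / ((2 * r + 1 : ℕ) : ℝ))) = 0) :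
    m = 0 := by
  classical
  obtain ⟨p, hpr⟩ : ∃ p, p = 2 * r + 1 := ⟨_, rfl⟩
  rw [← hpr] at hp h
  have hpC : (p : ℂ) ≠ 0 := by exact_mod_cast hp.ne_zero
  set ω : ℂ := Complex.exp (2 * Real.pi * Complex.I / (p : ℕ)) with hω
  have hprim : IsPrimitiveRoot ω p := Complex.isPrimitiveRoot_exp p hp.ne_zero
  have hmin : cyclotomic p ℚ = minpoly ℚ ω := cyclotomic_eq_minpoly_rat hprim hp.pos
  have hωp : ω ^ p = 1 := hprim.pow_eq_one
  have hω0 : ω ≠ 0 := Complex.exp_ne_zero _
  set Q : ℚ[X] := ∑ a : Fin r, C (m a : ℚ) * (X ^ (a : ℕ) + X ^ (p - 2 - (a : ℕ))) with hQ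
  have hcos : ∀ a : Fin r, ω * (ω ^ (a : ℕ) + ω ^ (p - 2 - (a : ℕ))) =
      ((2 * Real.cos (2 * Real.pi * (((a : ℕ) : ℝ) + 1) / ((p : ℕ) : ℝ)) : ℝ) : ℂ) := by
    intro a
    have ha := a.isLt
    have h1 : ω * ω ^ (p - 2 - (a : ℕ)) = (ω ^ ((a : ℕ) + 1))⁻¹ := by
      apply eq_inv_of_mul_eq_one_left
      have : ω * ω ^ (p - 2 - (a : ℕ)) * ω ^ ((a : ℕ) + 1) = ω ^ (1 + (p - 2 - (a : ℕ)) + ((a : ℕ) + 1)) := by
        generalize p - 2 - (a : ℕ) = k
        ring
      rw [this]
      have e : 1 + (p - 2 - (a : ℕ)) + ((a : ℕ) + 1) = p := by omega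
      rw [e, hωp]
    have h2 : ω ^ ((a : ℕ) + 1) = Complex.exp (((2 * Real.pi * (((a : ℕ) : ℝ) + 1) / ((p : ℕ) : ℝ) : ℝ) : ℂ) * Complex.I) := by
      rw [hω, ← Complex.exp_nat_mul]
      congr 1
      push_cast
      ring
    rw [mul_add, h1, ← pow_succ', h2, ← Complex.exp_neg]
    push_cast
    rw [Complex.two_cos]
    ring_nf
  have hroot : aeval ω Q = 0 := by
    have h3 : ω * aeval ω Q = 0 := by
      have h4 : ω * aeval ω Q = ((∑ a : Fin r, (m a : ℝ) * (2 * Real.cos (2 * Real.pi * (((a : ℕ) : ℝ) + 1) / ((p : ℕ) : ℝ))) : ℝ) : ℂ) := by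
        rw [hQ, map_sum, Finset.mul_sum, Complex.ofReal_sum]
        apply Finset.sum_congr rfl
        intro a _
        rw [Complex.ofReal_mul, ← hcos a]
        simp
        ring
      rw [h4, h]; simp
    rcases mul_eq_zero.mp h3 with h4 | h4
    · exact absurd h4 hω0
    · exact h4
  have hdeg : Q.degree < (minpoly ℚ ω).degree := by
    rw [← hmin, degree_cyclotomic, Nat.totient_prime hp]
    rw [hQ]
    refine lt_of_le_of_lt (degree_sum_le _ _) ?_
    rw [Finset.sup_lt_iff]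
    · intro a _
      have ha := a.isLt
      refine lt_of_le_of_lt (degree_mul_le _ _) ?_
      refine lt_of_le_of_lt (add_le_add degree_C_le (degree_add_le _ _)) ?_
      rw [zero_add, degree_X_pow, degree_X_pow]
      rw [max_lt_iff]
      constructor
      · exact_mod_cast (by omega : (a : ℕ) < p - 1)
      · exact_mod_cast (by omega : p - 2 - (a : ℕ) < p - 1)
    · exact WithBot.bot_lt_coe _
  have hQ0 : Q = 0 := by
    by_contra hne
    exact absurd (minpoly.degree_le_of_ne_zero ℚ ω hne hroot) (not_le.mpr hdeg)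
  funext a0
  have ha0 := a0.isLt
  have hc : Q.coeff a0 = 0 := by rw [hQ0]; simp
  rw [hQ, finsetSum_coeff, Finset.sum_eq_single a0] at hc
  · rw [coeff_C_mul, coeff_add, coeff_X_pow, coeff_X_pow, if_pos rfl, if_neg (by omega)] at hc
    simpa using hc
  · intro b _ hb
    have hbl := b.isLt
    have hne : ¬ ((a0 : ℕ) = b) := by intro h; apply hb; ext; exact h.symm
    rw [coeff_C_mul, coeff_add, coeff_X_pow, coeff_X_pow, if_neg hne, if_neg (by omega)]
    simp
  · simp

/-- the frequencies -/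
def nuP (n r : ℕ) (a : Fin r) : ℝ := lam n (2 * (((a : ℕ) : ℤ) + 1))

/-- the index of the frequency of the eigenvalue number `k + 1` -/
def ix {n r : ℕ} (hn : n = 2 * r) (k : Fin n) : Fin r :=
  if h : Even (k : ℕ) then ⟨r - 1 - (k : ℕ) / 2, by have := k.isLt; omega⟩
  else ⟨(k : ℕ) / 2, by have := k.isLt; omega⟩

lemma lam_ix_odd {n r : ℕ} (hn : n = 2 * r) (k : Fin n) (hk : ¬ Even (k : ℕ)) :
    lam n ((k : ℕ) + 1 : ℤ) = nuP n r (ix hn k) := by
  unfold nuP ix
  rw [dif_neg hk]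
  congr 1
  have := Nat.not_even_iff_odd.mp hk
  obtain ⟨t, ht⟩ := this
  simp only
  push_cast
  omega

lemma lam_ix_even {n r : ℕ} (hn : n = 2 * r) (k : Fin n) (hk : Even (k : ℕ)) :
    lam n ((k : ℕ) + 1 : ℤ) = - nuP n r (ix hn k) := by
  unfold nuP ix
  rw [dif_pos hk, ← lam_refl]
  congr 1
  obtain ⟨t, ht⟩ := hk
  have := k.isLt
  simp only
  have h1 : (((r - 1 - (k : ℕ) / 2 : ℕ)) : ℤ) = (r : ℤ) - 1 - (t : ℤ) := by omega
  rw [h1]
  omega

lemma ix_inj {n r : ℕ} (hn : n = 2 * r) (k l : Fin n) (hkl : k ≠ l) (hp : Even (k : ℕ) ↔ Even (l : ℕ)) :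
    ix hn k ≠ ix hn l := by
  intro h
  apply hkl
  have hk := k.isLt
  have hl := l.isLt
  unfold ix at h
  by_cases he : Even (k : ℕ)
  · have he' := hp.mp he
    rw [dif_pos he, dif_pos he', Fin.mk.injEq] at h
    obtain ⟨t, ht⟩ := he
    obtain ⟨u, hu⟩ := he'
    ext; omega
  · have he' : ¬ Even (l : ℕ) := fun h' => he (hp.mpr h')
    rw [dif_neg he, dif_neg he', Fin.mk.injEq] at h
    obtain ⟨t, ht⟩ := Nat.not_even_iff_odd.mp he
    obtain ⟨u, hu⟩ := Nat.not_even_iff_odd.mp he'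
    ext; omega

/-- If `n + 1 ≥ 5` is a prime then some density has an averaged mixing matrix of rank one on `P_n`. -/
theorem exists_rank_one_of_prime {n : ℕ} (hp : (n + 1).Prime) (h4 : 4 ≤ n) :
    ∃ f : ℝ → ℝ, IsDensity f ∧ (avgMixing n f).rank = 1 := by
  have hodd : Odd (n + 1) := hp.odd_of_ne_two (by omega)
  obtain ⟨r, hr⟩ := hodd
  have hn : n = 2 * r := by omega
  have hr2 : 2 ≤ r := by omega
  have hp' : (2 * r + 1).Prime := by rw [← hr]; exact hp
  have hind : ∀ m : Fin r → ℤ, ∑ a, (m a : ℝ) * nuP n r a = 0 → m = 0 := by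
    intro m hm
    apply indep_cos hp' m
    rw [← hm]
    apply Finset.sum_congr rfl
    intro a _
    unfold nuP lam al
    congr 3
    rw [hn]
    push_cast
    ring
  obtain ⟨f, hf, h1, h2⟩ := exists_density hr2 (nuP n r) hind
  refine ⟨f, hf, rank_of_const (by omega) _ ?_⟩
  apply avg_of_moments hf
  have hnr : (n : ℝ) = 2 * r := by rw [hn]; push_cast; ring
  intro k l hkl
  by_cases hk : Even (k : ℕ) <;> by_cases hl : Even (l : ℕ)
  · rw [lam_ix_even hn k hk, lam_ix_even hn l hl, if_pos]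
    · rw [hnr, ← h1 _ _ (ix_inj hn l k (Ne.symm hkl) (iff_of_true hl hk))]
      congr 1
      funext s
      congr 2
      ring
    · rw [Int.even_sub]; exact iff_of_true (by exact_mod_cast hk) (by exact_mod_cast hl)
  · rw [lam_ix_even hn k hk, lam_ix_odd hn l hl, if_neg]
    · rw [← h2 (ix hn k) (ix hn l)]
      congr 1
      funext s
      congr 1
      rw [← Real.cos_neg]
      congr 1
      ring
    · rw [Int.even_sub]
      intro h
      exact hl (by exact_mod_cast h.mp (by exact_mod_cast hk))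
  · rw [lam_ix_odd hn k hk, lam_ix_even hn l hl, if_neg]
    · rw [← h2 (ix hn k) (ix hn l)]
      congr 1
      funext s
      congr 2
      ring
    · rw [Int.even_sub]
      intro h
      exact hk (by exact_mod_cast h.mpr (by exact_mod_cast hl))
  · rw [lam_ix_odd hn k hk, lam_ix_odd hn l hl, if_pos]
    · rw [hnr, ← h1 _ _ (ix_inj hn k l hkl (iff_of_false hk hl))]
    · rw [Int.even_sub]
      exact iff_of_false (by intro h; exact hk (by exact_mod_cast h)) (by intro h; exact hl (by exact_mod_cast h))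

end

end Pool.Agent.Helper54.Mix
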