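import Pool.Agent.Helper54.Mix.EvenEx
import Pool.Agent.Helper54.Mix.Prime

/-!
# Independence of the eigenvalues when `n + 1` is twice a prime or a power of two
-/

set_option autoImplicit false

namespace Pool.Agent.Helper54.Mix

open MeasureTheory Polynomial

noncomputable section

/-- the polynomial of a relation -/
def QQ (r : ℕ) (c : Fin r → ℤ) : ℚ[X] := ∑ a : Fin r, C (c a : ℚ) * (X ^ (a : ℕ) + X ^ (2 * r - (a : ℕ)))

lemma QQ_coeff_lt (r : ℕ) (c : Fin r → ℤ) (a0 : Fin r) : (QQ r c).coeff a0 = c a0 := by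
  have ha0 := a0.isLt
  rw [QQ, finsetSum_coeff, Finset.sum_eq_single a0]
  · rw [coeff_C_mul, coeff_add, coeff_X_pow, coeff_X_pow, if_pos rfl, if_neg (by omega)]
    simp
  · intro b _ hb
    have hbl := b.isLt
    have hne : ¬ ((a0 : ℕ) = b) := by intro h; apply hb; ext; exact h.symm
    rw [coeff_C_mul, coeff_add, coeff_X_pow, coeff_X_pow, if_neg hne, if_neg (by omega)]
    simp
  · simp

lemma QQ_coeff_mid (r : ℕ) (c : Fin r → ℤ) : (QQ r c).coeff r = 0 := by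
  rw [QQ, finsetSum_coeff]
  apply Finset.sum_eq_zero
  intro b _
  have hbl := b.isLt
  rw [coeff_C_mul, coeff_add, coeff_X_pow, coeff_X_pow, if_neg (by omega), if_neg (by omega)]
  simp

lemma QQ_degree (r : ℕ) (c : Fin r → ℤ) : (QQ r c).degree < ((2 * r + 1 : ℕ) : WithBot ℕ) := by
  rw [QQ]
  refine lt_of_le_of_lt (degree_sum_le _ _) ?_
  rw [Finset.sup_lt_iff]
  · intro a _
    have ha := a.isLt
    refine lt_of_le_of_lt (degree_mul_le _ _) ?_
    refine lt_of_le_of_lt (add_le_add degree_C_le (degree_add_le _ _)) ?_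
    rw [zero_add, degree_X_pow, degree_X_pow]
    rw [max_lt_iff]
    constructor
    · exact_mod_cast (by omega : (a : ℕ) < 2 * r + 1)
    · exact_mod_cast (by omega : 2 * r - (a : ℕ) < 2 * r + 1)
  · exact WithBot.bot_lt_coe _

lemma QQ_root (r : ℕ) (c : Fin r → ℤ) (h : ∑ a, (c a : ℝ) * nuE r (((a : ℕ) : ℤ) + 1) = 0) :
    aeval (Complex.exp (2 * Real.pi * Complex.I / ((4 * (r + 1) : ℕ) : ℂ))) (QQ r c) = 0 := by
  set ζ : ℂ := Complex.exp (2 * Real.pi * Complex.I / ((4 * (r + 1) : ℕ) : ℂ)) with hζ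
  have hζ0 : ζ ≠ 0 := Complex.exp_ne_zero _
  have hterm : ∀ a : Fin r, ζ ^ (a : ℕ) + ζ ^ (2 * r - (a : ℕ)) = ζ ^ r * (nuE r (((a : ℕ) : ℤ) + 1) : ℝ) := by
    intro a
    have ha := a.isLt
    have e1 : ζ ^ (2 * r - (a : ℕ)) = ζ ^ r * ζ ^ (r - (a : ℕ)) := by
      rw [← pow_add]; congr 1; omega
    have e2 : ζ ^ (a : ℕ) = ζ ^ r * (ζ ^ (r - (a : ℕ)))⁻¹ := by
      rw [eq_mul_inv_iff_mul_eq₀ (pow_ne_zero _ hζ0), ← pow_add]; congr 1; omega
    have e3 : ζ ^ (r - (a : ℕ)) = Complex.exp ((((r : ℝ) - ((a : ℕ) : ℝ)) * al (2 * r + 1) : ℝ) * Complex.I) := by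
      rw [hζ, ← Complex.exp_nat_mul]
      congr 1
      rw [Nat.cast_sub ha.le]
      unfold al
      push_cast
      have hr1 : ((r : ℂ) + 1) ≠ 0 := by exact_mod_cast Nat.succ_ne_zero r
      have hr2 : (2 * (r : ℂ) + 1 + 1) = 2 * ((r : ℂ) + 1) := by ring
      rw [hr2]
      field_simp
      try ring
    have e4 : (nuE r (((a : ℕ) : ℤ) + 1) : ℝ) = 2 * Real.cos (((r : ℝ) - ((a : ℕ) : ℝ)) * al (2 * r + 1)) := by
      unfold nuE lam
      congr 3
      push_cast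
      ring
    rw [e1, e2, ← mul_add, e3, ← Complex.exp_neg, e4]
    push_cast
    rw [Complex.two_cos]
    ring_nf
  have h1 : aeval ζ (QQ r c) = ζ ^ r * ((∑ a, (c a : ℝ) * nuE r (((a : ℕ) : ℤ) + 1) : ℝ) : ℂ) := by
    rw [QQ, map_sum, Complex.ofReal_sum, Finset.mul_sum]
    apply Finset.sum_congr rfl
    intro a _
    rw [Complex.ofReal_mul]
    simp only [map_mul, map_add, map_pow, aeval_X, aeval_C]
    rw [hterm a]
    simp
    ring
  rw [h1, h]
  simp

lemma QQ_eq_zero (r : ℕ) (c : Fin r → ℤ) (h : QQ r c = 0) : c = 0 := by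
  funext a
  have h1 := QQ_coeff_lt r c a
  rw [h, coeff_zero] at h1
  have h2 : ((c a : ℤ) : ℚ) = 0 := h1.symm
  simpa using h2

lemma minpoly_zeta (r : ℕ) : cyclotomic (4 * (r + 1)) ℚ =
    minpoly ℚ (Complex.exp (2 * Real.pi * Complex.I / ((4 * (r + 1) : ℕ) : ℂ))) := by
  have hprim : IsPrimitiveRoot (Complex.exp (2 * Real.pi * Complex.I / ((4 * (r + 1) : ℕ) : ℂ))) (4 * (r + 1)) :=
    Complex.isPrimitiveRoot_exp _ (by omega)
  exact cyclotomic_eq_minpoly_rat hprim (by omega)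

lemma indep_two_pow {r b : ℕ} (hb : r + 1 = 2 ^ b) (c : Fin r → ℤ)
    (h : ∑ a, (c a : ℝ) * nuE r (((a : ℕ) : ℤ) + 1) = 0) : c = 0 := by
  apply QQ_eq_zero
  by_contra hne
  have h1 := minpoly.degree_le_of_ne_zero ℚ _ hne (QQ_root r c h)
  rw [← minpoly_zeta, degree_cyclotomic] at h1
  have h2 : Nat.totient (4 * (r + 1)) = 2 * r + 2 := by
    rw [hb]
    have : 4 * 2 ^ b = 2 ^ (b + 2) := by ring
    rw [this, Nat.totient_prime_pow_succ Nat.prime_two]
    have : 2 ^ (b + 1) = 2 * 2 ^ b := by ring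
    omega
  rw [h2] at h1
  have h3 := lt_of_le_of_lt h1 (QQ_degree r c)
  have h4 : 2 * r + 2 < 2 * r + 1 := by exact_mod_cast h3
  omega

lemma cyclotomic_four : cyclotomic 4 ℚ = X ^ 2 + 1 := by
  have h := cyclotomic_expand_eq_cyclotomic Nat.prime_two (dvd_refl 2) ℚ
  rw [cyclotomic_two] at h
  have h2 : (2 * 2 : ℕ) = 4 := rfl
  rw [h2] at h
  rw [← h]
  simp

lemma factor_four {p : ℕ} (hp : p.Prime) (h2 : p ≠ 2) :
    (X ^ (2 * p) + 1 : ℚ[X]) = cyclotomic (4 * p) ℚ * (X ^ 2 + 1) := by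
  have hd : ¬ p ∣ 4 := by
    intro hd
    have h4 : (4 : ℕ) = 2 ^ 2 := rfl
    rw [h4] at hd
    exact h2 ((Nat.prime_dvd_prime_iff_eq hp Nat.prime_two).mp (hp.dvd_of_dvd_pow hd))
  have h := cyclotomic_expand_eq_cyclotomic_mul hp hd ℚ
  rw [cyclotomic_four] at h
  rw [← h]
  simp [← pow_mul, mul_comm]

lemma indep_two_prime {r : ℕ} (hp : (r + 1).Prime) (hr : 2 ≤ r) (c : Fin r → ℤ)
    (h : ∑ a, (c a : ℝ) * nuE r (((a : ℕ) : ℤ) + 1) = 0) : c = 0 := by
  apply QQ_eq_zero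
  by_contra hne
  have hdvd : minpoly ℚ (Complex.exp (2 * Real.pi * Complex.I / ((4 * (r + 1) : ℕ) : ℂ))) ∣ QQ r c :=
    minpoly.dvd ℚ _ (QQ_root r c h)
  rw [← minpoly_zeta] at hdvd
  obtain ⟨S, hS⟩ := hdvd
  have hS0 : S ≠ 0 := by intro h0; apply hne; rw [hS, h0, mul_zero]
  have hcyc0 : cyclotomic (4 * (r + 1)) ℚ ≠ 0 := cyclotomic_ne_zero _ _
  have hnat : (QQ r c).natDegree < 2 * r + 1 := (natDegree_lt_iff_degree_lt hne).mpr (QQ_degree r c)
  have htot : Nat.totient (4 * (r + 1)) = 2 * r := by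
    have hodd : Odd (r + 1) := hp.odd_of_ne_two (by omega)
    have hcop : Nat.Coprime 4 (r + 1) := by
      have : Nat.Coprime (2 ^ 2) (r + 1) := Nat.Coprime.pow_left 2 (Nat.coprime_two_left.mpr hodd)
      simpa using this
    rw [Nat.totient_mul hcop, Nat.totient_prime hp]
    have : Nat.totient 4 = 2 := by decide
    rw [this]; simp
  have hdegS : S.natDegree = 0 := by
    have h1 : (QQ r c).natDegree = (cyclotomic (4 * (r + 1)) ℚ).natDegree + S.natDegree := by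
      rw [hS, natDegree_mul hcyc0 hS0]
    rw [natDegree_cyclotomic, htot] at h1
    omega
  obtain ⟨s, hs⟩ : ∃ s : ℚ, S = C s := ⟨_, eq_C_of_natDegree_eq_zero hdegS⟩
  have hkey : (X ^ 2 + 1) * QQ r c = (X ^ (2 * (r + 1)) + 1) * C s := by
    rw [factor_four hp (by omega), hS, hs]; ring
  have hco : ∀ j, (QQ r c).coeff j + (QQ r c).coeff (j + 2) = (if j + 2 = 2 * (r + 1) then s else 0) := by
    intro j
    have h1 : coeff ((X ^ 2 + 1) * QQ r c) (j + 2) = coeff ((X ^ (2 * (r + 1)) + 1) * C s) (j + 2) := by rw [hkey]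
    rw [add_mul, add_mul, coeff_add, coeff_add, one_mul, one_mul, coeff_X_pow_mul, mul_comm (X ^ (2 * (r + 1))) (C s),
      coeff_C_mul, coeff_X_pow, coeff_C] at h1
    rw [h1]
    simp
  have hind : ∀ i : ℕ, r + 2 * i ≤ 2 * r → (QQ r c).coeff (r + 2 * i) = 0 := by
    intro i
    induction i with
    | zero => intro _; exact QQ_coeff_mid r c
    | succ i ih =>
      intro hi
      have h1 := hco (r + 2 * i)
      rw [ih (by omega), zero_add, if_neg (by omega)] at h1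
      have : r + 2 * (i + 1) = r + 2 * i + 2 := by ring
      rw [this]; exact h1
  have hodd : Odd (r + 1) := hp.odd_of_ne_two (by omega)
  obtain ⟨t, ht⟩ := hodd
  have h1 := hind t (by omega)
  have h2 := hco (2 * r)
  have h3 : (QQ r c).coeff (2 * r + 2) = 0 := coeff_eq_zero_of_natDegree_lt (by omega)
  have h4 : r + 2 * t = 2 * r := by omega
  rw [h4] at h1
  rw [h1, h3, if_pos (by ring), zero_add] at h2
  apply hS0
  rw [hs, ← h2, C_0]

/-- the three families of paths -/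
theorem exists_rank_one {n : ℕ} (hn : 2 ≤ n)
    (h : (n + 1).Prime ∨ (∃ p, p.Prime ∧ n + 1 = 2 * p) ∨ ∃ b, n + 1 = 2 ^ b) (h2 : n ≠ 2) :
    ∃ f : ℝ → ℝ, IsDensity f ∧ (avgMixing n f).rank = 1 := by
  rcases h with h | ⟨p, hp, h⟩ | ⟨b, h⟩
  · have : n ≠ 3 := by
      rintro rfl
      revert h; decide
    exact exists_rank_one_of_prime h (by omega)
  · obtain ⟨r, rfl⟩ : ∃ r, p = r + 1 := ⟨p - 1, by have := hp.pos; omega⟩
    have hn' : n = 2 * r + 1 := by omega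
    rw [hn']
    by_cases hr : r = 1
    · subst hr
      exact exists_rank_one_odd fun c hc => indep_two_pow (b := 1) (by norm_num) c hc
    · exact exists_rank_one_odd fun c hc => indep_two_prime hp (by omega) c hc
  · obtain ⟨b', rfl⟩ : ∃ b', b = b' + 1 := by
      refine ⟨b - 1, ?_⟩
      have : b ≠ 0 := by rintro rfl; simp at h; omega
      omega
    have h3 : n + 1 = 2 * 2 ^ b' := by rw [h]; ring
    obtain ⟨r, hr⟩ : ∃ r, 2 ^ b' = r + 1 := ⟨2 ^ b' - 1, by have := Nat.one_le_two_pow (n := b'); omega⟩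
    have hn' : n = 2 * r + 1 := by omega
    rw [hn']
    exact exists_rank_one_odd fun c hc => indep_two_pow hr.symm c hc

end

end Pool.Agent.Helper54.Mix
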