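import Pool.Agent.Helper54.Mix.Short

/-!
# Existence for `n + 1` without small prime factors
-/

set_option autoImplicit false

namespace Pool.Agent.Helper54.Mix

noncomputable section

/-- If all prime factors of `n + 1 ≥ 2` are at least `11` then some density has an averaged mixing
matrix of rank one on `P_n`. -/
theorem exists_rank_one_of_large {n : ℕ} (hn1 : 1 ≤ n) (hq : ∀ p : ℕ, p.Prime → p ∣ n + 1 → 11 ≤ p) :
    ∃ f : ℝ → ℝ, IsDensity f ∧ (avgMixing n f).rank = 1 := by
  have hodd : Odd (n + 1) := by
    rw [← Nat.not_even_iff_odd]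
    intro he
    have := hq 2 Nat.prime_two he.two_dvd
    omega
  have h11 : 11 ≤ n + 1 := by
    have h1 := hq (n + 1).minFac (Nat.minFac_prime (by omega)) (Nat.minFac_dvd _)
    exact h1.trans (Nat.minFac_le (by omega))
  obtain ⟨r, hr⟩ := hodd
  have hn : n = 2 * r := by omega
  have hr2 : 2 ≤ r := by omega
  have hind : ∀ m : Fin r → ℤ, ∑ a, |m a| ≤ 10 → ∑ a, (m a : ℝ) * nuP n r a = 0 → m = 0 := by
    intro m hm10 hm
    apply no_short_rel (by rw [← hr]; exact hq) m hm10
    rw [← hm]
    apply Finset.sum_congr rfl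
    intro a _
    unfold nuP lam al
    congr 3
    rw [hn]
    push_cast
    ring
  obtain ⟨f, hf, h1, h2⟩ := exists_density_short hr2 (nuP n r) hind
  refine ⟨f, hf, rank_of_const (by omega) _ ?_⟩
  apply avg_of_moments hf
  have hnr : (n : ℝ) = 2 * r := by rw [hn]; push_cast; ring
  intro k l hkl
  by_cases hk : Even (k : ℕ) <;> by_cases hl : Even (l : ℕ)
  · rw [lam_ix_even hn k hk, lam_ix_even hn l hl, if_pos]
    · rw [hnr, ← h1 _ _ (ix_inj hn l k (Ne.symm hkl) (iff_of_true hl hk))]
      congr 1
      funext s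
      congr 2
      ring
    · rw [Int.even_sub]; exact iff_of_true (by exact_mod_cast hk) (by exact_mod_cast hl)
  · rw [lam_ix_even hn k hk, lam_ix_odd hn l hl, if_neg]
    · rw [← h2 (ix hn k) (ix hn l)]
      congr 1
      funext s
      congr 1
      rw [← Real.cos_neg]
      congr 1
      ring
    · rw [Int.even_sub]
      intro h
      exact hl (by exact_mod_cast h.mp (by exact_mod_cast hk))
  · rw [lam_ix_odd hn k hk, lam_ix_even hn l hl, if_neg]
    · rw [← h2 (ix hn k) (ix hn l)]
      congr 1
      funext s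
      congr 2
      ring
    · rw [Int.even_sub]
      intro h
      exact hk (by exact_mod_cast h.mpr (by exact_mod_cast hl))
  · rw [lam_ix_odd hn k hk, lam_ix_odd hn l hl, if_pos]
    · rw [hnr, ← h1 _ _ (ix_inj hn k l hkl (iff_of_false hk hl))]
    · rw [Int.even_sub]
      exact iff_of_false (by intro h; exact hk (by exact_mod_cast h)) (by intro h; exact hl (by exact_mod_cast h))

end

end Pool.Agent.Helper54.Mix
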