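import Pool.Agent.Helper54.Mix.Rel5

/-!
# No short relations between the eigenvalues of a path with an odd number of vertices, conclusion
-/

set_option autoImplicit false

namespace Pool.Agent.Helper54.Mix

open Finset Polynomial

noncomputable section

lemma split4 {M : Type} [AddCommMonoid M] (r : ℕ) (g : ℕ → M) : ∑ j ∈ range (4 * (r + 1)), g j =
    ((∑ j ∈ range r, g (j + 1) + g 0) + (∑ j ∈ range r, g (r + 1 + (j + 1)) + g (r + 1 + 0))) +
      ∑ j ∈ range (2 * (r + 1)), g (2 * (r + 1) + j) := by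
  have e : 4 * (r + 1) = ((r + 1) + (r + 1)) + 2 * (r + 1) := by ring
  rw [e, Finset.sum_range_add, Finset.sum_range_add, Finset.sum_range_succ',
    Finset.sum_range_succ' (fun j => g (r + 1 + j))]
  have e2 : r + 1 + (r + 1) = 2 * (r + 1) := by ring
  rw [e2]

lemma nuE_sin (r : ℕ) (x : ℤ) : nuE r x = 2 * Real.sin (Real.pi * x / (2 * (r + 1))) := by
  unfold nuE lam al
  rw [← Real.cos_pi_div_two_sub]
  congr 2
  push_cast
  have : (r : ℝ) + 1 ≠ 0 := by positivity
  field_simp
  ring

/-- The frequencies `ν_x = 2 sin(πx/(2r+2))`, `1 ≤ x ≤ r`, satisfy no nontrivial integer relation of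
norm at most `10` on each parity class, if all odd prime factors of `r + 1` are at least `11`. -/
theorem no_short_rel_even {r : ℕ} (hq : ∀ p : ℕ, p.Prime → p ∣ r + 1 → p = 2 ∨ 11 ≤ p) (u : Fin r → ℤ)
    (hu : ∀ e : ℕ, ∑ a ∈ univ.filter (fun a : Fin r => ((a : ℕ) + 1) % 2 = e), |u a| ≤ 10)
    (h : ∑ a : Fin r, (u a : ℝ) * nuE r (((a : ℕ) : ℤ) + 1) = 0) : u = 0 := by
  obtain ⟨a, M, hodd, hL⟩ := Nat.exists_eq_two_pow_mul_odd (n := r + 1) (by omega)
  have hM : 0 < M := hodd.pos
  have hqM : ∀ p : ℕ, p.Prime → p ∣ M → 11 ≤ p := by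
    intro p hp hd
    rcases hq p hp (by rw [hL]; exact dvd_mul_of_dvd_right hd _) with h2 | h2
    · exfalso
      rw [h2] at hd
      exact (Nat.not_even_iff_odd.mpr hodd) (even_iff_two_dvd.mpr hd)
    · exact h2
  have hord : 2 ^ (a + 1) * (2 * M) = 4 * (r + 1) := by rw [hL, pow_succ]; ring
  have hQM : 2 ^ (a + 1) * M = 2 * (r + 1) := by rw [hL, pow_succ]; ring
  set ζ : ℂ := Complex.exp (2 * Real.pi * Complex.I / (4 * (r + 1) : ℕ)) with hζdef
  have hζ : IsPrimitiveRoot ζ (4 * (r + 1)) := Complex.isPrimitiveRoot_exp _ (by omega)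
  let U : ℕ → ℤ := fun j => if hj : j < r then u ⟨j, hj⟩ else 0
  have hU : ∀ b : Fin r, U b = u b := by
    intro b; simp only [U]; rw [dif_pos b.isLt]
  let w : ℕ → ℤ := fun j => if j = 0 ∨ j = r + 1 ∨ 2 * (r + 1) ≤ j then 0 else
    if j ≤ r then U (j - 1) else U (2 * (r + 1) - j - 1)
  have hw1 : ∀ j < r, w (j + 1) = U j := by
    intro j hj; simp only [w]; rw [if_neg (by omega), if_pos (by omega)]; rfl
  have hw2 : ∀ j < r, w (r + 1 + (j + 1)) = U (r - 1 - j) := by
    intro j hj; simp only [w]; rw [if_neg (by omega), if_neg (by omega)]; congr 1; omega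
  have hwa : ∀ j, 1 ≤ j → j ≤ r → w j = U (j - 1) := by
    intro j hj1 hj2
    obtain ⟨i, rfl⟩ : ∃ i, j = i + 1 := ⟨j - 1, by omega⟩
    rw [hw1 i (by omega)]; rfl
  have hwb : ∀ j, r + 2 ≤ j → j < 2 * (r + 1) → w j = U (2 * (r + 1) - j - 1) := by
    intro j hj1 hj2
    obtain ⟨i, rfl⟩ : ∃ i, j = r + 1 + (i + 1) := ⟨j - (r + 2), by omega⟩
    rw [hw2 i (by omega)]; congr 1; omega
  have hw0 : w 0 = 0 := by simp [w]
  have hwL : w (r + 1) = 0 := by simp [w]
  have hbig : ∀ j, 2 * (r + 1) ≤ j → w j = 0 := by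
    intro j hj; simp only [w]; rw [if_pos (by omega)]
  have hsumU : ∀ {T : Type} [AddCommMonoid T] (g : ℕ → T), ∑ j ∈ range r, g j = ∑ b : Fin r, g b := by
    intro T _ g; exact Finset.sum_range g
  have h2L : ζ ^ (2 * (r + 1)) = -1 := by
    rw [hζdef, ← Complex.exp_nat_mul]
    have : ((2 * (r + 1) : ℕ) : ℂ) * (2 * Real.pi * Complex.I / (4 * (r + 1) : ℕ)) = Real.pi * Complex.I := by
      push_cast
      have : (r : ℂ) + 1 ≠ 0 := by exact_mod_cast Nat.succ_ne_zero r
      field_simp
      ring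
    rw [this, Complex.exp_pi_mul_I]
  have hall := sym_zero (a := a) hM hodd hqM (ζ := ζ) (by rw [hord]; exact hζ) w hw0 (by rw [← hL]; exact hwL)
    (by
      intro j hj0 hj
      rw [hQM] at hj ⊢
      by_cases h1 : j = r + 1
      · have : 2 * (r + 1) - j = j := by omega
        rw [this]
      · rcases Nat.lt_or_ge r j with h2 | h2
        · rw [hwa (2 * (r + 1) - j) (by omega) (by omega), hwb j (by omega) hj]
        · rw [hwb (2 * (r + 1) - j) (by omega) (by omega), hwa j hj0 h2]
          congr 1; omega)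
    (by rw [hQM]; exact hbig)
    (by
      rw [hord, split4]
      have z3 : ∑ j ∈ range (2 * (r + 1)), (w (2 * (r + 1) + j) : ℂ) * ζ ^ (2 * (r + 1) + j) = 0 := by
        apply Finset.sum_eq_zero
        intro j _
        rw [hbig _ (by omega)]; simp
      rw [z3, hw0, add_zero (r + 1), hwL]
      simp only [Int.cast_zero, zero_mul, add_zero]
      have e1 : ∑ j ∈ range r, (w (j + 1) : ℂ) * ζ ^ (j + 1) = ∑ b : Fin r, (u b : ℂ) * ζ ^ ((b : ℕ) + 1) := by
        rw [← (hsumU (fun j => (U j : ℂ) * ζ ^ (j + 1))).trans (Finset.sum_congr rfl fun b _ => by rw [hU])]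
        apply Finset.sum_congr rfl
        intro j hj
        rw [hw1 j (Finset.mem_range.mp hj)]
      have e2 : ∑ j ∈ range r, (w (r + 1 + (j + 1)) : ℂ) * ζ ^ (r + 1 + (j + 1)) =
          ∑ b : Fin r, (u b : ℂ) * ζ ^ (2 * (r + 1) - ((b : ℕ) + 1)) := by
        rw [← (hsumU (fun j => (U j : ℂ) * ζ ^ (2 * (r + 1) - (j + 1)))).trans (Finset.sum_congr rfl fun b _ => by rw [hU]),
          ← Finset.sum_range_reflect (fun j => (U j : ℂ) * ζ ^ (2 * (r + 1) - (j + 1)))]
        apply Finset.sum_congr rfl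
        intro j hj
        have hj' := Finset.mem_range.mp hj
        rw [hw2 j hj']
        congr 2
        omega
      rw [e1, e2, ← Finset.sum_add_distrib]
      have e4 : ∀ b : Fin r, (u b : ℂ) * ζ ^ ((b : ℕ) + 1) + (u b : ℂ) * ζ ^ (2 * (r + 1) - ((b : ℕ) + 1)) =
          (((u b : ℝ) * nuE r (((b : ℕ) : ℤ) + 1) : ℝ) : ℂ) * Complex.I := by
        intro b
        have hb := b.isLt
        have e7 : ζ ^ ((b : ℕ) + 1) = Complex.exp (Real.pi * (((b : ℕ) : ℂ) + 1) / (2 * (r + 1)) * Complex.I) := by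
          rw [hζdef, ← Complex.exp_nat_mul]
          congr 1
          push_cast
          have : (r : ℂ) + 1 ≠ 0 := by exact_mod_cast Nat.succ_ne_zero r
          field_simp
          ring
        have e5 : ζ ^ (2 * (r + 1) - ((b : ℕ) + 1)) = - Complex.exp (-(Real.pi * (((b : ℕ) : ℂ) + 1) / (2 * (r + 1)) * Complex.I)) := by
          have e6 : ζ ^ (2 * (r + 1) - ((b : ℕ) + 1)) * ζ ^ ((b : ℕ) + 1) = -1 := by
            rw [← pow_add]
            have : 2 * (r + 1) - ((b : ℕ) + 1) + ((b : ℕ) + 1) = 2 * (r + 1) := by omega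
            rw [this, h2L]
          rw [e7] at e6
          have e8 : Complex.exp (Real.pi * (((b : ℕ) : ℂ) + 1) / (2 * (r + 1)) * Complex.I) ≠ 0 := Complex.exp_ne_zero _
          rw [Complex.exp_neg, ← (eq_div_iff e8).mpr e6 |>.symm]
          ring
        rw [e5, e7, nuE_sin]
        push_cast
        rw [Complex.sin]
        have hI : Complex.I ^ 2 = -1 := Complex.I_sq
        ring_nf
        rw [hI]
        ring_nf
      rw [Finset.sum_congr rfl (fun b _ => e4 b), ← Finset.sum_mul, ← Complex.ofReal_sum, h]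
      simp)
    (by
      intro e
      rw [hord, Finset.sum_filter, split4]
      have z3 : ∑ j ∈ range (2 * (r + 1)), (if (2 * (r + 1) + j) % 2 = e then |w (2 * (r + 1) + j)| else 0) = 0 := by
        apply Finset.sum_eq_zero
        intro j _
        rw [hbig _ (by omega)]; simp
      rw [z3, hw0, add_zero (r + 1), hwL]
      simp only [abs_zero, ite_self, add_zero]
      have e1 : ∑ j ∈ range r, (if (j + 1) % 2 = e then |w (j + 1)| else 0) =
          ∑ b : Fin r, (if ((b : ℕ) + 1) % 2 = e then |u b| else 0) := by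
        rw [← (hsumU (fun j => if (j + 1) % 2 = e then |U j| else 0)).trans (Finset.sum_congr rfl fun b _ => by rw [hU])]
        apply Finset.sum_congr rfl
        intro j hj
        rw [hw1 j (Finset.mem_range.mp hj)]
      have e2 : ∑ j ∈ range r, (if (r + 1 + (j + 1)) % 2 = e then |w (r + 1 + (j + 1))| else 0) =
          ∑ b : Fin r, (if ((b : ℕ) + 1) % 2 = e then |u b| else 0) := by
        rw [← (hsumU (fun j => if (j + 1) % 2 = e then |U j| else 0)).trans (Finset.sum_congr rfl fun b _ => by rw [hU]),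
          ← Finset.sum_range_reflect (fun j => if (j + 1) % 2 = e then |U j| else 0)]
        apply Finset.sum_congr rfl
        intro j hj
        have hj' := Finset.mem_range.mp hj
        rw [hw2 j hj']
        have : (r + 1 + (j + 1)) % 2 = e ↔ (r - 1 - j + 1) % 2 = e := by omega
        by_cases h1 : (r + 1 + (j + 1)) % 2 = e
        · rw [if_pos h1, if_pos (this.mp h1)]
        · rw [if_neg h1, if_neg (fun h => h1 (this.mpr h))]
      rw [e1, e2, ← Finset.sum_filter]
      have := hu e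
      linarith)
  funext b
  have h1 := hall ((b : ℕ) + 1)
  rw [hw1 _ b.isLt, hU] at h1
  exact h1

end

end Pool.Agent.Helper54.Mix
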