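import Pool.Agent.Helper54.Mix.Cls3
import Pool.Agent.Helper54.Mix.Rel6
import Pool.Agent.Helper54.Mix.Large
import Pool.Agent.Helper54.Mix.Indep

/-!
# Existence for even `n + 1` without prime factor `3, 5, 7`
-/

set_option autoImplicit false

namespace Pool.Agent.Helper54.Mix

open MeasureTheory Finset

noncomputable section

/-- a kernel whose characteristic function vanishes at the short nonzero combinations -/
def ClassKernel {m : ℕ} (E : Finset (Fin m)) (ν : Fin m → ℝ) (K : ℝ → ℝ) : Prop :=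
  (∀ s, 0 ≤ K s) ∧ Integrable K ∧ ∫ s, K s = 1 ∧
    ∀ u : Fin m → ℤ, ∑ a ∈ E, |u a| ≤ 10 → ∑ a ∈ Eᶜ, |u a| ≤ 10 → u ≠ 0 →
      ∫ s, (K s : ℂ) * Complex.exp (Complex.I * (((∑ a, (u a : ℝ) * ν a : ℝ) : ℂ) * s)) = 0

lemma exists_classKernel {m : ℕ} (E : Finset (Fin m)) (ν : Fin m → ℝ)
    (hs : ∀ u : Fin m → ℤ, ∑ a ∈ E, |u a| ≤ 10 → ∑ a ∈ Eᶜ, |u a| ≤ 10 → ∑ a, (u a : ℝ) * ν a = 0 → u = 0) :
    ∃ K, ClassKernel E ν K := by
  classical
  have hgap : ∃ δ : ℝ, 0 < δ ∧ ∀ u : Fin m → ℤ, ∑ a ∈ E, |u a| ≤ 10 → ∑ a ∈ Eᶜ, |u a| ≤ 10 → u ≠ 0 →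
      δ ≤ |∑ a, (u a : ℝ) * ν a| := by
    set S := ((Fintype.piFinset (fun _ : Fin m => Finset.Icc (-10 : ℤ) 10)).filter
      (fun u => ∑ a ∈ E, |u a| ≤ 10 ∧ ∑ a ∈ Eᶜ, |u a| ≤ 10)).erase 0 with hS
    have hmem : ∀ u : Fin m → ℤ, ∑ a ∈ E, |u a| ≤ 10 → ∑ a ∈ Eᶜ, |u a| ≤ 10 → u ≠ 0 → u ∈ S := by
      intro u hu hu' hu0
      rw [hS, Finset.mem_erase, Finset.mem_filter, Fintype.mem_piFinset]
      refine ⟨hu0, fun a => ?_, hu, hu'⟩
      rw [Finset.mem_Icc]
      apply abs_le.mp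
      by_cases ha : a ∈ E
      · exact (Finset.single_le_sum (f := fun a => |u a|) (fun _ _ => abs_nonneg _) ha).trans hu
      · exact (Finset.single_le_sum (f := fun a => |u a|) (fun _ _ => abs_nonneg _) (Finset.mem_compl.mpr ha)).trans hu'
    by_cases hne : S.Nonempty
    · obtain ⟨m0, hm0, hmin⟩ := Finset.exists_min_image S (fun u => |∑ a, (u a : ℝ) * ν a|) hne
      refine ⟨|∑ a, (m0 a : ℝ) * ν a|, ?_, fun u hu hu' hu0 => hmin u (hmem u hu hu' hu0)⟩
      rw [abs_pos]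
      intro h0
      rw [hS, Finset.mem_erase, Finset.mem_filter] at hm0
      exact hm0.1 (hs m0 hm0.2.2.1 hm0.2.2.2 h0)
    · exact ⟨1, one_pos, fun u hu hu' hu0 => absurd ⟨u, hmem u hu hu' hu0⟩ hne⟩
  obtain ⟨δ, hδ, hg⟩ := hgap
  obtain ⟨K, h0, h1, h2, h3⟩ := exists_kernel δ hδ
  exact ⟨K, h0, h1, h2, fun u hu hu' hne => h3 _ (hg u hu hu' hne)⟩

lemma ev_sum {m : ℕ} (ν : Fin m → ℝ) (K : ℝ → ℝ) (g : RR m) (s : ℝ) :
    (K s : ℂ) * ev ν s g = ∑ u ∈ g.coeff.support,
      g.coeff u * ((K s : ℂ) * Complex.exp (Complex.I * (((∑ a, (u a : ℝ) * ν a : ℝ) : ℂ) * s))) := by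
  unfold ev
  rw [AddMonoidAlgebra.lift_apply, Finsupp.sum, Finset.mul_sum]
  apply Finset.sum_congr rfl
  intro u _
  rw [smul_eq_mul]
  show (K s : ℂ) * (g.coeff u * Complex.exp (Complex.I * (((∑ a, (u a : ℝ) * ν a : ℝ) : ℂ) * s))) = _
  ring

lemma integrable_ev {m : ℕ} (ν : Fin m → ℝ) {K : ℝ → ℝ} (hK : Integrable K) (g : RR m) :
    Integrable fun s => (K s : ℂ) * ev ν s g := by
  simp only [ev_sum]
  exact integrable_finsetSum _ (fun u _ => (integrable_K_exp hK _).const_mul _)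

lemma integral_ev2 {m : ℕ} {E : Finset (Fin m)} {ν : Fin m → ℝ} {K : ℝ → ℝ} (hK : ClassKernel E ν K) {g : RR m}
    (hg : DegC E 10 g) (hg' : DegC Eᶜ 10 g) :
    ∫ s, (K s : ℂ) * ev ν s g = ct g := by
  classical
  simp only [ev_sum]
  rw [integral_finsetSum _ (fun u _ => (integrable_K_exp hK.2.1 _).const_mul _)]
  have h2 : ∀ u ∈ g.coeff.support, ∫ s, g.coeff u * ((K s : ℂ) * Complex.exp (Complex.I * (((∑ a, (u a : ℝ) * ν a : ℝ) : ℂ) * s))) =
      if u = 0 then g.coeff u else 0 := by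
    intro u hu
    rw [integral_const_mul]
    split_ifs with h0
    · subst h0
      have : ∀ s : ℝ, (K s : ℂ) * Complex.exp (Complex.I * (((∑ a, (((0 : Ex m) a : ℤ) : ℝ) * ν a : ℝ) : ℂ) * s)) = (K s : ℂ) := by
        intro s; simp
      simp only [this]
      have h5 : ∫ s, (K s : ℂ) = ((∫ s, K s : ℝ) : ℂ) := integral_complex_ofReal
      rw [h5, hK.2.2.1]; simp
    · rw [hK.2.2.2 u (hg u (Finsupp.mem_support_iff.mp hu)) (hg' u (Finsupp.mem_support_iff.mp hu)) h0, mul_zero]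
  rw [Finset.sum_congr rfl h2, Finset.sum_ite_eq']
  rw [ct_apply]
  split_ifs with h0
  · rfl
  · exact (Finsupp.notMem_support_iff.mp h0).symm

/-- `y_a` or its inverse -/
def zs {m : ℕ} (e : Bool) (a : Fin m) : RR m := if e then Y a else Yi a

lemma zs_flip1 {m : ℕ} {G : RR m} (hG : ∀ a, push (flipH a) G = G) (e : Bool) (a : Fin m) :
    ct (G * zs e a) = ct (G * Y a) := by
  cases e
  · have h : push (flipH a) (G * Y a) = G * Yi a := by rw [map_mul, hG, flip_Y]
    show ct (G * Yi a) = _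
    rw [← h, ct_push _ (flip_inj a)]
  · rfl

lemma zs_flip2 {m : ℕ} {G : RR m} (hG : ∀ a, push (flipH a) G = G) (e e' : Bool) (a b : Fin m) (hab : a ≠ b) :
    ct (G * (zs e a * zs e' b)) = ct (G * (Y a * Y b)) := by
  have key : ∀ e' : Bool, ct (G * (Y a * zs e' b)) = ct (G * (Y a * Y b)) := by
    intro e'
    cases e'
    · have h : push (flipH b) (G * (Y a * Y b)) = G * (Y a * Yi b) := by rw [map_mul, map_mul, hG, flip_Y, flip_Y' hab]
      show ct (G * (Y a * Yi b)) = _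
      rw [← h, ct_push _ (flip_inj b)]
    · rfl
  rw [← key e']
  cases e
  · have h : push (flipH a) (G * (Y a * zs e' b)) = G * (Yi a * zs e' b) := by
      rw [map_mul, map_mul, hG, flip_Y]
      cases e'
      · show G * (Yi a * push (flipH a) (Yi b)) = G * (Yi a * Yi b)
        rw [flip_Yi' (Ne.symm hab)]
      · show G * (Yi a * push (flipH a) (Y b)) = G * (Yi a * Y b)
        rw [flip_Y' (Ne.symm hab)]
    show ct (G * (Yi a * zs e' b)) = _
    rw [← h, ct_push _ (flip_inj a)]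
  · rfl

lemma zs_flip3 {m : ℕ} {G : RR m} (hG : ∀ a, push (flipH a) G = G) (e : Bool) (a : Fin m) :
    ct (G * (zs e a * zs e a)) = ct (G * Y a ^ 2) := by
  cases e
  · have h : push (flipH a) (G * Y a ^ 2) = G * (Yi a * Yi a) := by rw [map_mul, map_pow, hG, flip_Y, pow_two]
    show ct (G * (Yi a * Yi a)) = _
    rw [← h, ct_push _ (flip_inj a)]
  · show ct (G * (Y a * Y a)) = _
    rw [pow_two]

lemma deg_zs {m : ℕ} (D : Finset (Fin m)) (e : Bool) (a : Fin m) : DegC D (if a ∈ D then 1 else 0) (zs e a) := by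
  cases e
  · exact DegC.single a (-1) (by norm_num)
  · exact DegC.single a 1 (by norm_num)

section prod

variable {m : ℕ} {E : Finset (Fin m)} {n : ℝ} {Ge Go : RR m}

lemma degs (hE : E.Nonempty) (he : Good E n (-(1 / n)) Ge) (ho : Good Eᶜ n 0 Go) :
    DegC E 8 Ge ∧ DegC Eᶜ 0 Ge ∧ DegC E 0 Go ∧ DegC Eᶜ 8 Go := by
  classical
  obtain ⟨a, ha⟩ := hE
  have hne : Eᶜ ≠ E := by
    intro h
    have : a ∈ Eᶜ := by rw [h]; exact ha
    exact Finset.mem_compl.mp this ha
  refine ⟨?_, ?_, ?_, ?_⟩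
  · simpa using he.deg E (Or.inr rfl)
  · have h := he.deg Eᶜ (Or.inl disjoint_compl_right)
    rwa [if_neg hne] at h
  · have h := ho.deg E (Or.inl disjoint_compl_left)
    rwa [if_neg (Ne.symm hne)] at h
  · simpa using ho.deg Eᶜ (Or.inr rfl)

lemma deg_Y0 (a : Fin m) (D : Finset (Fin m)) (ha : a ∉ D) : DegC D 0 (Y a) := by
  have h := DegC.single (C := D) a 1 (by norm_num)
  rwa [if_neg ha] at h

lemma momY (hE : E.Nonempty) (he : Good E n (-(1 / n)) Ge) (ho : Good Eᶜ n 0 Go) (a : Fin m) :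
    ct (Ge * Go * Y a) = if a ∈ E then ((-(1 / n) : ℝ) : ℂ) else 0 := by
  obtain ⟨h1, h2, h3, h4⟩ := degs hE he ho
  split_ifs with ha
  · have e : Ge * Go * Y a = (Ge * Y a) * Go := by ring
    rw [e, ct_mul (C := E) ((h2.mul (deg_Y0 a _ (by simpa using ha))).mono (by norm_num)) h3, he.y a ha, ho.one, mul_one]
  · have e : Ge * Go * Y a = Ge * (Go * Y a) := by ring
    rw [e, ct_mul (C := E) h2 ((h3.mul (deg_Y0 a _ ha)).mono (by norm_num)), ho.y a (Finset.mem_compl.mpr ha)]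
    simp

lemma momY2 (hE : E.Nonempty) (he : Good E n (-(1 / n)) Ge) (ho : Good Eᶜ n 0 Go) (a : Fin m) :
    ct (Ge * Go * Y a ^ 2) = ((-(1 / n) : ℝ) : ℂ) := by
  obtain ⟨h1, h2, h3, h4⟩ := degs hE he ho
  by_cases ha : a ∈ E
  · have e : Ge * Go * Y a ^ 2 = (Ge * Y a ^ 2) * Go := by ring
    rw [e, ct_mul (C := E) ((h2.mul ((deg_Y0 a _ (by simpa using ha)).pow 2)).mono (by norm_num)) h3, he.y2 a ha,
      ho.one, mul_one]
  · have e : Ge * Go * Y a ^ 2 = Ge * (Go * Y a ^ 2) := by ring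
    rw [e, ct_mul (C := E) h2 ((h3.mul ((deg_Y0 a _ ha).pow 2)).mono (by norm_num)), ho.y2 a (Finset.mem_compl.mpr ha),
      he.one, one_mul]

lemma momYY (hE : E.Nonempty) (he : Good E n (-(1 / n)) Ge) (ho : Good Eᶜ n 0 Go) (a b : Fin m) (hab : a ≠ b) :
    ct (Ge * Go * (Y a * Y b)) = if (a ∈ E ↔ b ∈ E) then ((-(1 / n) : ℝ) : ℂ) else 0 := by
  obtain ⟨h1, h2, h3, h4⟩ := degs hE he ho
  by_cases ha : a ∈ E <;> by_cases hb : b ∈ E
  · rw [if_pos (iff_of_true ha hb)]
    have e : Ge * Go * (Y a * Y b) = (Ge * (Y a * Y b)) * Go := by ring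
    rw [e, ct_mul (C := E) ((h2.mul ((deg_Y0 a _ (by simpa using ha)).mul (deg_Y0 b _ (by simpa using hb)))).mono (by norm_num)) h3,
      he.yy a ha b hb hab, ho.one, mul_one]
  · rw [if_neg (fun h => hb (h.mp ha))]
    have e : Ge * Go * (Y a * Y b) = (Ge * Y a) * (Go * Y b) := by ring
    rw [e, ct_mul (C := E) ((h2.mul (deg_Y0 a _ (by simpa using ha))).mono (by norm_num))
      ((h3.mul (deg_Y0 b _ hb)).mono (by norm_num)), ho.y b (Finset.mem_compl.mpr hb)]
    simp
  · rw [if_neg (fun h => ha (h.mpr hb))]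
    have e : Ge * Go * (Y a * Y b) = (Ge * Y b) * (Go * Y a) := by ring
    rw [e, ct_mul (C := E) ((h2.mul (deg_Y0 b _ (by simpa using hb))).mono (by norm_num))
      ((h3.mul (deg_Y0 a _ ha)).mono (by norm_num)), ho.y a (Finset.mem_compl.mpr ha)]
    simp
  · rw [if_pos (iff_of_false ha hb)]
    have e : Ge * Go * (Y a * Y b) = Ge * (Go * (Y a * Y b)) := by ring
    rw [e, ct_mul (C := E) h2 ((h3.mul ((deg_Y0 a _ ha).mul (deg_Y0 b _ hb))).mono (by norm_num)),
      ho.yy a (Finset.mem_compl.mpr ha) b (Finset.mem_compl.mpr hb) hab, he.one, one_mul]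

/-- the moments of the density -/
lemma mom_f (hE : E.Nonempty) (he : Good E n (-(1 / n)) Ge) (ho : Good Eᶜ n 0 Go) {ν : Fin m → ℝ} {K : ℝ → ℝ}
    (hK : ClassKernel E ν K) (z : RR m) (w : ℝ) (hz : ∀ D : Finset (Fin m), DegC D 2 z)
    (hw : ∀ s, ev ν s z = Complex.exp (((w * s : ℝ) : ℂ) * Complex.I)) :
    ∫ s, K s * (ev ν s (Ge * Go)).re * Real.cos (w * s) = (ct (Ge * Go * z)).re := by
  obtain ⟨h1, h2, h3, h4⟩ := degs hE he ho
  rw [← integral_ev2 hK (((h1.mul h3).mul (hz _)).mono (by norm_num)) (((h2.mul h4).mul (hz _)).mono (by norm_num))]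
  have h := (Complex.reCLM.integral_comp_comm (integrable_ev ν hK.2.1 (Ge * Go * z))).symm
  simp only [Complex.reCLM_apply] at h
  rw [h]
  congr 1
  funext s
  obtain ⟨g1, hg1, hg1'⟩ := he.pos ν s
  obtain ⟨g2, hg2, hg2'⟩ := ho.pos ν s
  rw [map_mul (ev ν s) (Ge * Go) z, map_mul (ev ν s) Ge Go, hg1', hg2', hw, ← Complex.ofReal_mul, Complex.ofReal_re,
    Complex.re_ofReal_mul, Complex.re_ofReal_mul, Complex.exp_ofReal_mul_I_re]
  ring

end prod

lemma card_par (r : ℕ) : (univ.filter (fun a : Fin r => ((a : ℕ) + 1) % 2 = 0)).card = r / 2 := by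
  rw [Finset.card_filter, Fin.sum_univ_eq_sum_range (fun j => if (j + 1) % 2 = 0 then 1 else 0) r]
  induction r with
  | zero => simp
  | succ r ih =>
    rw [Finset.sum_range_succ, ih]
    split_ifs <;> omega

lemma rep {r : ℕ} (w : ℤ) (hw : w.natAbs ≤ r) : w = 0 ∨ ∃ (e : Bool) (a : Fin r), w = (if e then 1 else -1) * (((a : ℕ) : ℤ) + 1) := by
  rcases lt_trichotomy w 0 with h | h | h
  · right
    refine ⟨false, ⟨w.natAbs - 1, by omega⟩, ?_⟩
    simp only [Bool.false_eq_true, if_false]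
    omega
  · left; exact h
  · right
    refine ⟨true, ⟨w.natAbs - 1, by omega⟩, ?_⟩
    simp only [if_true]
    omega

lemma ev_zs {r : ℕ} (ν : Fin r → ℝ) (s : ℝ) (e : Bool) (a : Fin r) :
    ev ν s (zs e a) = Complex.exp ((((if e then 1 else -1) * ν a * s : ℝ) : ℂ) * Complex.I) := by
  cases e
  · show ev ν s (Yi a) = _
    rw [ev_Yi]; simp
  · show ev ν s (Y a) = _
    rw [ev_Y]; simp

lemma nuE_sgn {r : ℕ} (e : Bool) (x : ℤ) : nuE r ((if e then 1 else -1) * x) = (if e then 1 else -1) * nuE r x := by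
  cases e
  · simp [nuE_neg]
  · simp

theorem exists_rank_one_even {r : ℕ} (hr : 6 ≤ r) (hq : ∀ p : ℕ, p.Prime → p ∣ r + 1 → p = 2 ∨ 11 ≤ p) :
    ∃ f : ℝ → ℝ, IsDensity f ∧ (avgMixing (2 * r + 1) f).rank = 1 := by
  classical
  set E : Finset (Fin r) := univ.filter (fun a : Fin r => ((a : ℕ) + 1) % 2 = 0) with hEdef
  have hcE : E.card = r / 2 := card_par r
  have hcO : Eᶜ.card = r - r / 2 := by rw [Finset.card_compl, hcE, Fintype.card_fin]
  have hEne : E.Nonempty := by rw [← Finset.card_pos, hcE]; omega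
  set n : ℝ := ((2 * r + 1 : ℕ) : ℝ) with hn
  have hnpos : 0 < n := by rw [hn]; positivity
  have b1 : 4 * (E.card : ℝ) + 1 ≤ n := by
    rw [hn, hcE]; exact_mod_cast (by omega : 4 * (r / 2) + 1 ≤ 2 * r + 1)
  have b2 : 4 * (Eᶜ.card : ℝ) - 1 ≤ n := by
    rw [hn, hcO]
    have : 4 * (r - r / 2) ≤ 2 * r + 1 + 1 := by omega
    have h2 : (4 * ((r - r / 2 : ℕ) : ℝ)) ≤ ((2 * r + 1 : ℕ) : ℝ) + 1 := by exact_mod_cast this
    linarith
  obtain ⟨Ge, he⟩ := exists_good_even E n (by rw [hcE]; omega) b1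
  obtain ⟨Go, ho⟩ := exists_good_odd Eᶜ n (by rw [hcO]; omega) b2
  set ν : Fin r → ℝ := fun a => nuE r (((a : ℕ) : ℤ) + 1) with hν
  have hEmem : ∀ a : Fin r, a ∈ E ↔ ((a : ℕ) + 1) % 2 = 0 := by
    intro a; rw [hEdef]; simp
  obtain ⟨K, hK⟩ := exists_classKernel E ν (by
    intro u h1 h2 h3
    apply no_short_rel_even hq u _ h3
    intro e
    rcases Nat.lt_or_ge e 2 with he2 | he2
    · interval_cases e
      · exact h1
      · refine le_of_eq_of_le ?_ h2
        apply Finset.sum_congr _ (fun _ _ => rfl)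
        ext a
        rw [Finset.mem_compl, hEmem, Finset.mem_filter]
        constructor
        · intro h; omega
        · intro h; exact ⟨Finset.mem_univ _, by omega⟩
    · rw [Finset.sum_eq_zero]
      · norm_num
      · intro a ha
        rw [Finset.mem_filter] at ha
        omega)
  have hflip : ∀ a, push (flipH a) (Ge * Go) = Ge * Go := by
    intro a; rw [map_mul, he.flip, ho.flip]
  have hd1 : ∀ (D : Finset (Fin r)) (e : Bool) (a : Fin r), DegC D 1 (zs e a) := by
    intro D e a; exact (deg_zs D e a).mono (by split_ifs <;> norm_num)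
  have hf : IsDensity fun s => K s * (ev ν s (Ge * Go)).re := by
    refine ⟨fun s => ?_, ?_⟩
    · obtain ⟨g1, hg1, hg1'⟩ := he.pos ν s
      obtain ⟨g2, hg2, hg2'⟩ := ho.pos ν s
      show 0 ≤ K s * (ev ν s (Ge * Go)).re
      rw [map_mul, hg1', hg2', ← Complex.ofReal_mul, Complex.ofReal_re]
      exact mul_nonneg (hK.1 s) (mul_nonneg hg1 hg2)
    · have h := mom_f hEne he ho hK 1 0 (fun D => DegC.one.mono (by norm_num)) (by intro s; simp)
      simp only [zero_mul, Real.cos_zero, mul_one] at h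
      obtain ⟨_, h2, h3, _⟩ := degs hEne he ho
      rw [ct_mul (C := E) h2 h3, he.one, ho.one] at h
      simpa using h
  refine ⟨_, hf, rank_of_const (by omega) _ (avg_of_moments hf ?_)⟩
  intro k l hkl
  have hk := k.isLt
  have hl := l.isLt
  obtain ⟨u, hu⟩ : ∃ u : ℤ, u = r - (k : ℕ) := ⟨_, rfl⟩
  obtain ⟨v, hv⟩ : ∃ v : ℤ, v = (l : ℕ) - r := ⟨_, rfl⟩
  have hlk : lam (2 * r + 1) ((k : ℕ) + 1 : ℤ) = nuE r u := by
    unfold nuE; congr 1; omega
  have hll : lam (2 * r + 1) ((l : ℕ) + 1 : ℤ) = - nuE r v := by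
    rw [← nuE_neg]; unfold nuE; congr 1; omega
  have huv : u ≠ -v := by
    intro h; apply hkl; ext; omega
  have hun : u.natAbs ≤ r := by omega
  have hvn : v.natAbs ≤ r := by omega
  have hev : Even ((k : ℤ) - l) ↔ Even (u + v) := by
    have : (k : ℤ) - l = -(u + v) := by omega
    rw [this, even_neg]
  rw [hlk, hll, sub_neg_eq_add]
  have hgoal : ∀ (z : RR r), (∀ D : Finset (Fin r), DegC D 2 z) →
      (∀ s, ev ν s z = Complex.exp ((((nuE r u + nuE r v) * s : ℝ) : ℂ) * Complex.I)) →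
      ct (Ge * Go * z) = (if Even (u + v) then ((-(1 / n) : ℝ) : ℂ) else 0) →
      ∫ s, K s * (ev ν s (Ge * Go)).re * Real.cos ((nuE r u + nuE r v) * s) =
        if Even ((k : ℤ) - l) then -(1 / n) else 0 := by
    intro z hz hw hc
    rw [mom_f hEne he ho hK z _ hz hw, hc]
    by_cases h : Even (u + v)
    · rw [if_pos h, if_pos (hev.mpr h), Complex.ofReal_re]
    · rw [if_neg h, if_neg (fun h' => h (hev.mp h'))]; rfl
  have hpar : ∀ (e : Bool) (a : Fin r), Even ((if e then 1 else -1) * (((a : ℕ) : ℤ) + 1)) ↔ a ∈ E := by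
    intro e a
    rw [hEmem, Int.even_iff]
    cases e
    · simp only [Bool.false_eq_true, if_false]; omega
    · simp only [if_true]; omega
  rcases rep u hun with h0 | ⟨e, a, ha⟩
  · rcases rep v hvn with h0' | ⟨e', b, hb⟩
    · exact absurd (by omega) huv
    · apply hgoal (zs e' b) (fun D => (hd1 D e' b).mono (by norm_num))
      · intro s
        rw [ev_zs, h0, nuE_zero, zero_add, hb, nuE_sgn]
      · rw [zs_flip1 hflip, momY hEne he ho, h0, zero_add, hb]
        by_cases h : b ∈ E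
        · rw [if_pos h, if_pos ((hpar e' b).mpr h)]
        · rw [if_neg h, if_neg (fun h' => h ((hpar e' b).mp h'))]
  · rcases rep v hvn with h0' | ⟨e', b, hb⟩
    · apply hgoal (zs e a) (fun D => (hd1 D e a).mono (by norm_num))
      · intro s
        rw [ev_zs, h0', nuE_zero, add_zero, ha, nuE_sgn]
      · rw [zs_flip1 hflip, momY hEne he ho, h0', add_zero, ha]
        by_cases h : a ∈ E
        · rw [if_pos h, if_pos ((hpar e a).mpr h)]
        · rw [if_neg h, if_neg (fun h' => h ((hpar e a).mp h'))]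
    · apply hgoal (zs e a * zs e' b) (fun D => ((hd1 D e a).mul (hd1 D e' b)).mono (by norm_num))
      · intro s
        rw [map_mul, ev_zs, ev_zs, ha, hb, nuE_sgn, nuE_sgn, ← Complex.exp_add, ← add_mul, ← Complex.ofReal_add]
        congr 3
        ring
      · by_cases hab : a = b
        · subst hab
          have hee : e = e' := by
            by_contra hne
            apply huv
            rw [ha, hb]
            cases e <;> cases e' <;> simp at hne ⊢
          subst hee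
          rw [zs_flip3 hflip, momY2 hEne he ho, if_pos]
          rw [ha, hb]
          exact ⟨_, rfl⟩
        · rw [zs_flip2 hflip e e' a b hab, momYY hEne he ho a b hab]
          have h1 := hpar e a
          have h2 := hpar e' b
          rw [← ha] at h1
          rw [← hb] at h2
          have h3 : Even (u + v) ↔ (a ∈ E ↔ b ∈ E) := by rw [Int.even_add, h1, h2]
          by_cases h : (a ∈ E ↔ b ∈ E)
          · rw [if_pos h, if_pos (h3.mpr h)]
          · rw [if_neg h, if_neg (fun h' => h (h3.mp h'))]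

/-- If `n + 1` is coprime to `105` then some density has an averaged mixing matrix of rank one. -/
theorem exists_rank_one_coprime {n : ℕ} (hn : 1 ≤ n) (hc : (n + 1).Coprime 105) :
    ∃ f : ℝ → ℝ, IsDensity f ∧ (avgMixing n f).rank = 1 := by
  have hnp : ∀ p : ℕ, p ∣ n + 1 → p ∣ 105 → p = 1 := fun p h1 h2 => Nat.dvd_one.mp (hc ▸ Nat.dvd_gcd h1 h2)
  have hq : ∀ p : ℕ, p.Prime → p ∣ n + 1 → p = 2 ∨ 11 ≤ p := by
    intro p hp hd
    by_contra hcon
    push Not at hcon
    obtain ⟨h2, h11⟩ := hcon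
    interval_cases p
    · exact absurd hp (by norm_num)
    · exact absurd hp (by norm_num)
    · exact h2 rfl
    · exact absurd (hnp 3 hd (by norm_num)) (by norm_num)
    · exact absurd hp (by norm_num)
    · exact absurd (hnp 5 hd (by norm_num)) (by norm_num)
    · exact absurd hp (by norm_num)
    · exact absurd (hnp 7 hd (by norm_num)) (by norm_num)
    · exact absurd hp (by norm_num)
    · exact absurd hp (by norm_num)
    · exact absurd hp (by norm_num)
  rcases Nat.even_or_odd (n + 1) with hev | hod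
  · obtain ⟨L, hL⟩ := hev
    obtain ⟨r, rfl⟩ : ∃ r, L = r + 1 := ⟨L - 1, by omega⟩
    have hnr : n = 2 * r + 1 := by omega
    rcases Nat.lt_or_ge r 6 with h6 | h6
    · -- small cases
      rcases Nat.eq_zero_or_pos r with h0 | h0
      · -- one vertex
        have hn1 : n = 1 := by omega
        subst hn1
        obtain ⟨K, k0, _, k2, _⟩ := exists_kernel 1 one_pos
        have hf : IsDensity K := ⟨k0, k2⟩
        refine ⟨K, hf, rank_of_const one_pos _ fun a b => ?_⟩
        have h3 := avg_row_sum (n := 1) hf a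
        rw [Fintype.sum_subsingleton _ b] at h3
        rw [h3]; norm_num
      · have hsmall : r = 1 ∨ r = 3 := by
          have h3 : r ≠ 2 := by
            intro h; have := hnp 3 ⟨2, by omega⟩ (by norm_num); omega
          have h4 : r ≠ 4 := by
            intro h; have := hnp 5 ⟨2, by omega⟩ (by norm_num); omega
          have h5 : r ≠ 5 := by
            intro h; have := hnp 3 ⟨4, by omega⟩ (by norm_num); omega
          omega
        apply exists_rank_one (by omega) _ (by omega)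
        right; right
        rcases hsmall with h | h
        · exact ⟨2, by omega⟩
        · exact ⟨3, by omega⟩
    · rw [hnr]
      apply exists_rank_one_even h6
      intro p hp hd
      apply hq p hp
      have : n + 1 = 2 * (r + 1) := by omega
      rw [this]
      exact dvd_mul_of_dvd_right hd 2
  · apply exists_rank_one_of_large hn
    intro p hp hd
    rcases hq p hp hd with h | h
    · exfalso
      rw [h] at hd
      exact (Nat.not_even_iff_odd.mpr hod) (even_iff_two_dvd.mpr hd)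
    · exact h

end

end Pool.Agent.Helper54.Mix
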