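import Mathlib

/-!
# Continuous-time quantum walks on paths: definitions and the eigenvectors
-/

set_option autoImplicit false

namespace Pool.Agent.Helper54.Mix

open Matrix

noncomputable section

/-- The `0/1` adjacency matrix of the path `P_n` (vertices `0, ..., n-1`, edges `{i, i+1}`). -/
def adj (n : ℕ) : Matrix (Fin n) (Fin n) ℂ :=
  Matrix.of fun i j => if (i : ℕ) + 1 = j ∨ (j : ℕ) + 1 = i then 1 else 0

/-- The quantum walk `U(t) = exp(i t A)` on the path `P_n`. -/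
def walk (n : ℕ) (t : ℝ) : Matrix (Fin n) (Fin n) ℂ :=
  NormedSpace.exp ((Complex.I * (t : ℂ)) • adj n)

/-- The mixing matrix `M(t)`, with entries `|U(t)_{ab}|²`. -/
def mixing (n : ℕ) (t : ℝ) : Matrix (Fin n) (Fin n) ℝ :=
  Matrix.of fun a b => ‖walk n t a b‖ ^ 2

/-- The averaged mixing matrix `∫ f(s) M(s) ds`, entry by entry. -/
def avgMixing (n : ℕ) (f : ℝ → ℝ) : Matrix (Fin n) (Fin n) ℝ :=
  Matrix.of fun a b => ∫ s, f s * mixing n s a b

/-- `f` is a probability density on the real line. -/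
def IsDensity (f : ℝ → ℝ) : Prop := (∀ s, 0 ≤ f s) ∧ ∫ s, f s = 1

/-- The angle `π / (n+1)`. -/
def al (n : ℕ) : ℝ := Real.pi / ((n : ℝ) + 1)

/-- The sine vectors. -/
def sg (n : ℕ) (j : ℤ) : Fin n → ℂ := fun a => ((Real.sin ((j : ℝ) * (((a : ℕ) : ℝ) + 1) * al n) : ℝ) : ℂ)

lemma al_mul (n : ℕ) : ((n : ℝ) + 1) * al n = Real.pi := by
  unfold al; field_simp

/-- eigenvalue -/
def lam (n : ℕ) (j : ℤ) : ℝ := 2 * Real.cos ((j : ℝ) * al n)

lemma adj_mulVec (n : ℕ) (j : ℤ) : adj n *ᵥ sg n j = ((lam n j : ℝ) : ℂ) • sg n j := by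
  classical
  set F : ℕ → ℂ := fun t => ((Real.sin ((j : ℝ) * (t : ℝ) * al n) : ℝ) : ℂ) with hF
  have hF0 : F 0 = 0 := by simp [hF]
  have hFN : F (n + 1) = 0 := by
    simp only [hF]
    have : (j : ℝ) * ((n + 1 : ℕ) : ℝ) * al n = (j : ℝ) * Real.pi := by
      push_cast; rw [mul_assoc, al_mul]
    rw [this, Real.sin_int_mul_pi]; simp
  have hsg : ∀ b : Fin n, sg n j b = F ((b : ℕ) + 1) := by
    intro b; simp [sg, hF]
  funext a
  have h1 : ∑ b : Fin n, (if (a : ℕ) + 1 = b then (1 : ℂ) else 0) * F ((b : ℕ) + 1) = F ((a : ℕ) + 2) := by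
    by_cases ha : (a : ℕ) + 1 < n
    · rw [Finset.sum_eq_single (⟨(a : ℕ) + 1, ha⟩ : Fin n)]
      · simp
      · intro b _ hb
        rw [if_neg, zero_mul]
        intro h; apply hb; ext; simp [← h]
      · simp
    · have : (a : ℕ) + 2 = n + 1 := by have := a.isLt; omega
      rw [this, hFN]
      apply Finset.sum_eq_zero
      intro b _
      rw [if_neg, zero_mul]
      intro h; have := b.isLt; omega
  have h2 : ∑ b : Fin n, (if (b : ℕ) + 1 = a then (1 : ℂ) else 0) * F ((b : ℕ) + 1) = F (a : ℕ) := by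
    by_cases ha : 0 < (a : ℕ)
    · rw [Finset.sum_eq_single (⟨(a : ℕ) - 1, by have := a.isLt; omega⟩ : Fin n)]
      · have : (a : ℕ) - 1 + 1 = a := by omega
        simp [this]
      · intro b _ hb
        rw [if_neg, zero_mul]
        intro h; apply hb; ext; simp; omega
      · simp
    · have h0 : (a : ℕ) = 0 := by omega
      rw [h0, hF0]
      apply Finset.sum_eq_zero
      intro b _
      rw [if_neg, zero_mul]
      omega
  have hsplit : (adj n *ᵥ sg n j) a = F ((a : ℕ) + 2) + F (a : ℕ) := by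
    rw [← h1, ← h2, ← Finset.sum_add_distrib]
    simp only [Matrix.mulVec, dotProduct, adj, Matrix.of_apply, hsg]
    apply Finset.sum_congr rfl
    intro b _
    by_cases h : (a : ℕ) + 1 = b
    · have h' : ¬ ((b : ℕ) + 1 = a) := by omega
      simp [h, h']
    · simp [h]
  rw [hsplit, Pi.smul_apply, hsg, smul_eq_mul]
  simp only [hF, lam]
  rw [← Complex.ofReal_add, ← Complex.ofReal_mul]
  congr 1
  have e1 : (j : ℝ) * (((a : ℕ) + 2 : ℕ) : ℝ) * al n = (j : ℝ) * (((a : ℕ) + 1 : ℕ) : ℝ) * al n + (j : ℝ) * al n := by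
    push_cast; ring
  have e2 : (j : ℝ) * ((a : ℕ) : ℝ) * al n = (j : ℝ) * (((a : ℕ) + 1 : ℕ) : ℝ) * al n - (j : ℝ) * al n := by
    push_cast; ring
  rw [e1, e2, Real.sin_add, Real.sin_sub]
  ring

section ExpEig

attribute [local instance] Matrix.linftyOpNormedRing Matrix.linftyOpNormedAlgebra
  Matrix.linftyOpNormedAddCommGroup Matrix.linftyOpNormedSpace

/-- the exponential acts on eigenvectors by the exponential of the eigenvalue. -/
lemma exp_mulVec {n : ℕ} (A : Matrix (Fin n) (Fin n) ℂ) (v : Fin n → ℂ) (μ : ℂ)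
    (h : A *ᵥ v = μ • v) : NormedSpace.exp A *ᵥ v = Complex.exp μ • v := by
  have hpow : ∀ k : ℕ, (A ^ k) *ᵥ v = (μ ^ k) • v := by
    intro k
    induction k with
    | zero => simp
    | succ k ih => rw [pow_succ, ← Matrix.mulVec_mulVec, h, Matrix.mulVec_smul, ih, smul_smul, pow_succ, mul_comm]
  have hs := NormedSpace.exp_series_hasSum_exp' (𝕂 := ℂ) A
  let L : Matrix (Fin n) (Fin n) ℂ →ₗ[ℂ] (Fin n → ℂ) :=
    { toFun := fun M => M *ᵥ v
      map_add' := fun M N => Matrix.add_mulVec M N v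
      map_smul' := fun c M => by simp [Matrix.smul_mulVec] }
  have hL : Continuous L := LinearMap.continuous_of_finiteDimensional L
  have h1 := hs.map L hL
  have h2 : HasSum (fun k : ℕ => ((k.factorial : ℂ)⁻¹ * μ ^ k) • v) (Complex.exp μ • v) := by
    have h3 : HasSum (fun k : ℕ => ((k.factorial : ℂ)⁻¹ • μ ^ k)) (NormedSpace.exp μ) :=
      NormedSpace.exp_series_hasSum_exp' (𝕂 := ℂ) μ
    have h4 : NormedSpace.exp μ = Complex.exp μ := by rw [Complex.exp_eq_exp_ℂ]
    rw [h4] at h3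
    simpa [smul_eq_mul] using h3.smul_const v
  have h5 : (⇑L ∘ fun k : ℕ => ((k.factorial : ℂ)⁻¹ • A ^ k)) = fun k : ℕ => ((k.factorial : ℂ)⁻¹ * μ ^ k) • v := by
    funext k
    simp only [Function.comp]
    show ((k.factorial : ℂ)⁻¹ • A ^ k) *ᵥ v = _
    rw [Matrix.smul_mulVec, hpow, smul_smul]
  rw [h5] at h1
  exact h1.unique h2

end ExpEig

lemma walk_mulVec (n : ℕ) (s : ℝ) (j : ℤ) :
    walk n s *ᵥ sg n j = Complex.exp (Complex.I * s * (lam n j : ℝ)) • sg n j := by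
  unfold walk
  apply exp_mulVec
  rw [Matrix.smul_mulVec, adj_mulVec, smul_smul]

end

end Pool.Agent.Helper54.Mix
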