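import Pool.Agent.Helper54.Mix.Rel2

/-!
# There are no short integer relations between the numbers `2 cos(2πj/N)`, conclusion
-/

set_option autoImplicit false

namespace Pool.Agent.Helper54.Mix

open Finset Polynomial

noncomputable section

lemma pow_real {N : ℕ} (hN : 0 < N) (hodd : Odd N) {ζ : ℂ} (hζ : IsPrimitiveRoot ζ N) (M : ℕ)
    (h : (starRingEnd ℂ) (ζ ^ M) = ζ ^ M) : ζ ^ M = 1 := by
  have h1 := zeta_conj hN hζ
  have h2 : ζ ^ (2 * M) = 1 := by
    have : (starRingEnd ℂ) (ζ ^ M) * ζ ^ M = 1 := by rw [map_pow, ← mul_pow, h1, one_pow]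
    rw [h] at this
    rw [mul_comm, pow_mul, pow_two]; exact this
  rw [hζ.pow_eq_one_iff_dvd] at h2 ⊢
  exact (Nat.Coprime.dvd_of_dvd_mul_left (Nat.Coprime.symm (Nat.coprime_two_left.mpr hodd)) h2)

/-- An even vanishing sum without constant term and of norm at most `20` is trivial, if all prime
factors of the order are at least `11`. -/
lemma even_zero : ∀ N : ℕ, 0 < N → (∀ p : ℕ, p.Prime → p ∣ N → 11 ≤ p) →
    ∀ ζ : ℂ, IsPrimitiveRoot ζ N → ∀ v : ℕ → ℤ, v 0 = 0 → (∀ j, 0 < j → j < N → v (N - j) = v j) →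
    ∑ j ∈ range N, (v j : ℂ) * ζ ^ j = 0 →
    ∑ j ∈ range N, |v j| ≤ 20 → ∀ j < N, v j = 0 := by
  intro N
  induction N using Nat.strong_induction_on with
  | _ N ih =>
  intro hN hq ζ hζ v hv0 hev hv hs
  have hodd : Odd N := by
    rw [← Nat.not_even_iff_odd]
    intro he
    have := hq 2 Nat.prime_two he.two_dvd
    omega
  rcases Nat.lt_or_ge 1 N with h1 | h1
  · have hp : (N.minFac).Prime := Nat.minFac_prime (by omega)
    have hmin : ∀ p', p'.Prime → p' ∣ N → N.minFac ≤ p' := fun p' hp' hd => Nat.minFac_le_of_dvd hp'.two_le hd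
    obtain ⟨N₁, hN₁⟩ := Nat.minFac_dvd N
    set p := N.minFac with hpdef
    have hqp : 11 ≤ p := hq p hp (Nat.minFac_dvd N)
    have hN₁0 : 0 < N₁ := by
      rcases Nat.eq_zero_or_pos N₁ with h | h
      · rw [h] at hN₁; omega
      · exact h
    clear_value p
    subst hN₁
    obtain ⟨s, c, hc, hcl⟩ := cls_geom hp hN₁0 hζ v hv
    have hζ0 : ζ ≠ 0 := hζ.ne_zero (by omega)
    have hlt : N₁ < p * N₁ := by nlinarith
    have hζp : IsPrimitiveRoot (ζ ^ p) N₁ := hζ.pow (by positivity) rfl
    have hpodd : Odd p := Nat.Odd.of_mul_left hodd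
    have hev' : ∀ i, 0 < i → i < N₁ → v (0 + p * (N₁ - i)) = v (0 + p * i) := by
      intro i hi0 hi
      have h1 : p * i < p * N₁ := Nat.mul_lt_mul_of_pos_left hi hp.pos
      have h2 : 0 < p * i := Nat.mul_pos hp.pos hi0
      have e : p * (N₁ - i) = p * N₁ - p * i := Nat.mul_sub _ _ _
      rw [zero_add, zero_add, e, hev _ h2 h1]
    have hcls0 : cls p (p * N₁) v ζ 0 = ∑ i ∈ range N₁, (v (0 + p * i) : ℂ) * (ζ ^ p) ^ i := by
      rw [cls_row hp.pos _ _ _ hp.pos, pow_zero, one_mul]
    have hrn0 : rn p (p * N₁) v 0 = ∑ i ∈ range N₁, |v (0 + p * i)| := rn_row hp.pos _ _ hp.pos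
    have htot : ∑ j ∈ range (p * N₁), |v j| = ∑ r ∈ range p, rn p (p * N₁) v r := sum_rows hp.pos _
    by_cases hc0 : c = 0
    · have hz : ∀ r < p, cls p (p * N₁) v ζ r = 0 := by
        intro r hr
        have := hcl r hr
        rw [hc0] at this
        rcases mul_eq_zero.mp this with h | h
        · exact h
        · exact absurd h (pow_ne_zero _ (pow_ne_zero _ hζ0))
      intro j hj
      have hjr : j % p < p := Nat.mod_lt _ hp.pos
      rcases Nat.eq_zero_or_pos (j % p) with hr0 | hr0
      · have h4 := ih N₁ hlt hN₁0 (fun p' hp' hd => hq p' hp' (dvd_mul_of_dvd_right hd p)) (ζ ^ p)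
          hζp (fun i => v (0 + p * i)) (by simpa using hv0) hev' (by rw [← hcls0]; exact hz 0 hp.pos)
          (by
            rw [← hrn0]
            have : rn p (p * N₁) v 0 ≤ ∑ j ∈ range (p * N₁), |v j| :=
              Finset.sum_le_sum_of_subset_of_nonneg (Finset.filter_subset _ _) (fun _ _ _ => abs_nonneg _)
            linarith)
          (j / p) (Nat.div_lt_of_lt_mul hj)
        have h5 : j = 0 + p * (j / p) := by
          have := Nat.mod_add_div j p
          omega
        rw [h5]; exact h4
      · have h2 := hz (j % p) hjr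
        rw [cls_row hp.pos _ _ _ hjr] at h2
        have h3 : ∑ i ∈ range N₁, (v (j % p + p * i) : ℂ) * (ζ ^ p) ^ i = 0 := by
          rcases mul_eq_zero.mp h2 with h | h
          · exact absurd h (pow_ne_zero _ hζ0)
          · exact h
        have h4 := short_zero 11 N₁ hN₁0 (fun p' hp' hd => hq p' hp' (dvd_mul_of_dvd_right hd p)) (ζ ^ p)
          hζp (fun i => v (j % p + p * i)) h3
          (by
            have e : ∑ i ∈ range N₁, |v (j % p + p * i)| = rn p (p * N₁) v (j % p) := (rn_row hp.pos _ _ hjr).symm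
            rw [e]
            have h6 := rn_refl hp.pos v hev (j % p) hr0 hjr
            have hne : j % p ≠ p - j % p := by
              intro h
              obtain ⟨t, ht⟩ := hpodd
              omega
            have h7 : rn p (p * N₁) v (j % p) + rn p (p * N₁) v (p - j % p) ≤ ∑ r ∈ range p, rn p (p * N₁) v r := by
              have h8 := Finset.sum_le_sum_of_subset_of_nonneg (s := {j % p, p - j % p}) (t := range p)
                (f := fun r => rn p (p * N₁) v r) (by
                  intro x hx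
                  rw [Finset.mem_insert, Finset.mem_singleton] at hx
                  rw [Finset.mem_range]
                  rcases hx with hx | hx <;> omega) (fun _ _ _ => rn_nonneg _ _ _ _)
              rw [Finset.sum_pair hne] at h8
              exact h8
            rw [← htot, h6] at h7
            have : (11 : ℕ) = (11 : ℤ) := rfl
            push_cast
            linarith)
          (j / p) (Nat.div_lt_of_lt_mul hj)
        simp only [Nat.mod_add_div] at h4
        exact h4
    · exfalso
      have hpN₁ : ¬ p ∣ N₁ := fun h => hc0 (hc h)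
      have hcne : ∀ r, r < p → cls p (p * N₁) v ζ r ≠ 0 := by
        intro r hr h0
        have := hcl r hr
        rw [h0, zero_mul] at this
        exact hc0 this.symm
      have hrow : ∀ r, r < p → (1 : ℤ) ≤ rn p (p * N₁) v r := fun r hr => rn_pos (hcne r hr)
      have hc00 : cls p (p * N₁) v ζ 0 = c := by
        have := hcl 0 hp.pos
        rwa [pow_zero, mul_one] at this
      -- there is a row of norm one
      obtain ⟨P, rfl⟩ : ∃ P, p = P + 1 := ⟨p - 1, by omega⟩
      have hsplit : ∑ r ∈ range (P + 1), rn (P + 1) ((P + 1) * N₁) v r =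
          ∑ r ∈ range P, rn (P + 1) ((P + 1) * N₁) v (r + 1) + rn (P + 1) ((P + 1) * N₁) v 0 :=
        Finset.sum_range_succ' _ _
      have hone : ∃ r, r < P ∧ rn (P + 1) ((P + 1) * N₁) v (r + 1) = 1 := by
        by_contra hcon
        push Not at hcon
        have h2 : ∀ r ∈ range P, (2 : ℤ) ≤ rn (P + 1) ((P + 1) * N₁) v (r + 1) := by
          intro r hr
          have h3 := hrow (r + 1) (by have := Finset.mem_range.mp hr; omega)
          have h4 := hcon r (Finset.mem_range.mp hr)
          omega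
        have h5 : (P : ℤ) * 2 ≤ ∑ r ∈ range P, rn (P + 1) ((P + 1) * N₁) v (r + 1) := by
          calc (P : ℤ) * 2 = ∑ r ∈ range P, (2 : ℤ) := by simp
            _ ≤ _ := Finset.sum_le_sum h2
        have h6 := hrow 0 (by omega)
        have h7 : (10 : ℤ) ≤ P := by exact_mod_cast (by omega : 10 ≤ P)
        rw [htot, hsplit] at hs
        linarith
      obtain ⟨r, hr, hr1⟩ := hone
      -- the only entry of that row
      obtain ⟨j0, hj0, hne0⟩ := Finset.exists_ne_zero_of_sum_ne_zero (hcne (r + 1) (by omega))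
      have hvj0 : v j0 ≠ 0 := by
        intro h0; apply hne0; rw [h0]; simp
      have hsum1 : |v j0| + ∑ j ∈ ((range ((P + 1) * N₁)).filter (fun j => j % (P + 1) = r + 1)).erase j0, |v j| = 1 := by
        rw [Finset.add_sum_erase _ (fun j => |v j|) hj0]; exact hr1
      have hab1 : 1 ≤ |v j0| := Int.one_le_abs hvj0
      have hers : ∀ j ∈ ((range ((P + 1) * N₁)).filter (fun j => j % (P + 1) = r + 1)).erase j0, v j = 0 := by
        have hnn : 0 ≤ ∑ j ∈ ((range ((P + 1) * N₁)).filter (fun j => j % (P + 1) = r + 1)).erase j0, |v j| :=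
          Finset.sum_nonneg fun _ _ => abs_nonneg _
        have h0 : ∑ j ∈ ((range ((P + 1) * N₁)).filter (fun j => j % (P + 1) = r + 1)).erase j0, |v j| = 0 := by linarith
        intro j hj
        have := (Finset.sum_eq_zero_iff_of_nonneg (fun _ _ => abs_nonneg _)).mp h0 j hj
        exact abs_eq_zero.mp this
      have hclsr : cls (P + 1) ((P + 1) * N₁) v ζ (r + 1) = (v j0 : ℂ) * ζ ^ j0 := by
        unfold cls
        rw [← Finset.add_sum_erase _ _ hj0, Finset.sum_eq_zero (s := Finset.erase _ _), add_zero]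
        intro j hj
        rw [hers j hj]; simp
      have hceq : c = (v j0 : ℂ) * ζ ^ (j0 + N₁ * s * (r + 1)) := by
        have h2 := hcl (r + 1) (by omega)
        rw [hclsr] at h2
        rw [← h2, pow_add ζ j0, pow_mul ζ (N₁ * s) (r + 1)]
        ring
      have hreal : (starRingEnd ℂ) c = c := by
        rw [← hc00, hcls0]
        exact even_real hN₁0 hζp (fun i => v (0 + (P + 1) * i)) hev'
      have hvC : (v j0 : ℂ) ≠ 0 := by exact_mod_cast hvj0
      have hzr : ζ ^ (j0 + N₁ * s * (r + 1)) = 1 := by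
        apply pow_real hN hodd hζ
        rw [hceq, map_mul] at hreal
        have h3 : (starRingEnd ℂ) (v j0 : ℂ) = (v j0 : ℂ) := by simp
        rw [h3] at hreal
        exact mul_left_cancel₀ hvC hreal
      have hcv : c = (v j0 : ℂ) := by rw [hceq, hzr, mul_one]
      -- the modified zero row
      have hrel : ∑ i ∈ range N₁, ((if i = 0 then - v j0 else v (0 + (P + 1) * i) : ℤ) : ℂ) * (ζ ^ (P + 1)) ^ i = 0 := by
        obtain ⟨Q, rfl⟩ : ∃ Q, N₁ = Q + 1 := ⟨N₁ - 1, by omega⟩
        have h2 : ∑ i ∈ range (Q + 1), (v (0 + (P + 1) * i) : ℂ) * (ζ ^ (P + 1)) ^ i = (v j0 : ℂ) := by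
          rw [← hcls0, hc00, hcv]
        rw [Finset.sum_range_succ'] at h2 ⊢
        simp only [mul_zero, add_zero, hv0, Int.cast_zero, zero_mul, pow_zero, mul_one,
          Nat.add_eq_zero_iff, one_ne_zero, and_false, if_false, if_true] at h2 ⊢
        rw [h2]; push_cast; ring
      have hnorm : 12 ≤ ∑ i ∈ range N₁, |(if i = 0 then - v j0 else v (0 + (P + 1) * i) : ℤ)| := by
        by_contra hcon
        push Not at hcon
        have h2 := short_zero 12 N₁ hN₁0 (fun p' hp' hd => by
          have h3 := hmin p' hp' (dvd_mul_of_dvd_right hd (P + 1))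
          have h4 : p' ≠ P + 1 := fun h => hpN₁ (h ▸ hd)
          omega) (ζ ^ (P + 1)) hζp _ hrel (by push_cast; exact hcon) 0 hN₁0
        simp at h2
        exact hvj0 h2
      have hnorm2 : ∑ i ∈ range N₁, |(if i = 0 then - v j0 else v (0 + (P + 1) * i) : ℤ)| ≤
          1 + rn (P + 1) ((P + 1) * N₁) v 0 := by
        rw [hrn0]
        obtain ⟨Q, rfl⟩ : ∃ Q, N₁ = Q + 1 := ⟨N₁ - 1, by omega⟩
        rw [Finset.sum_range_succ', Finset.sum_range_succ' (fun i => |v (0 + (P + 1) * i)|)]
        have hle : |v j0| ≤ 1 := by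
          have hnn : 0 ≤ ∑ j ∈ ((range ((P + 1) * (Q + 1))).filter (fun j => j % (P + 1) = r + 1)).erase j0, |v j| :=
            Finset.sum_nonneg fun _ _ => abs_nonneg _
          linarith
        simp only [mul_zero, add_zero, hv0, abs_zero, Nat.add_eq_zero_iff, one_ne_zero, and_false, if_false, if_true, abs_neg]
        linarith
      have h5 : (P : ℤ) ≤ ∑ r ∈ range P, rn (P + 1) ((P + 1) * N₁) v (r + 1) := by
        calc (P : ℤ) = ∑ r ∈ range P, (1 : ℤ) := by simp
          _ ≤ _ := Finset.sum_le_sum (fun r hr => hrow (r + 1) (by have := Finset.mem_range.mp hr; omega))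
      have h7 : (10 : ℤ) ≤ P := by exact_mod_cast (by omega : 10 ≤ P)
      rw [htot, hsplit] at hs
      linarith
  · have hN1 : N = 1 := by omega
    subst hN1
    intro j hj
    have : j = 0 := by omega
    subst this
    exact hv0

/-- The numbers `2 cos(2πj/N)`, `1 ≤ j ≤ m`, `N = 2m+1`, satisfy no integer relation of norm at
most `10`, if all prime factors of `N` are at least `11`. -/
theorem no_short_rel {m : ℕ} (hq : ∀ p : ℕ, p.Prime → p ∣ 2 * m + 1 → 11 ≤ p) (u : Fin m → ℤ)
    (hu : ∑ a, |u a| ≤ 10)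
    (h : ∑ a : Fin m, (u a : ℝ) * (2 * Real.cos (2 * Real.pi * (((a : ℕ) : ℝ) + 1) / (2 * m + 1))) = 0) : u = 0 := by
  set N := 2 * m + 1 with hNdef
  set ζ : ℂ := Complex.exp (2 * Real.pi * Complex.I / N) with hζdef
  have hζ : IsPrimitiveRoot ζ N := Complex.isPrimitiveRoot_exp N (by omega)
  let w : ℕ → ℤ := fun j => if hj : j < m then u ⟨j, hj⟩ else 0
  have hw : ∀ a : Fin m, w a = u a := by
    intro a; simp only [w]; rw [dif_pos a.isLt]
  let v : ℕ → ℤ := fun j => if j = 0 then 0 else if j ≤ m then w (j - 1) else w (2 * m - j)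
  have hv1 : ∀ j < m, v (j + 1) = w j := by
    intro j hj
    simp only [v]
    rw [if_neg (by omega), if_pos (by omega)]
    rfl
  have hv2 : ∀ j < m, v (m + 1 + j) = w (m - 1 - j) := by
    intro j hj
    simp only [v]
    rw [if_neg (by omega), if_neg (by omega)]
    congr 1; omega
  have split : ∀ {M : Type} [AddCommMonoid M] (g : ℕ → M), ∑ j ∈ range N, g j =
      g 0 + (∑ j ∈ range m, g (j + 1) + ∑ j ∈ range m, g (m + 1 + j)) := by
    intro M _ g
    have e : N = m + m + 1 := by omega
    rw [e, Finset.sum_range_succ', Finset.sum_range_add, add_comm]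
    congr 2
    apply Finset.sum_congr rfl
    intro j _
    congr 1; omega
  have hsumw : ∀ {M : Type} [AddCommMonoid M] (g : ℕ → M), ∑ j ∈ range m, g j = ∑ a : Fin m, g a := by
    intro M _ g; exact Finset.sum_range g
  have hz := even_zero N (by omega) hq ζ hζ v (by simp [v]) (by
      intro j hj0 hj
      simp only [v]
      rcases Nat.lt_or_ge m j with h1 | h1
      · rw [if_neg (by omega), if_pos (by omega), if_neg (by omega), if_neg (by omega)]
        congr 1; omega
      · rw [if_neg (by omega), if_neg (by omega), if_neg (by omega), if_pos (by omega)]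
        congr 1; omega)
    (by
      rw [split]
      have e1 : ∑ j ∈ range m, ((v (j + 1) : ℤ) : ℂ) * ζ ^ (j + 1) = ∑ a : Fin m, (u a : ℂ) * ζ ^ ((a : ℕ) + 1) := by
        rw [← hsumw (fun j => ((w j : ℤ) : ℂ) * ζ ^ (j + 1)) |>.trans (Finset.sum_congr rfl fun a _ => by rw [hw])]
        apply Finset.sum_congr rfl
        intro j hj
        rw [hv1 j (Finset.mem_range.mp hj)]
      have e2 : ∑ j ∈ range m, ((v (m + 1 + j) : ℤ) : ℂ) * ζ ^ (m + 1 + j) =
          ∑ a : Fin m, (u a : ℂ) * ζ ^ (N - ((a : ℕ) + 1)) := by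
        rw [← hsumw (fun j => ((w j : ℤ) : ℂ) * ζ ^ (N - (j + 1))) |>.trans (Finset.sum_congr rfl fun a _ => by rw [hw]),
          ← Finset.sum_range_reflect (fun j => ((w j : ℤ) : ℂ) * ζ ^ (N - (j + 1)))]
        apply Finset.sum_congr rfl
        intro j hj
        have hj' := Finset.mem_range.mp hj
        rw [hv2 j hj']
        congr 2
        omega
      rw [e1, e2, ← Finset.sum_add_distrib]
      have e3 : ((v 0 : ℤ) : ℂ) * ζ ^ 0 = 0 := by simp [v]
      rw [e3, zero_add]
      have e4 : ∀ a : Fin m, (u a : ℂ) * ζ ^ ((a : ℕ) + 1) + (u a : ℂ) * ζ ^ (N - ((a : ℕ) + 1)) =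
          (((u a : ℝ) * (2 * Real.cos (2 * Real.pi * (((a : ℕ) : ℝ) + 1) / (2 * m + 1))) : ℝ) : ℂ) := by
        intro a
        have ha := a.isLt
        have e5 : ζ ^ (N - ((a : ℕ) + 1)) = Complex.exp (-(2 * Real.pi * (((a : ℕ) : ℂ) + 1) / (2 * m + 1) * Complex.I)) := by
          have e6 : ζ ^ (N - ((a : ℕ) + 1)) * ζ ^ ((a : ℕ) + 1) = 1 := by
            rw [← pow_add]
            have : N - ((a : ℕ) + 1) + ((a : ℕ) + 1) = N := by omega
            rw [this, hζ.pow_eq_one]
          have e7 : ζ ^ ((a : ℕ) + 1) = Complex.exp (2 * Real.pi * (((a : ℕ) : ℂ) + 1) / (2 * m + 1) * Complex.I) := by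
            rw [hζdef, ← Complex.exp_nat_mul]
            congr 1
            rw [hNdef]; push_cast
            ring
          rw [e7] at e6
          rw [Complex.exp_neg]
          exact eq_inv_of_mul_eq_one_left e6
        have e7 : ζ ^ ((a : ℕ) + 1) = Complex.exp (2 * Real.pi * (((a : ℕ) : ℂ) + 1) / (2 * m + 1) * Complex.I) := by
          rw [hζdef, ← Complex.exp_nat_mul]
          congr 1
          rw [hNdef]; push_cast
          ring
        rw [e5, e7]
        push_cast
        rw [Complex.cos]
        ring_nf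
      rw [Finset.sum_congr rfl (fun a _ => e4 a), ← Complex.ofReal_sum, h, Complex.ofReal_zero])
    (by
      rw [split]
      have e1 : ∑ j ∈ range m, |v (j + 1)| = ∑ a : Fin m, |u a| := by
        rw [← hsumw (fun j => |w j|) |>.trans (Finset.sum_congr rfl fun a _ => by rw [hw])]
        apply Finset.sum_congr rfl
        intro j hj
        rw [hv1 j (Finset.mem_range.mp hj)]
      have e2 : ∑ j ∈ range m, |v (m + 1 + j)| = ∑ a : Fin m, |u a| := by
        rw [← hsumw (fun j => |w j|) |>.trans (Finset.sum_congr rfl fun a _ => by rw [hw]),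
          ← Finset.sum_range_reflect (fun j => |w j|)]
        apply Finset.sum_congr rfl
        intro j hj
        rw [hv2 j (Finset.mem_range.mp hj)]
      rw [e1, e2]
      have : |v 0| = 0 := by simp [v]
      rw [this]
      linarith)
  funext a
  have h1 := hz ((a : ℕ) + 1) (by have := a.isLt; omega)
  rw [hv1 _ a.isLt, hw] at h1
  exact h1

end

end Pool.Agent.Helper54.Mix
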