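import Pool.Agent.Helper54.Mix.Laur
import Pool.Agent.Helper54.Mix.Prime
import Pool.Agent.Helper54.Mix.Rel3

/-!
# A density with the rank one moments at frequencies without short integer relations
-/

set_option autoImplicit false

namespace Pool.Agent.Helper54.Mix

open MeasureTheory Finset

noncomputable section

/-- a kernel whose characteristic function vanishes at the short nonzero combinations -/
def ShortKernel {m : ℕ} (ν : Fin m → ℝ) (K : ℝ → ℝ) : Prop :=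
  (∀ s, 0 ≤ K s) ∧ Integrable K ∧ ∫ s, K s = 1 ∧
    ∀ u : Fin m → ℤ, ∑ a, |u a| ≤ 10 → u ≠ 0 →
      ∫ s, (K s : ℂ) * Complex.exp (Complex.I * (((∑ a, (u a : ℝ) * ν a : ℝ) : ℂ) * s)) = 0

lemma exists_shortKernel {m : ℕ} (ν : Fin m → ℝ)
    (hs : ∀ u : Fin m → ℤ, ∑ a, |u a| ≤ 10 → ∑ a, (u a : ℝ) * ν a = 0 → u = 0) :
    ∃ K, ShortKernel ν K := by
  classical
  have hgap : ∃ δ : ℝ, 0 < δ ∧ ∀ u : Fin m → ℤ, ∑ a, |u a| ≤ 10 → u ≠ 0 → δ ≤ |∑ a, (u a : ℝ) * ν a| := by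
    set S := ((Fintype.piFinset (fun _ : Fin m => Finset.Icc (-10 : ℤ) 10)).filter
      (fun u => ∑ a, |u a| ≤ 10)).erase 0 with hS
    have hmem : ∀ u : Fin m → ℤ, ∑ a, |u a| ≤ 10 → u ≠ 0 → u ∈ S := by
      intro u hu hu0
      rw [hS, Finset.mem_erase, Finset.mem_filter, Fintype.mem_piFinset]
      refine ⟨hu0, fun a => ?_, hu⟩
      have h1 : |u a| ≤ ∑ a, |u a| := Finset.single_le_sum (f := fun a => |u a|) (fun _ _ => abs_nonneg _) (Finset.mem_univ a)
      rw [Finset.mem_Icc]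
      exact abs_le.mp (h1.trans hu)
    by_cases hne : S.Nonempty
    · obtain ⟨m0, hm0, hmin⟩ := Finset.exists_min_image S (fun u => |∑ a, (u a : ℝ) * ν a|) hne
      refine ⟨|∑ a, (m0 a : ℝ) * ν a|, ?_, fun u hu hu0 => hmin u (hmem u hu hu0)⟩
      rw [abs_pos]
      intro h0
      rw [hS, Finset.mem_erase, Finset.mem_filter] at hm0
      exact hm0.1 (hs m0 hm0.2.2 h0)
    · exact ⟨1, one_pos, fun u hu hu0 => absurd ⟨u, hmem u hu hu0⟩ hne⟩
  obtain ⟨δ, hδ, hg⟩ := hgap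
  obtain ⟨K, h0, h1, h2, h3⟩ := exists_kernel δ hδ
  exact ⟨K, h0, h1, h2, fun u hu hne => h3 _ (hg u hu hne)⟩

/-- evaluation of a Laurent polynomial at `y_a = exp(i ν_a s)` -/
def ev {m : ℕ} (ν : Fin m → ℝ) (s : ℝ) : RR m →ₐ[ℂ] ℂ :=
  AddMonoidAlgebra.lift ℂ ℂ (Ex m)
    { toFun := fun u => Complex.exp (Complex.I * (((∑ a, (u.toAdd a : ℝ) * ν a : ℝ) : ℂ) * s))
      map_one' := by simp
      map_mul' := by
        intro u v
        rw [← Complex.exp_add]
        congr 1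
        rw [toAdd_mul, ← mul_add, ← add_mul, ← Complex.ofReal_add, ← Finset.sum_add_distrib]
        congr 4
        funext a
        simp only [Pi.add_apply]
        push_cast
        ring }

lemma ev_single {m : ℕ} (ν : Fin m → ℝ) (s : ℝ) (u : Ex m) (c : ℂ) :
    ev ν s (AddMonoidAlgebra.single u c) = c * Complex.exp (Complex.I * (((∑ a, (u a : ℝ) * ν a : ℝ) : ℂ) * s)) := by
  unfold ev
  rw [AddMonoidAlgebra.lift_single]
  rfl

lemma ev_Y {m : ℕ} (ν : Fin m → ℝ) (s : ℝ) (a : Fin m) :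
    ev ν s (Y a) = Complex.exp (((ν a * s : ℝ) : ℂ) * Complex.I) := by
  classical
  unfold Y
  rw [ev_single, one_mul]
  congr 1
  have : ∑ b, (((Pi.single a 1 : Ex m) b : ℤ) : ℝ) * ν b = ν a := by
    rw [Finset.sum_eq_single a]
    · simp
    · intro b _ hb; rw [Pi.single_eq_of_ne hb]; simp
    · simp
  rw [this]; push_cast; ring

lemma ev_Yi {m : ℕ} (ν : Fin m → ℝ) (s : ℝ) (a : Fin m) :
    ev ν s (Yi a) = Complex.exp (((-(ν a * s) : ℝ) : ℂ) * Complex.I) := by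
  classical
  unfold Yi
  rw [ev_single, one_mul]
  congr 1
  have : ∑ b, (((Pi.single a (-1) : Ex m) b : ℤ) : ℝ) * ν b = - ν a := by
    rw [Finset.sum_eq_single a]
    · simp
    · intro b _ hb; rw [Pi.single_eq_of_ne hb]; simp
    · simp
  rw [this]; push_cast; ring

/-- the degree of a Laurent polynomial is at most `p` -/
def Deg {m : ℕ} (p : ℤ) (g : RR m) : Prop := ∀ u : Ex m, g.coeff u ≠ 0 → ∑ a, |u a| ≤ p

lemma Deg.mono {m : ℕ} {p q : ℤ} {g : RR m} (h : Deg p g) (hpq : p ≤ q) : Deg q g :=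
  fun u hu => (h u hu).trans hpq

lemma Deg.add {m : ℕ} {p : ℤ} {g h : RR m} (hg : Deg p g) (hh : Deg p h) : Deg p (g + h) := by
  intro u hu
  by_cases h1 : g.coeff u = 0
  · apply hh u
    intro h2; apply hu
    rw [AddMonoidAlgebra.coeff_add, Finsupp.add_apply, h1, h2, add_zero]
  · exact hg u h1

lemma Deg.smul {m : ℕ} {p : ℤ} {g : RR m} (c : ℂ) (hg : Deg p g) : Deg p (c • g) := by
  intro u hu
  apply hg u
  intro h2; apply hu
  rw [AddMonoidAlgebra.coeff_smul, Finsupp.smul_apply, h2, smul_zero]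

lemma Deg.zero {m : ℕ} {p : ℤ} : Deg p (0 : RR m) := by
  intro u hu; simp at hu

lemma Deg.sum {m : ℕ} {p : ℤ} {ι : Type} (A : Finset ι) (g : ι → RR m) (h : ∀ i ∈ A, Deg p (g i)) :
    Deg p (∑ i ∈ A, g i) := by
  classical
  induction A using Finset.induction_on with
  | empty => simpa using Deg.zero
  | insert a A ha ih =>
    rw [Finset.sum_insert ha]
    exact (h a (Finset.mem_insert_self _ _)).add (ih fun i hi => h i (Finset.mem_insert_of_mem hi))

lemma Deg.mul {m : ℕ} {p q : ℤ} {g h : RR m} (hg : Deg p g) (hh : Deg q h) : Deg (p + q) (g * h) := by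
  classical
  intro u hu
  have h1 : u ∈ (g * h).coeff.support := Finsupp.mem_support_iff.mpr hu
  have h2 := AddMonoidAlgebra.support_coeff_mul_subset g h h1
  rw [Finset.mem_add] at h2
  obtain ⟨x, hx, y, hy, hxy⟩ := h2
  have h3 := hg x (Finsupp.mem_support_iff.mp hx)
  have h4 := hh y (Finsupp.mem_support_iff.mp hy)
  calc ∑ a, |u a| ≤ ∑ a, (|x a| + |y a|) := by
        apply Finset.sum_le_sum
        intro a _
        rw [← hxy]
        exact abs_add_le _ _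
    _ = ∑ a, |x a| + ∑ a, |y a| := Finset.sum_add_distrib
    _ ≤ p + q := add_le_add h3 h4

lemma Deg.one {m : ℕ} : Deg 0 (1 : RR m) := by
  intro u hu
  rw [AddMonoidAlgebra.one_def] at hu
  have : u = 0 := by
    by_contra hne
    apply hu
    simp [Ne.symm hne]
  subst this; simp

lemma Deg.pow {m : ℕ} {p : ℤ} {g : RR m} (hg : Deg p g) (k : ℕ) : Deg (k * p) (g ^ k) := by
  induction k with
  | zero => simpa using Deg.one
  | succ k ih =>
    rw [pow_succ]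
    have := ih.mul hg
    refine this.mono ?_
    push_cast
    linarith [add_mul (k : ℤ) 1 p]

lemma Deg.single {m : ℕ} (a : Fin m) (c : ℤ) (hc : |c| ≤ 1) :
    Deg 1 (AddMonoidAlgebra.single (Pi.single a c) 1 : RR m) := by
  classical
  intro u hu
  have : u = Pi.single a c := by
    by_contra hne
    apply hu
    simp [Ne.symm hne]
  subst this
  rw [Finset.sum_eq_single a]
  · simpa using hc
  · intro b _ hb; rw [Pi.single_eq_of_ne hb]; simp
  · simp

lemma Deg.Y {m : ℕ} (a : Fin m) : Deg 1 (Mix.Y a) := Deg.single a 1 (by norm_num)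

lemma Deg.Yi {m : ℕ} (a : Fin m) : Deg 1 (Mix.Yi a) := Deg.single a (-1) (by norm_num)

/-- the integral of a short Laurent polynomial is its constant term -/
lemma integral_ev {m : ℕ} {ν : Fin m → ℝ} {K : ℝ → ℝ} (hK : ShortKernel ν K) {g : RR m} (hg : Deg 10 g) :
    ∫ s, (K s : ℂ) * ev ν s g = ct g := by
  classical
  have h1 : ∀ s, (K s : ℂ) * ev ν s g = ∑ u ∈ g.coeff.support,
      g.coeff u * ((K s : ℂ) * Complex.exp (Complex.I * (((∑ a, (u a : ℝ) * ν a : ℝ) : ℂ) * s))) := by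
    intro s
    unfold ev
    rw [AddMonoidAlgebra.lift_apply, Finsupp.sum, Finset.mul_sum]
    apply Finset.sum_congr rfl
    intro u _
    rw [smul_eq_mul]
    show (K s : ℂ) * (g.coeff u * Complex.exp (Complex.I * (((∑ a, (u a : ℝ) * ν a : ℝ) : ℂ) * s))) = _
    ring
  simp only [h1]
  rw [integral_finsetSum _ (fun u _ => (integrable_K_exp hK.2.1 _).const_mul _)]
  have h2 : ∀ u ∈ g.coeff.support, ∫ s, g.coeff u * ((K s : ℂ) * Complex.exp (Complex.I * (((∑ a, (u a : ℝ) * ν a : ℝ) : ℂ) * s))) =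
      if u = 0 then g.coeff u else 0 := by
    intro u hu
    rw [integral_const_mul]
    split_ifs with h0
    · subst h0
      have : ∀ s : ℝ, (K s : ℂ) * Complex.exp (Complex.I * (((∑ a, (((0 : Ex m) a : ℤ) : ℝ) * ν a : ℝ) : ℂ) * s)) = (K s : ℂ) := by
        intro s; simp
      simp only [this]
      have h5 : ∫ s, (K s : ℂ) = ((∫ s, K s : ℝ) : ℂ) := integral_complex_ofReal
      rw [h5, hK.2.2.1]; simp
    · rw [hK.2.2.2 u (hg u (Finsupp.mem_support_iff.mp hu)) h0, mul_zero]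
  rw [Finset.sum_congr rfl h2, Finset.sum_ite_eq']
  rw [ct_apply]
  split_ifs with h0
  · rfl
  · exact (Finsupp.notMem_support_iff.mp h0).symm

/-- global weight -/
def wg {m : ℕ} : Ex m →+ ℤ where
  toFun u := ∑ a, u a
  map_zero' := by simp
  map_add' u v := by simp [Finset.sum_add_distrib]

lemma tau_gY {m : ℕ} (a : Fin m) : tau wg (Y a) = (2 : ℂ) • Y a := by
  classical
  unfold Y; rw [tau_single]
  have : wg (Pi.single a 1 : Ex m) = 1 := by simp [wg]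
  rw [this]; simp

lemma tau_gYi {m : ℕ} (a : Fin m) : tau wg (Yi a) = (2 : ℂ) ^ (-1 : ℤ) • Yi a := by
  classical
  unfold Yi; rw [tau_single]
  have : wg (Pi.single a (-1) : Ex m) = -1 := by
    have h : (Pi.single a (-1) : Ex m) = - Pi.single a 1 := by rw [← Pi.single_neg]
    rw [h, map_neg]; simp [wg]
  rw [this]

/-- the square modulus of the sum -/
def XX (m : ℕ) : RR m := SA univ * SB univ

lemma tau_gX (m : ℕ) : tau wg (XX m) = XX m := by
  unfold XX SA SB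
  rw [map_mul, map_sum, map_sum, Finset.sum_congr rfl (fun a _ => tau_gY a),
    Finset.sum_congr rfl (fun a _ => tau_gYi a), ← Finset.smul_sum, ← Finset.smul_sum,
    smul_mul_smul_comm]
  norm_num

/-- the nonnegative polynomial -/
def PP (m : ℕ) : RR m :=
  XX m ^ 4 - (16 * (m : ℂ)) • XX m ^ 3 + (88 * (m : ℂ) ^ 2) • XX m ^ 2 - (192 * (m : ℂ) ^ 3) • XX m +
    (144 * (m : ℂ) ^ 4) • 1

lemma tau_gP (m : ℕ) : tau wg (PP m) = PP m := by
  unfold PP
  simp only [map_add, map_sub, map_smul, map_pow, map_one, tau_gX]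

lemma ct_sum_zero {m : ℕ} (a b : Fin m) : ct (PP m * (Y a * Y b)) = 0 := by
  apply ct_eq_zero wg _ 2 (by norm_num)
  rw [map_mul, map_mul, tau_gP, tau_gY, tau_gY, smul_mul_smul_comm, mul_smul_comm]
  norm_num

lemma Xpow {m : ℕ} (k : ℕ) : XX m ^ k = SA univ ^ k * SB univ ^ k := by
  unfold XX; rw [mul_pow]

lemma ct_PP (m : ℕ) : ct (PP m) = 56 * (m : ℂ) ^ 4 - 16 * (m : ℂ) ^ 3 + 18 * (m : ℂ) ^ 2 - 33 * m := by
  have h1 := mom1 (univ : Finset (Fin m))
  have h2 := mom2 (univ : Finset (Fin m))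
  have h3 := mom3 (univ : Finset (Fin m))
  have h4 := mom4 (univ : Finset (Fin m))
  rw [← Xpow, Finset.card_univ, Fintype.card_fin] at h1 h2 h3 h4
  rw [pow_one] at h1
  unfold PP
  simp only [map_add, map_sub, map_smul, smul_eq_mul, h1, h2, h3, h4, ct_one]
  ring

lemma ct_PP_pair {m : ℕ} (a b : Fin m) (hab : a ≠ b) : ct (PP m * (Y a * Yi b)) =
    -32 * (m : ℂ) ^ 3 - 64 * (m : ℂ) ^ 2 + 208 * m - 456 := by
  classical
  set A : Finset (Fin m) := (univ.erase b).erase a with hA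
  have ha : a ∉ A := Finset.notMem_erase _ _
  have e1 : insert a A = univ.erase b := Finset.insert_erase (Finset.mem_erase.mpr ⟨hab, Finset.mem_univ _⟩)
  have hb : b ∉ insert a A := by rw [e1]; exact Finset.notMem_erase _ _
  have e2 : insert b (insert a A) = univ := by rw [e1]; exact Finset.insert_erase (Finset.mem_univ _)
  have hcard : (m : ℂ) = (A.card : ℂ) + 2 := by
    have h1 : (insert b (insert a A)).card = m := by rw [e2]; simp
    rw [Finset.card_insert_of_notMem hb, Finset.card_insert_of_notMem ha] at h1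
    have h2 := congrArg (fun k : ℕ => (k : ℂ)) h1
    push_cast at h2
    linear_combination -h2
  have h0 := ct_pair ha hb 0
  have h1 := ct_pair ha hb 1
  have h2 := ct_pair ha hb 2
  have h3 := ct_pair ha hb 3
  have h4 := ct_pair ha hb 4
  rw [e2, ← Xpow] at h0 h1 h2 h3 h4
  have m1 := mom1 A
  have m2 := mom2 A
  have m3 := mom3 A
  simp [Finset.sum_range_succ, Nat.choose, ct_one] at h0 h1 h2 h3 h4
  simp only [pow_one] at m1
  rw [m1] at h2 h3 h4
  rw [m2] at h3 h4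
  rw [m3] at h4
  unfold PP
  simp only [add_mul, sub_mul, smul_mul_assoc, one_mul, map_add, map_sub, map_smul, smul_eq_mul,
    h0, h1, h2, h3, h4]
  rw [hcard]
  ring

/-- the real value of the square modulus -/
def xv {m : ℕ} (ν : Fin m → ℝ) (s : ℝ) : ℝ :=
  (∑ a, Real.cos (ν a * s)) ^ 2 + (∑ a, Real.sin (ν a * s)) ^ 2

lemma ev_X {m : ℕ} (ν : Fin m → ℝ) (s : ℝ) : ev ν s (XX m) = ((xv ν s : ℝ) : ℂ) := by
  unfold XX SA SB xv
  rw [map_mul, map_sum, map_sum]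
  simp only [ev_Y, ev_Yi]
  have h1 : ∑ a, Complex.exp (((ν a * s : ℝ) : ℂ) * Complex.I) =
      ((∑ a, Real.cos (ν a * s) : ℝ) : ℂ) + ((∑ a, Real.sin (ν a * s) : ℝ) : ℂ) * Complex.I := by
    push_cast
    rw [Finset.sum_mul, ← Finset.sum_add_distrib]
    apply Finset.sum_congr rfl
    intro a _
    rw [Complex.exp_mul_I]
  have h2 : ∑ a, Complex.exp (((-(ν a * s) : ℝ) : ℂ) * Complex.I) =
      ((∑ a, Real.cos (ν a * s) : ℝ) : ℂ) - ((∑ a, Real.sin (ν a * s) : ℝ) : ℂ) * Complex.I := by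
    push_cast
    rw [Finset.sum_mul, ← Finset.sum_sub_distrib]
    apply Finset.sum_congr rfl
    intro a _
    rw [Complex.exp_mul_I, Complex.cos_neg, Complex.sin_neg]
    ring
  rw [h1, h2]
  push_cast
  have hI : Complex.I ^ 2 = -1 := Complex.I_sq
  linear_combination (-(∑ a, Complex.sin (ν a * s)) ^ 2) * hI

/-- the nonnegative trigonometric polynomial -/
def qv {m : ℕ} (ν : Fin m → ℝ) (s : ℝ) : ℝ := (xv ν s ^ 2 - 8 * m * xv ν s + 12 * (m : ℝ) ^ 2) ^ 2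

lemma ev_P {m : ℕ} (ν : Fin m → ℝ) (s : ℝ) : ev ν s (PP m) = ((qv ν s : ℝ) : ℂ) := by
  unfold PP qv
  simp only [map_add, map_sub, map_smul, map_pow, map_one, ev_X, smul_eq_mul]
  push_cast
  ring

lemma xv_cont {m : ℕ} (ν : Fin m → ℝ) : Continuous (xv ν) := by
  unfold xv; fun_prop

lemma xv_nonneg {m : ℕ} (ν : Fin m → ℝ) (s : ℝ) : 0 ≤ xv ν s := by unfold xv; positivity

lemma xv_le {m : ℕ} (ν : Fin m → ℝ) (s : ℝ) : xv ν s ≤ 2 * (m : ℝ) ^ 2 := by
  unfold xv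
  have h1 : |∑ a, Real.cos (ν a * s)| ≤ m := by
    calc |∑ a, Real.cos (ν a * s)| ≤ ∑ a, |Real.cos (ν a * s)| := Finset.abs_sum_le_sum_abs _ _
      _ ≤ ∑ a : Fin m, (1 : ℝ) := Finset.sum_le_sum fun a _ => Real.abs_cos_le_one _
      _ = m := by simp
  have h2 : |∑ a, Real.sin (ν a * s)| ≤ m := by
    calc |∑ a, Real.sin (ν a * s)| ≤ ∑ a, |Real.sin (ν a * s)| := Finset.abs_sum_le_sum_abs _ _
      _ ≤ ∑ a : Fin m, (1 : ℝ) := Finset.sum_le_sum fun a _ => Real.abs_sin_le_one _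
      _ = m := by simp
  have h3 := sq_le_sq' (by linarith [(abs_le.mp h1).1]) (abs_le.mp h1).2
  have h4 := sq_le_sq' (by linarith [(abs_le.mp h2).1]) (abs_le.mp h2).2
  linarith

lemma qv_cont {m : ℕ} (ν : Fin m → ℝ) : Continuous (qv ν) := by
  have := xv_cont ν
  unfold qv; fun_prop

lemma qv_bound {m : ℕ} (ν : Fin m → ℝ) (s : ℝ) : ‖qv ν s‖ ≤ (32 * (m : ℝ) ^ 4 + 16 * (m : ℝ) ^ 3 + 12 * (m : ℝ) ^ 2) ^ 2 := by
  unfold qv
  rw [norm_pow]
  apply pow_le_pow_left₀ (norm_nonneg _)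
  have h1 := xv_nonneg ν s
  have h2 := xv_le ν s
  have hm : (0 : ℝ) ≤ m := Nat.cast_nonneg m
  have h3 : xv ν s ^ 2 ≤ (2 * (m : ℝ) ^ 2) ^ 2 := pow_le_pow_left₀ h1 h2 2
  have h4 : (m : ℝ) * xv ν s ≤ m * (2 * (m : ℝ) ^ 2) := mul_le_mul_of_nonneg_left h2 hm
  have h5 : 0 ≤ (m : ℝ) * xv ν s := mul_nonneg hm h1
  rw [Real.norm_eq_abs, abs_le]
  constructor
  · nlinarith [sq_nonneg (xv ν s), pow_nonneg hm 2, pow_nonneg hm 3, pow_nonneg hm 4]
  · nlinarith [sq_nonneg (xv ν s), pow_nonneg hm 2, pow_nonneg hm 3, pow_nonneg hm 4]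

lemma integrable_KQ {m : ℕ} {ν : Fin m → ℝ} {K : ℝ → ℝ} (hK : Integrable K) : Integrable fun s => K s * qv ν s :=
  Integrable.mul_bdd hK (qv_cont ν).aestronglyMeasurable (Filter.Eventually.of_forall (qv_bound ν))

lemma Deg.PP (m : ℕ) : Deg 8 (Mix.PP m) := by
  have hX : Deg 2 (XX m) := by
    unfold XX SA SB
    exact Deg.mul (Deg.sum _ _ fun a _ => Deg.Y a) (Deg.sum _ _ fun a _ => Deg.Yi a)
  have h4 : Deg 8 (XX m ^ 4) := (hX.pow 4).mono (by norm_num)
  have h3 : Deg 8 (XX m ^ 3) := (hX.pow 3).mono (by norm_num)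
  have h2 : Deg 8 (XX m ^ 2) := (hX.pow 2).mono (by norm_num)
  have h1 : Deg 8 (XX m) := hX.mono (by norm_num)
  have h0 : Deg 8 (1 : RR m) := Deg.one.mono (by norm_num)
  have e : Mix.PP m = XX m ^ 4 + (-(16 * (m : ℂ))) • XX m ^ 3 + (88 * (m : ℂ) ^ 2) • XX m ^ 2 +
      (-(192 * (m : ℂ) ^ 3)) • XX m + (144 * (m : ℂ) ^ 4) • 1 := by
    unfold Mix.PP
    simp only [neg_smul]
    ring
  rw [e]
  exact (((h4.add (h3.smul _)).add (h2.smul _)).add (h1.smul _)).add (h0.smul _)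

lemma mass_Q {m : ℕ} {ν : Fin m → ℝ} {K : ℝ → ℝ} (hK : ShortKernel ν K) :
    ∫ s, K s * qv ν s = 56 * (m : ℝ) ^ 4 - 16 * (m : ℝ) ^ 3 + 18 * (m : ℝ) ^ 2 - 33 * m := by
  have h1 := integral_ev hK ((Deg.PP m).mono (by norm_num))
  rw [ct_PP] at h1
  have h2 : ∀ s, (K s : ℂ) * ev ν s (PP m) = ((K s * qv ν s : ℝ) : ℂ) := by
    intro s; rw [ev_P]; push_cast; ring
  simp only [h2] at h1
  rw [integral_complex_ofReal] at h1
  have h3 : ((∫ s, K s * qv ν s : ℝ) : ℂ) = ((56 * (m : ℝ) ^ 4 - 16 * (m : ℝ) ^ 3 + 18 * (m : ℝ) ^ 2 - 33 * m : ℝ) : ℂ) := by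
    rw [h1]; push_cast; ring
  exact_mod_cast h3

lemma diff_Q {m : ℕ} {ν : Fin m → ℝ} {K : ℝ → ℝ} (hK : ShortKernel ν K) (a b : Fin m) (hab : a ≠ b) :
    ∫ s, K s * qv ν s * Real.cos ((ν a - ν b) * s) = -32 * (m : ℝ) ^ 3 - 64 * (m : ℝ) ^ 2 + 208 * m - 456 := by
  have hd : Deg 10 (PP m * (Y a * Yi b)) := ((Deg.PP m).mul ((Deg.Y a).mul (Deg.Yi b))).mono (by norm_num)
  have h1 := integral_ev hK hd
  rw [ct_PP_pair a b hab] at h1
  rw [← re_integral_exp (integrable_KQ hK.2.1)]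
  have h2 : ∀ s : ℝ, ((K s * qv ν s : ℝ) : ℂ) * Complex.exp (Complex.I * (((ν a - ν b : ℝ) : ℂ) * s)) =
      (K s : ℂ) * ev ν s (PP m * (Y a * Yi b)) := by
    intro s
    rw [map_mul, map_mul, ev_P, ev_Y, ev_Yi, ← Complex.exp_add]
    push_cast
    rw [mul_assoc]
    congr 3
    ring
  simp only [h2]
  rw [h1]
  have h3 : (-32 * (m : ℂ) ^ 3 - 64 * (m : ℂ) ^ 2 + 208 * m - 456) =
      ((-32 * (m : ℝ) ^ 3 - 64 * (m : ℝ) ^ 2 + 208 * m - 456 : ℝ) : ℂ) := by push_cast; ring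
  rw [h3, Complex.ofReal_re]

lemma sum_Q {m : ℕ} {ν : Fin m → ℝ} {K : ℝ → ℝ} (hK : ShortKernel ν K) (a b : Fin m) :
    ∫ s, K s * qv ν s * Real.cos ((ν a + ν b) * s) = 0 := by
  have hd : Deg 10 (PP m * (Y a * Y b)) := ((Deg.PP m).mul ((Deg.Y a).mul (Deg.Y b))).mono (by norm_num)
  have h1 := integral_ev hK hd
  rw [ct_sum_zero a b] at h1
  rw [← re_integral_exp (integrable_KQ hK.2.1)]
  have h2 : ∀ s : ℝ, ((K s * qv ν s : ℝ) : ℂ) * Complex.exp (Complex.I * (((ν a + ν b : ℝ) : ℂ) * s)) =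
      (K s : ℂ) * ev ν s (PP m * (Y a * Y b)) := by
    intro s
    rw [map_mul, map_mul, ev_P, ev_Y, ev_Y, ← Complex.exp_add]
    push_cast
    rw [mul_assoc]
    congr 3
    ring
  simp only [h2]
  rw [h1, Complex.zero_re]

lemma diff_K {m : ℕ} {ν : Fin m → ℝ} {K : ℝ → ℝ} (hK : ShortKernel ν K) (a b : Fin m) (hab : a ≠ b) :
    ∫ s, K s * Real.cos ((ν a - ν b) * s) = 0 := by
  have hd : Deg 10 (Y a * Yi b) := ((Deg.Y a).mul (Deg.Yi b)).mono (by norm_num)
  have h1 := integral_ev hK hd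
  have h0 : ct (Y a * Yi b) = 0 := by
    apply ct_eq_zero (wa a) _ 1 (by norm_num)
    rw [map_mul, tau_Y, tau_Yi' (Ne.symm hab), smul_mul_assoc]; norm_num
  rw [h0] at h1
  rw [← re_integral_exp hK.2.1]
  have h2 : ∀ s : ℝ, (K s : ℂ) * Complex.exp (Complex.I * (((ν a - ν b : ℝ) : ℂ) * s)) =
      (K s : ℂ) * ev ν s (Y a * Yi b) := by
    intro s
    rw [map_mul, ev_Y, ev_Yi, ← Complex.exp_add]
    push_cast
    congr 2
    ring
  simp only [h2]
  rw [h1, Complex.zero_re]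

lemma sum_K {m : ℕ} {ν : Fin m → ℝ} {K : ℝ → ℝ} (hK : ShortKernel ν K) (a b : Fin m) :
    ∫ s, K s * Real.cos ((ν a + ν b) * s) = 0 := by
  have hd : Deg 10 (Y a * Y b) := ((Deg.Y a).mul (Deg.Y b)).mono (by norm_num)
  have h1 := integral_ev hK hd
  have h0 : ct (Y a * Y b) = 0 := by
    apply ct_eq_zero wg _ 2 (by norm_num)
    rw [map_mul, tau_gY, tau_gY, smul_mul_smul_comm]; norm_num
  rw [h0] at h1
  rw [← re_integral_exp hK.2.1]
  have h2 : ∀ s : ℝ, (K s : ℂ) * Complex.exp (Complex.I * (((ν a + ν b : ℝ) : ℂ) * s)) =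
      (K s : ℂ) * ev ν s (Y a * Y b) := by
    intro s
    rw [map_mul, ev_Y, ev_Y, ← Complex.exp_add]
    push_cast
    congr 2
    ring
  simp only [h2]
  rw [h1, Complex.zero_re]

/-- At frequencies without short integer relations there is a density whose moments at the
differences are `-1/(2m)` and at the sums are `0`. -/
theorem exists_density_short {m : ℕ} (hm : 2 ≤ m) (ν : Fin m → ℝ)
    (hs : ∀ u : Fin m → ℤ, ∑ a, |u a| ≤ 10 → ∑ a, (u a : ℝ) * ν a = 0 → u = 0) :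
    ∃ f : ℝ → ℝ, IsDensity f ∧
      (∀ a b : Fin m, a ≠ b → ∫ s, f s * Real.cos ((ν a - ν b) * s) = -(1 / (2 * (m : ℝ)))) ∧
      (∀ a b : Fin m, ∫ s, f s * Real.cos ((ν a + ν b) * s) = 0) := by
  obtain ⟨K, hK⟩ := exists_shortKernel ν hs
  have hm2 : (2 : ℝ) ≤ m := by exact_mod_cast hm
  set D : ℝ := 32 * (m : ℝ) ^ 3 + 64 * (m : ℝ) ^ 2 - 208 * m + 456 with hD
  set E : ℝ := 56 * (m : ℝ) ^ 4 - 16 * (m : ℝ) ^ 3 + 18 * (m : ℝ) ^ 2 - 33 * m with hE
  have hDpos : 0 < D := by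
    rw [hD]; nlinarith [sq_nonneg ((m : ℝ) - 2), mul_nonneg (by linarith : (0 : ℝ) ≤ m) (sq_nonneg ((m : ℝ) - 2))]
  have hmpos : (0 : ℝ) < m := by linarith
  set α : ℝ := 1 / (2 * m * D) with hα
  have hαpos : 0 < α := by rw [hα]; positivity
  have hαE : α * E ≤ 1 := by
    rw [hα, one_div, inv_mul_le_iff₀ (by positivity), mul_one, hD, hE]
    have : 0 ≤ (m : ℝ) * (144 * (m : ℝ) ^ 2 - 434 * m + 945) := by
      apply mul_nonneg hmpos.le
      nlinarith [sq_nonneg ((m : ℝ) - 434 / 288)]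
    nlinarith [pow_nonneg hmpos.le 4]
  have hKQ := integrable_KQ (ν := ν) hK.2.1
  have hcomb : ∀ w : ℝ, ∫ s, (K s * (α * qv ν s + (1 - α * E))) * Real.cos (w * s) =
      α * (∫ s, K s * qv ν s * Real.cos (w * s)) + (1 - α * E) * ∫ s, K s * Real.cos (w * s) := by
    intro w
    rw [← integral_const_mul, ← integral_const_mul, ← integral_add]
    · congr 1; funext s; ring
    · exact (integrable_mul_cos hKQ w).const_mul _
    · exact (integrable_mul_cos hK.2.1 w).const_mul _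
  refine ⟨fun s => K s * (α * qv ν s + (1 - α * E)), ⟨?_, ?_⟩, ?_, ?_⟩
  · intro s
    apply mul_nonneg (hK.1 s)
    apply add_nonneg (mul_nonneg hαpos.le (by unfold qv; positivity)) (by linarith)
  · have h1 := hcomb 0
    simp only [zero_mul, Real.cos_zero, mul_one] at h1
    rw [h1, mass_Q hK, hK.2.2.1]
    ring
  · intro a b hab
    rw [hcomb, diff_Q hK a b hab, diff_K hK a b hab]
    have h1 : (-32 * (m : ℝ) ^ 3 - 64 * (m : ℝ) ^ 2 + 208 * m - 456) = -D := by rw [hD]; ring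
    rw [h1, hα]
    field_simp
    ring
  · intro a b
    rw [hcomb, sum_Q hK a b, sum_K hK a b]
    ring

end

end Pool.Agent.Helper54.Mix
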