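import Pool.Agent.Helper54.Mix.Cos2
import Pool.Agent.Helper54.Mix.Short

/-!
# Densities for one parity class
-/

set_option autoImplicit false

namespace Pool.Agent.Helper54.Mix

open Finset

noncomputable section

/-- pushing exponents forward -/
def push {m : ℕ} (φ : Ex m →+ Ex m) : RR m →ₐ[ℂ] RR m :=
  AddMonoidAlgebra.lift ℂ (RR m) (Ex m)
    { toFun := fun u => AddMonoidAlgebra.single (φ u.toAdd) 1
      map_one' := by simp [AddMonoidAlgebra.one_def]
      map_mul' := by
        intro u v
        rw [AddMonoidAlgebra.single_mul_single, toAdd_mul, map_add, mul_one] }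

lemma push_single {m : ℕ} (φ : Ex m →+ Ex m) (u : Ex m) (c : ℂ) :
    push φ (AddMonoidAlgebra.single u c) = AddMonoidAlgebra.single (φ u) c := by
  unfold push
  rw [AddMonoidAlgebra.lift_single]
  simp

lemma ct_push {m : ℕ} (φ : Ex m →+ Ex m) (hφ : ∀ u, φ u = 0 → u = 0) (g : RR m) : ct (push φ g) = ct g := by
  induction g using AddMonoidAlgebra.induction_linear with
  | zero => simp
  | add a b ha hb => simp only [map_add, ha, hb]
  | single u c =>
    rw [push_single, ct_apply, ct_apply]
    by_cases hu : u = 0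
    · subst hu; simp
    · have : φ u ≠ 0 := fun h => hu (hφ u h)
      simp [hu, this]

/-- doubling the exponents -/
def dblH (m : ℕ) : Ex m →+ Ex m where
  toFun u := u + u
  map_zero' := by simp
  map_add' u v := by abel

/-- flipping the sign of an exponent -/
def flipH {m : ℕ} (a : Fin m) : Ex m →+ Ex m where
  toFun u := Function.update u a (-u a)
  map_zero' := by simp
  map_add' u v := by
    funext b
    by_cases h : b = a
    · subst h; simp; ring
    · simp [Function.update_of_ne h]

lemma dbl_inj {m : ℕ} (u : Ex m) (h : dblH m u = 0) : u = 0 := by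
  funext a
  have := congrFun h a
  simp [dblH] at this
  simpa using this

lemma flip_inj {m : ℕ} (a : Fin m) (u : Ex m) (h : flipH a u = 0) : u = 0 := by
  funext b
  have h1 := congrFun h b
  by_cases hb : b = a
  · subst hb; simpa [flipH] using h1
  · simpa [flipH, Function.update_of_ne hb] using h1

lemma flip_Y {m : ℕ} (a : Fin m) : push (flipH a) (Y a) = Yi a := by
  unfold Y Yi; rw [push_single]; congr 1
  funext b
  by_cases hb : b = a
  · subst hb; simp [flipH]
  · simp [flipH, Function.update_of_ne hb, Pi.single_eq_of_ne hb]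

lemma flip_Yi {m : ℕ} (a : Fin m) : push (flipH a) (Yi a) = Y a := by
  unfold Y Yi; rw [push_single]; congr 1
  funext b
  by_cases hb : b = a
  · subst hb; simp [flipH]
  · simp [flipH, Function.update_of_ne hb, Pi.single_eq_of_ne hb]

lemma flip_Y' {m : ℕ} {a b : Fin m} (h : b ≠ a) : push (flipH a) (Y b) = Y b := by
  unfold Y; rw [push_single]; congr 1
  funext c
  by_cases hc : c = a
  · subst hc; simp [flipH, Pi.single_eq_of_ne (Ne.symm h)]
  · simp [flipH, Function.update_of_ne hc]

lemma flip_Yi' {m : ℕ} {a b : Fin m} (h : b ≠ a) : push (flipH a) (Yi b) = Yi b := by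
  unfold Yi; rw [push_single]; congr 1
  funext c
  by_cases hc : c = a
  · subst hc; simp [flipH, Pi.single_eq_of_ne (Ne.symm h)]
  · simp [flipH, Function.update_of_ne hc]

/-- sums of squares -/
def TD {m : ℕ} (A : Finset (Fin m)) : RR m := ∑ j ∈ A, (Y j ^ 2 + Yi j ^ 2)

lemma flip_TT {m : ℕ} (A : Finset (Fin m)) (a : Fin m) : push (flipH a) (TT A) = TT A := by
  unfold TT
  rw [map_sum]
  refine Finset.sum_congr rfl fun j _ => ?_
  rw [map_add]
  by_cases h : j = a
  · subst h; rw [flip_Y, flip_Yi, add_comm]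
  · rw [flip_Y' h, flip_Yi' h]

lemma flip_TD {m : ℕ} (A : Finset (Fin m)) (a : Fin m) : push (flipH a) (TD A) = TD A := by
  unfold TD
  rw [map_sum]
  refine Finset.sum_congr rfl fun j _ => ?_
  rw [map_add, map_pow, map_pow]
  by_cases h : j = a
  · subst h; rw [flip_Y, flip_Yi, add_comm]
  · rw [flip_Y' h, flip_Yi' h]

lemma dbl_Y {m : ℕ} (a : Fin m) : push (dblH m) (Y a) = Y a ^ 2 := by
  unfold Y; rw [push_single, AddMonoidAlgebra.single_pow, one_pow]; congr 1
  simp only [dblH, AddMonoidHom.coe_mk, ZeroHom.coe_mk]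
  rw [two_nsmul]

lemma dbl_Yi {m : ℕ} (a : Fin m) : push (dblH m) (Yi a) = Yi a ^ 2 := by
  unfold Yi; rw [push_single, AddMonoidAlgebra.single_pow, one_pow]; congr 1
  simp only [dblH, AddMonoidHom.coe_mk, ZeroHom.coe_mk]
  rw [two_nsmul]

lemma dbl_TT {m : ℕ} (A : Finset (Fin m)) : push (dblH m) (TT A) = TD A := by
  unfold TT TD
  rw [map_sum]
  refine Finset.sum_congr rfl fun j _ => ?_
  rw [map_add, dbl_Y, dbl_Yi]

lemma TD_pow {m : ℕ} (A : Finset (Fin m)) (k : ℕ) : ct (TD A ^ k) = ct (TT A ^ k) := by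
  rw [← dbl_TT, ← map_pow, ct_push _ dbl_inj]

lemma TD_pow2 {m : ℕ} (A : Finset (Fin m)) (k : ℕ) (a : Fin m) :
    ct (TD A ^ k * Y a ^ 2) = ct (TT A ^ k * Y a ^ 1) := by
  rw [← dbl_TT, ← dbl_Y, ← map_pow, ← map_mul, ct_push _ dbl_inj, pow_one]

lemma ct_dbl_odd {m : ℕ} (g : RR m) (e : Ex m) (a : Fin m) (he : Odd (e a)) :
    ct (push (dblH m) g * AddMonoidAlgebra.single e 1) = 0 := by
  induction g using AddMonoidAlgebra.induction_linear with
  | zero => simp
  | add x y hx hy => rw [map_add, add_mul, map_add, hx, hy, add_zero]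
  | single u c =>
    rw [push_single, AddMonoidAlgebra.single_mul_single, ct_apply]
    have : dblH m u + e ≠ 0 := by
      intro h
      have h1 := congrFun h a
      simp only [dblH, AddMonoidHom.coe_mk, ZeroHom.coe_mk, Pi.add_apply, Pi.zero_apply] at h1
      obtain ⟨b, hb⟩ := he
      omega
    simp [this]

lemma TD_Y {m : ℕ} (A : Finset (Fin m)) (k : ℕ) (a : Fin m) : ct (TD A ^ k * Y a) = 0 := by
  rw [← dbl_TT, ← map_pow]
  unfold Y
  exact ct_dbl_odd _ _ a (by simp)

lemma TD_YY {m : ℕ} (A : Finset (Fin m)) (k : ℕ) (a b : Fin m) (h : a ≠ b) : ct (TD A ^ k * (Y a * Y b)) = 0 := by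
  rw [← dbl_TT, ← map_pow]
  unfold Y
  rw [AddMonoidAlgebra.single_mul_single, mul_one]
  exact ct_dbl_odd _ _ a (by simp [Pi.single_eq_of_ne h])

/-- the degree in a class of variables -/
def DegC {m : ℕ} (C : Finset (Fin m)) (p : ℤ) (g : RR m) : Prop := ∀ u : Ex m, g.coeff u ≠ 0 → ∑ a ∈ C, |u a| ≤ p

lemma DegC.mono {m : ℕ} {C : Finset (Fin m)} {p q : ℤ} {g : RR m} (h : DegC C p g) (hpq : p ≤ q) : DegC C q g :=
  fun u hu => (h u hu).trans hpq

lemma DegC.add {m : ℕ} {C : Finset (Fin m)} {p : ℤ} {g h : RR m} (hg : DegC C p g) (hh : DegC C p h) : DegC C p (g + h) := by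
  intro u hu
  by_cases h1 : g.coeff u = 0
  · apply hh u
    intro h2; apply hu
    rw [AddMonoidAlgebra.coeff_add, Finsupp.add_apply, h1, h2, add_zero]
  · exact hg u h1

lemma DegC.smul {m : ℕ} {C : Finset (Fin m)} {p : ℤ} {g : RR m} (c : ℂ) (hg : DegC C p g) : DegC C p (c • g) := by
  intro u hu
  apply hg u
  intro h2; apply hu
  rw [AddMonoidAlgebra.coeff_smul, Finsupp.smul_apply, h2, smul_zero]

lemma DegC.sum {m : ℕ} {C : Finset (Fin m)} {p : ℤ} {ι : Type} (A : Finset ι) (g : ι → RR m) (h : ∀ i ∈ A, DegC C p (g i)) :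
    DegC C p (∑ i ∈ A, g i) := by
  classical
  induction A using Finset.induction_on with
  | empty => intro u hu; simp at hu
  | insert a A ha ih =>
    rw [Finset.sum_insert ha]
    exact (h a (Finset.mem_insert_self _ _)).add (ih fun i hi => h i (Finset.mem_insert_of_mem hi))

lemma DegC.mul {m : ℕ} {C : Finset (Fin m)} {p q : ℤ} {g h : RR m} (hg : DegC C p g) (hh : DegC C q h) :
    DegC C (p + q) (g * h) := by
  classical
  intro u hu
  have h1 : u ∈ (g * h).coeff.support := Finsupp.mem_support_iff.mpr hu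
  have h2 := AddMonoidAlgebra.support_coeff_mul_subset g h h1
  rw [Finset.mem_add] at h2
  obtain ⟨x, hx, y, hy, hxy⟩ := h2
  have h3 := hg x (Finsupp.mem_support_iff.mp hx)
  have h4 := hh y (Finsupp.mem_support_iff.mp hy)
  calc ∑ a ∈ C, |u a| ≤ ∑ a ∈ C, (|x a| + |y a|) := by
        apply Finset.sum_le_sum
        intro a _
        rw [← hxy]
        exact abs_add_le _ _
    _ = ∑ a ∈ C, |x a| + ∑ a ∈ C, |y a| := Finset.sum_add_distrib
    _ ≤ p + q := add_le_add h3 h4

lemma DegC.one {m : ℕ} {C : Finset (Fin m)} : DegC C 0 (1 : RR m) := by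
  intro u hu
  rw [AddMonoidAlgebra.one_def] at hu
  have : u = 0 := by
    by_contra hne
    apply hu
    simp [Ne.symm hne]
  subst this; simp

lemma DegC.pow {m : ℕ} {C : Finset (Fin m)} {p : ℤ} {g : RR m} (hg : DegC C p g) (k : ℕ) : DegC C (k * p) (g ^ k) := by
  induction k with
  | zero => simpa using DegC.one
  | succ k ih =>
    rw [pow_succ]
    refine (ih.mul hg).mono ?_
    push_cast
    linarith [add_mul (k : ℤ) 1 p]

lemma DegC.single {m : ℕ} {C : Finset (Fin m)} (a : Fin m) (c : ℤ) (hc : |c| ≤ 1) :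
    DegC C (if a ∈ C then 1 else 0) (AddMonoidAlgebra.single (Pi.single a c) 1 : RR m) := by
  classical
  intro u hu
  have : u = Pi.single a c := by
    by_contra hne
    apply hu
    simp [Ne.symm hne]
  subst this
  split_ifs with h
  · rw [Finset.sum_eq_single a]
    · simpa using hc
    · intro b _ hb; rw [Pi.single_eq_of_ne hb]; simp
    · intro h'; exact absurd h h'
  · apply le_of_eq
    apply Finset.sum_eq_zero
    intro b hb
    have : b ≠ a := fun h' => h (h' ▸ hb)
    rw [Pi.single_eq_of_ne this]; simp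

/-- constant terms factor over disjoint sets of variables -/
lemma ct_mul {m : ℕ} {C : Finset (Fin m)} {g h : RR m} (hg : DegC Cᶜ 0 g) (hh : DegC C 0 h) :
    ct (g * h) = ct g * ct h := by
  classical
  have key : ∀ g : RR m, ct (g * h) = g.coeff.sum (fun u c => c * h.coeff (-u)) := by
    intro g
    induction g using AddMonoidAlgebra.induction_linear with
    | zero => simp
    | add x y hx hy =>
      rw [add_mul, map_add, hx, hy, AddMonoidAlgebra.coeff_add, Finsupp.sum_add_index']
      · intro u; simp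
      · intro u c d; ring
    | single u c =>
      rw [AddMonoidAlgebra.coeff_single, Finsupp.sum_single_index (by simp), ct_apply,
        AddMonoidAlgebra.coeff_single_mul_apply]
      simp
  rw [key, Finsupp.sum]
  by_cases h0 : (0 : Ex m) ∈ g.coeff.support
  · rw [Finset.sum_eq_single_of_mem 0 h0]
    · rw [neg_zero]; rfl
    · intro u hu hne
      by_contra hcon
      have h1 := hg u (Finsupp.mem_support_iff.mp hu)
      have h2 : h.coeff (-u) ≠ 0 := fun h' => hcon (by rw [h', mul_zero])
      have h3 := hh (-u) h2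
      apply hne
      funext a
      by_cases ha : a ∈ C
      · have h4 : |(-u) a| ≤ 0 := (Finset.single_le_sum (f := fun a => |(-u) a|) (fun _ _ => abs_nonneg _) ha).trans h3
        have h5 := abs_eq_zero.mp (le_antisymm h4 (abs_nonneg _))
        simpa using h5
      · have ha' : a ∈ Cᶜ := Finset.mem_compl.mpr ha
        have h4 : |u a| ≤ 0 := (Finset.single_le_sum (f := fun a => |u a|) (fun _ _ => abs_nonneg _) ha').trans h1
        exact abs_eq_zero.mp (le_antisymm h4 (abs_nonneg _))
  · have h00 : ct g = 0 := Finsupp.notMem_support_iff.mp h0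
    rw [h00, zero_mul]
    apply Finset.sum_eq_zero
    intro u hu
    by_contra hcon
    have h1 := hg u (Finsupp.mem_support_iff.mp hu)
    have h2 : h.coeff (-u) ≠ 0 := fun h' => hcon (by rw [h', mul_zero])
    have h3 := hh (-u) h2
    have : u = 0 := by
      funext a
      by_cases ha : a ∈ C
      · have h4 : |(-u) a| ≤ 0 := (Finset.single_le_sum (f := fun a => |(-u) a|) (fun _ _ => abs_nonneg _) ha).trans h3
        have h5 := abs_eq_zero.mp (le_antisymm h4 (abs_nonneg _))
        simpa using h5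
      · have ha' : a ∈ Cᶜ := Finset.mem_compl.mpr ha
        have h4 : |u a| ≤ 0 := (Finset.single_le_sum (f := fun a => |u a|) (fun _ _ => abs_nonneg _) ha').trans h1
        exact abs_eq_zero.mp (le_antisymm h4 (abs_nonneg _))
    rw [this] at hu
    exact h0 hu

end

end Pool.Agent.Helper54.Mix
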