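import Pool.Agent.Helper54.Mix.Cls

/-!
# The polynomials of one parity class and their moments
-/

set_option autoImplicit false

namespace Pool.Agent.Helper54.Mix

open Finset

noncomputable section

/-- `(T⁴ - 28 t T² + 144 t²)²` -/
def PA {m : ℕ} (C : Finset (Fin m)) (t : ℝ) : RR m :=
  (1 : ℂ) • TT C ^ 8 + ((-56 * t : ℝ) : ℂ) • TT C ^ 6 + ((1072 * t ^ 2 : ℝ) : ℂ) • TT C ^ 4 +
    ((-8064 * t ^ 3 : ℝ) : ℂ) • TT C ^ 2 + ((20736 * t ^ 4 : ℝ) : ℂ) • TT C ^ 0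

/-- the same at `T + 2` -/
def QA {m : ℕ} (C : Finset (Fin m)) (t : ℝ) : RR m :=
  (1 : ℂ) • TT C ^ 8 + (16 : ℂ) • TT C ^ 7 + ((112 - 56 * t : ℝ) : ℂ) • TT C ^ 6 +
    ((448 - 672 * t : ℝ) : ℂ) • TT C ^ 5 + ((1120 - 3360 * t + 1072 * t ^ 2 : ℝ) : ℂ) • TT C ^ 4 +
    ((1792 - 8960 * t + 8576 * t ^ 2 : ℝ) : ℂ) • TT C ^ 3 +
    ((1792 - 13440 * t + 25728 * t ^ 2 - 8064 * t ^ 3 : ℝ) : ℂ) • TT C ^ 2 +
    ((1024 - 10752 * t + 34304 * t ^ 2 - 32256 * t ^ 3 : ℝ) : ℂ) • TT C ^ 1 +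
    ((256 - 3584 * t + 17152 * t ^ 2 - 32256 * t ^ 3 + 20736 * t ^ 4 : ℝ) : ℂ) • TT C ^ 0

/-- `16 t⁴ (1 - T₂/(2t))⁴` -/
def DA {m : ℕ} (C : Finset (Fin m)) (t : ℝ) : RR m :=
  (1 : ℂ) • TD C ^ 4 + ((-8 * t : ℝ) : ℂ) • TD C ^ 3 + ((24 * t ^ 2 : ℝ) : ℂ) • TD C ^ 2 +
    ((-32 * t ^ 3 : ℝ) : ℂ) • TD C ^ 1 + ((16 * t ^ 4 : ℝ) : ℂ) • TD C ^ 0

section moments

variable {m : ℕ} {C : Finset (Fin m)} {t : ℝ}

lemma PA_mom (ht : t = C.card) : ct (PA C t) = ((12432 * t ^ 4 - 1392 * t ^ 3 + 1260 * t ^ 2 - 2310 * t : ℝ) : ℂ) := by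
  unfold PA
  simp only [map_add, map_smul, smul_eq_mul, c0, c2, c4, c6, c8]
  rw [ht]; push_cast; ring

lemma QA_mom (ht : t = C.card) : ct (QA C t) = ((12432 * t ^ 4 - 9072 * t ^ 3 + 4972 * t ^ 2 - 70 * t + 256 : ℝ) : ℂ) := by
  unfold QA
  simp only [map_add, map_smul, smul_eq_mul, c0, c1, c2, c3, c4, c5, c6, c7, c8]
  rw [ht]; push_cast; ring

lemma DA_mom (ht : t = C.card) : ct (DA C t) = ((16 * t ^ 4 + 48 * t ^ 3 + 12 * t ^ 2 - 6 * t : ℝ) : ℂ) := by
  unfold DA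
  simp only [map_add, map_smul, smul_eq_mul, TD_pow, c0, c1, c2, c3, c4]
  rw [ht]; push_cast; ring

lemma PA_Y (ht : t = C.card) {a : Fin m} (ha : a ∈ C) : ct (PA C t * Y a) = 0 := by
  classical
  have hC : insert a (C.erase a) = C := Finset.insert_erase ha
  have hn : a ∉ C.erase a := Finset.notMem_erase _ _
  have hc : (t : ℂ) = (C.erase a).card + 1 := by
    rw [ht, ← hC, Finset.card_insert_of_notMem hn]; simp
  have h0 := d0 hn _ hc
  have h2 := d2 hn _ hc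
  have h4 := d4 hn _ hc
  have h6 := d6 hn _ hc
  have h8 := d8 hn _ hc
  rw [hC, pow_one] at h0 h2 h4 h6 h8
  unfold PA
  simp only [add_mul, smul_mul_assoc, map_add, map_smul, smul_eq_mul, h0, h2, h4, h6, h8]
  ring

lemma QA_Y (ht : t = C.card) {a : Fin m} (ha : a ∈ C) : ct (QA C t * Y a) =
    ((-7680 * t ^ 3 + 1856 * t ^ 2 + 5600 * t - 4912 : ℝ) : ℂ) := by
  classical
  have hC : insert a (C.erase a) = C := Finset.insert_erase ha
  have hn : a ∉ C.erase a := Finset.notMem_erase _ _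
  have hc : (t : ℂ) = (C.erase a).card + 1 := by
    rw [ht, ← hC, Finset.card_insert_of_notMem hn]; simp
  have h0 := d0 hn _ hc
  have h1 := d1 hn _ hc
  have h2 := d2 hn _ hc
  have h3 := d3 hn _ hc
  have h4 := d4 hn _ hc
  have h5 := d5 hn _ hc
  have h6 := d6 hn _ hc
  have h7 := d7 hn _ hc
  have h8 := d8 hn _ hc
  rw [hC, pow_one] at h0 h2 h3 h4 h5 h6 h7 h8
  rw [hC, pow_one (Y a)] at h1
  unfold QA
  simp only [add_mul, smul_mul_assoc, map_add, map_smul, smul_eq_mul, h0, h1, h2, h3, h4, h5, h6, h7, h8]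
  push_cast; ring

lemma DA_Y (a : Fin m) : ct (DA C t * Y a) = 0 := by
  unfold DA
  simp only [add_mul, smul_mul_assoc, map_add, map_smul, smul_eq_mul, TD_Y]
  ring

lemma PA_Y2 (ht : t = C.card) {a : Fin m} (ha : a ∈ C) : ct (PA C t * Y a ^ 2) =
    ((-1920 * t ^ 3 - 1856 * t ^ 2 + 5600 * t - 6384 : ℝ) : ℂ) := by
  classical
  have hC : insert a (C.erase a) = C := Finset.insert_erase ha
  have hn : a ∉ C.erase a := Finset.notMem_erase _ _
  have hc : (t : ℂ) = (C.erase a).card + 1 := by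
    rw [ht, ← hC, Finset.card_insert_of_notMem hn]; simp
  have h0 := e0 hn _ hc
  have h2 := e2 hn _ hc
  have h4 := e4 hn _ hc
  have h6 := e6 hn _ hc
  have h8 := e8 hn _ hc
  rw [hC] at h0 h2 h4 h6 h8
  unfold PA
  simp only [add_mul, smul_mul_assoc, map_add, map_smul, smul_eq_mul, h0, h2, h4, h6, h8]
  push_cast; ring

lemma QA_Y2 (ht : t = C.card) {a : Fin m} (ha : a ∈ C) : ct (QA C t * Y a ^ 2) =
    ((-1920 * t ^ 3 + 3712 * t ^ 2 - 4480 * t + 4928 : ℝ) : ℂ) := by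
  classical
  have hC : insert a (C.erase a) = C := Finset.insert_erase ha
  have hn : a ∉ C.erase a := Finset.notMem_erase _ _
  have hc : (t : ℂ) = (C.erase a).card + 1 := by
    rw [ht, ← hC, Finset.card_insert_of_notMem hn]; simp
  have h0 := e0 hn _ hc
  have h1 := e1 hn _ hc
  have h2 := e2 hn _ hc
  have h3 := e3 hn _ hc
  have h4 := e4 hn _ hc
  have h5 := e5 hn _ hc
  have h6 := e6 hn _ hc
  have h7 := e7 hn _ hc
  have h8 := e8 hn _ hc
  rw [hC] at h0 h1 h2 h3 h4 h5 h6 h7 h8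
  unfold QA
  simp only [add_mul, smul_mul_assoc, map_add, map_smul, smul_eq_mul, h0, h1, h2, h3, h4, h5, h6, h7, h8]
  push_cast; ring

lemma DA_Y2 (ht : t = C.card) {a : Fin m} (ha : a ∈ C) : ct (DA C t * Y a ^ 2) =
    ((-32 * t ^ 3 - 48 * t ^ 2 + 24 * t : ℝ) : ℂ) := by
  classical
  have hC : insert a (C.erase a) = C := Finset.insert_erase ha
  have hn : a ∉ C.erase a := Finset.notMem_erase _ _
  have hc : (t : ℂ) = (C.erase a).card + 1 := by
    rw [ht, ← hC, Finset.card_insert_of_notMem hn]; simp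
  have h0 := d0 hn _ hc
  have h1 := d1 hn _ hc
  have h2 := d2 hn _ hc
  have h3 := d3 hn _ hc
  have h4 := d4 hn _ hc
  rw [hC] at h0 h1 h2 h3 h4
  unfold DA
  simp only [add_mul, smul_mul_assoc, map_add, map_smul, smul_eq_mul, TD_pow2, h0, h1, h2, h3, h4]
  push_cast; ring

lemma PA_YY (ht : t = C.card) {a b : Fin m} (ha : a ∈ C) (hb : b ∈ C) (hab : a ≠ b) :
    ct (PA C t * (Y a * Y b)) = ((-3840 * t ^ 3 - 5568 * t ^ 2 + 14560 * t - 31920 : ℝ) : ℂ) := by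
  classical
  have e1 : insert a ((C.erase b).erase a) = C.erase b := Finset.insert_erase (Finset.mem_erase.mpr ⟨hab, ha⟩)
  have hn : a ∉ (C.erase b).erase a := Finset.notMem_erase _ _
  have hn2 : b ∉ insert a ((C.erase b).erase a) := by rw [e1]; exact Finset.notMem_erase _ _
  have hC : insert b (insert a ((C.erase b).erase a)) = C := by rw [e1]; exact Finset.insert_erase hb
  have hc : (t : ℂ) = ((C.erase b).erase a).card + 2 := by
    rw [ht]
    have h1 : C.card = ((C.erase b).erase a).card + 1 + 1 := by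
      rw [← Finset.card_insert_of_notMem hn, ← Finset.card_insert_of_notMem hn2, hC]
    rw [h1]; push_cast; ring
  have h0 := f0 hn hn2 _ hc
  have h2 := f2 hn hn2 _ hc
  have h4 := f4 hn hn2 _ hc
  have h6 := f6 hn hn2 _ hc
  have h8 := f8 hn hn2 _ hc
  rw [hC] at h0 h2 h4 h6 h8
  unfold PA
  simp only [add_mul, smul_mul_assoc, map_add, map_smul, smul_eq_mul, h0, h2, h4, h6, h8]
  push_cast; ring

lemma QA_YY (ht : t = C.card) {a b : Fin m} (ha : a ∈ C) (hb : b ∈ C) (hab : a ≠ b) :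
    ct (QA C t * (Y a * Y b)) = ((-3840 * t ^ 3 + 5568 * t ^ 2 - 5600 * t + 18704 : ℝ) : ℂ) := by
  classical
  have e1 : insert a ((C.erase b).erase a) = C.erase b := Finset.insert_erase (Finset.mem_erase.mpr ⟨hab, ha⟩)
  have hn : a ∉ (C.erase b).erase a := Finset.notMem_erase _ _
  have hn2 : b ∉ insert a ((C.erase b).erase a) := by rw [e1]; exact Finset.notMem_erase _ _
  have hC : insert b (insert a ((C.erase b).erase a)) = C := by rw [e1]; exact Finset.insert_erase hb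
  have hc : (t : ℂ) = ((C.erase b).erase a).card + 2 := by
    rw [ht]
    have h1 : C.card = ((C.erase b).erase a).card + 1 + 1 := by
      rw [← Finset.card_insert_of_notMem hn, ← Finset.card_insert_of_notMem hn2, hC]
    rw [h1]; push_cast; ring
  have h0 := f0 hn hn2 _ hc
  have h1 := f1 hn hn2 _ hc
  have h2 := f2 hn hn2 _ hc
  have h3 := f3 hn hn2 _ hc
  have h4 := f4 hn hn2 _ hc
  have h5 := f5 hn hn2 _ hc
  have h6 := f6 hn hn2 _ hc
  have h7 := f7 hn hn2 _ hc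
  have h8 := f8 hn hn2 _ hc
  rw [hC] at h0 h1 h2 h3 h4 h5 h6 h7 h8
  unfold QA
  simp only [add_mul, smul_mul_assoc, map_add, map_smul, smul_eq_mul, h0, h1, h2, h3, h4, h5, h6, h7, h8]
  push_cast; ring

lemma DA_YY {a b : Fin m} (hab : a ≠ b) : ct (DA C t * (Y a * Y b)) = 0 := by
  unfold DA
  simp only [add_mul, smul_mul_assoc, map_add, map_smul, smul_eq_mul, TD_YY _ _ _ _ hab]
  ring

end moments

/-- the combination -/
def GG4 {m : ℕ} (C : Finset (Fin m)) (t A B κ ρ : ℝ) : RR m :=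
  ((A : ℝ) : ℂ) • QA C t + ((B : ℝ) : ℂ) • PA C t + ((κ : ℝ) : ℂ) • DA C t + ((ρ : ℝ) : ℂ) • 1

lemma flip_GG4 {m : ℕ} (C : Finset (Fin m)) (t A B κ ρ : ℝ) (a : Fin m) :
    push (flipH a) (GG4 C t A B κ ρ) = GG4 C t A B κ ρ := by
  unfold GG4 QA PA DA
  simp only [map_add, map_smul, map_pow, map_one, flip_TT, flip_TD]

lemma deg_TT {m : ℕ} (C D : Finset (Fin m)) (h : Disjoint C D ∨ D = C) :
    DegC D (if D = C then 1 else 0) (TT C) ∧ DegC D (if D = C then 2 else 0) (TD C) := by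
  classical
  have hY : ∀ a ∈ C, DegC D (if D = C then 1 else 0) (Y a) := by
    intro a ha
    refine (DegC.single a 1 (by norm_num)).mono ?_
    rcases h with h | h
    · rw [if_neg (Finset.disjoint_left.mp h ha)]; split_ifs <;> norm_num
    · rw [if_pos h]; split_ifs <;> norm_num
  have hYi : ∀ a ∈ C, DegC D (if D = C then 1 else 0) (Yi a) := by
    intro a ha
    refine (DegC.single a (-1) (by norm_num)).mono ?_
    rcases h with h | h
    · rw [if_neg (Finset.disjoint_left.mp h ha)]; split_ifs <;> norm_num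
    · rw [if_pos h]; split_ifs <;> norm_num
  constructor
  · unfold TT
    exact DegC.sum _ _ fun a ha => (hY a ha).add (hYi a ha)
  · unfold TD
    refine DegC.sum _ _ fun a ha => ?_
    have e : ((2 : ℕ) : ℤ) * (if D = C then 1 else 0) ≤ (if D = C then 2 else 0) := by split_ifs <;> norm_num
    exact (((hY a ha).pow 2).mono e).add (((hYi a ha).pow 2).mono e)

lemma deg_GG4 {m : ℕ} (C D : Finset (Fin m)) (h : Disjoint C D ∨ D = C) (t A B κ ρ : ℝ) :
    DegC D (if D = C then 8 else 0) (GG4 C t A B κ ρ) := by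
  obtain ⟨h1, h2⟩ := deg_TT C D h
  have hT : ∀ k : ℕ, k ≤ 8 → DegC D (if D = C then 8 else 0) (TT C ^ k) := by
    intro k hk
    refine (h1.pow k).mono ?_
    split_ifs
    · push_cast; omega
    · simp
  have hD : ∀ k : ℕ, k ≤ 4 → DegC D (if D = C then 8 else 0) (TD C ^ k) := by
    intro k hk
    refine (h2.pow k).mono ?_
    split_ifs
    · push_cast; omega
    · simp
  have h0 : DegC D (if D = C then 8 else 0) (1 : RR m) := DegC.one.mono (by split_ifs <;> norm_num)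
  unfold GG4 QA PA DA
  refine (((DegC.smul _ ?_).add (DegC.smul _ ?_)).add (DegC.smul _ ?_)).add (DegC.smul _ h0)
  · exact ((((((((((hT 8 (by norm_num)).smul _).add ((hT 7 (by norm_num)).smul _)).add ((hT 6 (by norm_num)).smul _)).add
      ((hT 5 (by norm_num)).smul _)).add ((hT 4 (by norm_num)).smul _)).add ((hT 3 (by norm_num)).smul _)).add
      ((hT 2 (by norm_num)).smul _)).add ((hT 1 (by norm_num)).smul _)).add ((hT 0 (by norm_num)).smul _))
  · exact ((((((hT 8 (by norm_num)).smul _).add ((hT 6 (by norm_num)).smul _)).add ((hT 4 (by norm_num)).smul _)).add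
      ((hT 2 (by norm_num)).smul _)).add ((hT 0 (by norm_num)).smul _))
  · exact ((((((hD 4 (by norm_num)).smul _).add ((hD 3 (by norm_num)).smul _)).add ((hD 2 (by norm_num)).smul _)).add
      ((hD 1 (by norm_num)).smul _)).add ((hD 0 (by norm_num)).smul _))

lemma ev_TT {m : ℕ} (ν : Fin m → ℝ) (s : ℝ) (C : Finset (Fin m)) :
    ev ν s (TT C) = ((∑ a ∈ C, 2 * Real.cos (ν a * s) : ℝ) : ℂ) := by
  unfold TT
  rw [map_sum]
  push_cast
  apply Finset.sum_congr rfl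
  intro a _
  rw [map_add, ev_Y, ev_Yi]
  push_cast
  rw [Complex.cos]
  ring_nf

lemma ev_TD {m : ℕ} (ν : Fin m → ℝ) (s : ℝ) (C : Finset (Fin m)) :
    ev ν s (TD C) = ((∑ a ∈ C, 2 * Real.cos (2 * (ν a * s)) : ℝ) : ℂ) := by
  unfold TD
  rw [map_sum]
  push_cast
  apply Finset.sum_congr rfl
  intro a _
  rw [map_add, map_pow, map_pow, ev_Y, ev_Yi, ← Complex.exp_nat_mul, ← Complex.exp_nat_mul]
  push_cast
  rw [Complex.cos]
  ring_nf

/-- the combination is nonnegative -/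
lemma ev_GG4 {m : ℕ} (ν : Fin m → ℝ) (s : ℝ) (C : Finset (Fin m)) (t A B κ ρ : ℝ) (hA : 0 ≤ A) (hB : 0 ≤ B)
    (hκ : 0 ≤ κ) (hρ : 0 ≤ ρ) : ∃ g : ℝ, 0 ≤ g ∧ ev ν s (GG4 C t A B κ ρ) = (g : ℂ) := by
  set T : ℝ := ∑ a ∈ C, 2 * Real.cos (ν a * s) with hT
  set D : ℝ := ∑ a ∈ C, 2 * Real.cos (2 * (ν a * s)) with hD
  refine ⟨A * ((T + 2) ^ 4 - 28 * t * (T + 2) ^ 2 + 144 * t ^ 2) ^ 2 + B * (T ^ 4 - 28 * t * T ^ 2 + 144 * t ^ 2) ^ 2 +
    κ * ((2 * t - D) ^ 2) ^ 2 + ρ, by positivity, ?_⟩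
  unfold GG4 QA PA DA
  simp only [map_add, map_smul, map_pow, map_one, ev_TT, ev_TD, smul_eq_mul]
  rw [← hT, ← hD]
  push_cast
  ring

end

end Pool.Agent.Helper54.Mix
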