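import Pool.Agent.Helper54.Mix.Cls2

/-!
# The two parity classes
-/

set_option autoImplicit false

namespace Pool.Agent.Helper54.Mix

open Finset

noncomputable section

/-- what we need from the polynomial of a class -/
structure Good {m : ℕ} (C : Finset (Fin m)) (n c1 : ℝ) (G : RR m) : Prop where
  one : ct G = 1
  y : ∀ a ∈ C, ct (G * Y a) = (c1 : ℂ)
  y2 : ∀ a ∈ C, ct (G * Y a ^ 2) = ((-(1 / n) : ℝ) : ℂ)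
  yy : ∀ a ∈ C, ∀ b ∈ C, a ≠ b → ct (G * (Y a * Y b)) = ((-(1 / n) : ℝ) : ℂ)
  flip : ∀ a, push (flipH a) G = G
  deg : ∀ D, Disjoint C D ∨ D = C → DegC D (if D = C then 8 else 0) G
  pos : ∀ (ν : Fin m → ℝ) (s : ℝ), ∃ g : ℝ, 0 ≤ g ∧ ev ν s G = (g : ℂ)

lemma GG4_one {m : ℕ} {C : Finset (Fin m)} {t : ℝ} (ht : t = C.card) (A B κ ρ : ℝ) :
    ct (GG4 C t A B κ ρ) = ((A * (12432 * t ^ 4 - 9072 * t ^ 3 + 4972 * t ^ 2 - 70 * t + 256) +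
      B * (12432 * t ^ 4 - 1392 * t ^ 3 + 1260 * t ^ 2 - 2310 * t) +
      κ * (16 * t ^ 4 + 48 * t ^ 3 + 12 * t ^ 2 - 6 * t) + ρ : ℝ) : ℂ) := by
  unfold GG4
  simp only [map_add, map_smul, smul_eq_mul, QA_mom ht, PA_mom ht, DA_mom ht, ct_one]
  push_cast; ring

lemma GG4_y {m : ℕ} {C : Finset (Fin m)} {t : ℝ} (ht : t = C.card) (A B κ ρ : ℝ) {a : Fin m} (ha : a ∈ C) :
    ct (GG4 C t A B κ ρ * Y a) = ((-A * (7680 * t ^ 3 - 1856 * t ^ 2 - 5600 * t + 4912) : ℝ) : ℂ) := by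
  have h1 : ct (Y a) = 0 := by
    apply ct_eq_zero (wa a) _ 1 (by norm_num); rw [tau_Y]; norm_num
  unfold GG4
  simp only [add_mul, smul_mul_assoc, one_mul, map_add, map_smul, smul_eq_mul, QA_Y ht ha, PA_Y ht ha, DA_Y, h1]
  push_cast; ring

lemma GG4_y2 {m : ℕ} {C : Finset (Fin m)} {t : ℝ} (ht : t = C.card) (A B κ ρ : ℝ) {a : Fin m} (ha : a ∈ C) :
    ct (GG4 C t A B κ ρ * Y a ^ 2) = ((-A * (1920 * t ^ 3 - 3712 * t ^ 2 + 4480 * t - 4928) -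
      B * (1920 * t ^ 3 + 1856 * t ^ 2 - 5600 * t + 6384) - κ * (32 * t ^ 3 + 48 * t ^ 2 - 24 * t) : ℝ) : ℂ) := by
  have h1 : ct (Y a ^ 2) = 0 := by
    apply ct_eq_zero (wa a) _ 2 (by norm_num); rw [map_pow, tau_Y, smul_pow]; norm_num
  unfold GG4
  simp only [add_mul, smul_mul_assoc, one_mul, map_add, map_smul, smul_eq_mul, QA_Y2 ht ha, PA_Y2 ht ha, DA_Y2 ht ha, h1]
  push_cast; ring

lemma GG4_yy {m : ℕ} {C : Finset (Fin m)} {t : ℝ} (ht : t = C.card) (A B κ ρ : ℝ) {a b : Fin m} (ha : a ∈ C)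
    (hb : b ∈ C) (hab : a ≠ b) :
    ct (GG4 C t A B κ ρ * (Y a * Y b)) = ((-A * (3840 * t ^ 3 - 5568 * t ^ 2 + 5600 * t - 18704) -
      B * (3840 * t ^ 3 + 5568 * t ^ 2 - 14560 * t + 31920) : ℝ) : ℂ) := by
  have h1 : ct (Y a * Y b) = 0 := by
    apply ct_eq_zero wg _ 2 (by norm_num)
    rw [map_mul, tau_gY, tau_gY, smul_mul_smul_comm]; norm_num
  unfold GG4
  simp only [add_mul, smul_mul_assoc, one_mul, map_add, map_smul, smul_eq_mul, QA_YY ht ha hb hab,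
    PA_YY ht ha hb hab, DA_YY hab, h1]
  push_cast; ring

lemma exists_good_odd {m : ℕ} (C : Finset (Fin m)) (n : ℝ) (h3 : 3 ≤ C.card) (hn : 4 * (C.card : ℝ) - 1 ≤ n) :
    ∃ G : RR m, Good C n 0 G := by
  obtain ⟨t, ht⟩ : ∃ t : ℝ, t = C.card := ⟨_, rfl⟩
  have ht3 : 3 ≤ t := by rw [ht]; exact_mod_cast h3
  obtain ⟨s, hs⟩ : ∃ s : ℝ, t = s + 3 := ⟨t - 3, by ring⟩
  have hs0 : 0 ≤ s := by linarith
  rw [← ht] at hn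
  have hn0 : 0 < n := by linarith
  obtain ⟨P, hP⟩ : ∃ P : ℝ, P = 3840 * t ^ 3 + 5568 * t ^ 2 - 14560 * t + 31920 := ⟨_, rfl⟩
  obtain ⟨P2, hP2⟩ : ∃ P2 : ℝ, P2 = 1920 * t ^ 3 + 1856 * t ^ 2 - 5600 * t + 6384 := ⟨_, rfl⟩
  obtain ⟨P0, hP0⟩ : ∃ P0 : ℝ, P0 = 12432 * t ^ 4 - 1392 * t ^ 3 + 1260 * t ^ 2 - 2310 * t := ⟨_, rfl⟩
  obtain ⟨D0, hD0⟩ : ∃ D0 : ℝ, D0 = 16 * t ^ 4 + 48 * t ^ 3 + 12 * t ^ 2 - 6 * t := ⟨_, rfl⟩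
  obtain ⟨D1, hD1⟩ : ∃ D1 : ℝ, D1 = 32 * t ^ 3 + 48 * t ^ 2 - 24 * t := ⟨_, rfl⟩
  have hPs : P = 142032 * s ^ 0 + 122528 * s ^ 1 + 40128 * s ^ 2 + 3840 * s ^ 3 := by rw [hP, hs]; ring
  have hPP : P - P2 = 83904 * s ^ 0 + 65152 * s ^ 1 + 20992 * s ^ 2 + 1920 * s ^ 3 := by rw [hP, hP2, hs]; ring
  have hD1s : D1 = 1224 * s ^ 0 + 1128 * s ^ 1 + 336 * s ^ 2 + 32 * s ^ 3 := by rw [hD1, hs]; ring
  have hPpos : 0 < P := by rw [hPs]; positivity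
  have hPPpos : 0 ≤ P - P2 := by rw [hPP]; positivity
  have hD1pos : 0 < D1 := by rw [hD1s]; positivity
  have hkey : (4 * t - 1) * (P * D1) - (P0 * D1 + (P - P2) * D0) =
      495335088 * s ^ 0 + 971136864 * s ^ 1 + 845780400 * s ^ 2 + 420426816 * s ^ 3 + 125799680 * s ^ 4 + 21864192 * s ^ 5 + 1945856 * s ^ 6 + 62976 * s ^ 7 := by
    rw [hP, hP2, hP0, hD0, hD1, hs]; ring
  have hkey2 : 0 ≤ (4 * t - 1) * (P * D1) - (P0 * D1 + (P - P2) * D0) := by rw [hkey]; positivity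
  have hmass : 1 / (n * P) * P0 + (P - P2) / (n * (P * D1)) * D0 ≤ 1 := by
    have e : 1 / (n * P) * P0 + (P - P2) / (n * (P * D1)) * D0 = (P0 * D1 + (P - P2) * D0) / (n * (P * D1)) := by
      field_simp
    rw [e, div_le_one (by positivity)]
    have : (4 * t - 1) * (P * D1) ≤ n * (P * D1) := mul_le_mul_of_nonneg_right hn (by positivity)
    linarith
  refine ⟨GG4 C t 0 (1 / (n * P)) ((P - P2) / (n * (P * D1))) (1 - (1 / (n * P) * P0 + (P - P2) / (n * (P * D1)) * D0)),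
    ⟨?_, ?_, ?_, ?_, flip_GG4 _ _ _ _ _ _, fun D h => deg_GG4 _ _ h _ _ _ _ _, ?_⟩⟩
  · rw [GG4_one ht, ← hP0, ← hD0]
    push_cast; ring
  · intro a ha
    rw [GG4_y ht _ _ _ _ ha]; simp
  · intro a ha
    rw [GG4_y2 ht _ _ _ _ ha, ← hP2, ← hD1]
    congr 1
    field_simp
    ring
  · intro a ha b hb hab
    rw [GG4_yy ht _ _ _ _ ha hb hab, ← hP]
    congr 1
    field_simp
    ring
  · intro ν s'
    exact ev_GG4 ν s' C t _ _ _ _ le_rfl (by positivity) (by positivity) (by linarith)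

lemma exists_good_even {m : ℕ} (C : Finset (Fin m)) (n : ℝ) (h3 : 3 ≤ C.card) (hn : 4 * (C.card : ℝ) + 1 ≤ n) :
    ∃ G : RR m, Good C n (-(1 / n)) G := by
  obtain ⟨t, ht⟩ : ∃ t : ℝ, t = C.card := ⟨_, rfl⟩
  have ht3 : 3 ≤ t := by rw [ht]; exact_mod_cast h3
  obtain ⟨s, hs⟩ : ∃ s : ℝ, t = s + 3 := ⟨t - 3, by ring⟩
  have hs0 : 0 ≤ s := by linarith
  rw [← ht] at hn
  have hn0 : 0 < n := by linarith
  obtain ⟨P, hP⟩ : ∃ P : ℝ, P = 3840 * t ^ 3 + 5568 * t ^ 2 - 14560 * t + 31920 := ⟨_, rfl⟩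
  obtain ⟨P2, hP2⟩ : ∃ P2 : ℝ, P2 = 1920 * t ^ 3 + 1856 * t ^ 2 - 5600 * t + 6384 := ⟨_, rfl⟩
  obtain ⟨P0, hP0⟩ : ∃ P0 : ℝ, P0 = 12432 * t ^ 4 - 1392 * t ^ 3 + 1260 * t ^ 2 - 2310 * t := ⟨_, rfl⟩
  obtain ⟨Q0, hQ0⟩ : ∃ Q0 : ℝ, Q0 = 12432 * t ^ 4 - 9072 * t ^ 3 + 4972 * t ^ 2 - 70 * t + 256 := ⟨_, rfl⟩
  obtain ⟨Q1, hQ1⟩ : ∃ Q1 : ℝ, Q1 = 7680 * t ^ 3 - 1856 * t ^ 2 - 5600 * t + 4912 := ⟨_, rfl⟩
  obtain ⟨Q11, hQ11⟩ : ∃ Q11 : ℝ, Q11 = 3840 * t ^ 3 - 5568 * t ^ 2 + 5600 * t - 18704 := ⟨_, rfl⟩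
  obtain ⟨Q2, hQ2⟩ : ∃ Q2 : ℝ, Q2 = 1920 * t ^ 3 - 3712 * t ^ 2 + 4480 * t - 4928 := ⟨_, rfl⟩
  obtain ⟨D0, hD0⟩ : ∃ D0 : ℝ, D0 = 16 * t ^ 4 + 48 * t ^ 3 + 12 * t ^ 2 - 6 * t := ⟨_, rfl⟩
  obtain ⟨D1, hD1⟩ : ∃ D1 : ℝ, D1 = 32 * t ^ 3 + 48 * t ^ 2 - 24 * t := ⟨_, rfl⟩
  obtain ⟨κ0, hκ0⟩ : ∃ κ0 : ℝ, κ0 = Q1 * P - Q2 * P - (Q1 - Q11) * P2 := ⟨_, rfl⟩
  have hPs : P = 142032 * s ^ 0 + 122528 * s ^ 1 + 40128 * s ^ 2 + 3840 * s ^ 3 := by rw [hP, hs]; ring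
  have hQ1s : Q1 = 178768 * s ^ 0 + 190624 * s ^ 1 + 67264 * s ^ 2 + 7680 * s ^ 3 := by rw [hQ1, hs]; ring
  have hQQ : Q1 - Q11 = 127104 * s ^ 0 + 114752 * s ^ 1 + 38272 * s ^ 2 + 3840 * s ^ 3 := by rw [hQ1, hQ11, hs]; ring
  have hD1s : D1 = 1224 * s ^ 0 + 1128 * s ^ 1 + 336 * s ^ 2 + 32 * s ^ 3 := by rw [hD1, hs]; ring
  have hκs : κ0 = 14175565056 * s ^ 0 + 26878470144 * s ^ 1 + 21662940160 * s ^ 2 + 9404413952 * s ^ 3 + 2288705536 * s ^ 4 + 290365440 * s ^ 5 + 14745600 * s ^ 6 := by rw [hκ0, hQ1, hP, hQ2, hQ11, hP2, hs]; ring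
  have hPpos : 0 < P := by rw [hPs]; positivity
  have hQ1pos : 0 < Q1 := by rw [hQ1s]; positivity
  have hQQpos : 0 ≤ Q1 - Q11 := by rw [hQQ]; positivity
  have hD1pos : 0 < D1 := by rw [hD1s]; positivity
  have hκpos : 0 ≤ κ0 := by rw [hκs]; positivity
  have hkey : (4 * t + 1) * (Q1 * P * D1) - (Q0 * P * D1 + (Q1 - Q11) * P0 * D1 + κ0 * D0) =
      74229951073536 * s ^ 0 + 233571784951296 * s ^ 1 + 331005567382272 * s ^ 2 + 277645475028480 * s ^ 3 + 152218923144192 * s ^ 4 + 56783935463424 * s ^ 5 + 14530121576448 * s ^ 6 + 2504934785024 * s ^ 7 + 276779663360 * s ^ 8 + 17581178880 * s ^ 9 + 483655680 * s ^ 10 := by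
    rw [hκ0, hP, hP2, hP0, hQ0, hQ1, hQ11, hQ2, hD0, hD1, hs]; ring
  have hkey2 : 0 ≤ (4 * t + 1) * (Q1 * P * D1) - (Q0 * P * D1 + (Q1 - Q11) * P0 * D1 + κ0 * D0) := by
    rw [hkey]; positivity
  have hmass : 1 / (n * Q1) * Q0 + (Q1 - Q11) / (n * (Q1 * P)) * P0 + κ0 / (n * (Q1 * P * D1)) * D0 ≤ 1 := by
    have e : 1 / (n * Q1) * Q0 + (Q1 - Q11) / (n * (Q1 * P)) * P0 + κ0 / (n * (Q1 * P * D1)) * D0 =
        (Q0 * P * D1 + (Q1 - Q11) * P0 * D1 + κ0 * D0) / (n * (Q1 * P * D1)) := by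
      field_simp
    rw [e, div_le_one (by positivity)]
    have : (4 * t + 1) * (Q1 * P * D1) ≤ n * (Q1 * P * D1) := mul_le_mul_of_nonneg_right hn (by positivity)
    linarith
  refine ⟨GG4 C t (1 / (n * Q1)) ((Q1 - Q11) / (n * (Q1 * P))) (κ0 / (n * (Q1 * P * D1)))
    (1 - (1 / (n * Q1) * Q0 + (Q1 - Q11) / (n * (Q1 * P)) * P0 + κ0 / (n * (Q1 * P * D1)) * D0)),
    ⟨?_, ?_, ?_, ?_, flip_GG4 _ _ _ _ _ _, fun D h => deg_GG4 _ _ h _ _ _ _ _, ?_⟩⟩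
  · rw [GG4_one ht, ← hP0, ← hD0, ← hQ0]
    push_cast; ring
  · intro a ha
    rw [GG4_y ht _ _ _ _ ha, ← hQ1]
    congr 1
    field_simp
  · intro a ha
    rw [GG4_y2 ht _ _ _ _ ha, ← hP2, ← hD1, ← hQ2]
    congr 1
    field_simp
    rw [hκ0]
    ring
  · intro a ha b hb hab
    rw [GG4_yy ht _ _ _ _ ha hb hab, ← hP, ← hQ11]
    congr 1
    field_simp
    ring
  · intro ν s'
    exact ev_GG4 ν s' C t _ _ _ _ (by positivity) (by positivity) (by positivity) (by linarith)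

end

end Pool.Agent.Helper54.Mix
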