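import Pool.Agent.Helper54.Mix.Laur

/-!
# Constant terms of powers of `y_1 + 1/y_1 + ... + y_t + 1/y_t`
-/

set_option autoImplicit false

namespace Pool.Agent.Helper54.Mix

open Finset

noncomputable section

/-- real partial sums -/
def TT {m : ℕ} (A : Finset (Fin m)) : RR m := ∑ j ∈ A, (Y j + Yi j)

lemma TT_insert {m : ℕ} {A : Finset (Fin m)} {a : Fin m} (ha : a ∉ A) :
    TT (insert a A) = (Y a + Yi a) + TT A := by
  unfold TT; rw [Finset.sum_insert ha]

lemma tau_TT {m : ℕ} {A : Finset (Fin m)} {a : Fin m} (ha : a ∉ A) : tau (wa a) (TT A) = TT A := by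
  unfold TT
  rw [map_sum]
  refine Finset.sum_congr rfl fun j hj => ?_
  have : j ≠ a := fun h => ha (h ▸ hj)
  rw [map_add, tau_Y' this, tau_Yi' this]

lemma ct_stepT {m : ℕ} {A : Finset (Fin m)} {a : Fin m} (ha : a ∉ A) (g : RR m)
    (hg : tau (wa a) g = g) (k x : ℕ) :
    ct (TT (insert a A) ^ k * Y a ^ x * g) =
      ∑ j ∈ range (k + 1), ∑ i ∈ range (j + 1), if i + x = j - i then
        ((k.choose j : ℂ) * (j.choose i : ℂ)) * ct (TT A ^ (k - j) * g) else 0 := by
  rw [TT_insert ha, add_pow, Finset.sum_mul, Finset.sum_mul, map_sum]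
  apply Finset.sum_congr rfl
  intro j _
  rw [add_pow, Finset.sum_mul, Finset.sum_mul, Finset.sum_mul, Finset.sum_mul, map_sum]
  apply Finset.sum_congr rfl
  intro i _
  have h3 : Y a ^ i * Yi a ^ (j - i) * ((j.choose i : ℕ) : RR m) * TT A ^ (k - j) * ((k.choose j : ℕ) : RR m) *
      Y a ^ x * g = ((k.choose j : ℂ) * (j.choose i : ℂ)) •
        (Y a ^ (i + x) * Yi a ^ (j - i) * (TT A ^ (k - j) * g)) := by
    rw [Algebra.smul_def, map_mul, map_natCast, map_natCast, pow_add]
    ring
  rw [h3, map_smul, ct_monomial _ (by rw [map_mul, map_pow, tau_TT ha, hg]), smul_eq_mul]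
  split_ifs <;> simp

lemma TT_empty_pow {m : ℕ} (k : ℕ) : ct (TT (∅ : Finset (Fin m)) ^ k) = if k = 0 then 1 else 0 := by
  unfold TT
  rw [Finset.sum_empty]
  rcases Nat.eq_zero_or_pos k with hk | hk
  · subst hk; simp [ct_one]
  · simp [zero_pow hk.ne', hk.ne']

lemma stepM {m : ℕ} {A : Finset (Fin m)} {a : Fin m} (ha : a ∉ A) (k : ℕ) :
    ct (TT (insert a A) ^ k) =
      ∑ j ∈ range (k + 1), ∑ i ∈ range (j + 1), if i = j - i then
        ((k.choose j : ℂ) * (j.choose i : ℂ)) * ct (TT A ^ (k - j)) else 0 := by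
  have h := ct_stepT ha 1 (map_one _) k 0
  simpa only [pow_zero, mul_one, add_zero] using h

lemma c0 {m : ℕ} (A : Finset (Fin m)) : ct (TT A ^ 0) = 1 := by simp [ct_one]

lemma c1 {m : ℕ} (A : Finset (Fin m)) : ct (TT A ^ 1) = 0 := by
  induction A using Finset.induction_on with
  | empty => rw [TT_empty_pow]; simp
  | insert a A ha ih =>
    rw [stepM ha]
    simp [Finset.sum_range_succ, Nat.choose, ct_one] at ih ⊢
    exact ih

lemma c2 {m : ℕ} (A : Finset (Fin m)) : ct (TT A ^ 2) = 2 * (A.card : ℂ) := by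
  induction A using Finset.induction_on with
  | empty => rw [TT_empty_pow]; simp
  | insert a A ha ih =>
    rw [stepM ha, Finset.card_insert_of_notMem ha]
    simp [Finset.sum_range_succ, Nat.choose, ct_one, ih]
    ring

lemma c3 {m : ℕ} (A : Finset (Fin m)) : ct (TT A ^ 3) = 0 := by
  induction A using Finset.induction_on with
  | empty => rw [TT_empty_pow]; simp
  | insert a A ha ih =>
    have h1 := c1 A
    rw [pow_one] at h1
    rw [stepM ha]
    simp [Finset.sum_range_succ, Nat.choose, ct_one, ih, h1]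

lemma c4 {m : ℕ} (A : Finset (Fin m)) : ct (TT A ^ 4) = 12 * (A.card : ℂ) ^ 2 - 6 * A.card := by
  induction A using Finset.induction_on with
  | empty => rw [TT_empty_pow]; simp
  | insert a A ha ih =>
    rw [stepM ha, Finset.card_insert_of_notMem ha]
    simp [Finset.sum_range_succ, Nat.choose, ct_one, ih, c2]
    ring

lemma c5 {m : ℕ} (A : Finset (Fin m)) : ct (TT A ^ 5) = 0 := by
  induction A using Finset.induction_on with
  | empty => rw [TT_empty_pow]; simp
  | insert a A ha ih =>
    have h1 := c1 A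
    rw [pow_one] at h1
    rw [stepM ha]
    simp [Finset.sum_range_succ, Nat.choose, ct_one, ih, h1, c3]

lemma c6 {m : ℕ} (A : Finset (Fin m)) : ct (TT A ^ 6) =
    120 * (A.card : ℂ) ^ 3 - 180 * (A.card : ℂ) ^ 2 + 80 * A.card := by
  induction A using Finset.induction_on with
  | empty => rw [TT_empty_pow]; simp
  | insert a A ha ih =>
    rw [stepM ha, Finset.card_insert_of_notMem ha]
    simp [Finset.sum_range_succ, Nat.choose, ct_one, ih, c2, c4]
    ring

lemma c7 {m : ℕ} (A : Finset (Fin m)) : ct (TT A ^ 7) = 0 := by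
  induction A using Finset.induction_on with
  | empty => rw [TT_empty_pow]; simp
  | insert a A ha ih =>
    have h1 := c1 A
    rw [pow_one] at h1
    rw [stepM ha]
    simp [Finset.sum_range_succ, Nat.choose, ct_one, ih, h1, c3, c5]

lemma c8 {m : ℕ} (A : Finset (Fin m)) : ct (TT A ^ 8) =
    1680 * (A.card : ℂ) ^ 4 - 5040 * (A.card : ℂ) ^ 3 + 5740 * (A.card : ℂ) ^ 2 - 2310 * A.card := by
  induction A using Finset.induction_on with
  | empty => rw [TT_empty_pow]; simp
  | insert a A ha ih =>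
    rw [stepM ha, Finset.card_insert_of_notMem ha]
    simp [Finset.sum_range_succ, Nat.choose, ct_one, ih, c2, c4, c6]
    ring

end

end Pool.Agent.Helper54.Mix
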