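import Pool.Agent.Helper54.Mix.Cos

/-!
# Mixed constant terms
-/

set_option autoImplicit false

namespace Pool.Agent.Helper54.Mix

open Finset

noncomputable section

lemma stepY {m : ℕ} {A : Finset (Fin m)} {a : Fin m} (ha : a ∉ A) (k x : ℕ) :
    ct (TT (insert a A) ^ k * Y a ^ x) =
      ∑ j ∈ range (k + 1), ∑ i ∈ range (j + 1), if i + x = j - i then
        ((k.choose j : ℂ) * (j.choose i : ℂ)) * ct (TT A ^ (k - j)) else 0 := by
  have h := ct_stepT ha 1 (map_one _) k x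
  simpa only [mul_one] using h

lemma stepYY {m : ℕ} {A : Finset (Fin m)} {a b : Fin m} (hb : b ∉ insert a A) (k : ℕ) :
    ct (TT (insert b (insert a A)) ^ k * (Y a * Y b)) =
      ∑ j ∈ range (k + 1), ∑ i ∈ range (j + 1), if i + 1 = j - i then
        ((k.choose j : ℂ) * (j.choose i : ℂ)) * ct (TT (insert a A) ^ (k - j) * Y a ^ 1) else 0 := by
  have hab : a ≠ b := by
    intro h; apply hb; rw [← h]; exact Finset.mem_insert_self _ _
  have h := ct_stepT hb (Y a ^ 1) (by rw [pow_one]; exact tau_Y' hab) k 1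
  rw [← h]
  congr 1
  ring

lemma d0 {m : ℕ} {A : Finset (Fin m)} {a : Fin m} (ha : a ∉ A) (t : ℂ) (ht : t = A.card + 1) :
    ct (TT (insert a A) ^ 0 * Y a ^ 1) = 0 := by
  have h1 := c1 A
  rw [pow_one] at h1
  rw [stepY ha]
  subst ht
  simp [Finset.sum_range_succ, Nat.choose, ct_one, h1, c2, c3, c4, c5, c6, c7, c8]

lemma d1 {m : ℕ} {A : Finset (Fin m)} {a : Fin m} (ha : a ∉ A) (t : ℂ) (ht : t = A.card + 1) :
    ct (TT (insert a A) ^ 1 * Y a ^ 1) = 1 := by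
  have h1 := c1 A
  rw [pow_one] at h1
  rw [stepY ha]
  subst ht
  simp [Finset.sum_range_succ, Nat.choose, ct_one, h1, c2, c3, c4, c5, c6, c7, c8]
  try ring

lemma d2 {m : ℕ} {A : Finset (Fin m)} {a : Fin m} (ha : a ∉ A) (t : ℂ) (ht : t = A.card + 1) :
    ct (TT (insert a A) ^ 2 * Y a ^ 1) = 0 := by
  have h1 := c1 A
  rw [pow_one] at h1
  rw [stepY ha]
  subst ht
  simp [Finset.sum_range_succ, Nat.choose, ct_one, h1, c2, c3, c4, c5, c6, c7, c8]

lemma d3 {m : ℕ} {A : Finset (Fin m)} {a : Fin m} (ha : a ∉ A) (t : ℂ) (ht : t = A.card + 1) :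
    ct (TT (insert a A) ^ 3 * Y a ^ 1) = 6 * t - 3 := by
  have h1 := c1 A
  rw [pow_one] at h1
  rw [stepY ha]
  subst ht
  simp [Finset.sum_range_succ, Nat.choose, ct_one, h1, c2, c3, c4, c5, c6, c7, c8]
  try ring

lemma d4 {m : ℕ} {A : Finset (Fin m)} {a : Fin m} (ha : a ∉ A) (t : ℂ) (ht : t = A.card + 1) :
    ct (TT (insert a A) ^ 4 * Y a ^ 1) = 0 := by
  have h1 := c1 A
  rw [pow_one] at h1
  rw [stepY ha]
  subst ht
  simp [Finset.sum_range_succ, Nat.choose, ct_one, h1, c2, c3, c4, c5, c6, c7, c8]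

lemma d5 {m : ℕ} {A : Finset (Fin m)} {a : Fin m} (ha : a ∉ A) (t : ℂ) (ht : t = A.card + 1) :
    ct (TT (insert a A) ^ 5 * Y a ^ 1) = 60 * t ^ 2 - 90 * t + 40 := by
  have h1 := c1 A
  rw [pow_one] at h1
  rw [stepY ha]
  subst ht
  simp [Finset.sum_range_succ, Nat.choose, ct_one, h1, c2, c3, c4, c5, c6, c7, c8]
  try ring

lemma d6 {m : ℕ} {A : Finset (Fin m)} {a : Fin m} (ha : a ∉ A) (t : ℂ) (ht : t = A.card + 1) :
    ct (TT (insert a A) ^ 6 * Y a ^ 1) = 0 := by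
  have h1 := c1 A
  rw [pow_one] at h1
  rw [stepY ha]
  subst ht
  simp [Finset.sum_range_succ, Nat.choose, ct_one, h1, c2, c3, c4, c5, c6, c7, c8]

lemma d7 {m : ℕ} {A : Finset (Fin m)} {a : Fin m} (ha : a ∉ A) (t : ℂ) (ht : t = A.card + 1) :
    ct (TT (insert a A) ^ 7 * Y a ^ 1) = 840 * t ^ 3 - 2520 * t ^ 2 + 2870 * t - 1155 := by
  have h1 := c1 A
  rw [pow_one] at h1
  rw [stepY ha]
  subst ht
  simp [Finset.sum_range_succ, Nat.choose, ct_one, h1, c2, c3, c4, c5, c6, c7, c8]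
  try ring

lemma d8 {m : ℕ} {A : Finset (Fin m)} {a : Fin m} (ha : a ∉ A) (t : ℂ) (ht : t = A.card + 1) :
    ct (TT (insert a A) ^ 8 * Y a ^ 1) = 0 := by
  have h1 := c1 A
  rw [pow_one] at h1
  rw [stepY ha]
  subst ht
  simp [Finset.sum_range_succ, Nat.choose, ct_one, h1, c2, c3, c4, c5, c6, c7, c8]

lemma e0 {m : ℕ} {A : Finset (Fin m)} {a : Fin m} (ha : a ∉ A) (t : ℂ) (ht : t = A.card + 1) :
    ct (TT (insert a A) ^ 0 * Y a ^ 2) = 0 := by
  have h1 := c1 A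
  rw [pow_one] at h1
  rw [stepY ha]
  subst ht
  simp [Finset.sum_range_succ, Nat.choose, ct_one, h1, c2, c3, c4, c5, c6, c7, c8]

lemma e1 {m : ℕ} {A : Finset (Fin m)} {a : Fin m} (ha : a ∉ A) (t : ℂ) (ht : t = A.card + 1) :
    ct (TT (insert a A) ^ 1 * Y a ^ 2) = 0 := by
  have h1 := c1 A
  rw [pow_one] at h1
  rw [stepY ha]
  subst ht
  simp [Finset.sum_range_succ, Nat.choose, ct_one, h1, c2, c3, c4, c5, c6, c7, c8]

lemma e2 {m : ℕ} {A : Finset (Fin m)} {a : Fin m} (ha : a ∉ A) (t : ℂ) (ht : t = A.card + 1) :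
    ct (TT (insert a A) ^ 2 * Y a ^ 2) = 1 := by
  have h1 := c1 A
  rw [pow_one] at h1
  rw [stepY ha]
  subst ht
  simp [Finset.sum_range_succ, Nat.choose, ct_one, h1, c2, c3, c4, c5, c6, c7, c8]
  try ring

lemma e3 {m : ℕ} {A : Finset (Fin m)} {a : Fin m} (ha : a ∉ A) (t : ℂ) (ht : t = A.card + 1) :
    ct (TT (insert a A) ^ 3 * Y a ^ 2) = 0 := by
  have h1 := c1 A
  rw [pow_one] at h1
  rw [stepY ha]
  subst ht
  simp [Finset.sum_range_succ, Nat.choose, ct_one, h1, c2, c3, c4, c5, c6, c7, c8]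

lemma e4 {m : ℕ} {A : Finset (Fin m)} {a : Fin m} (ha : a ∉ A) (t : ℂ) (ht : t = A.card + 1) :
    ct (TT (insert a A) ^ 4 * Y a ^ 2) = 12 * t - 8 := by
  have h1 := c1 A
  rw [pow_one] at h1
  rw [stepY ha]
  subst ht
  simp [Finset.sum_range_succ, Nat.choose, ct_one, h1, c2, c3, c4, c5, c6, c7, c8]
  try ring

lemma e5 {m : ℕ} {A : Finset (Fin m)} {a : Fin m} (ha : a ∉ A) (t : ℂ) (ht : t = A.card + 1) :
    ct (TT (insert a A) ^ 5 * Y a ^ 2) = 0 := by
  have h1 := c1 A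
  rw [pow_one] at h1
  rw [stepY ha]
  subst ht
  simp [Finset.sum_range_succ, Nat.choose, ct_one, h1, c2, c3, c4, c5, c6, c7, c8]

lemma e6 {m : ℕ} {A : Finset (Fin m)} {a : Fin m} (ha : a ∉ A) (t : ℂ) (ht : t = A.card + 1) :
    ct (TT (insert a A) ^ 6 * Y a ^ 2) = 180 * t ^ 2 - 330 * t + 165 := by
  have h1 := c1 A
  rw [pow_one] at h1
  rw [stepY ha]
  subst ht
  simp [Finset.sum_range_succ, Nat.choose, ct_one, h1, c2, c3, c4, c5, c6, c7, c8]
  try ring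

lemma e7 {m : ℕ} {A : Finset (Fin m)} {a : Fin m} (ha : a ∉ A) (t : ℂ) (ht : t = A.card + 1) :
    ct (TT (insert a A) ^ 7 * Y a ^ 2) = 0 := by
  have h1 := c1 A
  rw [pow_one] at h1
  rw [stepY ha]
  subst ht
  simp [Finset.sum_range_succ, Nat.choose, ct_one, h1, c2, c3, c4, c5, c6, c7, c8]

lemma e8 {m : ℕ} {A : Finset (Fin m)} {a : Fin m} (ha : a ∉ A) (t : ℂ) (ht : t = A.card + 1) :
    ct (TT (insert a A) ^ 8 * Y a ^ 2) = 3360 * t ^ 3 - 11760 * t ^ 2 + 14840 * t - 6384 := by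
  have h1 := c1 A
  rw [pow_one] at h1
  rw [stepY ha]
  subst ht
  simp [Finset.sum_range_succ, Nat.choose, ct_one, h1, c2, c3, c4, c5, c6, c7, c8]
  try ring

lemma f0 {m : ℕ} {A : Finset (Fin m)} {a b : Fin m} (ha : a ∉ A) (hb : b ∉ insert a A) (t : ℂ)
    (ht : t = A.card + 2) :
    ct (TT (insert b (insert a A)) ^ 0 * (Y a * Y b)) = 0 := by
  have d0' := d0 ha _ rfl
  have d1' := d1 ha _ rfl
  have d2' := d2 ha _ rfl
  have d3' := d3 ha _ rfl
  have d4' := d4 ha _ rfl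
  have d5' := d5 ha _ rfl
  have d6' := d6 ha _ rfl
  have d7' := d7 ha _ rfl
  rw [stepYY hb]
  subst ht
  simp only [pow_one, pow_zero, one_mul] at d0' d1' d2' d3' d4' d5' d6' d7'
  simp [Finset.sum_range_succ, Nat.choose, d0', d1', d2', d3', d4', d5', d6', d7']

lemma f1 {m : ℕ} {A : Finset (Fin m)} {a b : Fin m} (ha : a ∉ A) (hb : b ∉ insert a A) (t : ℂ)
    (ht : t = A.card + 2) :
    ct (TT (insert b (insert a A)) ^ 1 * (Y a * Y b)) = 0 := by
  have d0' := d0 ha _ rfl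
  have d1' := d1 ha _ rfl
  have d2' := d2 ha _ rfl
  have d3' := d3 ha _ rfl
  have d4' := d4 ha _ rfl
  have d5' := d5 ha _ rfl
  have d6' := d6 ha _ rfl
  have d7' := d7 ha _ rfl
  rw [stepYY hb]
  subst ht
  simp only [pow_one, pow_zero, one_mul] at d0' d1' d2' d3' d4' d5' d6' d7'
  simp [Finset.sum_range_succ, Nat.choose, d0', d1', d2', d3', d4', d5', d6', d7']

lemma f2 {m : ℕ} {A : Finset (Fin m)} {a b : Fin m} (ha : a ∉ A) (hb : b ∉ insert a A) (t : ℂ)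
    (ht : t = A.card + 2) :
    ct (TT (insert b (insert a A)) ^ 2 * (Y a * Y b)) = 2 := by
  have d0' := d0 ha _ rfl
  have d1' := d1 ha _ rfl
  have d2' := d2 ha _ rfl
  have d3' := d3 ha _ rfl
  have d4' := d4 ha _ rfl
  have d5' := d5 ha _ rfl
  have d6' := d6 ha _ rfl
  have d7' := d7 ha _ rfl
  rw [stepYY hb]
  subst ht
  simp only [pow_one, pow_zero, one_mul] at d0' d1' d2' d3' d4' d5' d6' d7'
  simp [Finset.sum_range_succ, Nat.choose, d0', d1', d2', d3', d4', d5', d6', d7']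
  try ring

lemma f3 {m : ℕ} {A : Finset (Fin m)} {a b : Fin m} (ha : a ∉ A) (hb : b ∉ insert a A) (t : ℂ)
    (ht : t = A.card + 2) :
    ct (TT (insert b (insert a A)) ^ 3 * (Y a * Y b)) = 0 := by
  have d0' := d0 ha _ rfl
  have d1' := d1 ha _ rfl
  have d2' := d2 ha _ rfl
  have d3' := d3 ha _ rfl
  have d4' := d4 ha _ rfl
  have d5' := d5 ha _ rfl
  have d6' := d6 ha _ rfl
  have d7' := d7 ha _ rfl
  rw [stepYY hb]
  subst ht
  simp only [pow_one, pow_zero, one_mul] at d0' d1' d2' d3' d4' d5' d6' d7'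
  simp [Finset.sum_range_succ, Nat.choose, d0', d1', d2', d3', d4', d5', d6', d7']

lemma f4 {m : ℕ} {A : Finset (Fin m)} {a b : Fin m} (ha : a ∉ A) (hb : b ∉ insert a A) (t : ℂ)
    (ht : t = A.card + 2) :
    ct (TT (insert b (insert a A)) ^ 4 * (Y a * Y b)) = 24 * t - 24 := by
  have d0' := d0 ha _ rfl
  have d1' := d1 ha _ rfl
  have d2' := d2 ha _ rfl
  have d3' := d3 ha _ rfl
  have d4' := d4 ha _ rfl
  have d5' := d5 ha _ rfl
  have d6' := d6 ha _ rfl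
  have d7' := d7 ha _ rfl
  rw [stepYY hb]
  subst ht
  simp only [pow_one, pow_zero, one_mul] at d0' d1' d2' d3' d4' d5' d6' d7'
  simp [Finset.sum_range_succ, Nat.choose, d0', d1', d2', d3', d4', d5', d6', d7']
  try ring

lemma f5 {m : ℕ} {A : Finset (Fin m)} {a b : Fin m} (ha : a ∉ A) (hb : b ∉ insert a A) (t : ℂ)
    (ht : t = A.card + 2) :
    ct (TT (insert b (insert a A)) ^ 5 * (Y a * Y b)) = 0 := by
  have d0' := d0 ha _ rfl
  have d1' := d1 ha _ rfl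
  have d2' := d2 ha _ rfl
  have d3' := d3 ha _ rfl
  have d4' := d4 ha _ rfl
  have d5' := d5 ha _ rfl
  have d6' := d6 ha _ rfl
  have d7' := d7 ha _ rfl
  rw [stepYY hb]
  subst ht
  simp only [pow_one, pow_zero, one_mul] at d0' d1' d2' d3' d4' d5' d6' d7'
  simp [Finset.sum_range_succ, Nat.choose, d0', d1', d2', d3', d4', d5', d6', d7']

lemma f6 {m : ℕ} {A : Finset (Fin m)} {a b : Fin m} (ha : a ∉ A) (hb : b ∉ insert a A) (t : ℂ)
    (ht : t = A.card + 2) :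
    ct (TT (insert b (insert a A)) ^ 6 * (Y a * Y b)) = 360 * t ^ 2 - 900 * t + 660 := by
  have d0' := d0 ha _ rfl
  have d1' := d1 ha _ rfl
  have d2' := d2 ha _ rfl
  have d3' := d3 ha _ rfl
  have d4' := d4 ha _ rfl
  have d5' := d5 ha _ rfl
  have d6' := d6 ha _ rfl
  have d7' := d7 ha _ rfl
  rw [stepYY hb]
  subst ht
  simp only [pow_one, pow_zero, one_mul] at d0' d1' d2' d3' d4' d5' d6' d7'
  simp [Finset.sum_range_succ, Nat.choose, d0', d1', d2', d3', d4', d5', d6', d7']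
  try ring

lemma f7 {m : ℕ} {A : Finset (Fin m)} {a b : Fin m} (ha : a ∉ A) (hb : b ∉ insert a A) (t : ℂ)
    (ht : t = A.card + 2) :
    ct (TT (insert b (insert a A)) ^ 7 * (Y a * Y b)) = 0 := by
  have d0' := d0 ha _ rfl
  have d1' := d1 ha _ rfl
  have d2' := d2 ha _ rfl
  have d3' := d3 ha _ rfl
  have d4' := d4 ha _ rfl
  have d5' := d5 ha _ rfl
  have d6' := d6 ha _ rfl
  have d7' := d7 ha _ rfl
  rw [stepYY hb]
  subst ht
  simp only [pow_one, pow_zero, one_mul] at d0' d1' d2' d3' d4' d5' d6' d7'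
  simp [Finset.sum_range_succ, Nat.choose, d0', d1', d2', d3', d4', d5', d6', d7']

lemma f8 {m : ℕ} {A : Finset (Fin m)} {a b : Fin m} (ha : a ∉ A) (hb : b ∉ insert a A) (t : ℂ)
    (ht : t = A.card + 2) :
    ct (TT (insert b (insert a A)) ^ 8 * (Y a * Y b)) = 6720 * t ^ 3 - 30240 * t ^ 2 + 51520 * t - 31920 := by
  have d0' := d0 ha _ rfl
  have d1' := d1 ha _ rfl
  have d2' := d2 ha _ rfl
  have d3' := d3 ha _ rfl
  have d4' := d4 ha _ rfl
  have d5' := d5 ha _ rfl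
  have d6' := d6 ha _ rfl
  have d7' := d7 ha _ rfl
  rw [stepYY hb]
  subst ht
  simp only [pow_one, pow_zero, one_mul] at d0' d1' d2' d3' d4' d5' d6' d7'
  simp [Finset.sum_range_succ, Nat.choose, d0', d1', d2', d3', d4', d5', d6', d7']
  try ring

end

end Pool.Agent.Helper54.Mix
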