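import Pool.Agent.Helper54.Mix.Neg

/-!
# The converse: the right moments give a rank one averaged mixing matrix
-/

set_option autoImplicit false

namespace Pool.Agent.Helper54.Mix

open Matrix MeasureTheory

noncomputable section

/-- real sine table -/
def sr (n : ℕ) (k a : Fin n) : ℝ := Real.sin ((((k : ℕ) : ℝ) + 1) * (((a : ℕ) : ℝ) + 1) * al n)

lemma sg_eq_sr (n : ℕ) (k a : Fin n) : sg n ((k : ℕ) + 1 : ℤ) a = (sr n k a : ℂ) := by
  simp only [sg, sr]; push_cast; rfl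

lemma walk_apply (n : ℕ) (s : ℝ) (a b : Fin n) :
    walk n s a b = (2 / ((n : ℂ) + 1)) * ∑ k : Fin n, th n s ((k : ℕ) + 1 : ℤ) * ((sr n k a * sr n k b : ℝ) : ℂ) := by
  have hN : ((n : ℂ) + 1) ≠ 0 := by exact_mod_cast (Nat.succ_ne_zero n)
  have h1 : ∀ k : Fin n, th n s ((k : ℕ) + 1 : ℤ) * ((sr n k a * sr n k b : ℝ) : ℂ) =
      ∑ c : Fin n, walk n s a c * (sg n ((k : ℕ) + 1 : ℤ) c * sg n ((k : ℕ) + 1 : ℤ) b) := by
    intro k
    have h := congrFun (walk_mulVec' n s ((k : ℕ) + 1 : ℤ)) a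
    simp only [Matrix.mulVec, dotProduct, Pi.smul_apply, smul_eq_mul] at h
    have h2 : ∑ c : Fin n, walk n s a c * (sg n ((k : ℕ) + 1 : ℤ) c * sg n ((k : ℕ) + 1 : ℤ) b) =
        (∑ c : Fin n, walk n s a c * sg n ((k : ℕ) + 1 : ℤ) c) * sg n ((k : ℕ) + 1 : ℤ) b := by
      rw [Finset.sum_mul]
      apply Finset.sum_congr rfl
      intro c _; ring
    rw [h2, h, sg_eq_sr, sg_eq_sr]
    push_cast; ring
  rw [Finset.sum_congr rfl (fun k _ => h1 k), Finset.sum_comm]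
  simp only [← Finset.mul_sum, sg_complete]
  rw [Finset.sum_eq_single b]
  · simp; field_simp
  · intro c _ hc; rw [if_neg hc]; ring
  · simp

lemma mixing_eq_sum (n : ℕ) (s : ℝ) (a b : Fin n) :
    mixing n s a b = (2 / ((n : ℝ) + 1)) ^ 2 * ∑ k : Fin n, ∑ l : Fin n,
      (sr n k a * sr n k b) * (sr n l a * sr n l b) *
        Real.cos ((lam n ((k : ℕ) + 1 : ℤ) - lam n ((l : ℕ) + 1 : ℤ)) * s) := by
  have h1 : ((mixing n s a b : ℝ) : ℂ) = walk n s a b * (starRingEnd ℂ) (walk n s a b) := by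
    simp only [mixing, Matrix.of_apply]
    rw [← Complex.normSq_eq_norm_sq, ← Complex.mul_conj]
  have h2 : walk n s a b * (starRingEnd ℂ) (walk n s a b) =
      (((2 / ((n : ℝ) + 1)) ^ 2 : ℝ) : ℂ) * ∑ k : Fin n, ∑ l : Fin n,
      (((sr n k a * sr n k b) * (sr n l a * sr n l b) : ℝ) : ℂ) *
        (th n s ((k : ℕ) + 1 : ℤ) * (starRingEnd ℂ) (th n s ((l : ℕ) + 1 : ℤ))) := by
    rw [walk_apply]
    simp only [map_mul, map_sum, Complex.conj_ofReal]
    have e1 : (starRingEnd ℂ) (2 / ((n : ℂ) + 1)) = 2 / ((n : ℂ) + 1) := by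
      have : (2 / ((n : ℂ) + 1)) = ((2 / ((n : ℝ) + 1) : ℝ) : ℂ) := by push_cast; rfl
      rw [this, Complex.conj_ofReal]
    rw [e1]
    have e2 : (2 / ((n : ℂ) + 1) * ∑ k : Fin n, th n s ((k : ℕ) + 1 : ℤ) * ((sr n k a * sr n k b : ℝ) : ℂ)) *
      (2 / ((n : ℂ) + 1) * ∑ l : Fin n, (starRingEnd ℂ) (th n s ((l : ℕ) + 1 : ℤ)) * ((sr n l a * sr n l b : ℝ) : ℂ)) =
      (2 / ((n : ℂ) + 1)) ^ 2 * ((∑ k : Fin n, th n s ((k : ℕ) + 1 : ℤ) * ((sr n k a * sr n k b : ℝ) : ℂ)) *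
       (∑ l : Fin n, (starRingEnd ℂ) (th n s ((l : ℕ) + 1 : ℤ)) * ((sr n l a * sr n l b : ℝ) : ℂ))) := by ring
    rw [e2, Finset.sum_mul_sum]
    push_cast
    congr 1
    apply Finset.sum_congr rfl
    intro k _
    apply Finset.sum_congr rfl
    intro l _
    ring
  have h3 : ∀ k l : ℤ, (th n s k * (starRingEnd ℂ) (th n s l)).re = Real.cos ((lam n k - lam n l) * s) := by
    intro k l
    unfold th
    rw [← Complex.exp_conj, ← Complex.exp_add]
    have : Complex.I * (s : ℂ) * (lam n k : ℝ) + (starRingEnd ℂ) (Complex.I * (s : ℂ) * (lam n l : ℝ)) =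
        (((lam n k - lam n l) * s : ℝ) : ℂ) * Complex.I := by
      simp only [map_mul, Complex.conj_I, Complex.conj_ofReal]
      push_cast; ring
    rw [this, Complex.exp_ofReal_mul_I_re]
  have h4 := congrArg Complex.re (h1.trans h2)
  rw [Complex.ofReal_re, Complex.re_ofReal_mul, Complex.re_sum] at h4
  rw [h4]
  congr 1
  apply Finset.sum_congr rfl
  intro k _
  rw [Complex.re_sum]
  apply Finset.sum_congr rfl
  intro l _
  rw [Complex.re_ofReal_mul, h3]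

lemma sr_sum (n : ℕ) (a b : Fin n) : ∑ k : Fin n, sr n k a * sr n k b =
    (((n : ℝ) + 1) / 2) * (if a = b then 1 else 0) := by
  have h := sg_complete n a b
  simp only [sg_eq_sr] at h
  have h2 : ((∑ k : Fin n, sr n k a * sr n k b : ℝ) : ℂ) =
      (((((n : ℝ) + 1) / 2) * (if a = b then 1 else 0) : ℝ) : ℂ) := by
    push_cast
    rw [h]
    split_ifs <;> simp
  exact_mod_cast h2

lemma sr_rev (n : ℕ) (k b : Fin n) : sr n k (Fin.rev b) = (-1) ^ (k : ℕ) * sr n k b := by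
  unfold sr
  have hb := b.isLt
  have e : (((Fin.rev b : Fin n) : ℕ) : ℝ) + 1 = (n : ℝ) + 1 - (((b : ℕ) : ℝ) + 1) := by
    rw [Fin.val_rev, Nat.cast_sub (by omega)]
    push_cast; ring
  have e2 : (((k : ℕ) : ℝ) + 1) * ((((Fin.rev b : Fin n) : ℕ) : ℝ) + 1) * al n =
      ((k : ℕ) + 1 : ℕ) * Real.pi - (((k : ℕ) : ℝ) + 1) * (((b : ℕ) : ℝ) + 1) * al n := by
    rw [e, ← al_mul n]; push_cast; ring
  rw [e2, Real.sin_nat_mul_pi_sub, pow_succ]
  ring

lemma sr_sum_alt (n : ℕ) (a b : Fin n) : ∑ k : Fin n, (-1 : ℝ) ^ (k : ℕ) * (sr n k a * sr n k b) =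
    (((n : ℝ) + 1) / 2) * (if a = Fin.rev b then 1 else 0) := by
  rw [← sr_sum n a (Fin.rev b)]
  apply Finset.sum_congr rfl
  intro k _
  rw [sr_rev]; ring

lemma sr_sum_sq (n : ℕ) (a b : Fin n) : ∑ k : Fin n, (sr n k a * sr n k b) ^ 2 =
    (((n : ℝ) + 1) / 4) * (1 + ((if a = b then 1 else 0) + (if a = Fin.rev b then 1 else 0)) / 2) := by
  have ha := a.isLt
  have hb := b.isLt
  have h1 : ∀ k : Fin n, (sr n k a * sr n k b) ^ 2 = (1 / 4) * (1 -
      Real.cos (((2 * ((a : ℕ) + 1) : ℤ) : ℝ) * (((k : ℕ) : ℝ) + 1) * al n) -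
      Real.cos (((2 * ((b : ℕ) + 1) : ℤ) : ℝ) * (((k : ℕ) : ℝ) + 1) * al n) +
      (1 / 2) * Real.cos (((2 * (((a : ℕ) + 1) - ((b : ℕ) + 1)) : ℤ) : ℝ) * (((k : ℕ) : ℝ) + 1) * al n) +
      (1 / 2) * Real.cos (((2 * (((a : ℕ) + 1) + ((b : ℕ) + 1)) : ℤ) : ℝ) * (((k : ℕ) : ℝ) + 1) * al n)) := by
    intro k
    unfold sr
    set x := (((k : ℕ) : ℝ) + 1) * (((a : ℕ) : ℝ) + 1) * al n with hx
    set y := (((k : ℕ) : ℝ) + 1) * (((b : ℕ) : ℝ) + 1) * al n with hy
    have e1 : ((2 * ((a : ℕ) + 1) : ℤ) : ℝ) * (((k : ℕ) : ℝ) + 1) * al n = 2 * x := by rw [hx]; push_cast; ring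
    have e2 : ((2 * ((b : ℕ) + 1) : ℤ) : ℝ) * (((k : ℕ) : ℝ) + 1) * al n = 2 * y := by rw [hy]; push_cast; ring
    have e3 : ((2 * (((a : ℕ) + 1) - ((b : ℕ) + 1)) : ℤ) : ℝ) * (((k : ℕ) : ℝ) + 1) * al n = 2 * x - 2 * y := by
      rw [hx, hy]; push_cast; ring
    have e4 : ((2 * (((a : ℕ) + 1) + ((b : ℕ) + 1)) : ℤ) : ℝ) * (((k : ℕ) : ℝ) + 1) * al n = 2 * x + 2 * y := by
      rw [hx, hy]; push_cast; ring
    rw [e1, e2, e3, e4, Real.cos_sub, Real.cos_add, mul_pow, Real.sin_sq_eq_half_sub x, Real.sin_sq_eq_half_sub y]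
    ring
  rw [Finset.sum_congr rfl (fun k _ => h1 k), ← Finset.mul_sum]
  simp only [Finset.sum_add_distrib, Finset.sum_sub_distrib, ← Finset.mul_sum]
  have c1 : ∑ k : Fin n, Real.cos (((2 * ((a : ℕ) + 1) : ℤ) : ℝ) * (((k : ℕ) : ℝ) + 1) * al n) = -1 := by
    rw [cos_sum_small n _ (by omega) (by rw [abs_lt]; constructor <;> omega), if_pos (even_two_mul _)]
  have c2 : ∑ k : Fin n, Real.cos (((2 * ((b : ℕ) + 1) : ℤ) : ℝ) * (((k : ℕ) : ℝ) + 1) * al n) = -1 := by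
    rw [cos_sum_small n _ (by omega) (by rw [abs_lt]; constructor <;> omega), if_pos (even_two_mul _)]
  have c3 : ∑ k : Fin n, Real.cos (((2 * (((a : ℕ) + 1) - ((b : ℕ) + 1)) : ℤ) : ℝ) * (((k : ℕ) : ℝ) + 1) * al n) =
      ((n : ℝ) + 1) * (if a = b then 1 else 0) - 1 := by
    by_cases hab : a = b
    · subst hab
      simp
    · rw [cos_sum_small n _ (by intro h; apply hab; ext; omega) (by rw [abs_lt]; constructor <;> omega),
        if_pos (even_two_mul _), if_neg hab]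
      ring
  have c4 : ∑ k : Fin n, Real.cos (((2 * (((a : ℕ) + 1) + ((b : ℕ) + 1)) : ℤ) : ℝ) * (((k : ℕ) : ℝ) + 1) * al n) =
      ((n : ℝ) + 1) * (if a = Fin.rev b then 1 else 0) - 1 := by
    rw [cos_sum]
    have hev : Even (2 * (((a : ℕ) + 1 : ℤ) + ((b : ℕ) + 1))).natAbs := by
      rw [Int.natAbs_even]; exact even_two_mul _
    rw [hev.neg_one_pow]
    by_cases hab : a = Fin.rev b
    · have hab' : (a : ℕ) = n - (b + 1) := by rw [hab, Fin.val_rev]
      rw [if_pos hab, if_pos]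
      · ring
      · refine ⟨1, ?_⟩
        omega
    · rw [if_neg hab, if_neg]
      · ring
      · intro hd
        rw [dvd_two_mul_iff] at hd
        have := eq_of_dvd_of_lt hd (by omega) (by omega)
        apply hab
        ext
        rw [Fin.val_rev]
        omega
  rw [c1, c2, c3, c4]
  simp only [Finset.sum_const, Finset.card_univ, Fintype.card_fin, nsmul_eq_mul, mul_one]
  ring

lemma integrable_cos {f : ℝ → ℝ} (hf : IsDensity f) (w : ℝ) : Integrable fun s => f s * Real.cos (w * s) := by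
  refine Integrable.mul_bdd (c := 1) hf.integrable (by fun_prop) ?_
  refine Filter.Eventually.of_forall fun s => ?_
  rw [Real.norm_eq_abs]
  exact Real.abs_cos_le_one _

/-- the averaged mixing matrix in terms of the moments. -/
lemma avg_eq_sum {n : ℕ} {f : ℝ → ℝ} (hf : IsDensity f) (a b : Fin n) :
    avgMixing n f a b = (2 / ((n : ℝ) + 1)) ^ 2 * ∑ k : Fin n, ∑ l : Fin n,
      (sr n k a * sr n k b) * (sr n l a * sr n l b) *
        ∫ s, f s * Real.cos ((lam n ((k : ℕ) + 1 : ℤ) - lam n ((l : ℕ) + 1 : ℤ)) * s) := by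
  simp only [avgMixing, Matrix.of_apply]
  have h1 : ∀ s, f s * mixing n s a b = (2 / ((n : ℝ) + 1)) ^ 2 * ∑ k : Fin n, ∑ l : Fin n,
      (sr n k a * sr n k b) * (sr n l a * sr n l b) *
        (f s * Real.cos ((lam n ((k : ℕ) + 1 : ℤ) - lam n ((l : ℕ) + 1 : ℤ)) * s)) := by
    intro s
    rw [mixing_eq_sum, mul_left_comm, Finset.mul_sum]
    congr 1
    apply Finset.sum_congr rfl
    intro k _
    rw [Finset.mul_sum]
    apply Finset.sum_congr rfl
    intro l _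
    ring
  simp only [h1]
  rw [integral_const_mul, integral_finsetSum]
  · congr 1
    apply Finset.sum_congr rfl
    intro k _
    rw [integral_finsetSum]
    · apply Finset.sum_congr rfl
      intro l _
      rw [integral_const_mul]
    · intro l _
      exact (integrable_cos hf _).const_mul _
  · intro k _
    apply integrable_finsetSum
    intro l _
    exact (integrable_cos hf _).const_mul _

/-- The moments `-1/n` (equal parity) and `0` (different parity) give `J/n`. -/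
theorem avg_of_moments {n : ℕ} {f : ℝ → ℝ} (hf : IsDensity f)
    (hm : ∀ k l : Fin n, k ≠ l → ∫ s, f s * Real.cos ((lam n ((k : ℕ) + 1 : ℤ) - lam n ((l : ℕ) + 1 : ℤ)) * s) =
      if Even ((k : ℤ) - l) then -(1 / (n : ℝ)) else 0) (a b : Fin n) :
    avgMixing n f a b = 1 / (n : ℝ) := by
  have hn : (n : ℝ) ≠ 0 := by
    have := a.isLt; exact_mod_cast (by omega : n ≠ 0)
  have hN : ((n : ℝ) + 1) ≠ 0 := by positivity
  rw [avg_eq_sum hf]
  set x : Fin n → ℝ := fun k => sr n k a * sr n k b with hx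
  have h1 : ∀ k l : Fin n, x k * x l * ∫ s, f s * Real.cos ((lam n ((k : ℕ) + 1 : ℤ) - lam n ((l : ℕ) + 1 : ℤ)) * s) =
      (if k = l then (1 + 1 / (n : ℝ)) * x k ^ 2 else 0) -
      (1 / (2 * (n : ℝ))) * (x k * x l + ((-1) ^ (k : ℕ) * x k) * ((-1) ^ (l : ℕ) * x l)) := by
    intro k l
    have hsgn : ((-1 : ℝ) ^ (k : ℕ)) * ((-1 : ℝ) ^ (l : ℕ)) = if Even ((k : ℤ) - l) then 1 else -1 := by
      rw [← pow_add]
      by_cases he : Even ((k : ℤ) - l)
      · have : Even ((k : ℕ) + (l : ℕ)) := by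
          have h2 : Even (((k : ℕ) + (l : ℕ) : ℕ) : ℤ) := by
            push_cast; rw [Int.even_add]; rwa [Int.even_sub] at he
          exact_mod_cast h2
        rw [this.neg_one_pow, if_pos he]
      · have : ¬ Even ((k : ℕ) + (l : ℕ)) := by
          intro h2
          apply he
          have h3 : Even (((k : ℕ) + (l : ℕ) : ℕ) : ℤ) := by exact_mod_cast h2
          push_cast at h3; rw [Int.even_add] at h3; rwa [Int.even_sub]
        rw [(Nat.not_even_iff_odd.mp this).neg_one_pow, if_neg he]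
    have hre : ((-1) ^ (k : ℕ) * x k) * ((-1) ^ (l : ℕ) * x l) = (((-1 : ℝ) ^ (k : ℕ)) * ((-1 : ℝ) ^ (l : ℕ))) * (x k * x l) := by ring
    rw [hre, hsgn]
    by_cases hkl : k = l
    · subst hkl
      simp only [sub_self, zero_mul, Real.cos_zero, mul_one, if_true]
      rw [hf.2]
      simp
      field_simp
      ring
    · rw [hm k l hkl, if_neg hkl]
      split_ifs
      · field_simp; ring
      · ring
  have h2 : ∑ k : Fin n, ∑ l : Fin n, x k * x l * ∫ s, f s * Real.cos ((lam n ((k : ℕ) + 1 : ℤ) - lam n ((l : ℕ) + 1 : ℤ)) * s) =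
      (1 + 1 / (n : ℝ)) * ∑ k, x k ^ 2 - (1 / (2 * (n : ℝ))) * ((∑ k, x k) * (∑ k, x k) +
        (∑ k : Fin n, (-1) ^ (k : ℕ) * x k) * (∑ k : Fin n, (-1) ^ (k : ℕ) * x k)) := by
    have q1 : ∑ k, ∑ l, x k * x l = (∑ k, x k) * (∑ k, x k) := by rw [Finset.sum_mul_sum]
    have q2 : ∑ k : Fin n, ∑ l : Fin n, ((-1) ^ (k : ℕ) * x k) * ((-1) ^ (l : ℕ) * x l) =
        (∑ k : Fin n, (-1) ^ (k : ℕ) * x k) * (∑ k : Fin n, (-1) ^ (k : ℕ) * x k) := by rw [Finset.sum_mul_sum]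
    rw [← q1, ← q2]
    simp only [h1, Finset.sum_sub_distrib, Finset.sum_ite_eq, Finset.mem_univ, if_true,
      ← Finset.sum_add_distrib, ← Finset.mul_sum]
    congr 2
    apply Finset.sum_congr rfl
    intro k _
    rw [Finset.sum_add_distrib, ← Finset.mul_sum, ← Finset.mul_sum]
  rw [h2]
  simp only [hx]
  rw [sr_sum, sr_sum_alt, sr_sum_sq]
  have e1 : ((n : ℝ) + 1) / 2 * (if a = b then (1 : ℝ) else 0) * (((n : ℝ) + 1) / 2 * (if a = b then (1 : ℝ) else 0)) =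
      (((n : ℝ) + 1) / 2) ^ 2 * (if a = b then 1 else 0) := by
    split_ifs <;> ring
  have e2 : ((n : ℝ) + 1) / 2 * (if a = Fin.rev b then (1 : ℝ) else 0) * (((n : ℝ) + 1) / 2 * (if a = Fin.rev b then (1 : ℝ) else 0)) =
      (((n : ℝ) + 1) / 2) ^ 2 * (if a = Fin.rev b then 1 else 0) := by
    split_ifs <;> ring
  rw [e1, e2]
  field_simp
  ring

/-- A constant nonzero matrix has rank one. -/
lemma rank_of_const {n : ℕ} (hn : 0 < n) (A : Matrix (Fin n) (Fin n) ℝ) (h : ∀ a b, A a b = 1 / (n : ℝ)) :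
    A.rank = 1 := by
  have hA : A = Matrix.vecMulVec (fun _ => (1 : ℝ)) (fun _ => 1 / (n : ℝ)) := by
    ext a b; simp [Matrix.vecMulVec_apply, h]
  apply le_antisymm
  · rw [hA]; exact Matrix.rank_vecMulVec_le _ _
  · by_contra hlt
    have h0 : A.rank = 0 := by omega
    have h1 : Module.finrank ℝ (LinearMap.range A.mulVecLin) = 0 := h0
    rw [Submodule.finrank_eq_zero, LinearMap.range_eq_bot] at h1
    have h2 := congrFun (congrArg (fun L : (Fin n → ℝ) →ₗ[ℝ] (Fin n → ℝ) => L (Pi.single ⟨0, hn⟩ 1)) h1) ⟨0, hn⟩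
    simp [h] at h2
    omega

end

end Pool.Agent.Helper54.Mix
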