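import Pool.Agent.Helper54.Mix.Gen

/-!
# The density for paths with an odd number of vertices
-/

set_option autoImplicit false

namespace Pool.Agent.Helper54.Mix

open MeasureTheory

noncomputable section

/-- the index set `1 ≤ j ≤ 2r+1`, `j ≠ r+1`, shifted by one -/
def JJ (r : ℕ) : Finset (Fin (2 * r + 1)) := Finset.univ.erase ⟨r, by omega⟩

lemma JJ_card (r : ℕ) : (JJ r).card = 2 * r := by
  rw [JJ, Finset.card_erase_of_mem (Finset.mem_univ _), Finset.card_univ, Fintype.card_fin]; omega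

lemma sum_cos_J (r : ℕ) (U : ℤ) (h0 : U ≠ 0) (h1 : |U| < 2 * (r : ℤ) + 2) :
    ∑ b ∈ JJ r, Real.cos (((2 * U : ℤ) : ℝ) * (((b : ℕ) : ℝ) + 1) * al (2 * r + 1)) = if Even U then -2 else 0 := by
  have hb : |2 * U| < 2 * (((2 * r + 1 : ℕ) : ℤ) + 1) := by
    rw [abs_mul]; push_cast
    have : |(2 : ℤ)| = 2 := rfl
    rw [this]; linarith
  have h := cos_sum_small (2 * r + 1) (2 * U) (by omega) hb
  rw [if_pos (even_two_mul U)] at h
  have h2 := Finset.add_sum_erase Finset.univ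
    (fun b : Fin (2 * r + 1) => Real.cos (((2 * U : ℤ) : ℝ) * (((b : ℕ) : ℝ) + 1) * al (2 * r + 1)))
    (Finset.mem_univ ⟨r, by omega⟩)
  rw [h] at h2
  have h3 : Real.cos (((2 * U : ℤ) : ℝ) * (((r : ℕ) : ℝ) + 1) * al (2 * r + 1)) = if Even U then 1 else -1 := by
    have e : ((2 * U : ℤ) : ℝ) * (((r : ℕ) : ℝ) + 1) * al (2 * r + 1) = (U : ℝ) * Real.pi := by
      have := al_mul (2 * r + 1)
      push_cast at this ⊢
      linear_combination (U : ℝ) * this
    rw [e, Real.cos_int_mul_pi]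
    rcases Int.even_or_odd U with he | ho
    · rw [he.neg_one_zpow, if_pos he]
    · rw [ho.neg_one_zpow, if_neg (Int.not_even_iff_odd.mpr ho)]
  simp only at h2
  rw [h3] at h2
  unfold JJ
  split_ifs at h2 ⊢ <;> linarith

/-- the phases -/
def phE (r : ℕ) (b : Fin (2 * r + 1)) (t : ℕ) (a : Fin r) : ℝ :=
  2 * (((a : ℕ) : ℝ) + 1) * (((b : ℕ) : ℝ) + 1) * al (2 * r + 1) + t * Real.pi

/-- the density -/
def densE (r : ℕ) (ν : Fin r → ℝ) (K : ℝ → ℝ) (s : ℝ) : ℝ :=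
  K s * ((1 - (8 / 9) * (2 * r) / (2 * r + 1) - (14 / 15) / (2 * r + 1)) +
    (8 / (9 * (2 * r + 1))) * ∑ b ∈ JJ r, ((7 / 8) * GG ν (phE r b 0) s + (1 / 8) * GG ν (phE r b 1) s) +
    (14 / (15 * (2 * r + 1))) * PS ν s)

lemma densE_moment {r : ℕ} {ν : Fin r → ℝ} {K : ℝ → ℝ} (hK : GoodKernel ν K)
    (m : Fin r → ℤ) (hm : ∀ a, m a ∈ Finset.Icc (-2 : ℤ) 2) :
    ∫ s, densE r ν K s * Real.cos ((∑ a, (m a : ℝ) * ν a) * s) =
      (1 - (8 / 9) * (2 * r) / (2 * r + 1) - (14 / 15) / (2 * r + 1)) *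
        (∫ s, K s * Real.cos ((∑ a, (m a : ℝ) * ν a) * s)) +
      (8 / (9 * (2 * r + 1))) * ∑ b ∈ JJ r,
        ((7 / 8) * ((∏ a, cf (m a)) * Real.cos (∑ a, (m a : ℝ) * phE r b 0 a)) +
          (1 / 8) * ((∏ a, cf (m a)) * Real.cos (∑ a, (m a : ℝ) * phE r b 1 a))) +
      (14 / (15 * (2 * r + 1))) * ∏ a, sf (m a) := by
  set c := ∑ a, (m a : ℝ) * ν a with hc
  have h1 : ∀ s, densE r ν K s * Real.cos (c * s) =
      ((1 - (8 / 9) * (2 * r) / (2 * r + 1) - (14 / 15) / (2 * r + 1)) * (K s * Real.cos (c * s)) +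
      (8 / (9 * (2 * r + 1))) * ∑ b ∈ JJ r, ((7 / 8) * (K s * GG ν (phE r b 0) s * Real.cos (c * s)) +
        (1 / 8) * (K s * GG ν (phE r b 1) s * Real.cos (c * s)))) +
      (14 / (15 * (2 * r + 1))) * (K s * PS ν s * Real.cos (c * s)) := by
    intro s
    have h2 : ∑ b ∈ JJ r, ((7 / 8) * (K s * GG ν (phE r b 0) s * Real.cos (c * s)) +
        (1 / 8) * (K s * GG ν (phE r b 1) s * Real.cos (c * s))) =
        K s * Real.cos (c * s) * ∑ b ∈ JJ r, ((7 / 8) * GG ν (phE r b 0) s + (1 / 8) * GG ν (phE r b 1) s) := by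
      rw [Finset.mul_sum]
      apply Finset.sum_congr rfl
      intro b _; ring
    rw [h2]
    unfold densE
    ring
  have hi1 : Integrable fun s => K s * Real.cos (c * s) := integrable_mul_cos hK.2.1 c
  have hi2 : ∀ b t, Integrable fun s => K s * GG ν (phE r b t) s * Real.cos (c * s) := fun b t =>
    integrable_mul_cos (integrable_K_GG hK.2.1 _) c
  have hi3 : Integrable fun s => K s * PS ν s * Real.cos (c * s) :=
    integrable_mul_cos (integrable_K_PS hK.2.1) c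
  have hi4 : ∀ b ∈ JJ r, Integrable fun s => (7 / 8) * (K s * GG ν (phE r b 0) s * Real.cos (c * s)) +
        (1 / 8) * (K s * GG ν (phE r b 1) s * Real.cos (c * s)) := fun b _ =>
    ((hi2 b 0).const_mul _).add ((hi2 b 1).const_mul _)
  have hi5 : Integrable fun s => (1 - (8 / 9) * (2 * (r : ℝ)) / (2 * r + 1) - (14 / 15) / (2 * r + 1)) * (K s * Real.cos (c * s)) +
      (8 / (9 * (2 * (r : ℝ) + 1))) * ∑ b ∈ JJ r, ((7 / 8) * (K s * GG ν (phE r b 0) s * Real.cos (c * s)) +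
        (1 / 8) * (K s * GG ν (phE r b 1) s * Real.cos (c * s))) :=
    (hi1.const_mul _).add ((integrable_finsetSum _ hi4).const_mul _)
  simp only [h1]
  rw [integral_add hi5 (hi3.const_mul _),
    integral_add (hi1.const_mul _) ((integrable_finsetSum _ hi4).const_mul _),
    integral_const_mul, integral_const_mul, integral_const_mul, integral_finsetSum _ hi4]
  congr 1
  · congr 2
    apply Finset.sum_congr rfl
    intro b _
    rw [integral_add ((hi2 b 0).const_mul _) ((hi2 b 1).const_mul _), integral_const_mul, integral_const_mul, hc,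
      moment_GG hK _ m hm, moment_GG hK _ m hm]
  · rw [hc, moment_PS hK m hm]

/-- the moments in closed form -/
lemma densE_moment' {r : ℕ} {ν : Fin r → ℝ} {K : ℝ → ℝ} (hK : GoodKernel ν K)
    (m : Fin r → ℤ) (hm : ∀ a, m a ∈ Finset.Icc (-2 : ℤ) 2) (U : ℤ) (hU : ∑ a, m a * (((a : ℕ) : ℤ) + 1) = U)
    (h0 : U ≠ 0) (h1 : |U| < 2 * (r : ℤ) + 2) :
    ∫ s, densE r ν K s * Real.cos ((∑ a, (m a : ℝ) * ν a) * s) =
      (8 / (9 * (2 * r + 1))) * ((∏ a, cf (m a)) * (7 / 8 + (1 / 8) * (-1) ^ (∑ a, m a)) * (if Even U then -2 else 0)) +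
      (14 / (15 * (2 * r + 1))) * ∏ a, sf (m a) := by
  have hne : m ≠ 0 := by
    intro h
    apply h0
    rw [← hU, h]
    simp
  rw [densE_moment hK m hm, moment_K hK m hm hne, mul_zero, zero_add, ← sum_cos_J r U h0 h1]
  congr 2
  rw [Finset.mul_sum]
  apply Finset.sum_congr rfl
  intro b _
  have hUR : ∑ a, (m a : ℝ) * (((a : ℕ) : ℝ) + 1) = (U : ℝ) := by
    rw [← hU]; push_cast; rfl
  have e0 : ∑ a, (m a : ℝ) * phE r b 0 a = ((2 * U : ℤ) : ℝ) * (((b : ℕ) : ℝ) + 1) * al (2 * r + 1) := by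
    unfold phE
    push_cast
    rw [← hUR, Finset.mul_sum, Finset.sum_mul, Finset.sum_mul]
    apply Finset.sum_congr rfl
    intro a _; ring
  have e1 : ∑ a, (m a : ℝ) * phE r b 1 a = ((2 * U : ℤ) : ℝ) * (((b : ℕ) : ℝ) + 1) * al (2 * r + 1) +
      ((∑ a, m a : ℤ) : ℝ) * Real.pi := by
    rw [← e0]
    push_cast
    rw [Finset.sum_mul, ← Finset.sum_add_distrib]
    apply Finset.sum_congr rfl
    intro a _
    unfold phE
    push_cast; ring
  rw [e0, e1, Real.cos_add_int_mul_pi]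
  ring

/-- the vector of signed unit coordinates -/
def Mv (r : ℕ) (u : ℤ) (a : Fin r) : ℤ :=
  if (((a : ℕ) : ℤ) + 1) = u then 1 else if (((a : ℕ) : ℤ) + 1) = -u then -1 else 0

/-- the index of a nonzero coordinate -/
def iu {r : ℕ} (u : ℤ) (h0 : u ≠ 0) (hu : u.natAbs ≤ r) : Fin r := ⟨u.natAbs - 1, by omega⟩

lemma Mv_zero (r : ℕ) : Mv r 0 = 0 := by
  funext a
  unfold Mv
  rw [if_neg (by omega), if_neg (by omega)]
  rfl

lemma Mv_ne {r : ℕ} (u : ℤ) (h0 : u ≠ 0) (hu : u.natAbs ≤ r) (a : Fin r) (ha : a ≠ iu u h0 hu) : Mv r u a = 0 := by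
  have : (a : ℕ) ≠ u.natAbs - 1 := by intro h; apply ha; ext; exact h
  unfold Mv
  rw [if_neg (by omega), if_neg (by omega)]

lemma Mv_at {r : ℕ} (u : ℤ) (h0 : u ≠ 0) (hu : u.natAbs ≤ r) : Mv r u (iu u h0 hu) = if 0 < u then 1 else -1 := by
  unfold Mv iu
  simp only
  by_cases h : 0 < u
  · rw [if_pos h, if_pos (by omega)]
  · rw [if_neg h, if_neg (by omega), if_pos (by omega)]

lemma Mv_sum {r : ℕ} (u : ℤ) (hu : u.natAbs ≤ r) {R : Type} [CommRing R] (g : ℤ → R) (hg : ∀ x, g (-x) = - g x)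
    (hg0 : g 0 = 0) : ∑ a, (Mv r u a : R) * g (((a : ℕ) : ℤ) + 1) = g u := by
  by_cases h0 : u = 0
  · subst h0
    rw [Mv_zero, hg0]
    simp
  · rw [Finset.sum_eq_single (iu u h0 hu)]
    · rw [Mv_at]
      by_cases h : 0 < u
      · rw [if_pos h]
        have : (((iu u h0 hu : Fin r) : ℕ) : ℤ) + 1 = u := by unfold iu; simp only; omega
        rw [this]; simp
      · rw [if_neg h]
        have : (((iu u h0 hu : Fin r) : ℕ) : ℤ) + 1 = -u := by unfold iu; simp only; omega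
        rw [this, hg]; simp
    · intro a _ ha
      rw [Mv_ne u h0 hu a ha]; simp
    · simp

lemma Mv_tot {r : ℕ} (u : ℤ) (h0 : u ≠ 0) (hu : u.natAbs ≤ r) : Odd (∑ a, Mv r u a) := by
  rw [Finset.sum_eq_single (iu u h0 hu)]
  · rw [Mv_at]
    split_ifs
    · exact odd_one
    · decide
  · intro a _ ha; exact Mv_ne u h0 hu a ha
  · simp

/-- product over a difference: different absolute values -/
lemma prod_A {r : ℕ} (F : ℤ → ℝ) (α : ℝ) (F0 : F 0 = 1) (F1 : F 1 = α) (F1' : F (-1) = α)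
    (u v : ℤ) (hu0 : u ≠ 0) (hv0 : v ≠ 0) (hu : u.natAbs ≤ r) (hv : v.natAbs ≤ r) (huv : u.natAbs ≠ v.natAbs) :
    ∏ a, F ((Mv r u - Mv r v) a) = α * α := by
  have hne : iu u hu0 hu ≠ iu v hv0 hv := by
    intro h
    apply huv
    unfold iu at h
    rw [Fin.mk.injEq] at h
    omega
  rw [Finset.prod_eq_mul (iu u hu0 hu) (iu v hv0 hv) hne]
  · rw [Pi.sub_apply, Pi.sub_apply, Mv_at, Mv_at, Mv_ne v hv0 hv _ hne, Mv_ne u hu0 hu _ (Ne.symm hne)]
    congr 1
    · split_ifs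
      · simpa using F1
      · simpa using F1'
    · split_ifs
      · simpa using F1'
      · simpa using F1
  · intro a _ ha
    rw [Pi.sub_apply, Mv_ne u hu0 hu a ha.1, Mv_ne v hv0 hv a ha.2]
    simpa using F0
  · simp
  · simp

/-- product over a difference: opposite indices -/
lemma prod_B {r : ℕ} (F : ℤ → ℝ) (β : ℝ) (F0 : F 0 = 1) (F2 : F 2 = β) (F2' : F (-2) = β)
    (u : ℤ) (hu0 : u ≠ 0) (hu : u.natAbs ≤ r) :
    ∏ a, F ((Mv r u - Mv r (-u)) a) = β := by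
  have hu0' : -u ≠ 0 := by omega
  have hu' : (-u).natAbs ≤ r := by rwa [Int.natAbs_neg]
  have hi : iu (-u) hu0' hu' = iu u hu0 hu := by
    unfold iu; rw [Fin.mk.injEq]; omega
  rw [Finset.prod_eq_single (iu u hu0 hu)]
  · rw [Pi.sub_apply, Mv_at, ← hi, Mv_at]
    by_cases h : 0 < u
    · rw [if_pos h, if_neg (by omega)]
      norm_num
      exact F2
    · rw [if_neg h, if_pos (by omega)]
      norm_num
      exact F2'
  · intro a _ ha
    rw [Pi.sub_apply, Mv_ne u hu0 hu a ha, Mv_ne (-u) hu0' hu' a (by rw [hi]; exact ha)]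
    simpa using F0
  · simp

/-- product over a single coordinate -/
lemma prod_C {r : ℕ} (F : ℤ → ℝ) (α : ℝ) (F0 : F 0 = 1) (F1 : F 1 = α) (F1' : F (-1) = α)
    (u : ℤ) (hu0 : u ≠ 0) (hu : u.natAbs ≤ r) :
    ∏ a, F (Mv r u a) = α := by
  rw [Finset.prod_eq_single (iu u hu0 hu)]
  · rw [Mv_at]
    split_ifs
    · exact F1
    · exact F1'
  · intro a _ ha
    rw [Mv_ne u hu0 hu a ha]
    exact F0
  · simp

end

end Pool.Agent.Helper54.Mix
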