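import Pool.Agent.Helper54.Mix.Even

/-!
# Existence for paths with an odd number of vertices and independent eigenvalues
-/

set_option autoImplicit false

namespace Pool.Agent.Helper54.Mix

open MeasureTheory

noncomputable section

/-- the odd extension of the frequencies -/
def nuE (r : ℕ) (x : ℤ) : ℝ := lam (2 * r + 1) ((r : ℤ) + 1 - x)

lemma nuE_neg (r : ℕ) (x : ℤ) : nuE r (-x) = - nuE r x := by
  unfold nuE; rw [← lam_refl]; congr 1; push_cast; ring

lemma nuE_zero (r : ℕ) : nuE r 0 = 0 := by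
  have := nuE_neg r 0
  rw [neg_zero] at this
  linarith

lemma Mv_neg (r : ℕ) (u : ℤ) : Mv r (-u) = - Mv r u := by
  funext a
  rw [Pi.neg_apply]
  unfold Mv
  split_ifs <;> omega

lemma cf0 : cf 0 = 1 := by simp [cf]
lemma cf1 : cf 1 = 3 / 4 := by simp [cf]
lemma cf1' : cf (-1) = 3 / 4 := by simp [cf]
lemma cf2 : cf 2 = 3 / 10 := by simp [cf]
lemma cf2' : cf (-2) = 3 / 10 := by simp [cf]
lemma sf0 : sf 0 = 1 := by simp [sf]
lemma sf1 : sf 1 = 0 := by simp [sf]
lemma sf1' : sf (-1) = 0 := by simp [sf]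
lemma sf2 : sf 2 = -(1 / 2) := by simp [sf]
lemma sf2' : sf (-2) = -(1 / 2) := by simp [sf]

lemma densE_isDensity {r : ℕ} {ν : Fin r → ℝ} {K : ℝ → ℝ} (hK : GoodKernel ν K) :
    IsDensity (densE r ν K) := by
  have hr : (0 : ℝ) ≤ r := Nat.cast_nonneg r
  have hn : (0 : ℝ) < 2 * r + 1 := by linarith
  constructor
  · intro s
    unfold densE
    apply mul_nonneg (hK.1 s)
    have h1 : 0 ≤ (1 - (8 / 9) * (2 * (r : ℝ)) / (2 * r + 1) - (14 / 15) / (2 * r + 1)) := by
      have : (1 - (8 / 9) * (2 * (r : ℝ)) / (2 * r + 1) - (14 / 15) / (2 * r + 1)) =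
          ((2 / 9) * r + 1 / 15) / (2 * r + 1) := by field_simp; ring
      rw [this]
      positivity
    have h2 : 0 ≤ ∑ b ∈ JJ r, ((7 / 8) * GG ν (phE r b 0) s + (1 / 8) * GG ν (phE r b 1) s) :=
      Finset.sum_nonneg fun b _ => add_nonneg (mul_nonneg (by norm_num) (GG_nonneg _ _ _))
        (mul_nonneg (by norm_num) (GG_nonneg _ _ _))
    have h3 := PS_nonneg ν s
    positivity
  · have h := densE_moment hK 0 (fun a => by simp)
    simp only [Pi.zero_apply, Int.cast_zero, zero_mul, Finset.sum_const_zero, Real.cos_zero, mul_one] at h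
    rw [h, hK.2.2.1]
    simp only [cf0, sf0, Finset.prod_const_one, Finset.sum_const, JJ_card, nsmul_eq_mul]
    push_cast
    field_simp
    ring

/-- the moments -/
lemma densE_final {r : ℕ} {ν : Fin r → ℝ} {K : ℝ → ℝ} (hK : GoodKernel ν K) (u v : ℤ)
    (hu : u.natAbs ≤ r) (hv : v.natAbs ≤ r) (huv : u ≠ v) :
    ∫ s, densE r ν K s * Real.cos ((∑ a, (((Mv r u - Mv r v) a : ℤ) : ℝ) * ν a) * s) =
      if Even (u - v) then -(1 / (2 * (r : ℝ) + 1)) else 0 := by
  have hn : (2 * (r : ℝ) + 1) ≠ 0 := by positivity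
  have hmem : ∀ a, (Mv r u - Mv r v) a ∈ Finset.Icc (-2 : ℤ) 2 := by
    intro a
    rw [Pi.sub_apply, Finset.mem_Icc]
    unfold Mv
    split_ifs <;> omega
  have hU : ∑ a, (Mv r u - Mv r v) a * (((a : ℕ) : ℤ) + 1) = u - v := by
    have h1 := Mv_sum u hu (fun x : ℤ => x) (fun x => rfl) rfl
    have h2 := Mv_sum v hv (fun x : ℤ => x) (fun x => rfl) rfl
    simp only [Int.cast_id] at h1 h2
    have h3 : ∑ a, (Mv r u - Mv r v) a * (((a : ℕ) : ℤ) + 1) =
        (∑ a : Fin r, Mv r u a * (((a : ℕ) : ℤ) + 1)) - ∑ a : Fin r, Mv r v a * (((a : ℕ) : ℤ) + 1) := by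
      rw [← Finset.sum_sub_distrib]
      apply Finset.sum_congr rfl
      intro a _
      rw [Pi.sub_apply]; ring
    rw [h3, h1, h2]
  have hlt : |u - v| < 2 * (r : ℤ) + 2 := by rw [abs_lt]; omega
  rw [densE_moment' hK _ hmem (u - v) hU (by omega) hlt]
  have htot : ∑ a, (Mv r u - Mv r v) a = (∑ a, Mv r u a) - ∑ a, Mv r v a := by
    rw [← Finset.sum_sub_distrib]; rfl
  rw [htot]
  by_cases hu0 : u = 0
  · have hv0 : v ≠ 0 := by omega
    have hv0' : -v ≠ 0 := by omega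
    have hv' : (-v).natAbs ≤ r := by rwa [Int.natAbs_neg]
    have e : Mv r u - Mv r v = Mv r (-v) := by rw [hu0, Mv_zero, Mv_neg, zero_sub]
    rw [e, prod_C cf (3 / 4) cf0 cf1 cf1' (-v) hv0' hv', prod_C sf 0 sf0 sf1 sf1' (-v) hv0' hv', hu0, Mv_zero]
    simp only [Pi.zero_apply, Finset.sum_const_zero, zero_sub]
    rw [(Mv_tot v hv0 hv).neg.neg_one_zpow]
    split_ifs
    · field_simp; norm_num
    · simp
  · by_cases hv0 : v = 0
    · rw [hv0, Mv_zero, sub_zero, prod_C cf (3 / 4) cf0 cf1 cf1' u hu0 hu, prod_C sf 0 sf0 sf1 sf1' u hu0 hu]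
      simp only [Pi.zero_apply, Finset.sum_const_zero, sub_zero]
      rw [(Mv_tot u hu0 hu).neg_one_zpow]
      split_ifs
      · field_simp; norm_num
      · simp
    · rw [((Mv_tot u hu0 hu).sub_odd (Mv_tot v hv0 hv)).neg_one_zpow]
      by_cases hne : u.natAbs = v.natAbs
      · have hv' : v = -u := by omega
        subst hv'
        rw [prod_B cf (3 / 10) cf0 cf2 cf2' u hu0 hu, prod_B sf (-(1 / 2)) sf0 sf2 sf2' u hu0 hu]
        have he : Even (u - -u) := ⟨u, by ring⟩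
        rw [if_pos he, if_pos he]
        field_simp; norm_num
      · rw [prod_A cf (3 / 4) cf0 cf1 cf1' u v hu0 hv0 hu hv hne, prod_A sf 0 sf0 sf1 sf1' u v hu0 hv0 hu hv hne]
        split_ifs
        · field_simp; norm_num
        · simp

/-- If the eigenvalues `λ_1, ..., λ_r` of `P_{2r+1}` are independent over the integers then some
density has an averaged mixing matrix of rank one. -/
theorem exists_rank_one_odd {r : ℕ} (hind : ∀ c : Fin r → ℤ, ∑ a, (c a : ℝ) * nuE r (((a : ℕ) : ℤ) + 1) = 0 → c = 0) :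
    ∃ f : ℝ → ℝ, IsDensity f ∧ (avgMixing (2 * r + 1) f).rank = 1 := by
  obtain ⟨K, hK⟩ := exists_goodKernel (fun a : Fin r => nuE r (((a : ℕ) : ℤ) + 1)) hind
  refine ⟨densE r (fun a : Fin r => nuE r (((a : ℕ) : ℤ) + 1)) K, densE_isDensity hK,
    rank_of_const (by omega) _ (avg_of_moments (densE_isDensity hK) ?_)⟩
  intro k l hkl
  have hk := k.isLt
  have hl := l.isLt
  obtain ⟨u, hu⟩ : ∃ u : ℤ, u = r - (k : ℕ) := ⟨_, rfl⟩
  obtain ⟨v, hv⟩ : ∃ v : ℤ, v = r - (l : ℕ) := ⟨_, rfl⟩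
  have hlk : lam (2 * r + 1) ((k : ℕ) + 1 : ℤ) = nuE r u := by
    unfold nuE; congr 1; omega
  have hll : lam (2 * r + 1) ((l : ℕ) + 1 : ℤ) = nuE r v := by
    unfold nuE; congr 1; omega
  have huv : u ≠ v := by
    intro h; apply hkl; ext; omega
  have hun : u.natAbs ≤ r := by omega
  have hvn : v.natAbs ≤ r := by omega
  have hd : nuE r u - nuE r v = ∑ a : Fin r, (((Mv r u - Mv r v) a : ℤ) : ℝ) * nuE r (((a : ℕ) : ℤ) + 1) := by
    rw [← Mv_sum u hun (nuE r) (nuE_neg r) (nuE_zero r), ← Mv_sum v hvn (nuE r) (nuE_neg r) (nuE_zero r),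
      ← Finset.sum_sub_distrib]
    apply Finset.sum_congr rfl
    intro a _
    rw [Pi.sub_apply]; push_cast; ring
  have hev : Even ((k : ℤ) - l) ↔ Even (u - v) := by
    have : (k : ℤ) - l = -(u - v) := by omega
    rw [this, even_neg]
  rw [hlk, hll, hd, densE_final hK u v hun hvn huv]
  by_cases he : Even (u - v)
  · rw [if_pos he, if_pos (hev.mpr he)]
    push_cast; rfl
  · rw [if_neg he, if_neg (fun h => he (hev.mp h))]

end

end Pool.Agent.Helper54.Mix
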