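import Pool.Agent.Helper54.Mix.Neg

set_option autoImplicit false

namespace Pool.Agent.Helper54.Mix

open Matrix MeasureTheory

noncomputable section

lemma lam_of_mul {n : ℕ} {M : ℕ} {c : ℕ} (hM : 0 < M) (hn : n + 1 = c * M) (j : ℤ) :
    lam n (j * M) = 2 * Real.cos ((j : ℝ) * (Real.pi / c)) := by
  unfold lam al
  have h1 : ((n : ℝ) + 1) = (c : ℝ) * M := by exact_mod_cast hn
  have hM' : (M : ℝ) ≠ 0 := by exact_mod_cast hM.ne'
  have hc : (c : ℝ) ≠ 0 := by
    rintro h
    have : c = 0 := by exact_mod_cast h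
    subst this; omega
  rw [h1]
  congr 2
  push_cast
  field_simp

lemma fam6 {n : ℕ} (h : 6 ∣ n + 1) (hn5 : n ≠ 5) : ¬ ∃ f : ℝ → ℝ, IsDensity f ∧ (avgMixing n f).rank = 1 := by
  obtain ⟨M, hM⟩ := h
  have hM2 : 2 ≤ M := by omega
  have hal : (M : ℝ) * al n = Real.pi / 6 := by
    unfold al
    have h1 : ((n : ℝ) + 1) = 6 * M := by exact_mod_cast hM
    have hM' : (M : ℝ) ≠ 0 := by exact_mod_cast (by omega : M ≠ 0)
    rw [h1]; field_simp
  refine not_rank_one_of_coincidence (n := n) ((M : ℤ) - 1) ((M : ℤ) + 1) (3 * M - 1) (3 * M)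
    (by omega) (by omega) (by omega) (by omega) (by omega) (by omega) (by omega) (by omega) (by omega)
    (by have : (M : ℤ) - 1 - (M + 1) = 2 * (-1) := by ring
        rw [this]; exact even_two_mul _)
    (by have : (3 * M - 1 : ℤ) - (3 * M) = 2 * (-1) + 1 := by ring
        rw [this, Int.not_even_iff_odd]; exact odd_two_mul_add_one _) ?_
  unfold lam
  have e1 : ((((M : ℤ) - 1 : ℤ)) : ℝ) * al n = Real.pi / 6 - al n := by rw [← hal]; push_cast; ring
  have e2 : ((((M : ℤ) + 1 : ℤ)) : ℝ) * al n = Real.pi / 6 + al n := by rw [← hal]; push_cast; ring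
  have e3 : (((3 * (M : ℤ) - 1 : ℤ)) : ℝ) * al n = Real.pi / 2 - al n := by
    have : Real.pi / 2 = 3 * (Real.pi / 6) := by ring
    rw [this, ← hal]; push_cast; ring
  have e4 : (((3 * (M : ℤ) : ℤ)) : ℝ) * al n = Real.pi / 2 := by
    have : Real.pi / 2 = 3 * (Real.pi / 6) := by ring
    rw [this, ← hal]; push_cast; ring
  rw [e1, e2, e3, e4, Real.cos_sub, Real.cos_add, Real.cos_pi_div_two_sub, Real.cos_pi_div_two,
    Real.sin_pi_div_six]
  ring

lemma cos_fifth : Real.cos (Real.pi / 5) - Real.cos (2 * (Real.pi / 5)) = 1 / 2 := by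
  have hs : Real.sin (Real.pi / 5) ≠ 0 := by
    apply ne_of_gt
    apply Real.sin_pos_of_pos_of_lt_pi (by positivity)
    have := Real.pi_pos; linarith
  set x := Real.pi / 5 with hx
  have h3 : Real.sin (3 * x) = Real.sin (2 * x) := by
    have : 3 * x = Real.pi - 2 * x := by rw [hx]; ring
    rw [this, Real.sin_pi_sub]
  have h4 : 2 * Real.sin x * (Real.cos x - Real.cos (2 * x)) = Real.sin x := by
    have a1 : Real.sin (3 * x) = Real.sin (2 * x) * Real.cos x + Real.cos (2 * x) * Real.sin x := by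
      have : 3 * x = 2 * x + x := by ring
      rw [this, Real.sin_add]
    have a2 : Real.sin x = Real.sin (2 * x) * Real.cos x - Real.cos (2 * x) * Real.sin x := by
      have : x = 2 * x - x := by ring
      conv_lhs => rw [this]
      rw [Real.sin_sub]
    have a3 : Real.sin (2 * x) = 2 * Real.sin x * Real.cos x := Real.sin_two_mul x
    nlinarith [a1, a2, a3, h3]
  have h5 : 2 * Real.sin x * (Real.cos x - Real.cos (2 * x)) = 2 * Real.sin x * (1 / 2) := by
    rw [h4]; ring
  exact mul_left_cancel₀ (mul_ne_zero two_ne_zero hs) h5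

lemma cos_seventh : Real.cos (Real.pi / 7) - Real.cos (2 * (Real.pi / 7)) + Real.cos (3 * (Real.pi / 7)) = 1 / 2 := by
  have hs : Real.sin (Real.pi / 7) ≠ 0 := by
    apply ne_of_gt
    apply Real.sin_pos_of_pos_of_lt_pi (by positivity)
    have := Real.pi_pos; linarith
  set x := Real.pi / 7 with hx
  have h4 : Real.sin (4 * x) = Real.sin (3 * x) := by
    have : 4 * x = Real.pi - 3 * x := by rw [hx]; ring
    rw [this, Real.sin_pi_sub]
  have b1 : Real.sin (4 * x) = Real.sin (3 * x) * Real.cos x + Real.cos (3 * x) * Real.sin x := by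
    have : 4 * x = 3 * x + x := by ring
    rw [this, Real.sin_add]
  have b2 : Real.sin (2 * x) = Real.sin (3 * x) * Real.cos x - Real.cos (3 * x) * Real.sin x := by
    have : 2 * x = 3 * x - x := by ring
    rw [this, Real.sin_sub]
  have b3 : Real.sin (3 * x) = Real.sin (2 * x) * Real.cos x + Real.cos (2 * x) * Real.sin x := by
    have : 3 * x = 2 * x + x := by ring
    rw [this, Real.sin_add]
  have b4 : Real.sin x = Real.sin (2 * x) * Real.cos x - Real.cos (2 * x) * Real.sin x := by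
    have : x = 2 * x - x := by ring
    conv_lhs => rw [this]
    rw [Real.sin_sub]
  have b5 : Real.sin (2 * x) = 2 * Real.sin x * Real.cos x := Real.sin_two_mul x
  have h5 : 2 * Real.sin x * (Real.cos x - Real.cos (2 * x) + Real.cos (3 * x)) = 2 * Real.sin x * (1 / 2) := by
    linear_combination (-1) * b5 + b3 - b4 - b1 + b2 + h4
  exact mul_left_cancel₀ (mul_ne_zero two_ne_zero hs) h5

lemma cos_fifteenth : Real.cos (3 * (Real.pi / 15)) - Real.cos (Real.pi / 15) =
    1 / 2 - Real.cos (4 * (Real.pi / 15)) := by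
  have h1 : Real.cos (4 * (Real.pi / 15)) - Real.cos (Real.pi / 15) = - Real.cos (2 * (Real.pi / 5)) := by
    rw [Real.cos_sub_cos]
    have e1 : (4 * (Real.pi / 15) + Real.pi / 15) / 2 = Real.pi / 6 := by ring
    have e2 : (4 * (Real.pi / 15) - Real.pi / 15) / 2 = Real.pi / 2 - 2 * (Real.pi / 5) := by ring
    rw [e1, e2, Real.sin_pi_div_six, Real.sin_pi_div_two_sub]
    ring
  have h2 := cos_fifth
  have e3 : 3 * (Real.pi / 15) = Real.pi / 5 := by ring
  rw [e3]
  linarith

lemma fam15 {n : ℕ} (h : 15 ∣ n + 1) : ¬ ∃ f : ℝ → ℝ, IsDensity f ∧ (avgMixing n f).rank = 1 := by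
  obtain ⟨M, hM⟩ := h
  have hM1 : 0 < M := by
    rcases Nat.eq_zero_or_pos M with h | h
    · subst h; omega
    · exact h
  rcases Nat.even_or_odd M with he | ho
  · obtain ⟨t, ht⟩ := he
    exact fam6 (by omega) (by omega)
  · have hodd : ¬ Even (((5 : ℤ) * M) - 4 * M) := by
      have : ((5 : ℤ) * M) - 4 * M = M := by ring
      rw [this, Int.not_even_iff_odd]; exact_mod_cast ho
    refine not_rank_one_of_coincidence (n := n) (3 * (M : ℤ)) (1 * (M : ℤ)) (5 * (M : ℤ)) (4 * (M : ℤ))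
      (by omega) (by omega) (by omega) (by omega) (by omega) (by omega) (by omega) (by omega) (by omega)
      (by have : (3 * (M : ℤ)) - 1 * M = 2 * M := by ring
          rw [this]; exact even_two_mul _) hodd ?_
    rw [lam_of_mul hM1 hM 3, lam_of_mul hM1 hM 1, lam_of_mul hM1 hM 5, lam_of_mul hM1 hM 4]
    have h5 : Real.cos (((5 : ℤ) : ℝ) * (Real.pi / ((15 : ℕ) : ℝ))) = 1 / 2 := by
      have : ((5 : ℤ) : ℝ) * (Real.pi / ((15 : ℕ) : ℝ)) = Real.pi / 3 := by push_cast; ring
      rw [this, Real.cos_pi_div_three]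
    rw [h5]
    have h6 := cos_fifteenth
    push_cast
    rw [one_mul]
    linarith

lemma fam21 {n : ℕ} (h : 21 ∣ n + 1) : ¬ ∃ f : ℝ → ℝ, IsDensity f ∧ (avgMixing n f).rank = 1 := by
  obtain ⟨M, hM⟩ := h
  have hM1 : 0 < M := by
    rcases Nat.eq_zero_or_pos M with h | h
    · subst h; omega
    · exact h
  rcases Nat.even_or_odd M with he | ho
  · obtain ⟨t, ht⟩ := he
    exact fam6 (by omega) (by omega)
  · have hodd : ¬ Even (((3 : ℤ) * M) - 6 * M) := by
      have h1 : ((3 : ℤ) * M) - 6 * M = M - 2 * (2 * M) := by ring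
      have h2 : Odd (M : ℤ) := by exact_mod_cast ho
      rw [h1, Int.not_even_iff_odd]
      exact h2.sub_even (even_two_mul _)
    refine not_rank_one_of_coincidence (n := n) (7 * (M : ℤ)) (9 * (M : ℤ)) (3 * (M : ℤ)) (6 * (M : ℤ))
      (by omega) (by omega) (by omega) (by omega) (by omega) (by omega) (by omega) (by omega) (by omega)
      (by have : (7 * (M : ℤ)) - 9 * M = 2 * (-M) := by ring
          rw [this]; exact even_two_mul _) hodd ?_
    rw [lam_of_mul hM1 hM 7, lam_of_mul hM1 hM 9, lam_of_mul hM1 hM 3, lam_of_mul hM1 hM 6]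
    have e7 : ((7 : ℤ) : ℝ) * (Real.pi / ((21 : ℕ) : ℝ)) = Real.pi / 3 := by push_cast; ring
    have e9 : ((9 : ℤ) : ℝ) * (Real.pi / ((21 : ℕ) : ℝ)) = 3 * (Real.pi / 7) := by push_cast; ring
    have e3 : ((3 : ℤ) : ℝ) * (Real.pi / ((21 : ℕ) : ℝ)) = Real.pi / 7 := by push_cast; ring
    have e6 : ((6 : ℤ) : ℝ) * (Real.pi / ((21 : ℕ) : ℝ)) = 2 * (Real.pi / 7) := by push_cast; ring
    rw [e7, e9, e3, e6, Real.cos_pi_div_three]
    have h6 := cos_seventh
    linarith

end

end Pool.Agent.Helper54.Mix
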