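import Pool.Agent.Helper54.Mix.Pos

/-!
# The moments of the product of `1 - cos (2 ν_a s)`
-/

set_option autoImplicit false

namespace Pool.Agent.Helper54.Mix

open MeasureTheory

noncomputable section

/-- the Fourier coefficients of `1 - cos 2x`. -/
def sf (k : ℤ) : ℝ := if k = 0 then 1 else if k = 2 ∨ k = -2 then -(1/2) else 0

/-- the nonnegative trigonometric polynomial `1 - cos 2x`. -/
def SS (x : ℝ) : ℝ := 1 - Real.cos (2 * x)

lemma SS_nonneg (x : ℝ) : 0 ≤ SS x := by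
  unfold SS; linarith [Real.cos_le_one (2 * x)]

lemma SS_le (x : ℝ) : SS x ≤ 2 := by
  unfold SS; linarith [Real.neg_one_le_cos (2 * x)]

lemma SS_eq (x : ℝ) : ((SS x : ℝ) : ℂ) = ∑ k ∈ Finset.Icc (-3 : ℤ) 3, (sf k : ℂ) * Complex.exp (Complex.I * ((k : ℂ) * x)) := by
  have hIcc : Finset.Icc (-3 : ℤ) 3 = {-3, -2, -1, 0, 1, 2, 3} := by decide
  rw [hIcc]
  rw [Finset.sum_insert (by decide), Finset.sum_insert (by decide), Finset.sum_insert (by decide),
    Finset.sum_insert (by decide), Finset.sum_insert (by decide), Finset.sum_insert (by decide),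
    Finset.sum_singleton]
  have c0 : sf 0 = 1 := by simp [sf]
  have c1 : sf 1 = 0 := by simp [sf]
  have c1' : sf (-1) = 0 := by simp [sf]
  have c2 : sf 2 = -(1/2) := by simp [sf]
  have c2' : sf (-2) = -(1/2) := by simp [sf]
  have c3 : sf 3 = 0 := by simp [sf]
  have c3' : sf (-3) = 0 := by simp [sf]
  rw [c0, c1, c1', c2, c2', c3, c3']
  unfold SS
  have hcos : ((Real.cos (2 * x) : ℝ) : ℂ) =
      (Complex.exp (Complex.I * (((2 : ℤ) : ℂ) * x)) + Complex.exp (Complex.I * (((-2 : ℤ) : ℂ) * x))) / 2 := by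
    rw [Complex.ofReal_cos, Complex.cos]
    congr 3
    · push_cast; ring_nf
    · push_cast; ring_nf
  rw [Complex.ofReal_sub, hcos]
  simp
  ring

/-- the product -/
def PS {r : ℕ} (ν : Fin r → ℝ) (s : ℝ) : ℝ := ∏ a, SS (ν a * s)

lemma PS_nonneg {r : ℕ} (ν : Fin r → ℝ) (s : ℝ) : 0 ≤ PS ν s :=
  Finset.prod_nonneg fun _ _ => SS_nonneg _

lemma PS_le {r : ℕ} (ν : Fin r → ℝ) (s : ℝ) : PS ν s ≤ 2 ^ r := by
  unfold PS
  calc ∏ a, SS (ν a * s) ≤ ∏ _a : Fin r, (2 : ℝ) :=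
        Finset.prod_le_prod (fun _ _ => SS_nonneg _) (fun _ _ => SS_le _)
    _ = 2 ^ r := by rw [Finset.prod_const, Finset.card_univ, Fintype.card_fin]

lemma PS_continuous {r : ℕ} (ν : Fin r → ℝ) : Continuous (PS ν) := by
  unfold PS SS
  fun_prop

lemma integrable_K_PS {r : ℕ} {ν : Fin r → ℝ} {K : ℝ → ℝ} (hK : Integrable K) :
    Integrable fun s => K s * PS ν s := by
  refine Integrable.mul_bdd (c := 2 ^ r) hK (PS_continuous ν).aestronglyMeasurable ?_
  refine Filter.Eventually.of_forall fun s => ?_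
  rw [Real.norm_eq_abs, abs_of_nonneg (PS_nonneg ν s)]
  exact PS_le ν s

lemma PS_eq {r : ℕ} (ν : Fin r → ℝ) (s : ℝ) : ((PS ν s : ℝ) : ℂ) =
    ∑ κ ∈ Fintype.piFinset (fun _ : Fin r => Finset.Icc (-3 : ℤ) 3),
      (∏ a, (sf (κ a) : ℂ)) *
        Complex.exp (Complex.I * (((∑ a, (κ a : ℝ) * ν a : ℝ) : ℂ) * s)) := by
  unfold PS
  rw [Complex.ofReal_prod]
  simp only [SS_eq]
  rw [Finset.prod_univ_sum]
  apply Finset.sum_congr rfl
  intro κ _
  have h1 : Complex.exp (Complex.I * (((∑ a, (κ a : ℝ) * ν a : ℝ) : ℂ) * s)) =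
      ∏ a, Complex.exp (Complex.I * (((κ a : ℂ) * ν a) * s)) := by
    rw [← Complex.exp_sum]
    congr 1
    push_cast
    rw [Finset.sum_mul, Finset.mul_sum]
  rw [h1, ← Finset.prod_mul_distrib]
  apply Finset.prod_congr rfl
  intro a _
  congr 2
  push_cast
  ring

lemma integral_K_PS {r : ℕ} {ν : Fin r → ℝ} {K : ℝ → ℝ} (hK : GoodKernel ν K)
    (m : Fin r → ℤ) (hm : ∀ a, m a ∈ Finset.Icc (-2 : ℤ) 2) :
    ∫ s, (K s : ℂ) * ((PS ν s : ℝ) : ℂ) * Complex.exp (Complex.I * ((-(∑ a, (m a : ℝ) * ν a) : ℝ) * s)) =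
      ∏ a, (sf (m a) : ℂ) := by
  have h1 : ∀ s : ℝ, (K s : ℂ) * ((PS ν s : ℝ) : ℂ) * Complex.exp (Complex.I * ((-(∑ a, (m a : ℝ) * ν a) : ℝ) * s)) =
      ∑ κ ∈ Fintype.piFinset (fun _ : Fin r => Finset.Icc (-3 : ℤ) 3),
      (∏ a, (sf (κ a) : ℂ)) *
        ((K s : ℂ) * Complex.exp (Complex.I * (((∑ a, ((κ a - m a : ℤ) : ℝ) * ν a : ℝ) : ℂ) * s))) := by
    intro s
    rw [PS_eq, Finset.mul_sum, Finset.sum_mul]
    apply Finset.sum_congr rfl
    intro κ _
    have : Complex.exp (Complex.I * (((∑ a, ((κ a - m a : ℤ) : ℝ) * ν a : ℝ) : ℂ) * s)) =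
        Complex.exp (Complex.I * (((∑ a, (κ a : ℝ) * ν a : ℝ) : ℂ) * s)) *
        Complex.exp (Complex.I * ((-(∑ a, (m a : ℝ) * ν a) : ℝ) * s)) := by
      rw [← Complex.exp_add]
      congr 1
      have : (∑ a, ((κ a - m a : ℤ) : ℝ) * ν a : ℝ) = (∑ a, (κ a : ℝ) * ν a) + (-(∑ a, (m a : ℝ) * ν a)) := by
        rw [← Finset.sum_neg_distrib, ← Finset.sum_add_distrib]
        apply Finset.sum_congr rfl
        intro a _
        push_cast; ring
      rw [this]
      push_cast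
      ring
    rw [this]
    ring
  simp only [h1]
  rw [integral_finsetSum]
  · rw [Finset.sum_eq_single m]
    · rw [integral_const_mul]
      have h2 : ∫ s, (K s : ℂ) * Complex.exp (Complex.I * (((∑ a, ((m a - m a : ℤ) : ℝ) * ν a : ℝ) : ℂ) * s)) = 1 := by
        simp only [sub_self, Int.cast_zero, zero_mul, Finset.sum_const_zero, Complex.ofReal_zero, mul_zero,
          Complex.exp_zero, mul_one]
        rw [integral_complex_ofReal, hK.2.2.1]; simp
      rw [h2, mul_one]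
    · intro κ hκ hne
      rw [integral_const_mul]
      rw [Fintype.mem_piFinset] at hκ
      have h3 := hK.2.2.2 (fun a => κ a - m a) (fun a => by
        have h4 := hκ a
        have h5 := hm a
        rw [Finset.mem_Icc] at *
        constructor <;> omega) (by
        intro h0
        apply hne
        funext a
        have := congrFun h0 a
        simp at this
        omega)
      rw [h3, mul_zero]
    · intro hnot
      exfalso
      apply hnot
      rw [Fintype.mem_piFinset]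
      intro a
      have h5 := hm a
      rw [Finset.mem_Icc] at *
      constructor <;> omega
  · intro κ _
    exact (integrable_K_exp hK.2.1 _).const_mul _

lemma moment_PS {r : ℕ} {ν : Fin r → ℝ} {K : ℝ → ℝ} (hK : GoodKernel ν K)
    (m : Fin r → ℤ) (hm : ∀ a, m a ∈ Finset.Icc (-2 : ℤ) 2) :
    ∫ s, K s * PS ν s * Real.cos ((∑ a, (m a : ℝ) * ν a) * s) = ∏ a, sf (m a) := by
  have h1 := integral_K_PS hK m hm
  have h2 := re_integral_exp (integrable_K_PS (ν := ν) hK.2.1) (-(∑ a, (m a : ℝ) * ν a))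
  have h3 : ∀ s : ℝ, K s * PS ν s * Real.cos (-(∑ a, (m a : ℝ) * ν a) * s) =
      K s * PS ν s * Real.cos ((∑ a, (m a : ℝ) * ν a) * s) := by
    intro s; rw [neg_mul, Real.cos_neg]
  simp only [h3] at h2
  rw [← h2]
  have h4 : (∫ s, ((K s * PS ν s : ℝ) : ℂ) * Complex.exp (Complex.I * (((-(∑ a, (m a : ℝ) * ν a) : ℝ) : ℂ) * s))) =
      ∏ a, (sf (m a) : ℂ) := by
    rw [← h1]
    congr 1
    funext s
    push_cast
    ring
  rw [h4, ← Complex.ofReal_prod, Complex.ofReal_re]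

end

end Pool.Agent.Helper54.Mix
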