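import Pool.Agent.Helper54.Mix.Trace

set_option autoImplicit false

namespace Pool.Agent.Helper54.Mix

open Matrix

noncomputable section

lemma adj_conjTranspose (n : ℕ) : (adj n)ᴴ = adj n := by
  ext i j
  simp only [Matrix.conjTranspose_apply, adj, Matrix.of_apply]
  by_cases h : (j : ℕ) + 1 = i ∨ (i : ℕ) + 1 = j
  · have h' : (i : ℕ) + 1 = j ∨ (j : ℕ) + 1 = i := h.symm
    rw [if_pos h, if_pos h']; simp
  · have h' : ¬ ((i : ℕ) + 1 = j ∨ (j : ℕ) + 1 = i) := fun hh => h hh.symm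
    rw [if_neg h, if_neg h']; simp

lemma adj_transpose (n : ℕ) : (adj n)ᵀ = adj n := by
  ext i j
  simp only [Matrix.transpose_apply, adj, Matrix.of_apply]
  by_cases h : (j : ℕ) + 1 = i ∨ (i : ℕ) + 1 = j
  · rw [if_pos h, if_pos h.symm]
  · rw [if_neg h, if_neg (fun hh => h hh.symm)]

lemma walk_conjTranspose (n : ℕ) (s : ℝ) : (walk n s)ᴴ = walk n (-s) := by
  unfold walk
  rw [← Matrix.exp_conjTranspose, Matrix.conjTranspose_smul, adj_conjTranspose]
  congr 2
  simp

lemma walk_transpose (n : ℕ) (s : ℝ) : (walk n s)ᵀ = walk n s := by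
  unfold walk
  rw [← Matrix.exp_transpose, Matrix.transpose_smul, adj_transpose]

lemma walk_mul_neg (n : ℕ) (s : ℝ) : walk n s * walk n (-s) = 1 := by
  unfold walk
  rw [← Matrix.exp_add_of_commute, ← add_smul]
  · simp
  · exact ((Commute.refl (adj n)).smul_left _).smul_right _

lemma mixing_row_sum (n : ℕ) (s : ℝ) (a : Fin n) : ∑ b : Fin n, mixing n s a b = 1 := by
  have h : (walk n s * (walk n s)ᴴ) a a = 1 := by
    rw [walk_conjTranspose, walk_mul_neg]; simp
  have h2 : ((∑ b : Fin n, mixing n s a b : ℝ) : ℂ) = (walk n s * (walk n s)ᴴ) a a := by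
    rw [Matrix.mul_apply]
    push_cast
    apply Finset.sum_congr rfl
    intro b _
    simp only [mixing, Matrix.of_apply, Matrix.conjTranspose_apply]
    rw [← Complex.normSq_eq_norm_sq, ← Complex.mul_conj]
    rfl
  rw [h] at h2
  exact_mod_cast h2

lemma mixing_symm (n : ℕ) (s : ℝ) (a b : Fin n) : mixing n s a b = mixing n s b a := by
  simp only [mixing, Matrix.of_apply]
  have h : walk n s a b = walk n s b a := by
    conv_lhs => rw [← walk_transpose n s]
    rfl
  rw [h]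

/-- unitary phases -/
def th (n : ℕ) (s : ℝ) (j : ℤ) : ℂ := Complex.exp (Complex.I * s * (lam n j : ℝ))

lemma walk_mulVec' (n : ℕ) (s : ℝ) (j : ℤ) : walk n s *ᵥ sg n j = th n s j • sg n j :=
  walk_mulVec n s j

lemma th_neg (n : ℕ) (s : ℝ) (j : ℤ) : th n (-s) j = (th n s j)⁻¹ := by
  unfold th
  rw [← Complex.exp_neg]
  congr 1
  push_cast; ring

lemma lam_refl (n : ℕ) (j : ℤ) : lam n ((n : ℤ) + 1 - j) = - lam n j := by
  unfold lam
  have : (((n : ℤ) + 1 - j : ℤ) : ℝ) * al n = Real.pi - (j : ℝ) * al n := by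
    rw [← al_mul n]; push_cast; ring
  rw [this, Real.cos_pi_sub]; ring

lemma th_refl (n : ℕ) (s : ℝ) (j : ℤ) : th n s ((n : ℤ) + 1 - j) = (th n s j)⁻¹ := by
  unfold th
  rw [lam_refl, ← Complex.exp_neg]
  congr 1
  push_cast; ring

/-- the weighted sum as a trace -/
lemma sum_eq_trace (n : ℕ) (s : ℝ) (u v : ℤ) :
    ((∑ a : Fin n, ∑ b : Fin n, Real.cos ((u : ℝ) * (((a : ℕ) : ℝ) + 1) * al n) *
      Real.cos ((v : ℝ) * (((b : ℕ) : ℝ) + 1) * al n) * mixing n s a b : ℝ) : ℂ) =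
      (Dg n u * walk n s * Dg n v * walk n (-s)).trace := by
  rw [Matrix.trace]
  push_cast
  apply Finset.sum_congr rfl
  intro a _
  rw [Matrix.diag_apply, Matrix.mul_apply]
  apply Finset.sum_congr rfl
  intro b _
  rw [← walk_conjTranspose]
  simp only [Dg, Matrix.mul_diagonal, Matrix.diagonal_mul, Matrix.conjTranspose_apply, mixing, Matrix.of_apply]
  rw [← Complex.normSq_eq_norm_sq, ← Complex.mul_conj]
  simp only [Complex.ofReal_cos]
  push_cast
  have : star (walk n s a b) = (starRingEnd ℂ) (walk n s a b) := rfl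
  rw [this]
  ring

lemma mulVec_comp (n : ℕ) (s : ℝ) (u v j : ℤ) :
    (Dg n u * walk n s * Dg n v * walk n (-s)) *ᵥ sg n j =
      ((th n s j)⁻¹ * (1/4)) • (th n s (j + v) • (sg n (j + v + u) + sg n (j + v - u)) +
        th n s (j - v) • (sg n (j - v + u) + sg n (j - v - u))) := by
  rw [← Matrix.mulVec_mulVec, walk_mulVec', th_neg, Matrix.mulVec_smul,
    ← Matrix.mulVec_mulVec, Dg_mulVec, Matrix.mulVec_smul, ← Matrix.mulVec_mulVec, Matrix.mulVec_add,
    walk_mulVec', walk_mulVec', Matrix.mulVec_add, Matrix.mulVec_smul, Matrix.mulVec_smul, Dg_mulVec, Dg_mulVec]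
  simp only [smul_add, smul_smul]
  congr 1
  · congr 1
    · congr 1; ring
    · congr 1; ring
  · congr 1
    · congr 1; ring
    · congr 1; ring

lemma dvd_two_mul_iff (N x : ℤ) : (2 * N) ∣ (2 * x) ↔ N ∣ x :=
  ⟨fun h => Int.dvd_of_mul_dvd_mul_left (by norm_num) h, fun h => mul_dvd_mul_left 2 h⟩

lemma eq_of_dvd_of_lt {N x : ℤ} (h : N ∣ x) (h0 : 0 < x) (h1 : x < 2 * N) : x = N := by
  obtain ⟨c, rfl⟩ := h
  have hN : 0 < N := by nlinarith [h1, h0]
  have hc0 : 0 < c := by
    by_contra hc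
    have : N * c ≤ 0 := by nlinarith
    linarith
  have hc1 : c < 2 := by
    by_contra hc
    have : 2 * N ≤ N * c := by nlinarith
    linarith
  have : c = 1 := by omega
  rw [this, mul_one]

lemma sg_dot_shift (n : ℕ) (j w : ℤ) (hw : ¬ (2 * ((n : ℤ) + 1)) ∣ w) :
    sg n j ⬝ᵥ sg n (j + w) = -((((n : ℂ) + 1) / 2) * (if (2 * ((n : ℤ) + 1)) ∣ (2 * j + w) then 1 else 0)) := by
  rw [sg_dot]
  have h1 : ¬ (2 * ((n : ℤ) + 1)) ∣ (j - (j + w)) := by
    intro h
    apply hw
    have : j - (j + w) = -w := by ring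
    rw [this] at h
    exact (dvd_neg).mp h
  have h2 : j + (j + w) = 2 * j + w := by ring
  rw [if_neg h1, h2]
  ring

/-- The moment identity. -/
theorem moment_identity (n : ℕ) (s : ℝ) (k l : ℤ) (hk1 : 1 ≤ k) (hkn : k ≤ n) (hl1 : 1 ≤ l) (hln : l ≤ n) :
    ∑ a : Fin n, ∑ b : Fin n, Real.cos (((k + l : ℤ) : ℝ) * (((a : ℕ) : ℝ) + 1) * al n) *
      Real.cos (((k - l : ℤ) : ℝ) * (((b : ℕ) : ℝ) + 1) * al n) * mixing n s a b =
      - Real.cos ((lam n k - lam n l) * s) := by
  have hN : ((n : ℂ) + 1) ≠ 0 := by exact_mod_cast (Nat.succ_ne_zero n)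
  have nd : ∀ x : ℤ, x ≠ 0 → |x| < 2 * ((n : ℤ) + 1) → ¬ (2 * ((n : ℤ) + 1)) ∣ x := by
    intro x hx0 hx h
    have := Int.le_of_dvd (abs_pos.mpr hx0) ((dvd_abs _ _).mpr h)
    omega
  have key : (Dg n (k + l) * walk n s * Dg n (k - l) * walk n (-s)).trace =
      -(1/4) * (((th n s ((n : ℤ) + 1 - k))⁻¹ * th n s ((n : ℤ) + 1 - l)) + ((th n s l)⁻¹ * th n s k) +
        ((th n s ((n : ℤ) + 1 - l))⁻¹ * th n s ((n : ℤ) + 1 - k)) + ((th n s k)⁻¹ * th n s l)) := by
    rw [trace_eq]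
    have hterm : ∀ j : Fin n, sg n ((j : ℕ) + 1 : ℤ) ⬝ᵥ
        ((Dg n (k + l) * walk n s * Dg n (k - l) * walk n (-s)) *ᵥ sg n ((j : ℕ) + 1 : ℤ)) =
        -(((n : ℂ) + 1) / 8) *
        ((if ((n : ℤ) + 1) ∣ (((j : ℕ) + 1 : ℤ) + k) then (th n s ((j : ℕ) + 1 : ℤ))⁻¹ * th n s (((j : ℕ) + 1 : ℤ) + (k - l)) else 0)
        + (if ((n : ℤ) + 1) ∣ (((j : ℕ) + 1 : ℤ) - l) then (th n s ((j : ℕ) + 1 : ℤ))⁻¹ * th n s (((j : ℕ) + 1 : ℤ) + (k - l)) else 0)
        + (if ((n : ℤ) + 1) ∣ (((j : ℕ) + 1 : ℤ) + l) then (th n s ((j : ℕ) + 1 : ℤ))⁻¹ * th n s (((j : ℕ) + 1 : ℤ) - (k - l)) else 0)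
        + (if ((n : ℤ) + 1) ∣ (((j : ℕ) + 1 : ℤ) - k) then (th n s ((j : ℕ) + 1 : ℤ))⁻¹ * th n s (((j : ℕ) + 1 : ℤ) - (k - l)) else 0)) := by
      intro j
      rw [mulVec_comp, dotProduct_smul, dotProduct_add, dotProduct_smul, dotProduct_smul, dotProduct_add, dotProduct_add]
      set x : ℤ := ((j : ℕ) + 1 : ℤ) with hx
      have e1 : x + (k - l) + (k + l) = x + 2 * k := by ring
      have e2 : x + (k - l) - (k + l) = x + (-(2 * l)) := by ring
      have e3 : x - (k - l) + (k + l) = x + 2 * l := by ring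
      have e4 : x - (k - l) - (k + l) = x + (-(2 * k)) := by ring
      rw [e1, e2, e3, e4]
      rw [sg_dot_shift n x (2 * k) (nd _ (by omega) (by rw [abs_lt]; constructor <;> omega)),
        sg_dot_shift n x (-(2 * l)) (nd _ (by omega) (by rw [abs_lt]; constructor <;> omega)),
        sg_dot_shift n x (2 * l) (nd _ (by omega) (by rw [abs_lt]; constructor <;> omega)),
        sg_dot_shift n x (-(2 * k)) (nd _ (by omega) (by rw [abs_lt]; constructor <;> omega))]
      have f1 : 2 * x + 2 * k = 2 * (x + k) := by ring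
      have f2 : 2 * x + -(2 * l) = 2 * (x - l) := by ring
      have f3 : 2 * x + 2 * l = 2 * (x + l) := by ring
      have f4 : 2 * x + -(2 * k) = 2 * (x - k) := by ring
      rw [f1, f2, f3, f4]
      simp only [dvd_two_mul_iff, smul_eq_mul]
      split_ifs <;> ring
    rw [Finset.sum_congr rfl (fun j _ => hterm j), ← Finset.mul_sum, Finset.sum_add_distrib,
      Finset.sum_add_distrib, Finset.sum_add_distrib]
    have s1 : ∑ j : Fin n, (if ((n : ℤ) + 1) ∣ (((j : ℕ) + 1 : ℤ) + k) then (th n s ((j : ℕ) + 1 : ℤ))⁻¹ * th n s (((j : ℕ) + 1 : ℤ) + (k - l)) else 0)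
        = (th n s ((n : ℤ) + 1 - k))⁻¹ * th n s ((n : ℤ) + 1 - l) := by
      rw [Finset.sum_eq_single (⟨((n : ℤ) - k).toNat, by omega⟩ : Fin n)]
      · have e : ((((n : ℤ) - k).toNat : ℕ) : ℤ) + 1 = (n : ℤ) + 1 - k := by omega
        simp only [e]
        rw [if_pos (by exact ⟨1, by ring⟩)]
        congr 2; ring
      · intro b _ hb
        rw [if_neg]
        intro h
        apply hb
        have := eq_of_dvd_of_lt h (by omega) (by have := b.isLt; omega)
        ext; simp; omega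
      · simp
    have s2 : ∑ j : Fin n, (if ((n : ℤ) + 1) ∣ (((j : ℕ) + 1 : ℤ) - l) then (th n s ((j : ℕ) + 1 : ℤ))⁻¹ * th n s (((j : ℕ) + 1 : ℤ) + (k - l)) else 0)
        = (th n s l)⁻¹ * th n s k := by
      rw [Finset.sum_eq_single (⟨(l - 1).toNat, by omega⟩ : Fin n)]
      · have e : (((l - 1).toNat : ℕ) : ℤ) + 1 = l := by omega
        simp only [e]
        rw [if_pos (by simp)]
        congr 2; ring
      · intro b _ hb
        rw [if_neg]
        intro h
        apply hb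
        have h0 : ((b : ℕ) + 1 : ℤ) - l = 0 := by
          by_contra hne
          have h4 := Int.le_of_dvd (abs_pos.mpr hne) ((dvd_abs _ _).mpr h)
          have h5 : |((b : ℕ) + 1 : ℤ) - l| < n + 1 := by
            rw [abs_lt]; have := b.isLt; constructor <;> omega
          omega
        ext; simp; omega
      · simp
    have s3 : ∑ j : Fin n, (if ((n : ℤ) + 1) ∣ (((j : ℕ) + 1 : ℤ) + l) then (th n s ((j : ℕ) + 1 : ℤ))⁻¹ * th n s (((j : ℕ) + 1 : ℤ) - (k - l)) else 0)
        = (th n s ((n : ℤ) + 1 - l))⁻¹ * th n s ((n : ℤ) + 1 - k) := by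
      rw [Finset.sum_eq_single (⟨((n : ℤ) - l).toNat, by omega⟩ : Fin n)]
      · have e : ((((n : ℤ) - l).toNat : ℕ) : ℤ) + 1 = (n : ℤ) + 1 - l := by omega
        simp only [e]
        rw [if_pos (by exact ⟨1, by ring⟩)]
        congr 2; ring
      · intro b _ hb
        rw [if_neg]
        intro h
        apply hb
        have := eq_of_dvd_of_lt h (by omega) (by have := b.isLt; omega)
        ext; simp; omega
      · simp
    have s4 : ∑ j : Fin n, (if ((n : ℤ) + 1) ∣ (((j : ℕ) + 1 : ℤ) - k) then (th n s ((j : ℕ) + 1 : ℤ))⁻¹ * th n s (((j : ℕ) + 1 : ℤ) - (k - l)) else 0)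
        = (th n s k)⁻¹ * th n s l := by
      rw [Finset.sum_eq_single (⟨(k - 1).toNat, by omega⟩ : Fin n)]
      · have e : (((k - 1).toNat : ℕ) : ℤ) + 1 = k := by omega
        simp only [e]
        rw [if_pos (by simp)]
        congr 2; ring
      · intro b _ hb
        rw [if_neg]
        intro h
        apply hb
        have h0 : ((b : ℕ) + 1 : ℤ) - k = 0 := by
          by_contra hne
          have h4 := Int.le_of_dvd (abs_pos.mpr hne) ((dvd_abs _ _).mpr h)
          have h5 : |((b : ℕ) + 1 : ℤ) - k| < n + 1 := by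
            rw [abs_lt]; have := b.isLt; constructor <;> omega
          omega
        ext; simp; omega
      · simp
    rw [s1, s2, s3, s4]
    field_simp
    ring
  have h := sum_eq_trace n s (k + l) (k - l)
  rw [key] at h
  rw [th_refl, th_refl, inv_inv, inv_inv] at h
  have h2 : -(1/4) * (th n s k * (th n s l)⁻¹ + (th n s l)⁻¹ * th n s k + th n s l * (th n s k)⁻¹ + (th n s k)⁻¹ * th n s l)
      = ((- Real.cos ((lam n k - lam n l) * s) : ℝ) : ℂ) := by
    unfold th
    rw [← Complex.exp_neg, ← Complex.exp_neg, ← Complex.exp_add, ← Complex.exp_add, ← Complex.exp_add, ← Complex.exp_add]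
    push_cast
    rw [Complex.cos]
    have g1 : Complex.I * s * lam n k + -(Complex.I * s * lam n l) = (lam n k - lam n l) * s * Complex.I := by ring
    have g2 : -(Complex.I * s * lam n l) + Complex.I * s * lam n k = (lam n k - lam n l) * s * Complex.I := by ring
    have g3 : Complex.I * s * lam n l + -(Complex.I * s * lam n k) = -((lam n k - lam n l) * s) * Complex.I := by ring
    have g4 : -(Complex.I * s * lam n k) + Complex.I * s * lam n l = -((lam n k - lam n l) * s) * Complex.I := by ring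
    rw [g1, g2, g3, g4]
    ring
  rw [h2] at h
  exact_mod_cast h

end

end Pool.Agent.Helper54.Mix
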