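import Pool.Agent.Helper54.Mix.Crit

/-!
# The moment criterion for rank one
-/

set_option autoImplicit false

namespace Pool.Agent.Helper54.Mix

open MeasureTheory

theorem rank_one_iff_moments {n : ℕ} (hn : 1 ≤ n) {f : ℝ → ℝ} (hf : IsDensity f) :
    (avgMixing n f).rank = 1 ↔ ∀ k l : ℕ, 1 ≤ k → k < l → l ≤ n →
      ∫ s, f s * Real.cos ((2 * Real.cos (k * Real.pi / (n + 1)) - 2 * Real.cos (l * Real.pi / (n + 1))) * s) =
        if Even (l - k) then -(1 / (n : ℝ)) else 0 := by
  have hlam : ∀ k : ℕ, lam n (k : ℤ) = 2 * Real.cos (k * Real.pi / (n + 1)) := by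
    intro k
    unfold lam al
    congr 2
    push_cast
    ring
  have hev : ∀ k l : ℕ, k < l → (Even (l - k) ↔ Even ((k : ℤ) - l)) := by
    intro k l hkl
    have : (k : ℤ) - l = -((l - k : ℕ) : ℤ) := by omega
    rw [this, even_neg, Int.even_coe_nat]
  constructor
  · intro hr k l hk hkl hl
    have h := moments_of_rank_one hf hr (k : ℤ) (l : ℤ) (by omega) (by omega) (by omega) (by omega) (by omega)
    rw [hlam, hlam] at h
    rw [h]
    by_cases he : Even (l - k)
    · rw [if_pos he, if_pos ((hev k l hkl).mp he)]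
    · rw [if_neg he, if_neg (fun h => he ((hev k l hkl).mpr h))]
  · intro h
    apply rank_of_const (by omega)
    apply avg_of_moments hf
    have key : ∀ k l : Fin n, (k : ℕ) < l →
        ∫ s, f s * Real.cos ((lam n ((k : ℕ) + 1 : ℤ) - lam n ((l : ℕ) + 1 : ℤ)) * s) =
          if Even ((k : ℤ) - l) then -(1 / (n : ℝ)) else 0 := by
      intro k l hkl
      have h1 := h ((k : ℕ) + 1) ((l : ℕ) + 1) (by omega) (by omega) (by have := l.isLt; omega)
      rw [← hlam, ← hlam] at h1
      push_cast at h1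
      rw [h1]
      by_cases he : Even ((l : ℕ) - (k : ℕ))
      · rw [if_pos he, if_pos ((hev k l hkl).mp he)]
      · rw [if_neg he, if_neg (fun h => he ((hev k l hkl).mpr h))]
    intro k l hkl
    rcases Nat.lt_or_ge (k : ℕ) (l : ℕ) with hlt | hge
    · exact key k l hlt
    · have hlt : (l : ℕ) < k := lt_of_le_of_ne hge (fun h => hkl (Fin.ext h.symm))
      have h2 := key l k hlt
      have h3 : ∀ s : ℝ, Real.cos ((lam n ((l : ℕ) + 1 : ℤ) - lam n ((k : ℕ) + 1 : ℤ)) * s) =
          Real.cos ((lam n ((k : ℕ) + 1 : ℤ) - lam n ((l : ℕ) + 1 : ℤ)) * s) := by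
        intro s
        rw [← Real.cos_neg]
        congr 1
        ring
      simp only [h3] at h2
      rw [h2]
      have h4 : Even ((l : ℤ) - (k : ℤ)) ↔ Even ((k : ℤ) - l) := by
        have h5 : (l : ℤ) - (k : ℤ) = -((k : ℤ) - l) := by ring
        rw [h5, even_neg]
      by_cases he : Even ((k : ℤ) - l)
      · rw [if_pos he, if_pos (h4.mpr he)]
      · rw [if_neg he, if_neg (fun h => he (h4.mp h))]

end Pool.Agent.Helper54.Mix
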