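import Mathlib

set_option autoImplicit false

namespace Pool.Agent.Helper54.Mix

open MeasureTheory FourierTransform SchwartzMap

noncomputable section

/-- A probability density whose characteristic function vanishes outside `(-δ, δ)`. -/
lemma exists_kernel (δ : ℝ) (hδ : 0 < δ) : ∃ K : ℝ → ℝ, (∀ s, 0 ≤ K s) ∧ Integrable K ∧
    ∫ s, K s = 1 ∧ ∀ w : ℝ, δ ≤ |w| → ∫ s, (K s : ℂ) * Complex.exp (Complex.I * (w * s)) = 0 := by
  have hpi := Real.pi_pos
  let b : ContDiffBump (0 : ℝ) := ⟨δ / (16 * Real.pi), δ / (8 * Real.pi), by positivity, by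
    apply div_lt_div_of_pos_left hδ (by positivity); linarith⟩
  have hbr : b.rOut = δ / (8 * Real.pi) := rfl
  let fC : ℝ → ℂ := fun x => ((b x : ℝ) : ℂ)
  have hcs : HasCompactSupport fC := by
    have := b.hasCompactSupport
    exact this.comp_left (g := fun x : ℝ => (x : ℂ)) Complex.ofReal_zero
  have hcd : ContDiff ℝ (⊤ : ℕ∞) fC := Complex.ofRealCLM.contDiff.comp b.contDiff
  let S : 𝓢(ℝ, ℂ) := hcs.toSchwartzMap hcd
  have hS : ∀ x, S x = fC x := fun x => rfl
  set Z : ℝ := ∫ ξ, ‖𝓕 S ξ‖ ^ 2 with hZ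
  have hInt : Integrable fun ξ => ‖𝓕 S ξ‖ ^ 2 := by
    have h := (𝓕 S).memLp 2 (μ := (volume : Measure ℝ))
    exact h.integrable_norm_pow (by norm_num)
  have hZ2 : Z = ∫ x, ‖S x‖ ^ 2 := integral_norm_sq_fourier S
  have hZpos : 0 < Z := by
    rw [hZ2]
    have hc : Continuous fun x => ‖S x‖ ^ 2 := (S.continuous.norm).pow 2
    have hcomp : HasCompactSupport fun x => ‖S x‖ ^ 2 := by
      have h2 := hcs.norm
      exact h2.comp_left (g := fun x : ℝ => x ^ 2) (by norm_num)
    refine hc.integral_pos_of_hasCompactSupport_nonneg_nonzero hcomp (fun x => by positivity) (x := 0) ?_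
    rw [hS]
    have : b (0 : ℝ) = 1 := b.one_of_mem_closedBall (by simp [b.rIn_pos.le])
    simp [fC, this]
  refine ⟨fun ξ => ‖𝓕 S ξ‖ ^ 2 / Z, fun s => by positivity, hInt.div_const Z, ?_, ?_⟩
  · rw [integral_div, ← hZ, div_self hZpos.ne']
  · intro w hw
    set a : ℝ := - w / (2 * Real.pi) with ha
    let g : 𝓢(ℝ, ℂ) := S.compSubConstCLM ℂ a
    have hg : ∀ x, g x = S (x - a) := fun x => rfl
    have hFg : ∀ ξ, 𝓕 g ξ = Complex.exp (Complex.I * (w * ξ)) * 𝓕 S ξ := by
      intro ξ
      rw [fourier_coe, fourier_coe, Real.fourier_eq', Real.fourier_eq']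
      have h1 : ∫ v : ℝ, Complex.exp (↑(-2 * Real.pi * inner ℝ v ξ) * Complex.I) • g v =
          ∫ v : ℝ, Complex.exp (↑(-2 * Real.pi * inner ℝ (v + a) ξ) * Complex.I) • S v := by
        rw [← integral_sub_right_eq_self (fun v : ℝ => Complex.exp (↑(-2 * Real.pi * inner ℝ (v + a) ξ) * Complex.I) • S v) a]
        simp only [hg, sub_add_cancel]
      rw [h1, ← integral_const_mul]
      congr 1
      funext v
      rw [smul_eq_mul, smul_eq_mul, ← mul_assoc, ← Complex.exp_add]
      congr 2
      simp only [RCLike.inner_apply, conj_trivial]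
      rw [ha]
      push_cast
      field_simp
      ring
    have hpl := integral_inner_fourier_fourier S g
    have hzero : ∫ x, inner ℂ (S x) (g x) = 0 := by
      have : ∀ x, inner ℂ (S x) (g x) = 0 := by
        intro x
        rw [hg, hS, hS]
        have haa : δ / (8 * Real.pi) + δ / (8 * Real.pi) ≤ |a| := by
          rw [ha, abs_div, abs_neg, abs_of_pos (by positivity : (0 : ℝ) < 2 * Real.pi)]
          have : δ / (8 * Real.pi) + δ / (8 * Real.pi) = (δ / 2) / (2 * Real.pi) := by field_simp; ring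
          rw [this]
          apply div_le_div_of_nonneg_right _ (by positivity)
          linarith
        have hor : b.rOut ≤ dist x 0 ∨ b.rOut ≤ dist (x - a) 0 := by
          by_contra hcon
          push Not at hcon
          rw [Real.dist_eq, Real.dist_eq, sub_zero, sub_zero, hbr] at hcon
          have h3 : |a| ≤ |x| + |x - a| := by
            have : a = x - (x - a) := by ring
            calc |a| = |x - (x - a)| := by rw [← this]
              _ ≤ |x| + |x - a| := abs_sub _ _
          linarith [hcon.1, hcon.2]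
        rcases hor with h | h
        · have : b x = 0 := b.zero_of_le_dist h
          simp [fC, this]
        · have : b (x - a) = 0 := b.zero_of_le_dist h
          simp [fC, this]
      simp only [this, integral_zero]
    rw [hzero] at hpl
    have h2 : ∀ s : ℝ, (((‖𝓕 S s‖ ^ 2 / Z : ℝ)) : ℂ) * Complex.exp (Complex.I * (w * s)) =
        (1 / (Z : ℂ)) * inner ℂ (𝓕 S s) (𝓕 g s) := by
      intro s
      rw [hFg]
      simp only [RCLike.inner_apply]
      have h3 : ((‖𝓕 S s‖ ^ 2 : ℝ) : ℂ) = 𝓕 S s * (starRingEnd ℂ) (𝓕 S s) := by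
        rw [Complex.mul_conj, Complex.normSq_eq_norm_sq]
      push_cast
      push_cast at h3
      rw [h3]
      ring
    simp only [h2]
    rw [integral_const_mul, hpl, mul_zero]

end

end Pool.Agent.Helper54.Mix
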