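import Mathlib

/-!
# Laurent polynomials in `m` variables: constant terms of powers of `|y_1 + ... + y_m|²`
-/

set_option autoImplicit false

namespace Pool.Agent.Helper54.Mix

open Finset

noncomputable section

/-- exponent vectors -/
abbrev Ex (m : ℕ) := Fin m → ℤ

/-- Laurent polynomials -/
abbrev RR (m : ℕ) := AddMonoidAlgebra ℂ (Ex m)

/-- the constant term -/
def ct {m : ℕ} : RR m →ₗ[ℂ] ℂ where
  toFun g := g.coeff 0
  map_add' a b := by simp
  map_smul' a b := by simp

/-- the variables -/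
def Y {m : ℕ} (a : Fin m) : RR m := AddMonoidAlgebra.single (Pi.single a 1) 1

/-- their inverses -/
def Yi {m : ℕ} (a : Fin m) : RR m := AddMonoidAlgebra.single (Pi.single a (-1)) 1

lemma ct_apply {m : ℕ} (g : RR m) : ct g = g.coeff 0 := rfl

lemma ct_one {m : ℕ} : ct (1 : RR m) = 1 := by
  rw [ct_apply, AddMonoidAlgebra.one_def]; simp

lemma Y_mul_Yi {m : ℕ} (a : Fin m) : Y a * Yi a = 1 := by
  unfold Y Yi
  rw [AddMonoidAlgebra.single_mul_single, ← Pi.single_add]
  simp [AddMonoidAlgebra.one_def]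

/-- scaling by `2 ^ w` -/
def tau {m : ℕ} (w : Ex m →+ ℤ) : RR m →ₐ[ℂ] RR m :=
  AddMonoidAlgebra.lift ℂ (RR m) (Ex m)
    { toFun := fun u => AddMonoidAlgebra.single u.toAdd ((2 : ℂ) ^ (w u.toAdd))
      map_one' := by simp [AddMonoidAlgebra.one_def]
      map_mul' := by
        intro u v
        rw [AddMonoidAlgebra.single_mul_single, toAdd_mul, map_add, zpow_add₀ (by norm_num)] }

lemma tau_single {m : ℕ} (w : Ex m →+ ℤ) (u : Ex m) (c : ℂ) :
    tau w (AddMonoidAlgebra.single u c) = (2 : ℂ) ^ (w u) • AddMonoidAlgebra.single u c := by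
  unfold tau
  rw [AddMonoidAlgebra.lift_single]
  simp [mul_comm]

lemma ct_tau {m : ℕ} (w : Ex m →+ ℤ) (g : RR m) : ct (tau w g) = ct g := by
  induction g using AddMonoidAlgebra.induction_linear with
  | zero => simp
  | add a b ha hb => simp only [map_add, ha, hb]
  | single u c =>
    rw [tau_single]
    by_cases hu : u = 0
    · subst hu; simp
    · rw [ct_apply, ct_apply]; simp [Finsupp.single_apply, hu]

lemma ct_eq_zero {m : ℕ} (w : Ex m →+ ℤ) (g : RR m) (d : ℤ) (hd : d ≠ 0)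
    (h : tau w g = (2 : ℂ) ^ d • g) : ct g = 0 := by
  have h1 := ct_tau w g
  rw [h, map_smul, smul_eq_mul] at h1
  have h2 : ((2 : ℂ) ^ d - 1) * ct g = 0 := by linear_combination h1
  rcases mul_eq_zero.mp h2 with h3 | h3
  · exfalso
    have h4 : (2 : ℂ) ^ d = 1 := by linear_combination h3
    have h5 : ((2 : ℝ) ^ d) = 1 := by
      have := congrArg norm h4
      rw [norm_zpow] at this
      simpa using this
    rw [zpow_eq_one_iff_right₀ (by norm_num) (by norm_num)] at h5
    exact hd h5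
  · exact h3

/-- coordinate weight -/
def wa {m : ℕ} (a : Fin m) : Ex m →+ ℤ := Pi.evalAddMonoidHom _ a

lemma tau_Y {m : ℕ} (a : Fin m) : tau (wa a) (Y a) = (2 : ℂ) • Y a := by
  unfold Y; rw [tau_single]; simp [wa]

lemma tau_Yi {m : ℕ} (a : Fin m) : tau (wa a) (Yi a) = (2 : ℂ) ^ (-1 : ℤ) • Yi a := by
  unfold Yi; rw [tau_single]; simp [wa]

lemma tau_Y' {m : ℕ} {a b : Fin m} (h : b ≠ a) : tau (wa a) (Y b) = Y b := by
  unfold Y; rw [tau_single]; simp [wa, Pi.single_eq_of_ne (Ne.symm h)]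

lemma tau_Yi' {m : ℕ} {a b : Fin m} (h : b ≠ a) : tau (wa a) (Yi b) = Yi b := by
  unfold Yi; rw [tau_single]; simp [wa, Pi.single_eq_of_ne (Ne.symm h)]

/-- partial sums -/
def SA {m : ℕ} (A : Finset (Fin m)) : RR m := ∑ j ∈ A, Y j

/-- conjugate partial sums -/
def SB {m : ℕ} (A : Finset (Fin m)) : RR m := ∑ j ∈ A, Yi j

lemma tau_SA {m : ℕ} {A : Finset (Fin m)} {a : Fin m} (ha : a ∉ A) : tau (wa a) (SA A) = SA A := by
  unfold SA
  rw [map_sum]
  exact Finset.sum_congr rfl fun j hj => tau_Y' (fun h => ha (h ▸ hj))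

lemma tau_SB {m : ℕ} {A : Finset (Fin m)} {a : Fin m} (ha : a ∉ A) : tau (wa a) (SB A) = SB A := by
  unfold SB
  rw [map_sum]
  exact Finset.sum_congr rfl fun j hj => tau_Yi' (fun h => ha (h ▸ hj))

lemma ct_monomial {m : ℕ} {a : Fin m} (g : RR m) (hg : tau (wa a) g = g) (x y : ℕ) :
    ct (Y a ^ x * Yi a ^ y * g) = if x = y then ct g else 0 := by
  split_ifs with h
  · subst h
    rw [← mul_pow, Y_mul_Yi, one_pow, one_mul]
  · apply ct_eq_zero (wa a) _ ((x : ℤ) - y) (by omega)
    rw [map_mul, map_mul, map_pow, map_pow, tau_Y, tau_Yi, hg, smul_pow, smul_pow, zpow_sub₀ (by norm_num)]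
    rw [smul_mul_smul_comm, smul_mul_assoc]
    congr 1
    simp [div_eq_mul_inv]

lemma ct_split {m : ℕ} {A : Finset (Fin m)} {a : Fin m} (ha : a ∉ A) (g : RR m)
    (hg : tau (wa a) g = g) (k l x y : ℕ) :
    ct (SA (insert a A) ^ k * SB (insert a A) ^ l * (Y a ^ x * Yi a ^ y) * g) =
      ∑ i ∈ range (k + 1), ∑ j ∈ range (l + 1), if i + x = j + y then
        ((k.choose i : ℂ) * (l.choose j : ℂ)) * ct (SA A ^ (k - i) * SB A ^ (l - j) * g) else 0 := by
  have h1 : SA (insert a A) = Y a + SA A := by unfold SA; rw [Finset.sum_insert ha]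
  have h2 : SB (insert a A) = Yi a + SB A := by unfold SB; rw [Finset.sum_insert ha]
  rw [h1, h2, add_pow, add_pow, Finset.sum_mul_sum, Finset.sum_mul, Finset.sum_mul, map_sum]
  apply Finset.sum_congr rfl
  intro i _
  rw [Finset.sum_mul, Finset.sum_mul, map_sum]
  apply Finset.sum_congr rfl
  intro j _
  have h3 : Y a ^ i * SA A ^ (k - i) * ((k.choose i : ℕ) : RR m) * (Yi a ^ j * SB A ^ (l - j) * ((l.choose j : ℕ) : RR m)) *
      (Y a ^ x * Yi a ^ y) * g = ((k.choose i : ℂ) * (l.choose j : ℂ)) •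
        (Y a ^ (i + x) * Yi a ^ (j + y) * (SA A ^ (k - i) * SB A ^ (l - j) * g)) := by
    rw [Algebra.smul_def, map_mul, map_natCast, map_natCast, pow_add, pow_add]
    ring
  rw [h3, map_smul, ct_monomial _ (by rw [map_mul, map_mul, map_pow, map_pow, tau_SA ha, tau_SB ha, hg]),
    smul_eq_mul]
  split_ifs <;> simp

lemma ct_pow_zero {m : ℕ} (k l : ℕ) : ct (SA (∅ : Finset (Fin m)) ^ k * SB (∅ : Finset (Fin m)) ^ l) =
    if k = 0 ∧ l = 0 then 1 else 0 := by
  unfold SA SB
  rw [Finset.sum_empty, Finset.sum_empty]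
  rcases Nat.eq_zero_or_pos k with hk | hk
  · rcases Nat.eq_zero_or_pos l with hl | hl
    · subst hk hl; simp [ct_one]
    · subst hk; simp [zero_pow hl.ne', hl.ne']
  · simp [zero_pow hk.ne', hk.ne']

/-- the diagonal moments, step -/
lemma ct_step {m : ℕ} {A : Finset (Fin m)} {a : Fin m} (ha : a ∉ A) (k : ℕ) :
    ct (SA (insert a A) ^ k * SB (insert a A) ^ k) =
      ∑ i ∈ range (k + 1), ((k.choose i : ℂ) * (k.choose i : ℂ)) * ct (SA A ^ (k - i) * SB A ^ (k - i)) := by
  have h := ct_split ha 1 (map_one _) k k 0 0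
  simp only [pow_zero, mul_one, add_zero] at h
  rw [h]
  apply Finset.sum_congr rfl
  intro i hi
  rw [Finset.sum_ite_eq]
  rw [if_pos hi]

lemma mom0 {m : ℕ} (A : Finset (Fin m)) : ct (SA A ^ 0 * SB A ^ 0) = 1 := by
  simp [ct_one]

lemma mom1 {m : ℕ} (A : Finset (Fin m)) : ct (SA A ^ 1 * SB A ^ 1) = (A.card : ℂ) := by
  induction A using Finset.induction_on with
  | empty => rw [ct_pow_zero]; simp
  | insert a A ha ih =>
    rw [ct_step ha, Finset.card_insert_of_notMem ha]
    simp only [Finset.sum_range_succ, Finset.sum_range_zero]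
    simp only [Nat.sub_zero, Nat.sub_self, ih, mom0]
    push_cast
    simp [Nat.choose]

lemma mom2 {m : ℕ} (A : Finset (Fin m)) : ct (SA A ^ 2 * SB A ^ 2) = 2 * (A.card : ℂ) ^ 2 - A.card := by
  induction A using Finset.induction_on with
  | empty => rw [ct_pow_zero]; simp
  | insert a A ha ih =>
    rw [ct_step ha, Finset.card_insert_of_notMem ha]
    simp only [Finset.sum_range_succ, Finset.sum_range_zero]
    have e1 : (2 - 1 : ℕ) = 1 := rfl
    simp only [Nat.sub_zero, Nat.sub_self, e1, ih, mom0, mom1]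
    simp [Nat.choose]
    ring

lemma mom3 {m : ℕ} (A : Finset (Fin m)) : ct (SA A ^ 3 * SB A ^ 3) =
    6 * (A.card : ℂ) ^ 3 - 9 * (A.card : ℂ) ^ 2 + 4 * A.card := by
  induction A using Finset.induction_on with
  | empty => rw [ct_pow_zero]; simp
  | insert a A ha ih =>
    rw [ct_step ha, Finset.card_insert_of_notMem ha]
    simp only [Finset.sum_range_succ, Finset.sum_range_zero]
    have e1 : (3 - 1 : ℕ) = 2 := rfl
    have e2 : (3 - 2 : ℕ) = 1 := rfl
    simp only [Nat.sub_zero, Nat.sub_self, e1, e2, ih, mom0, mom1, mom2]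
    simp [Nat.choose]
    ring

lemma mom4 {m : ℕ} (A : Finset (Fin m)) : ct (SA A ^ 4 * SB A ^ 4) =
    24 * (A.card : ℂ) ^ 4 - 72 * (A.card : ℂ) ^ 3 + 82 * (A.card : ℂ) ^ 2 - 33 * A.card := by
  induction A using Finset.induction_on with
  | empty => rw [ct_pow_zero]; simp
  | insert a A ha ih =>
    rw [ct_step ha, Finset.card_insert_of_notMem ha]
    simp only [Finset.sum_range_succ, Finset.sum_range_zero]
    have e1 : (4 - 1 : ℕ) = 3 := rfl
    have e2 : (4 - 2 : ℕ) = 2 := rfl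
    have e3 : (4 - 3 : ℕ) = 1 := rfl
    simp only [Nat.sub_zero, Nat.sub_self, e1, e2, e3, ih, mom0, mom1, mom2, mom3]
    simp [Nat.choose]
    ring

/-- the mixed moments -/
lemma ct_pair {m : ℕ} {A : Finset (Fin m)} {a b : Fin m} (ha : a ∉ A) (hb : b ∉ insert a A) (k : ℕ) :
    ct (SA (insert b (insert a A)) ^ k * SB (insert b (insert a A)) ^ k * (Y a * Yi b)) =
      ∑ i ∈ range (k + 1), ∑ j ∈ range (k + 1), if i = j + 1 then
        ((k.choose i : ℂ) * (k.choose j : ℂ)) * (∑ c ∈ range (k - i + 1), ∑ d ∈ range (k - j + 1),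
          if c + 1 = d then (((k - i).choose c : ℂ) * ((k - j).choose d : ℂ)) *
            ct (SA A ^ (k - i - c) * SB A ^ (k - j - d)) else 0) else 0 := by
  have hab : a ≠ b := by
    intro h; apply hb; rw [← h]; exact Finset.mem_insert_self _ _
  have h := ct_split hb (Y a) (tau_Y' hab) k k 0 1
  simp only [pow_zero, one_mul, pow_one, add_zero] at h
  have e : SA (insert b (insert a A)) ^ k * SB (insert b (insert a A)) ^ k * (Y a * Yi b) =
      SA (insert b (insert a A)) ^ k * SB (insert b (insert a A)) ^ k * Yi b * Y a := by ring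
  rw [e, h]
  apply Finset.sum_congr rfl
  intro i _
  apply Finset.sum_congr rfl
  intro j _
  split_ifs with hij
  · congr 1
    have h2 := ct_split ha 1 (map_one _) (k - i) (k - j) 1 0
    simp only [pow_zero, mul_one, pow_one, add_zero] at h2
    rw [h2]
  · rfl

end

end Pool.Agent.Helper54.Mix
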