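import Pool.Agent.Helper54.Mix.Ident

/-!
# A rank one averaged mixing matrix forces the moments of the density at the eigenvalue differences
-/

set_option autoImplicit false

namespace Pool.Agent.Helper54.Mix

open Matrix MeasureTheory

noncomputable section

lemma IsDensity.integrable {f : ℝ → ℝ} (h : IsDensity f) : Integrable f := by
  by_contra hn
  have := integral_undef hn
  rw [h.2] at this
  exact one_ne_zero this

section Cont

attribute [local instance] Matrix.linftyOpNormedRing Matrix.linftyOpNormedAlgebra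
  Matrix.linftyOpNormedAddCommGroup Matrix.linftyOpNormedSpace

lemma continuous_walk (n : ℕ) : Continuous (walk n) := by
  unfold walk
  refine NormedSpace.exp_continuous.comp ?_
  exact (continuous_const.mul Complex.continuous_ofReal).smul continuous_const

end Cont

lemma continuous_mixing (n : ℕ) (a b : Fin n) : Continuous fun s => mixing n s a b := by
  simp only [mixing, Matrix.of_apply]
  exact ((continuous_walk n).matrix_elem a b).norm.pow 2

lemma mixing_nonneg (n : ℕ) (s : ℝ) (a b : Fin n) : 0 ≤ mixing n s a b := by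
  simp only [mixing, Matrix.of_apply]; positivity

lemma mixing_le_one (n : ℕ) (s : ℝ) (a b : Fin n) : mixing n s a b ≤ 1 := by
  rw [← mixing_row_sum n s a]
  exact Finset.single_le_sum (fun i _ => mixing_nonneg n s a i) (Finset.mem_univ b)

lemma integrable_mixing {n : ℕ} {f : ℝ → ℝ} (hf : IsDensity f) (a b : Fin n) :
    Integrable fun s => f s * mixing n s a b := by
  refine Integrable.mul_bdd (c := 1) hf.integrable (continuous_mixing n a b).aestronglyMeasurable ?_
  refine Filter.Eventually.of_forall fun s => ?_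
  rw [Real.norm_eq_abs, abs_of_nonneg (mixing_nonneg n s a b)]
  exact mixing_le_one n s a b

lemma avg_row_sum {n : ℕ} {f : ℝ → ℝ} (hf : IsDensity f) (a : Fin n) : ∑ b : Fin n, avgMixing n f a b = 1 := by
  simp only [avgMixing, Matrix.of_apply]
  rw [← integral_finsetSum _ (fun b _ => integrable_mixing hf a b)]
  simp only [← Finset.mul_sum, mixing_row_sum, mul_one]
  exact hf.2

lemma avg_symm {n : ℕ} (f : ℝ → ℝ) (a b : Fin n) : avgMixing n f a b = avgMixing n f b a := by
  simp only [avgMixing, Matrix.of_apply, mixing_symm n _ a b]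

lemma avg_col_sum {n : ℕ} {f : ℝ → ℝ} (hf : IsDensity f) (b : Fin n) : ∑ a : Fin n, avgMixing n f a b = 1 := by
  rw [← avg_row_sum hf b]
  exact Finset.sum_congr rfl fun a _ => avg_symm f a b

/-- an averaged mixing matrix of rank one is `J/n`. -/
lemma avg_eq_of_rank_one {n : ℕ} {f : ℝ → ℝ} (hf : IsDensity f) (hr : (avgMixing n f).rank = 1)
    (a b : Fin n) : avgMixing n f a b = 1 / (n : ℝ) := by
  have hn : (n : ℝ) ≠ 0 := by
    have := a.isLt; exact_mod_cast (by omega : n ≠ 0)
  set A := avgMixing n f with hA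
  have h1 : A *ᵥ (fun _ => (1 : ℝ)) = fun _ => 1 := by
    funext i
    simp only [Matrix.mulVec, dotProduct, mul_one]
    exact avg_row_sum hf i
  have hfr : Module.finrank ℝ (LinearMap.range A.mulVecLin) = 1 := hr
  have h1m : (fun _ => (1 : ℝ)) ∈ LinearMap.range A.mulVecLin := ⟨fun _ => 1, by simpa using h1⟩
  have h1ne : (⟨fun _ => (1 : ℝ), h1m⟩ : LinearMap.range A.mulVecLin) ≠ 0 := by
    intro h
    have h2 := congrArg (fun x : LinearMap.range A.mulVecLin => (x : Fin n → ℝ) a) h
    simp at h2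
  have hspan := (finrank_eq_one_iff_of_nonzero' (⟨fun _ => (1 : ℝ), h1m⟩ : LinearMap.range A.mulVecLin) h1ne).mp hfr
  obtain ⟨c, hc⟩ := hspan ⟨A *ᵥ Pi.single b 1, ⟨Pi.single b 1, by simp⟩⟩
  have hc' : ∀ i, A i b = c := by
    intro i
    have h2 := congrArg (fun x : LinearMap.range A.mulVecLin => (x : Fin n → ℝ) i) hc
    simp at h2
    exact h2.symm
  have hcol := avg_col_sum hf b
  rw [← hA] at hcol
  simp only [hc'] at hcol
  rw [Finset.sum_const, Finset.card_univ, Fintype.card_fin, nsmul_eq_mul] at hcol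
  rw [hc' a]
  field_simp
  linarith

lemma cos_sum_small (n : ℕ) (m : ℤ) (h0 : m ≠ 0) (h1 : |m| < 2 * ((n : ℤ) + 1)) :
    ∑ a : Fin n, Real.cos ((m : ℝ) * (((a : ℕ) : ℝ) + 1) * al n) = if Even m then -1 else 0 := by
  rw [cos_sum, if_neg]
  · by_cases he : Even m
    · rw [if_pos he, (Int.natAbs_even.mpr he).neg_one_pow]; norm_num
    · rw [if_neg he, (Int.natAbs_odd.mpr (Int.not_even_iff_odd.mp he)).neg_one_pow]; norm_num
  · intro h
    have := Int.le_of_dvd (abs_pos.mpr h0) ((dvd_abs _ _).mpr h)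
    omega

lemma integral_identity {n : ℕ} {f : ℝ → ℝ} (hf : IsDensity f) (k l : ℤ) (hk1 : 1 ≤ k) (hkn : k ≤ n)
    (hl1 : 1 ≤ l) (hln : l ≤ n) :
    ∫ s, f s * Real.cos ((lam n k - lam n l) * s) =
      - ∑ a : Fin n, ∑ b : Fin n, Real.cos (((k + l : ℤ) : ℝ) * (((a : ℕ) : ℝ) + 1) * al n) *
      Real.cos (((k - l : ℤ) : ℝ) * (((b : ℕ) : ℝ) + 1) * al n) * avgMixing n f a b := by
  have h1 : ∀ s, f s * Real.cos ((lam n k - lam n l) * s) =
      - ∑ a : Fin n, ∑ b : Fin n, (Real.cos (((k + l : ℤ) : ℝ) * (((a : ℕ) : ℝ) + 1) * al n) *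
      Real.cos (((k - l : ℤ) : ℝ) * (((b : ℕ) : ℝ) + 1) * al n)) * (f s * mixing n s a b) := by
    intro s
    have := moment_identity n s k l hk1 hkn hl1 hln
    rw [← neg_eq_iff_eq_neg] at this
    rw [← this, mul_neg, Finset.mul_sum]
    congr 1
    apply Finset.sum_congr rfl
    intro a _
    rw [Finset.mul_sum]
    apply Finset.sum_congr rfl
    intro b _
    ring
  simp only [h1]
  rw [integral_neg, integral_finsetSum]
  · congr 1
    apply Finset.sum_congr rfl
    intro a _
    rw [integral_finsetSum]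
    · apply Finset.sum_congr rfl
      intro b _
      rw [integral_const_mul]
      simp only [avgMixing, Matrix.of_apply]
    · intro b _
      exact (integrable_mixing hf a b).const_mul _
  · intro a _
    apply integrable_finsetSum
    intro b _
    exact (integrable_mixing hf a b).const_mul _

/-- If the averaged mixing matrix has rank one, the moments of the density at the differences of
the eigenvalues are forced. -/
theorem moments_of_rank_one {n : ℕ} {f : ℝ → ℝ} (hf : IsDensity f) (hr : (avgMixing n f).rank = 1)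
    (k l : ℤ) (hk1 : 1 ≤ k) (hkn : k ≤ n) (hl1 : 1 ≤ l) (hln : l ≤ n) (hkl : k ≠ l) :
    ∫ s, f s * Real.cos ((lam n k - lam n l) * s) = if Even (k - l) then -(1 / (n : ℝ)) else 0 := by
  rw [integral_identity hf k l hk1 hkn hl1 hln]
  have h1 : ∑ a : Fin n, ∑ b : Fin n, Real.cos (((k + l : ℤ) : ℝ) * (((a : ℕ) : ℝ) + 1) * al n) *
      Real.cos (((k - l : ℤ) : ℝ) * (((b : ℕ) : ℝ) + 1) * al n) * avgMixing n f a b =
      (∑ a : Fin n, Real.cos (((k + l : ℤ) : ℝ) * (((a : ℕ) : ℝ) + 1) * al n)) *
      (∑ b : Fin n, Real.cos (((k - l : ℤ) : ℝ) * (((b : ℕ) : ℝ) + 1) * al n)) * (1 / (n : ℝ)) := by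
    rw [Finset.sum_mul_sum, Finset.sum_mul]
    apply Finset.sum_congr rfl
    intro a _
    rw [Finset.sum_mul]
    apply Finset.sum_congr rfl
    intro b _
    rw [avg_eq_of_rank_one hf hr a b]
  rw [h1, cos_sum_small n (k + l) (by omega) (by rw [abs_lt]; constructor <;> omega),
    cos_sum_small n (k - l) (by omega) (by rw [abs_lt]; constructor <;> omega)]
  have hpar : Even (k + l) ↔ Even (k - l) := by
    rw [Int.even_add, Int.even_sub]
  by_cases he : Even (k - l)
  · rw [if_pos (hpar.mpr he), if_pos he, if_pos he]; ring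
  · rw [if_neg (fun h => he (hpar.mp h)), if_neg he, if_neg he]; ring

/-- Two coinciding differences of eigenvalues with different parities exclude rank one. -/
theorem not_rank_one_of_coincidence {n : ℕ} (k l k' l' : ℤ) (hk1 : 1 ≤ k) (hkn : k ≤ n)
    (hl1 : 1 ≤ l) (hln : l ≤ n) (hkl : k ≠ l) (hk1' : 1 ≤ k') (hkn' : k' ≤ n)
    (hl1' : 1 ≤ l') (hln' : l' ≤ n) (he : Even (k - l)) (ho : ¬ Even (k' - l'))
    (hlam : lam n k - lam n l = lam n k' - lam n l') :
    ¬ ∃ f : ℝ → ℝ, IsDensity f ∧ (avgMixing n f).rank = 1 := by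
  rintro ⟨f, hf, hr⟩
  have h1 := moments_of_rank_one hf hr k l hk1 hkn hl1 hln hkl
  have hkl' : k' ≠ l' := by
    rintro rfl; apply ho; simp
  have h2 := moments_of_rank_one hf hr k' l' hk1' hkn' hl1' hln' hkl'
  rw [hlam, h2, if_neg ho, if_pos he] at h1
  have hn : (0 : ℝ) < n := by
    have : (1 : ℤ) ≤ n := le_trans hk1 hkn
    exact_mod_cast this
  have : 1 / (n : ℝ) > 0 := by positivity
  linarith

end

end Pool.Agent.Helper54.Mix
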