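import Pool.Agent.Helper54.Mix.Trig
import Pool.Agent.Helper54.Mix.Crit

/-!
# A density with the right moments at independent frequencies
-/

set_option autoImplicit false

namespace Pool.Agent.Helper54.Mix

open MeasureTheory

noncomputable section

lemma FF_le (x : ℝ) : FF x ≤ 16 / 5 := by
  unfold FF
  have h1 : 0 ≤ 1 + Real.cos x := by linarith [Real.neg_one_le_cos x]
  have h2 : 1 + Real.cos x ≤ 2 := by linarith [Real.cos_le_one x]
  have h3 : (1 + Real.cos x) ^ 3 ≤ 2 ^ 3 := pow_le_pow_left₀ h1 h2 3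
  linarith

lemma GG_le {r : ℕ} (ν φ : Fin r → ℝ) (s : ℝ) : GG ν φ s ≤ (16 / 5) ^ r := by
  unfold GG
  calc ∏ a, FF (ν a * s - φ a) ≤ ∏ _a : Fin r, (16 / 5 : ℝ) :=
        Finset.prod_le_prod (fun _ _ => FF_nonneg _) (fun _ _ => FF_le _)
    _ = (16 / 5) ^ r := by rw [Finset.prod_const, Finset.card_univ, Fintype.card_fin]

lemma GG_continuous {r : ℕ} (ν φ : Fin r → ℝ) : Continuous (GG ν φ) := by
  unfold GG FF
  fun_prop

lemma integrable_K_GG {r : ℕ} {ν : Fin r → ℝ} {K : ℝ → ℝ} (hK : Integrable K) (φ : Fin r → ℝ) :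
    Integrable fun s => K s * GG ν φ s := by
  refine Integrable.mul_bdd (c := (16 / 5) ^ r) hK (GG_continuous ν φ).aestronglyMeasurable ?_
  refine Filter.Eventually.of_forall fun s => ?_
  rw [Real.norm_eq_abs, abs_of_nonneg (GG_nonneg ν φ s)]
  exact GG_le ν φ s

lemma integrable_mul_cos {g : ℝ → ℝ} (hg : Integrable g) (w : ℝ) : Integrable fun s => g s * Real.cos (w * s) := by
  refine Integrable.mul_bdd (c := 1) hg (by fun_prop) ?_
  refine Filter.Eventually.of_forall fun s => ?_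
  rw [Real.norm_eq_abs]
  exact Real.abs_cos_le_one _

lemma re_integral_exp {g : ℝ → ℝ} (hg : Integrable g) (w : ℝ) :
    (∫ s, (g s : ℂ) * Complex.exp (Complex.I * ((w : ℂ) * s))).re = ∫ s, g s * Real.cos (w * s) := by
  have hint : Integrable fun s : ℝ => (g s : ℂ) * Complex.exp (Complex.I * ((w : ℂ) * s)) := integrable_K_exp hg w
  have h := (Complex.reCLM.integral_comp_comm hint).symm
  simp only [Complex.reCLM_apply] at h
  rw [h]
  congr 1
  funext s
  rw [Complex.re_ofReal_mul]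
  have : Complex.I * ((w : ℂ) * s) = ((w * s : ℝ) : ℂ) * Complex.I := by push_cast; ring
  rw [this, Complex.exp_ofReal_mul_I_re]

lemma moment_K {r : ℕ} {ν : Fin r → ℝ} {K : ℝ → ℝ} (hK : GoodKernel ν K)
    (m : Fin r → ℤ) (hm : ∀ a, m a ∈ Finset.Icc (-2 : ℤ) 2) (hne : m ≠ 0) :
    ∫ s, K s * Real.cos ((∑ a, (m a : ℝ) * ν a) * s) = 0 := by
  rw [← re_integral_exp hK.2.1]
  rw [hK.2.2.2 m (fun a => by have := hm a; rw [Finset.mem_Icc] at *; constructor <;> omega) hne]
  simp

lemma moment_GG {r : ℕ} {ν : Fin r → ℝ} {K : ℝ → ℝ} (hK : GoodKernel ν K) (φ : Fin r → ℝ)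
    (m : Fin r → ℤ) (hm : ∀ a, m a ∈ Finset.Icc (-2 : ℤ) 2) :
    ∫ s, K s * GG ν φ s * Real.cos ((∑ a, (m a : ℝ) * ν a) * s) =
      (∏ a, cf (m a)) * Real.cos (∑ a, (m a : ℝ) * φ a) := by
  have h1 := integral_K_GG hK φ m hm
  have h2 := re_integral_exp (integrable_K_GG (ν := ν) hK.2.1 φ) (-(∑ a, (m a : ℝ) * ν a))
  have h3 : ∀ s : ℝ, K s * GG ν φ s * Real.cos (-(∑ a, (m a : ℝ) * ν a) * s) =
      K s * GG ν φ s * Real.cos ((∑ a, (m a : ℝ) * ν a) * s) := by
    intro s; rw [neg_mul, Real.cos_neg]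
  simp only [h3] at h2
  rw [← h2]
  have h4 : (∫ s, ((K s * GG ν φ s : ℝ) : ℂ) * Complex.exp (Complex.I * (((-(∑ a, (m a : ℝ) * ν a) : ℝ) : ℂ) * s))) =
      ∏ a, ((cf (m a) : ℂ) * Complex.exp (-(Complex.I * ((m a : ℂ) * φ a)))) := by
    rw [← h1]
    congr 1
    funext s
    push_cast
    ring
  rw [h4, Finset.prod_mul_distrib, ← Complex.exp_sum, ← Complex.ofReal_prod, Complex.re_ofReal_mul]
  congr 1
  have h5 : ∑ a, -(Complex.I * ((m a : ℂ) * φ a)) = ((-(∑ a, (m a : ℝ) * φ a) : ℝ) : ℂ) * Complex.I := by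
    push_cast
    rw [Finset.sum_neg_distrib, neg_mul, Finset.sum_mul]
    congr 1
    apply Finset.sum_congr rfl
    intro a _; ring
  rw [h5, Complex.exp_ofReal_mul_I_re, Real.cos_neg]

/-- the phases -/
def ph (r : ℕ) (j t : ℕ) (a : Fin r) : ℝ := t * (Real.pi / 2) + 2 * Real.pi * (j * ((a : ℕ) : ℝ)) / r

/-- the density -/
def dens (r : ℕ) (ν : Fin r → ℝ) (K : ℝ → ℝ) (w : ℝ) (s : ℝ) : ℝ :=
  K s * ((1 - w) + (w / (2 * ((r : ℝ) - 1))) * ∑ j ∈ Finset.Ico 1 r, ∑ t ∈ Finset.range 2, GG ν (ph r j t) s)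

lemma dens_moment {r : ℕ} {ν : Fin r → ℝ} {K : ℝ → ℝ} (hK : GoodKernel ν K) (w : ℝ)
    (m : Fin r → ℤ) (hm : ∀ a, m a ∈ Finset.Icc (-2 : ℤ) 2) :
    ∫ s, dens r ν K w s * Real.cos ((∑ a, (m a : ℝ) * ν a) * s) =
      (1 - w) * (∫ s, K s * Real.cos ((∑ a, (m a : ℝ) * ν a) * s)) +
      (w / (2 * ((r : ℝ) - 1))) * ∑ j ∈ Finset.Ico 1 r, ∑ t ∈ Finset.range 2,
        ((∏ a, cf (m a)) * Real.cos (∑ a, (m a : ℝ) * ph r j t a)) := by
  set c := ∑ a, (m a : ℝ) * ν a with hc
  have h1 : ∀ s, dens r ν K w s * Real.cos (c * s) = (1 - w) * (K s * Real.cos (c * s)) +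
      (w / (2 * ((r : ℝ) - 1))) * ∑ j ∈ Finset.Ico 1 r, ∑ t ∈ Finset.range 2, (K s * GG ν (ph r j t) s * Real.cos (c * s)) := by
    intro s
    unfold dens
    simp only [← Finset.sum_mul, ← Finset.mul_sum]
    ring
  have hi1 : Integrable fun s => K s * Real.cos (c * s) := integrable_mul_cos hK.2.1 c
  have hi2 : ∀ j t, Integrable fun s => K s * GG ν (ph r j t) s * Real.cos (c * s) := fun j t =>
    integrable_mul_cos (integrable_K_GG hK.2.1 _) c
  simp only [h1]
  rw [integral_add (hi1.const_mul _)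
    ((integrable_finsetSum _ fun j _ => integrable_finsetSum _ fun t _ => hi2 j t).const_mul _),
    integral_const_mul, integral_const_mul, integral_finsetSum _ (fun j _ => integrable_finsetSum _ fun t _ => hi2 j t)]
  congr 2
  apply Finset.sum_congr rfl
  intro j _
  rw [integral_finsetSum _ (fun t _ => hi2 j t)]
  apply Finset.sum_congr rfl
  intro t _
  rw [hc, moment_GG hK _ m hm]

lemma cos_geom {r : ℕ} (hr : 2 ≤ r) (a b : Fin r) (hab : a ≠ b) :
    ∑ j ∈ Finset.Ico 1 r, Real.cos (ph r j 0 a - ph r j 0 b) = -1 := by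
  have hr0 : (r : ℝ) ≠ 0 := by exact_mod_cast (by omega : r ≠ 0)
  have hrC : (r : ℂ) ≠ 0 := by exact_mod_cast (by omega : r ≠ 0)
  set z : ℂ := Complex.exp (2 * Real.pi * Complex.I * ((((a : ℕ) : ℂ) - ((b : ℕ) : ℂ)) / r)) with hz
  have hzr : z ^ r = 1 := by
    rw [hz, ← Complex.exp_nat_mul]
    have : (r : ℂ) * (2 * Real.pi * Complex.I * ((((a : ℕ) : ℂ) - ((b : ℕ) : ℂ)) / r)) =
        (((a : ℕ) - (b : ℕ) : ℤ) : ℂ) * (2 * Real.pi * Complex.I) := by
      push_cast; field_simp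
    rw [this, Complex.exp_int_mul_two_pi_mul_I]
  have hz1 : z ≠ 1 := by
    intro h
    rw [hz, Complex.exp_eq_one_iff] at h
    obtain ⟨k, hk⟩ := h
    have h2 : (((a : ℕ) : ℂ) - ((b : ℕ) : ℂ)) = (k : ℂ) * r := by
      have h2pi : (2 * (Real.pi : ℂ) * Complex.I) ≠ 0 := by
        simp [Real.pi_ne_zero, Complex.I_ne_zero]
      have h3 : (((a : ℕ) : ℂ) - ((b : ℕ) : ℂ)) / r = k := by
        apply mul_left_cancel₀ h2pi
        rw [hk]; ring
      rw [← h3]; field_simp
    have h4 : ((a : ℕ) : ℤ) - ((b : ℕ) : ℤ) = k * r := by exact_mod_cast h2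
    have ha := a.isLt
    have hb := b.isLt
    apply hab
    ext
    have hk0 : k = 0 := by
      by_contra hk0
      have h5 : (r : ℤ) ∣ ((a : ℕ) : ℤ) - ((b : ℕ) : ℤ) := ⟨k, by rw [h4]; ring⟩
      have hne : ((a : ℕ) : ℤ) - ((b : ℕ) : ℤ) ≠ 0 := by
        rw [h4]; apply mul_ne_zero hk0; omega
      have h6 := Int.le_of_dvd (abs_pos.mpr hne) ((dvd_abs _ _).mpr h5)
      have h7 : |((a : ℕ) : ℤ) - ((b : ℕ) : ℤ)| < r := by rw [abs_lt]; constructor <;> omega
      omega
    rw [hk0] at h4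
    omega
  have hsum : ∑ j ∈ Finset.range r, z ^ j = 0 := by
    have h := mul_neg_geom_sum z r
    rw [hzr, sub_self] at h
    rcases mul_eq_zero.mp h with h | h
    · exact absurd (sub_eq_zero.mp h).symm hz1
    · exact h
  have hsum2 : ∑ j ∈ Finset.Ico 1 r, z ^ j = -1 := by
    have h := Finset.sum_range_add_sum_Ico (fun j => z ^ j) (by omega : 1 ≤ r)
    rw [hsum] at h
    simp at h
    linear_combination h
  have hre := congrArg Complex.re hsum2
  rw [Complex.re_sum] at hre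
  have : (-1 : ℂ).re = -1 := by simp
  rw [this] at hre
  rw [← hre]
  apply Finset.sum_congr rfl
  intro j _
  rw [hz, ← Complex.exp_nat_mul]
  have : (j : ℂ) * (2 * Real.pi * Complex.I * ((((a : ℕ) : ℂ) - ((b : ℕ) : ℂ)) / r)) =
      ((ph r j 0 a - ph r j 0 b : ℝ) : ℂ) * Complex.I := by
    unfold ph; push_cast; field_simp; ring
  rw [this, Complex.exp_ofReal_mul_I_re]

/-- At `r ≥ 2` independent frequencies there is a density whose moments at the differences are
`-1/(2r)` and at the sums are `0`. -/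
theorem exists_density {r : ℕ} (hr : 2 ≤ r) (ν : Fin r → ℝ)
    (hind : ∀ m : Fin r → ℤ, ∑ a, (m a : ℝ) * ν a = 0 → m = 0) :
    ∃ f : ℝ → ℝ, IsDensity f ∧
      (∀ a b : Fin r, a ≠ b → ∫ s, f s * Real.cos ((ν a - ν b) * s) = -(1 / (2 * (r : ℝ)))) ∧
      (∀ a b : Fin r, ∫ s, f s * Real.cos ((ν a + ν b) * s) = 0) := by
  classical
  obtain ⟨K, hK⟩ := exists_goodKernel ν hind
  have hr2 : (2 : ℝ) ≤ r := by exact_mod_cast hr
  set w : ℝ := (8 / 9) * (((r : ℝ) - 1) / r) with hw
  have hw0 : 0 ≤ w := by rw [hw]; have : 0 ≤ ((r : ℝ) - 1) / r := by apply div_nonneg <;> linarith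
                         positivity
  have hw1 : w ≤ 1 := by
    rw [hw]
    have : ((r : ℝ) - 1) / r ≤ 1 := by rw [div_le_one (by linarith)]; linarith
    linarith
  have hr1 : (r : ℝ) - 1 ≠ 0 := by intro h; linarith
  have hr0 : (r : ℝ) ≠ 0 := by intro h; linarith
  refine ⟨dens r ν K w, ⟨?_, ?_⟩, ?_, ?_⟩
  · intro s
    unfold dens
    apply mul_nonneg (hK.1 s)
    apply add_nonneg (by linarith)
    apply mul_nonneg
    · apply div_nonneg hw0; linarith
    · exact Finset.sum_nonneg fun j _ => Finset.sum_nonneg fun t _ => GG_nonneg _ _ _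
  · have h := dens_moment hK w 0 (fun a => by simp)
    simp only [Pi.zero_apply, Int.cast_zero, zero_mul, Finset.sum_const_zero, Real.cos_zero, mul_one] at h
    rw [h, hK.2.2.1]
    have c0 : cf 0 = 1 := by simp [cf]
    simp only [c0, Finset.prod_const_one, Finset.sum_const, Finset.card_range, Nat.card_Ico, nsmul_eq_mul]
    rw [Nat.cast_sub (by omega)]
    push_cast
    field_simp
    ring
  · intro a b hab
    set m : Fin r → ℤ := Pi.single a 1 - Pi.single b 1 with hm
    have hmem : ∀ x, m x ∈ Finset.Icc (-2 : ℤ) 2 := by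
      intro x
      rw [hm, Pi.sub_apply, Finset.mem_Icc]
      by_cases h1 : x = a
      · subst h1; simp [Pi.single_apply, hab]
      · by_cases h2 : x = b
        · subst h2; simp [Pi.single_apply, h1]
        · simp [Pi.single_apply, h1, h2]
    have hsum : ∀ g : Fin r → ℝ, ∑ x, (m x : ℝ) * g x = g a - g b := by
      intro g
      simp only [hm, Pi.sub_apply, Int.cast_sub, sub_mul, Finset.sum_sub_distrib]
      simp [Pi.single_apply]
    have hne : m ≠ 0 := by
      intro h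
      have := congrFun h a
      simp [hm, Pi.single_apply, hab] at this
    have hprod : ∏ x, cf (m x) = 9 / 16 := by
      rw [Finset.prod_eq_mul a b hab]
      · have e1 : m a = 1 := by simp [hm, Pi.single_apply, hab]
        have e2 : m b = -1 := by simp [hm, Pi.single_apply, Ne.symm hab]
        rw [e1, e2]
        simp [cf]; norm_num
      · intro x _ hx
        have : m x = 0 := by simp [hm, Pi.single_apply, hx.1, hx.2]
        rw [this]; simp [cf]
      · simp
      · simp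
    have h := dens_moment hK w m hmem
    have hk := moment_K hK m hmem hne
    rw [hsum ν] at h hk
    rw [h, hk]
    simp only [hprod, hsum]
    have hph : ∀ j t : ℕ, ph r j t a - ph r j t b = ph r j 0 a - ph r j 0 b := by
      intro j t; unfold ph; ring
    simp only [hph, Finset.sum_const, Finset.card_range, nsmul_eq_mul]
    rw [← Finset.mul_sum, ← Finset.mul_sum, cos_geom hr a b hab, hw]
    field_simp
    ring
  · intro a b
    set m : Fin r → ℤ := Pi.single a 1 + Pi.single b 1 with hm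
    have hmem : ∀ x, m x ∈ Finset.Icc (-2 : ℤ) 2 := by
      intro x
      rw [hm, Pi.add_apply, Finset.mem_Icc]
      by_cases h1 : x = a <;> by_cases h2 : x = b <;> simp [Pi.single_apply, h1, h2] <;> split_ifs <;> norm_num
    have hsum : ∀ g : Fin r → ℝ, ∑ x, (m x : ℝ) * g x = g a + g b := by
      intro g
      simp only [hm, Pi.add_apply, Int.cast_add, add_mul, Finset.sum_add_distrib]
      simp [Pi.single_apply]
    have hne : m ≠ 0 := by
      intro h
      have := congrFun h a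
      simp [hm, Pi.single_apply] at this
      split_ifs at this <;> omega
    have h := dens_moment hK w m hmem
    have hk := moment_K hK m hmem hne
    rw [hsum ν] at h hk
    rw [h, hk]
    simp only [hsum]
    have hph : ∀ j : ℕ, ∑ t ∈ Finset.range 2, ((∏ x, cf (m x)) * Real.cos (ph r j t a + ph r j t b)) = 0 := by
      intro j
      rw [Finset.sum_range_succ, Finset.sum_range_one]
      have : ph r j 1 a + ph r j 1 b = (ph r j 0 a + ph r j 0 b) + Real.pi := by
        unfold ph; push_cast; ring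
      rw [this, Real.cos_add_pi]
      ring
    simp only [hph, Finset.sum_const_zero, mul_zero, add_zero]

end

end Pool.Agent.Helper54.Mix
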