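import Pool.Agent.Helper54.Mix.Fam

/-!
# MP_261efc_co: paths with no averaged mixing matrix of rank one

Let `n + 1` be divisible by `6` with `n ≠ 5`, or divisible by `15`, or divisible by `21`. Then for
no probability density `f` on the real line the averaged mixing matrix `∫ f(s) M(s) ds` of the
continuous-time quantum walk on the path `P_n` has rank one. The least such `n` is `11`, so the
answer to the question whether such an `R` exists for every `n ≥ 5` is no.

The proof: for `1 ≤ k, l ≤ n` and `λ_k = 2 cos(kπ/(n+1))`,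
`cos(s(λ_k-λ_l)) = - ∑_{a,b} cos((k+l)aπ/(n+1)) cos((k-l)bπ/(n+1)) |U(s)_{ab}|²`,
so a rank one average, which is `J/n`, forces `E cos((λ_k-λ_l)R)` to be `-1/n` when `k ≠ l` have
the same parity and `0` otherwise; in the listed cases two equal differences of eigenvalues have
different parities.
-/

set_option autoImplicit false

namespace Pool.Agent.Helper54.Mix.RankOneMixing

open Pool.Agent.Helper54.Mix

theorem result (n : ℕ) (h : (6 ∣ n + 1 ∧ n ≠ 5) ∨ 15 ∣ n + 1 ∨ 21 ∣ n + 1) :
    ¬ ∃ f : ℝ → ℝ, IsDensity f ∧ (avgMixing n f).rank = 1 := by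
  rcases h with ⟨h6, h5⟩ | h15 | h21
  · exact fam6 h6 h5
  · exact fam15 h15
  · exact fam21 h21

end Pool.Agent.Helper54.Mix.RankOneMixing
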