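import Mathlib

/-!
# There are no short integer relations between the numbers `2 cos(2πj/N)`
-/

set_option autoImplicit false

namespace Pool.Agent.Helper54.Mix

open Finset Polynomial

noncomputable section

/-- Galois conjugation of a vanishing sum of roots of unity. -/
lemma galois_sum {N : ℕ} (hN : 0 < N) {ζ : ℂ} (hζ : IsPrimitiveRoot ζ N) (v : ℕ → ℤ)
    (h : ∑ j ∈ range N, (v j : ℂ) * ζ ^ j = 0) (k : ℕ) (hk : k.Coprime N) :
    ∑ j ∈ range N, (v j : ℂ) * (ζ ^ k) ^ j = 0 := by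
  set P : ℤ[X] := ∑ j ∈ range N, C (v j) * X ^ j with hP
  have h1 : ∀ z : ℂ, aeval z P = ∑ j ∈ range N, (v j : ℂ) * z ^ j := by
    intro z
    rw [hP, map_sum]
    apply Finset.sum_congr rfl
    intro j _
    simp
  have h2 : minpoly ℤ ζ ∣ P := by
    apply minpoly.isIntegrallyClosed_dvd (hζ.isIntegral hN)
    rw [h1, h]
  rw [← cyclotomic_eq_minpoly hζ hN] at h2
  have h3 : minpoly ℤ (ζ ^ k) = cyclotomic N ℤ :=
    (cyclotomic_eq_minpoly (hζ.pow_of_coprime k hk) hN).symm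
  rw [← h3] at h2
  have h4 := aeval_eq_zero_of_dvd_aeval_eq_zero h2 (minpoly.aeval ℤ (ζ ^ k))
  rw [h1] at h4
  exact h4

/-- sums over a residue class -/
def cls (p N : ℕ) (v : ℕ → ℤ) (ζ : ℂ) (r : ℕ) : ℂ :=
  ∑ j ∈ (range N).filter (fun j => j % p = r), (v j : ℂ) * ζ ^ j

lemma cls_sum {p N : ℕ} (hp : 0 < p) (v : ℕ → ℤ) (ζ η : ℂ) (hη : η ^ p = 1) :
    ∑ j ∈ range N, (v j : ℂ) * ζ ^ j * η ^ j = ∑ r ∈ range p, η ^ r * cls p N v ζ r := by
  unfold cls
  simp only [Finset.mul_sum, Finset.sum_filter]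
  rw [Finset.sum_comm]
  apply Finset.sum_congr rfl
  intro j _
  rw [Finset.sum_eq_single (j % p)]
  · rw [if_pos rfl]
    have : η ^ j = η ^ (j % p) := by
      conv_lhs => rw [← Nat.div_add_mod j p, pow_add, pow_mul, hη, one_pow, one_mul]
    rw [this]; ring
  · intro r _ hr
    rw [if_neg (fun h => hr h.symm)]
    simp
  · intro h
    exact absurd (Finset.mem_range.mpr (Nat.mod_lt _ hp)) h

/-- The class sums of a vanishing sum form a geometric progression. -/
lemma cls_geom {p N₁ : ℕ} (hp : p.Prime) (hN₁ : 0 < N₁) {ζ : ℂ} (hζ : IsPrimitiveRoot ζ (p * N₁)) (v : ℕ → ℤ)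
    (h : ∑ j ∈ range (p * N₁), (v j : ℂ) * ζ ^ j = 0) :
    ∃ s : ℕ, ∃ c : ℂ, (p ∣ N₁ → c = 0) ∧ ∀ r < p, cls p (p * N₁) v ζ r * (ζ ^ (N₁ * s)) ^ r = c := by
  have hp0 := hp.pos
  set η : ℂ := ζ ^ N₁ with hη
  have hηp : IsPrimitiveRoot η p := hζ.pow (by positivity) (by ring)
  have hη1 : η ^ p = 1 := hηp.pow_eq_one
  have hη0 : η ≠ 0 := hηp.ne_zero hp0.ne'
  -- f s
  let f : ℕ → ℂ := fun s => ∑ r ∈ range p, (η ^ s) ^ r * cls p (p * N₁) v ζ r
  have hf : ∀ s, ¬ p ∣ (1 + s * N₁) → f s = 0 := by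
    intro s hs
    have hcop : (1 + s * N₁).Coprime (p * N₁) := by
      apply Nat.Coprime.mul_right
      · exact ((Nat.Prime.coprime_iff_not_dvd hp).mpr hs).symm
      · simp
    have h1 := galois_sum (by positivity) hζ v h _ hcop
    have h2 : ∑ j ∈ range (p * N₁), (v j : ℂ) * ζ ^ j * (η ^ s) ^ j = 0 := by
      rw [← h1]
      apply Finset.sum_congr rfl
      intro j _
      rw [hη, pow_add, pow_one, mul_pow (ζ), ← pow_mul ζ N₁ s, mul_comm N₁ s]
      ring
    rw [cls_sum hp0 v ζ (η ^ s) (by rw [← pow_mul, mul_comm, pow_mul, hη1, one_pow])] at h2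
    exact h2
  -- inversion
  have hinv : ∀ r < p, (p : ℂ) * cls p (p * N₁) v ζ r = ∑ s ∈ range p, f s * (η ^ (p - r)) ^ s := by
    intro r hr
    simp only [f, Finset.sum_mul]
    rw [Finset.sum_comm]
    rw [Finset.sum_eq_single r]
    · have : ∀ s ∈ range p, (η ^ s) ^ r * cls p (p * N₁) v ζ r * (η ^ (p - r)) ^ s = cls p (p * N₁) v ζ r := by
        intro s _
        have e : (η ^ s) ^ r * (η ^ (p - r)) ^ s = 1 := by
          rw [← pow_mul η s r, ← pow_mul η (p - r) s, ← pow_add η]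
          have : s * r + (p - r) * s = p * s := by
            rw [mul_comm s r, ← add_mul]; congr 1; omega
          rw [this, pow_mul, hη1, one_pow]
        linear_combination (cls p (p * N₁) v ζ r) * e
      rw [Finset.sum_congr rfl this]
      simp
    · intro r' hr' hne
      have hr'' := Finset.mem_range.mp hr'
      have e : ∀ s ∈ range p, (η ^ s) ^ r' * cls p (p * N₁) v ζ r' * (η ^ (p - r)) ^ s =
          cls p (p * N₁) v ζ r' * (η ^ (r' + (p - r))) ^ s := by
        intro s _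
        rw [pow_add, mul_pow, ← pow_mul, ← pow_mul, ← pow_mul, mul_comm s r']
        ring
      rw [Finset.sum_congr rfl e, ← Finset.mul_sum]
      have hne1 : η ^ (r' + (p - r)) ≠ 1 := by
        intro h1
        rw [hηp.pow_eq_one_iff_dvd] at h1
        obtain ⟨c, hc⟩ := h1
        rcases Nat.lt_or_ge c 2 with hc2 | hc2
        · interval_cases c <;> omega
        · have : p * 2 ≤ p * c := Nat.mul_le_mul_left _ hc2
          omega
      have hgs : (∑ s ∈ range p, (η ^ (r' + (p - r))) ^ s) * (η ^ (r' + (p - r)) - 1) = 0 := by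
        rw [geom_sum_mul, ← pow_mul, mul_comm _ p, pow_mul, hη1, one_pow, sub_self]
      rcases mul_eq_zero.mp hgs with h2 | h2
      · rw [h2, mul_zero]
      · exact absurd (sub_eq_zero.mp h2) hne1
    · intro hcon
      exact absurd (Finset.mem_range.mpr hr) hcon
  have hpC : (p : ℂ) ≠ 0 := by exact_mod_cast hp0.ne'
  by_cases hd : p ∣ N₁
  · refine ⟨0, 0, fun _ => rfl, fun r hr => ?_⟩
    have : ∀ s, f s = 0 := by
      intro s
      apply hf
      intro hdv
      have h1 : p ∣ s * N₁ := dvd_mul_of_dvd_right hd s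
      have h2 : p ∣ 1 := (Nat.dvd_add_left h1).mp hdv
      exact hp.one_lt.ne' (Nat.dvd_one.mp h2)
    have h3 := hinv r hr
    simp only [this, zero_mul, Finset.sum_const_zero] at h3
    have h4 : cls p (p * N₁) v ζ r = 0 := by
      rcases mul_eq_zero.mp h3 with h | h
      · exact absurd h hpC
      · exact h
    rw [h4, zero_mul]
  · -- the exceptional index
    obtain ⟨s0, hs0, hs0'⟩ : ∃ s0, s0 < p ∧ ∀ s < p, s ≠ s0 → ¬ p ∣ (1 + s * N₁) := by
      by_cases hex : ∃ s0, s0 < p ∧ p ∣ (1 + s0 * N₁)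
      · obtain ⟨s0, hlt, hdv⟩ := hex
        refine ⟨s0, hlt, fun s hs hne hdv' => hne ?_⟩
        have h1 : (1 + s * N₁) ≡ (1 + s0 * N₁) [MOD p] :=
          ((Nat.modEq_zero_iff_dvd).mpr hdv').trans ((Nat.modEq_zero_iff_dvd).mpr hdv).symm
        have h2 : s * N₁ ≡ s0 * N₁ [MOD p] := Nat.ModEq.add_left_cancel' 1 h1
        have h3 : s ≡ s0 [MOD p] := Nat.ModEq.cancel_right_of_coprime
          ((Nat.Prime.coprime_iff_not_dvd hp).mpr hd) h2
        rw [Nat.ModEq, Nat.mod_eq_of_lt hs, Nat.mod_eq_of_lt hlt] at h3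
        exact h3
      · push Not at hex
        exact ⟨0, hp0, fun s hs _ => hex s hs⟩
    refine ⟨s0, f s0 / p, fun h => absurd h hd, fun r hr => ?_⟩
    have h3 := hinv r hr
    rw [Finset.sum_eq_single s0] at h3
    · have e : (η ^ (p - r)) ^ s0 * (ζ ^ (N₁ * s0)) ^ r = 1 := by
        rw [pow_mul ζ N₁ s0, ← hη, ← pow_mul η (p - r) s0, ← pow_mul η s0 r, ← pow_add η]
        have : (p - r) * s0 + s0 * r = p * s0 := by
          rw [mul_comm s0 r, ← add_mul]; congr 1; omega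
        rw [this, pow_mul, hη1, one_pow]
      rw [eq_div_iff hpC]
      calc cls p (p * N₁) v ζ r * (ζ ^ (N₁ * s0)) ^ r * p = ((p : ℂ) * cls p (p * N₁) v ζ r) * (ζ ^ (N₁ * s0)) ^ r := by ring
        _ = f s0 * ((η ^ (p - r)) ^ s0 * (ζ ^ (N₁ * s0)) ^ r) := by rw [h3]; ring
        _ = f s0 := by rw [e, mul_one]
    · intro s hs hne
      rw [hf s (hs0' s (Finset.mem_range.mp hs) hne), zero_mul]
    · intro hcon
      exact absurd (Finset.mem_range.mpr hs0) hcon

/-- reindexing a residue class -/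
lemma sum_cls {M : Type} [AddCommMonoid M] {p N₁ : ℕ} (hp : 0 < p) (g : ℕ → M) (r : ℕ) (hr : r < p) :
    ∑ j ∈ (range (p * N₁)).filter (fun j => j % p = r), g j = ∑ i ∈ range N₁, g (r + p * i) := by
  symm
  apply Finset.sum_bij (fun i _ => r + p * i)
  · intro i hi
    rw [Finset.mem_filter, Finset.mem_range]
    have hi' := Finset.mem_range.mp hi
    refine ⟨?_, ?_⟩
    · have : p * i + p ≤ p * N₁ := by
        have : p * (i + 1) ≤ p * N₁ := Nat.mul_le_mul_left _ hi'
        linarith [mul_add p i 1]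
      omega
    · rw [Nat.add_mul_mod_self_left, Nat.mod_eq_of_lt hr]
  · intro i _ i' _ h
    have : p * i = p * i' := by omega
    exact Nat.eq_of_mul_eq_mul_left hp this
  · intro j hj
    rw [Finset.mem_filter, Finset.mem_range] at hj
    refine ⟨j / p, Finset.mem_range.mpr (Nat.div_lt_of_lt_mul hj.1), ?_⟩
    rw [← hj.2]
    exact Nat.mod_add_div j p
  · intro i _; rfl

end

end Pool.Agent.Helper54.Mix
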