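import Pool.Agent.Helper54.Mix.Rel

/-!
# There are no short integer relations between the numbers `2 cos(2πj/N)`, continued
-/

set_option autoImplicit false

namespace Pool.Agent.Helper54.Mix

open Finset Polynomial

noncomputable section

lemma sum_rows {M : Type} [AddCommMonoid M] {p N : ℕ} (hp : 0 < p) (g : ℕ → M) :
    ∑ j ∈ range N, g j = ∑ r ∈ range p, ∑ j ∈ (range N).filter (fun j => j % p = r), g j :=
  (Finset.sum_fiberwise_of_maps_to (fun j _ => Finset.mem_range.mpr (Nat.mod_lt _ hp)) g).symm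

/-- the norm of a residue class -/
def rn (p N : ℕ) (v : ℕ → ℤ) (r : ℕ) : ℤ := ∑ j ∈ (range N).filter (fun j => j % p = r), |v j|

lemma rn_nonneg (p N : ℕ) (v : ℕ → ℤ) (r : ℕ) : 0 ≤ rn p N v r :=
  Finset.sum_nonneg fun _ _ => abs_nonneg _

lemma rn_pos {p N : ℕ} {v : ℕ → ℤ} {ζ : ℂ} {r : ℕ} (h : cls p N v ζ r ≠ 0) : 1 ≤ rn p N v r := by
  obtain ⟨j, hj, hne⟩ := Finset.exists_ne_zero_of_sum_ne_zero h
  have hv : v j ≠ 0 := by
    intro h0; apply hne; rw [h0]; simp
  have h1 : |v j| ≤ rn p N v r :=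
    Finset.single_le_sum (f := fun j => |v j|) (fun _ _ => abs_nonneg _) hj
  have h2 : 1 ≤ |v j| := Int.one_le_abs hv
  linarith

lemma cls_row {p N₁ : ℕ} (hp : 0 < p) (v : ℕ → ℤ) (ζ : ℂ) (r : ℕ) (hr : r < p) :
    cls p (p * N₁) v ζ r = ζ ^ r * ∑ i ∈ range N₁, (v (r + p * i) : ℂ) * (ζ ^ p) ^ i := by
  unfold cls
  rw [sum_cls hp _ r hr, Finset.mul_sum]
  apply Finset.sum_congr rfl
  intro i _
  rw [pow_add, pow_mul]; ring

lemma rn_row {p N₁ : ℕ} (hp : 0 < p) (v : ℕ → ℤ) (r : ℕ) (hr : r < p) :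
    rn p (p * N₁) v r = ∑ i ∈ range N₁, |v (r + p * i)| := by
  unfold rn
  rw [sum_cls hp _ r hr]

/-- No vanishing sum of roots of unity has norm less than the least prime factor of the order. -/
lemma short_zero (q : ℕ) : ∀ N : ℕ, 0 < N → (∀ p : ℕ, p.Prime → p ∣ N → q ≤ p) →
    ∀ ζ : ℂ, IsPrimitiveRoot ζ N → ∀ v : ℕ → ℤ, ∑ j ∈ range N, (v j : ℂ) * ζ ^ j = 0 →
    ∑ j ∈ range N, |v j| < q → ∀ j < N, v j = 0 := by
  intro N
  induction N using Nat.strong_induction_on with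
  | _ N ih =>
  intro hN hq ζ hζ v hv hs
  rcases Nat.lt_or_ge 1 N with h1 | h1
  · have hp : (N.minFac).Prime := Nat.minFac_prime (by omega)
    obtain ⟨N₁, hN₁⟩ := Nat.minFac_dvd N
    set p := N.minFac with hpdef
    have hqp : q ≤ p := hq p hp (Nat.minFac_dvd N)
    have hN₁0 : 0 < N₁ := by
      rcases Nat.eq_zero_or_pos N₁ with h | h
      · rw [h] at hN₁; omega
      · exact h
    clear_value p
    subst hN₁
    obtain ⟨s, c, hc, hcl⟩ := cls_geom hp hN₁0 hζ v hv
    have hζ0 : ζ ≠ 0 := hζ.ne_zero (by omega)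
    by_cases hc0 : c = 0
    · have hz : ∀ r < p, cls p (p * N₁) v ζ r = 0 := by
        intro r hr
        have := hcl r hr
        rw [hc0] at this
        rcases mul_eq_zero.mp this with h | h
        · exact h
        · exact absurd h (pow_ne_zero _ (pow_ne_zero _ hζ0))
      intro j hj
      have hjr : j % p < p := Nat.mod_lt _ hp.pos
      have h2 := hz (j % p) hjr
      rw [cls_row hp.pos _ _ _ hjr] at h2
      have h3 : ∑ i ∈ range N₁, (v (j % p + p * i) : ℂ) * (ζ ^ p) ^ i = 0 := by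
        rcases mul_eq_zero.mp h2 with h | h
        · exact absurd h (pow_ne_zero _ hζ0)
        · exact h
      have hlt : N₁ < p * N₁ := by
        have := hp.two_le
        nlinarith
      have h4 := ih N₁ hlt hN₁0 (fun p' hp' hd => hq p' hp' (dvd_mul_of_dvd_right hd p)) (ζ ^ p)
        (hζ.pow (by positivity) rfl) (fun i => v (j % p + p * i)) h3
        (by
          have e : ∑ i ∈ range N₁, |v (j % p + p * i)| = rn p (p * N₁) v (j % p) := (rn_row hp.pos _ _ hjr).symm
          rw [e]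
          have : rn p (p * N₁) v (j % p) ≤ ∑ j ∈ range (p * N₁), |v j| :=
            Finset.sum_le_sum_of_subset_of_nonneg (Finset.filter_subset _ _) (fun _ _ _ => abs_nonneg _)
          linarith)
        (j / p) (Nat.div_lt_of_lt_mul hj)
      simp only [Nat.mod_add_div] at h4
      exact h4
    · exfalso
      have h5 : ∀ r ∈ range p, (1 : ℤ) ≤ rn p (p * N₁) v r := by
        intro r hr
        apply rn_pos (ζ := ζ)
        intro h0
        have := hcl r (Finset.mem_range.mp hr)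
        rw [h0, zero_mul] at this
        exact hc0 this.symm
      have h6 : (p : ℤ) ≤ ∑ j ∈ range (p * N₁), |v j| := by
        rw [sum_rows hp.pos]
        calc (p : ℤ) = ∑ r ∈ range p, (1 : ℤ) := by simp
          _ ≤ _ := Finset.sum_le_sum h5
      have : (q : ℤ) ≤ p := by exact_mod_cast hqp
      linarith
  · have hN1 : N = 1 := by omega
    subst hN1
    intro j hj
    have : j = 0 := by omega
    subst this
    simpa using hv

/-- reflection -/
lemma rn_refl {p N₁ : ℕ} (hp : 0 < p) (v : ℕ → ℤ) (hev : ∀ j, 0 < j → j < p * N₁ → v (p * N₁ - j) = v j)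
    (r : ℕ) (hr0 : 0 < r) (hr : r < p) : rn p (p * N₁) v (p - r) = rn p (p * N₁) v r := by
  rw [rn_row hp _ _ (by omega), rn_row hp _ _ hr, ← Finset.sum_range_reflect]
  apply Finset.sum_congr rfl
  intro i hi
  have hi' := Finset.mem_range.mp hi
  have h1 : p * (i + 1) ≤ p * N₁ := Nat.mul_le_mul_left _ hi'
  have h1' : p * (i + 1) = p * i + p := by ring
  have h2 : p - r + p * (N₁ - 1 - i) = p * N₁ - (r + p * i) := by
    have : p * (N₁ - 1 - i) = p * N₁ - p * (i + 1) := by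
      rw [← Nat.mul_sub]; congr 1; omega
    rw [this]
    omega
  rw [h2, hev _ (by omega) (by omega)]

lemma zeta_conj {N : ℕ} {ζ : ℂ} (hN : 0 < N) (hζ : IsPrimitiveRoot ζ N) : (starRingEnd ℂ) ζ * ζ = 1 := by
  have h1 : ‖ζ‖ = 1 := hζ.norm'_eq_one hN.ne'
  rw [mul_comm, Complex.mul_conj, Complex.normSq_eq_norm_sq, h1]
  norm_num

/-- an even sum is real -/
lemma even_real {N : ℕ} (hN : 0 < N) {ζ : ℂ} (hζ : IsPrimitiveRoot ζ N) (v : ℕ → ℤ)
    (hev : ∀ j, 0 < j → j < N → v (N - j) = v j) :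
    (starRingEnd ℂ) (∑ j ∈ range N, (v j : ℂ) * ζ ^ j) = ∑ j ∈ range N, (v j : ℂ) * ζ ^ j := by
  obtain ⟨M, rfl⟩ : ∃ M, N = M + 1 := ⟨N - 1, by omega⟩
  rw [Finset.sum_range_succ', map_add, map_sum, ← Finset.sum_range_reflect]
  congr 1
  · apply Finset.sum_congr rfl
    intro i hi
    have hi' := Finset.mem_range.mp hi
    have e1 : M - 1 - i + 1 = M + 1 - (i + 1) := by omega
    rw [e1, hev (i + 1) (by omega) (by omega), map_mul, map_pow]
    congr 1
    · simp
    · have h1 := zeta_conj hN hζ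
      have h2 : ζ ^ (M + 1) = 1 := hζ.pow_eq_one
      have h3 : (starRingEnd ℂ) ζ ^ (M + 1) = 1 := by rw [← map_pow, h2, map_one]
      have h4 : (starRingEnd ℂ) ζ ^ (M + 1 - (i + 1)) * (starRingEnd ℂ) ζ ^ (i + 1) = 1 := by
        rw [← pow_add]
        have : M + 1 - (i + 1) + (i + 1) = M + 1 := by omega
        rw [this, h3]
      have h5 : (starRingEnd ℂ) ζ ^ (i + 1) * ζ ^ (i + 1) = 1 := by rw [← mul_pow, h1, one_pow]
      calc (starRingEnd ℂ) ζ ^ (M + 1 - (i + 1)) = (starRingEnd ℂ) ζ ^ (M + 1 - (i + 1)) * ((starRingEnd ℂ) ζ ^ (i + 1) * ζ ^ (i + 1)) := by rw [h5, mul_one]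
        _ = ζ ^ (i + 1) := by rw [← mul_assoc, h4, one_mul]
  · simp

end

end Pool.Agent.Helper54.Mix
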