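import Pool.Agent.Helper54.Mix.Rel3

/-!
# Vanishing odd sums of roots of unity, and class sums for a divisor of the order
-/

set_option autoImplicit false

namespace Pool.Agent.Helper54.Mix

open Finset Polynomial

noncomputable section

/-- reflection for odd functions -/
lemma rn_refl' {p N₁ : ℕ} (hp : 0 < p) (v : ℕ → ℤ) (hev : ∀ j, 0 < j → j < p * N₁ → v (p * N₁ - j) = - v j)
    (r : ℕ) (hr0 : 0 < r) (hr : r < p) : rn p (p * N₁) v (p - r) = rn p (p * N₁) v r := by
  rw [rn_row hp _ _ (by omega), rn_row hp _ _ hr, ← Finset.sum_range_reflect]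
  apply Finset.sum_congr rfl
  intro i hi
  have hi' := Finset.mem_range.mp hi
  have h1 : p * (i + 1) ≤ p * N₁ := Nat.mul_le_mul_left _ hi'
  have h1' : p * (i + 1) = p * i + p := by ring
  have h2 : p - r + p * (N₁ - 1 - i) = p * N₁ - (r + p * i) := by
    have : p * (N₁ - 1 - i) = p * N₁ - p * (i + 1) := by
      rw [← Nat.mul_sub]; congr 1; omega
    rw [this]
    omega
  rw [h2, hev _ (by omega) (by omega), abs_neg]

/-- an odd sum is imaginary -/
lemma odd_imag {N : ℕ} (hN : 0 < N) {ζ : ℂ} (hζ : IsPrimitiveRoot ζ N) (v : ℕ → ℤ) (hv0 : v 0 = 0)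
    (hev : ∀ j, 0 < j → j < N → v (N - j) = - v j) :
    (starRingEnd ℂ) (∑ j ∈ range N, (v j : ℂ) * ζ ^ j) = - ∑ j ∈ range N, (v j : ℂ) * ζ ^ j := by
  obtain ⟨M, rfl⟩ : ∃ M, N = M + 1 := ⟨N - 1, by omega⟩
  rw [Finset.sum_range_succ', hv0]
  simp only [Int.cast_zero, zero_mul, add_zero]
  rw [map_sum, ← Finset.sum_range_reflect, ← Finset.sum_neg_distrib]
  apply Finset.sum_congr rfl
  intro i hi
  have hi' := Finset.mem_range.mp hi
  have e1 : M - 1 - i + 1 = M + 1 - (i + 1) := by omega
  rw [e1, hev (i + 1) (by omega) (by omega), map_mul, map_pow]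
  have h1 := zeta_conj hN hζ
  have h2 : ζ ^ (M + 1) = 1 := hζ.pow_eq_one
  have h3 : (starRingEnd ℂ) ζ ^ (M + 1) = 1 := by rw [← map_pow, h2, map_one]
  have h4 : (starRingEnd ℂ) ζ ^ (M + 1 - (i + 1)) * (starRingEnd ℂ) ζ ^ (i + 1) = 1 := by
    rw [← pow_add]
    have : M + 1 - (i + 1) + (i + 1) = M + 1 := by omega
    rw [this, h3]
  have h5 : (starRingEnd ℂ) ζ ^ (i + 1) * ζ ^ (i + 1) = 1 := by rw [← mul_pow, h1, one_pow]
  have h6 : (starRingEnd ℂ) ζ ^ (M + 1 - (i + 1)) = ζ ^ (i + 1) := by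
    calc (starRingEnd ℂ) ζ ^ (M + 1 - (i + 1)) = (starRingEnd ℂ) ζ ^ (M + 1 - (i + 1)) * ((starRingEnd ℂ) ζ ^ (i + 1) * ζ ^ (i + 1)) := by rw [h5, mul_one]
      _ = ζ ^ (i + 1) := by rw [← mul_assoc, h4, one_mul]
  rw [h6]
  simp

lemma pow_not_imag {N : ℕ} (hN : 0 < N) (hodd : Odd N) {ζ : ℂ} (hζ : IsPrimitiveRoot ζ N) (M : ℕ)
    (h : (starRingEnd ℂ) (ζ ^ M) = - ζ ^ M) : False := by
  have h1 := zeta_conj hN hζ
  have h2 : (ζ ^ M) ^ 2 = -1 := by
    have : (starRingEnd ℂ) (ζ ^ M) * ζ ^ M = 1 := by rw [map_pow, ← mul_pow, h1, one_pow]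
    rw [h] at this
    linear_combination -this
  have h3 : ((ζ ^ M) ^ 2) ^ N = 1 := by
    have e : ((ζ ^ M) ^ 2) ^ N = (ζ ^ N) ^ (M * 2) := by ring
    rw [e, hζ.pow_eq_one, one_pow]
  rw [h2, hodd.neg_one_pow] at h3
  norm_num at h3

/-- An odd vanishing sum of norm at most `20` is trivial, if all prime factors of the order are at
least `11`. -/
lemma odd_zero : ∀ N : ℕ, 0 < N → (∀ p : ℕ, p.Prime → p ∣ N → 11 ≤ p) →
    ∀ ζ : ℂ, IsPrimitiveRoot ζ N → ∀ v : ℕ → ℤ, v 0 = 0 → (∀ j, 0 < j → j < N → v (N - j) = - v j) →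
    ∑ j ∈ range N, (v j : ℂ) * ζ ^ j = 0 →
    ∑ j ∈ range N, |v j| ≤ 20 → ∀ j < N, v j = 0 := by
  intro N
  induction N using Nat.strong_induction_on with
  | _ N ih =>
  intro hN hq ζ hζ v hv0 hev hv hs
  have hodd : Odd N := by
    rw [← Nat.not_even_iff_odd]
    intro he
    have := hq 2 Nat.prime_two he.two_dvd
    omega
  rcases Nat.lt_or_ge 1 N with h1 | h1
  · have hp : (N.minFac).Prime := Nat.minFac_prime (by omega)
    obtain ⟨N₁, hN₁⟩ := Nat.minFac_dvd N
    set p := N.minFac with hpdef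
    have hqp : 11 ≤ p := hq p hp (Nat.minFac_dvd N)
    have hN₁0 : 0 < N₁ := by
      rcases Nat.eq_zero_or_pos N₁ with h | h
      · rw [h] at hN₁; omega
      · exact h
    clear_value p
    subst hN₁
    obtain ⟨s, c, hc, hcl⟩ := cls_geom hp hN₁0 hζ v hv
    have hζ0 : ζ ≠ 0 := hζ.ne_zero (by omega)
    have hlt : N₁ < p * N₁ := by nlinarith
    have hζp : IsPrimitiveRoot (ζ ^ p) N₁ := hζ.pow (by positivity) rfl
    have hpodd : Odd p := Nat.Odd.of_mul_left hodd
    have hev' : ∀ i, 0 < i → i < N₁ → v (0 + p * (N₁ - i)) = - v (0 + p * i) := by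
      intro i hi0 hi
      have h1 : p * i < p * N₁ := Nat.mul_lt_mul_of_pos_left hi hp.pos
      have h2 : 0 < p * i := Nat.mul_pos hp.pos hi0
      have e : p * (N₁ - i) = p * N₁ - p * i := Nat.mul_sub _ _ _
      rw [zero_add, zero_add, e, hev _ h2 h1]
    have hcls0 : cls p (p * N₁) v ζ 0 = ∑ i ∈ range N₁, (v (0 + p * i) : ℂ) * (ζ ^ p) ^ i := by
      rw [cls_row hp.pos _ _ _ hp.pos, pow_zero, one_mul]
    have hrn0 : rn p (p * N₁) v 0 = ∑ i ∈ range N₁, |v (0 + p * i)| := rn_row hp.pos _ _ hp.pos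
    have htot : ∑ j ∈ range (p * N₁), |v j| = ∑ r ∈ range p, rn p (p * N₁) v r := sum_rows hp.pos _
    by_cases hc0 : c = 0
    · have hz : ∀ r < p, cls p (p * N₁) v ζ r = 0 := by
        intro r hr
        have := hcl r hr
        rw [hc0] at this
        rcases mul_eq_zero.mp this with h | h
        · exact h
        · exact absurd h (pow_ne_zero _ (pow_ne_zero _ hζ0))
      intro j hj
      have hjr : j % p < p := Nat.mod_lt _ hp.pos
      rcases Nat.eq_zero_or_pos (j % p) with hr0 | hr0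
      · have h4 := ih N₁ hlt hN₁0 (fun p' hp' hd => hq p' hp' (dvd_mul_of_dvd_right hd p)) (ζ ^ p)
          hζp (fun i => v (0 + p * i)) (by simpa using hv0) hev' (by rw [← hcls0]; exact hz 0 hp.pos)
          (by
            rw [← hrn0]
            have : rn p (p * N₁) v 0 ≤ ∑ j ∈ range (p * N₁), |v j| :=
              Finset.sum_le_sum_of_subset_of_nonneg (Finset.filter_subset _ _) (fun _ _ _ => abs_nonneg _)
            linarith)
          (j / p) (Nat.div_lt_of_lt_mul hj)
        have h5 : j = 0 + p * (j / p) := by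
          have := Nat.mod_add_div j p
          omega
        rw [h5]; exact h4
      · have h2 := hz (j % p) hjr
        rw [cls_row hp.pos _ _ _ hjr] at h2
        have h3 : ∑ i ∈ range N₁, (v (j % p + p * i) : ℂ) * (ζ ^ p) ^ i = 0 := by
          rcases mul_eq_zero.mp h2 with h | h
          · exact absurd h (pow_ne_zero _ hζ0)
          · exact h
        have h4 := short_zero 11 N₁ hN₁0 (fun p' hp' hd => hq p' hp' (dvd_mul_of_dvd_right hd p)) (ζ ^ p)
          hζp (fun i => v (j % p + p * i)) h3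
          (by
            have e : ∑ i ∈ range N₁, |v (j % p + p * i)| = rn p (p * N₁) v (j % p) := (rn_row hp.pos _ _ hjr).symm
            rw [e]
            have h6 := rn_refl' hp.pos v hev (j % p) hr0 hjr
            have hne : j % p ≠ p - j % p := by
              intro h
              obtain ⟨t, ht⟩ := hpodd
              omega
            have h7 : rn p (p * N₁) v (j % p) + rn p (p * N₁) v (p - j % p) ≤ ∑ r ∈ range p, rn p (p * N₁) v r := by
              have h8 := Finset.sum_le_sum_of_subset_of_nonneg (s := {j % p, p - j % p}) (t := range p)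
                (f := fun r => rn p (p * N₁) v r) (by
                  intro x hx
                  rw [Finset.mem_insert, Finset.mem_singleton] at hx
                  rw [Finset.mem_range]
                  rcases hx with hx | hx <;> omega) (fun _ _ _ => rn_nonneg _ _ _ _)
              rw [Finset.sum_pair hne] at h8
              exact h8
            rw [← htot, h6] at h7
            push_cast
            linarith)
          (j / p) (Nat.div_lt_of_lt_mul hj)
        simp only [Nat.mod_add_div] at h4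
        exact h4
    · exfalso
      have hcne : ∀ r, r < p → cls p (p * N₁) v ζ r ≠ 0 := by
        intro r hr h0
        have := hcl r hr
        rw [h0, zero_mul] at this
        exact hc0 this.symm
      have hrow : ∀ r, r < p → (1 : ℤ) ≤ rn p (p * N₁) v r := fun r hr => rn_pos (hcne r hr)
      have hc00 : cls p (p * N₁) v ζ 0 = c := by
        have := hcl 0 hp.pos
        rwa [pow_zero, mul_one] at this
      obtain ⟨P, rfl⟩ : ∃ P, p = P + 1 := ⟨p - 1, by omega⟩
      have hsplit : ∑ r ∈ range (P + 1), rn (P + 1) ((P + 1) * N₁) v r =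
          ∑ r ∈ range P, rn (P + 1) ((P + 1) * N₁) v (r + 1) + rn (P + 1) ((P + 1) * N₁) v 0 :=
        Finset.sum_range_succ' _ _
      have hone : ∃ r, r < P ∧ rn (P + 1) ((P + 1) * N₁) v (r + 1) = 1 := by
        by_contra hcon
        push Not at hcon
        have h2 : ∀ r ∈ range P, (2 : ℤ) ≤ rn (P + 1) ((P + 1) * N₁) v (r + 1) := by
          intro r hr
          have h3 := hrow (r + 1) (by have := Finset.mem_range.mp hr; omega)
          have h4 := hcon r (Finset.mem_range.mp hr)
          omega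
        have h5 : (P : ℤ) * 2 ≤ ∑ r ∈ range P, rn (P + 1) ((P + 1) * N₁) v (r + 1) := by
          calc (P : ℤ) * 2 = ∑ r ∈ range P, (2 : ℤ) := by simp
            _ ≤ _ := Finset.sum_le_sum h2
        have h6 := hrow 0 (by omega)
        have h7 : (10 : ℤ) ≤ P := by exact_mod_cast (by omega : 10 ≤ P)
        rw [htot, hsplit] at hs
        linarith
      obtain ⟨r, hr, hr1⟩ := hone
      obtain ⟨j0, hj0, hne0⟩ := Finset.exists_ne_zero_of_sum_ne_zero (hcne (r + 1) (by omega))
      have hvj0 : v j0 ≠ 0 := by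
        intro h0; apply hne0; rw [h0]; simp
      have hsum1 : |v j0| + ∑ j ∈ ((range ((P + 1) * N₁)).filter (fun j => j % (P + 1) = r + 1)).erase j0, |v j| = 1 := by
        rw [Finset.add_sum_erase _ (fun j => |v j|) hj0]; exact hr1
      have hab1 : 1 ≤ |v j0| := Int.one_le_abs hvj0
      have hers : ∀ j ∈ ((range ((P + 1) * N₁)).filter (fun j => j % (P + 1) = r + 1)).erase j0, v j = 0 := by
        have hnn : 0 ≤ ∑ j ∈ ((range ((P + 1) * N₁)).filter (fun j => j % (P + 1) = r + 1)).erase j0, |v j| :=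
          Finset.sum_nonneg fun _ _ => abs_nonneg _
        have h0 : ∑ j ∈ ((range ((P + 1) * N₁)).filter (fun j => j % (P + 1) = r + 1)).erase j0, |v j| = 0 := by linarith
        intro j hj
        have := (Finset.sum_eq_zero_iff_of_nonneg (fun _ _ => abs_nonneg _)).mp h0 j hj
        exact abs_eq_zero.mp this
      have hclsr : cls (P + 1) ((P + 1) * N₁) v ζ (r + 1) = (v j0 : ℂ) * ζ ^ j0 := by
        unfold cls
        rw [← Finset.add_sum_erase _ _ hj0, Finset.sum_eq_zero (s := Finset.erase _ _), add_zero]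
        intro j hj
        rw [hers j hj]; simp
      have hceq : c = (v j0 : ℂ) * ζ ^ (j0 + N₁ * s * (r + 1)) := by
        have h2 := hcl (r + 1) (by omega)
        rw [hclsr] at h2
        rw [← h2, pow_add ζ j0, pow_mul ζ (N₁ * s) (r + 1)]
        ring
      have hreal : (starRingEnd ℂ) c = - c := by
        rw [← hc00, hcls0]
        exact odd_imag hN₁0 hζp (fun i => v (0 + (P + 1) * i)) (by simpa using hv0) hev'
      have hvC : (v j0 : ℂ) ≠ 0 := by exact_mod_cast hvj0
      apply pow_not_imag hN hodd hζ (j0 + N₁ * s * (r + 1))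
      rw [hceq, map_mul] at hreal
      have h3 : (starRingEnd ℂ) (v j0 : ℂ) = (v j0 : ℂ) := by simp
      rw [h3] at hreal
      apply mul_left_cancel₀ hvC
      rw [hreal]; ring
  · have hN1 : N = 1 := by omega
    subst hN1
    intro j hj
    have : j = 0 := by omega
    subst this
    exact hv0

/-- The class sums modulo a divisor `Q` of the order vanish, if every prime factor of `Q` divides
the quotient. -/
lemma cls_zero {Q N₁ : ℕ} (hQ : 0 < Q) (hN₁ : 0 < N₁) {ζ : ℂ} (hζ : IsPrimitiveRoot ζ (Q * N₁)) (v : ℕ → ℤ)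
    (h : ∑ j ∈ range (Q * N₁), (v j : ℂ) * ζ ^ j = 0) (hcop : ∀ s : ℕ, (1 + s * N₁).Coprime (Q * N₁)) :
    ∀ r < Q, cls Q (Q * N₁) v ζ r = 0 := by
  set η : ℂ := ζ ^ N₁ with hη
  have hηp : IsPrimitiveRoot η Q := hζ.pow (by positivity) (by ring)
  have hη1 : η ^ Q = 1 := hηp.pow_eq_one
  let f : ℕ → ℂ := fun s => ∑ r ∈ range Q, (η ^ s) ^ r * cls Q (Q * N₁) v ζ r
  have hf : ∀ s, f s = 0 := by
    intro s
    have h1 := galois_sum (by positivity) hζ v h _ (hcop s)
    have h2 : ∑ j ∈ range (Q * N₁), (v j : ℂ) * ζ ^ j * (η ^ s) ^ j = 0 := by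
      rw [← h1]
      apply Finset.sum_congr rfl
      intro j _
      rw [hη, pow_add, pow_one, mul_pow (ζ), ← pow_mul ζ N₁ s, mul_comm N₁ s]
      ring
    rw [cls_sum hQ v ζ (η ^ s) (by rw [← pow_mul, mul_comm, pow_mul, hη1, one_pow])] at h2
    exact h2
  have hQC : (Q : ℂ) ≠ 0 := by exact_mod_cast hQ.ne'
  intro r hr
  have hinv : (Q : ℂ) * cls Q (Q * N₁) v ζ r = ∑ s ∈ range Q, f s * (η ^ (Q - r)) ^ s := by
    simp only [f, Finset.sum_mul]
    rw [Finset.sum_comm]
    rw [Finset.sum_eq_single r]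
    · have : ∀ s ∈ range Q, (η ^ s) ^ r * cls Q (Q * N₁) v ζ r * (η ^ (Q - r)) ^ s = cls Q (Q * N₁) v ζ r := by
        intro s _
        have e : (η ^ s) ^ r * (η ^ (Q - r)) ^ s = 1 := by
          rw [← pow_mul η s r, ← pow_mul η (Q - r) s, ← pow_add η]
          have : s * r + (Q - r) * s = Q * s := by
            rw [mul_comm s r, ← add_mul]; congr 1; omega
          rw [this, pow_mul, hη1, one_pow]
        linear_combination (cls Q (Q * N₁) v ζ r) * e
      rw [Finset.sum_congr rfl this]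
      simp
    · intro r' hr' hne
      have hr'' := Finset.mem_range.mp hr'
      have e : ∀ s ∈ range Q, (η ^ s) ^ r' * cls Q (Q * N₁) v ζ r' * (η ^ (Q - r)) ^ s =
          cls Q (Q * N₁) v ζ r' * (η ^ (r' + (Q - r))) ^ s := by
        intro s _
        rw [pow_add, mul_pow, ← pow_mul, ← pow_mul, ← pow_mul, mul_comm s r']
        ring
      rw [Finset.sum_congr rfl e, ← Finset.mul_sum]
      have hne1 : η ^ (r' + (Q - r)) ≠ 1 := by
        intro h1
        rw [hηp.pow_eq_one_iff_dvd] at h1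
        obtain ⟨c, hc⟩ := h1
        rcases Nat.lt_or_ge c 2 with hc2 | hc2
        · interval_cases c <;> omega
        · have : Q * 2 ≤ Q * c := Nat.mul_le_mul_left _ hc2
          omega
      have hgs : (∑ s ∈ range Q, (η ^ (r' + (Q - r))) ^ s) * (η ^ (r' + (Q - r)) - 1) = 0 := by
        rw [geom_sum_mul, ← pow_mul, mul_comm _ Q, pow_mul, hη1, one_pow, sub_self]
      rcases mul_eq_zero.mp hgs with h2 | h2
      · rw [h2, mul_zero]
      · exact absurd (sub_eq_zero.mp h2) hne1
    · intro hcon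
      exact absurd (Finset.mem_range.mpr hr) hcon
  simp only [hf, zero_mul, Finset.sum_const_zero] at hinv
  rcases mul_eq_zero.mp hinv with h | h
  · exact absurd h hQC
  · exact h

end

end Pool.Agent.Helper54.Mix
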