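import Pool.Agent.Helper54.Mix.Rel4
import Pool.Agent.Helper54.Mix.EvenEx

/-!
# No short relations between the eigenvalues of a path with an odd number of vertices
-/

set_option autoImplicit false

namespace Pool.Agent.Helper54.Mix

open Finset Polynomial

noncomputable section

lemma neg_primitive {M : ℕ} (hM : 0 < M) (hodd : Odd M) {ξ : ℂ} (hξ : IsPrimitiveRoot ξ (2 * M)) :
    IsPrimitiveRoot (-ξ) M := by
  have h1 : ξ ^ M = -1 := by
    have h2 : (ξ ^ M) ^ 2 = 1 := by rw [← pow_mul, mul_comm, hξ.pow_eq_one]
    have h3 : ξ ^ M ≠ 1 := by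
      intro h
      rw [hξ.pow_eq_one_iff_dvd] at h
      have := Nat.le_of_dvd hM h
      omega
    have h2' : (ξ ^ M) * (ξ ^ M) = 1 := by rw [← pow_two]; exact h2
    rcases mul_self_eq_one_iff.mp h2' with h | h
    · exact absurd h h3
    · exact h
  refine ⟨?_, ?_⟩
  · rw [hodd.neg_pow, h1]; ring
  · intro l hl
    have h2 : ξ ^ (2 * l) = 1 := by
      have : ((-ξ) ^ l) ^ 2 = 1 := by rw [hl, one_pow]
      rw [← pow_mul, mul_comm l 2, pow_mul, neg_sq, ← pow_mul] at this
      exact this
    rw [hξ.pow_eq_one_iff_dvd] at h2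
    exact (Nat.mul_dvd_mul_iff_left (by norm_num)).mp h2

/-- A vector on `[0, 2L)`, symmetric about `L`, of norm at most `20` on every parity class, with a
vanishing sum over powers of a primitive root of order `4L`, is zero. -/
lemma sym_zero {a M : ℕ} (hM : 0 < M) (hodd : Odd M) (hq : ∀ p : ℕ, p.Prime → p ∣ M → 11 ≤ p)
    {ζ : ℂ} (hζ : IsPrimitiveRoot ζ (2 ^ (a + 1) * (2 * M))) (w : ℕ → ℤ) (hw0 : w 0 = 0)
    (hwL : w (2 ^ a * M) = 0) (hsym : ∀ j, 0 < j → j < 2 ^ (a + 1) * M → w (2 ^ (a + 1) * M - j) = w j)
    (hbig : ∀ j, 2 ^ (a + 1) * M ≤ j → w j = 0)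
    (hsum : ∑ j ∈ range (2 ^ (a + 1) * (2 * M)), (w j : ℂ) * ζ ^ j = 0)
    (hnorm : ∀ e : ℕ, ∑ j ∈ (range (2 ^ (a + 1) * (2 * M))).filter (fun j => j % 2 = e), |w j| ≤ 20) :
    ∀ j, w j = 0 := by
  set Q := 2 ^ (a + 1) with hQ
  have hQ0 : 0 < Q := by positivity
  have hQa : Q = 2 ^ a + 2 ^ a := by rw [hQ, pow_succ]; ring
  have ha0 : 0 < 2 ^ a := by positivity
  have h2Q : 2 ∣ Q := ⟨2 ^ a, by rw [hQ, pow_succ]; ring⟩
  have hcop : ∀ s : ℕ, (1 + s * (2 * M)).Coprime (Q * (2 * M)) := by
    intro s
    apply Nat.Coprime.mul_right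
    · rw [hQ]
      apply Nat.Coprime.pow_right
      rw [Nat.coprime_two_right]
      exact ⟨s * M, by ring⟩
    · simp
  have hcls := cls_zero hQ0 (by positivity : 0 < 2 * M) hζ w hsum hcop
  have hζ0 : ζ ≠ 0 := hζ.ne_zero (by positivity)
  have hξ : IsPrimitiveRoot (ζ ^ Q) (2 * M) := hζ.pow (by positivity) rfl
  set ρ : ℂ := -ζ ^ Q with hρ
  have hρp : IsPrimitiveRoot ρ M := neg_primitive hM hodd hξ
  obtain ⟨i0, hi0⟩ := hodd
  -- the class relations
  have hrel : ∀ c < Q, ∑ i ∈ range M, ((((-1) ^ i * w (c + Q * i) : ℤ)) : ℂ) * ρ ^ i = 0 := by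
    intro c hc
    have h1 := hcls c hc
    rw [cls_row hQ0 w ζ c hc] at h1
    have h2 : ∑ i ∈ range (2 * M), (w (c + Q * i) : ℂ) * (ζ ^ Q) ^ i = 0 := by
      rcases mul_eq_zero.mp h1 with h | h
      · exact absurd h (pow_ne_zero _ hζ0)
      · exact h
    have h3 : 2 * M = M + M := by ring
    rw [h3, Finset.sum_range_add] at h2
    have h4 : ∑ i ∈ range M, (w (c + Q * (M + i)) : ℂ) * (ζ ^ Q) ^ (M + i) = 0 := by
      apply Finset.sum_eq_zero
      intro i _
      rw [hbig (c + Q * (M + i)) (by nlinarith [Nat.zero_le (Q * i)])]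
      simp
    rw [h4, add_zero] at h2
    rw [← h2]
    apply Finset.sum_congr rfl
    intro i _
    have h5 : (ζ ^ Q) = -ρ := by rw [hρ]; ring
    rw [h5]
    push_cast
    rw [neg_pow ρ i]
    ring
  have habs : ∀ (i : ℕ) (z : ℤ), |(-1) ^ i * z| = |z| := by
    intro i z
    rw [abs_mul, abs_pow, abs_neg, abs_one, one_pow, one_mul]
  have hnc : ∀ c < Q, ∑ i ∈ range M, |(-1) ^ i * w (c + Q * i)| ≤ rn Q (Q * (2 * M)) w c := by
    intro c hc
    rw [rn_row hQ0 w c hc]
    have h3 : 2 * M = M + M := by ring
    rw [h3, Finset.sum_range_add]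
    simp only [habs]
    have : 0 ≤ ∑ i ∈ range M, |w (c + Q * (M + i))| := Finset.sum_nonneg fun _ _ => abs_nonneg _
    linarith
  have hpar : ∀ c, rn Q (Q * (2 * M)) w c ≤ 20 := by
    intro c
    refine le_trans ?_ (hnorm (c % 2))
    unfold rn
    apply Finset.sum_le_sum_of_subset_of_nonneg
    · intro j hj
      rw [Finset.mem_filter] at hj ⊢
      refine ⟨hj.1, ?_⟩
      rw [← hj.2, Nat.mod_mod_of_dvd _ h2Q]
    · intro _ _ _; exact abs_nonneg _
  have hpar2 : ∀ c, 0 < c → c < Q → c ≠ 2 ^ a → rn Q (Q * (2 * M)) w c + rn Q (Q * (2 * M)) w (Q - c) ≤ 20 := by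
    intro c hc0 hc hne
    refine le_trans ?_ (hnorm (c % 2))
    unfold rn
    rw [← Finset.sum_union]
    · apply Finset.sum_le_sum_of_subset_of_nonneg
      · intro j hj
        rw [Finset.mem_union, Finset.mem_filter, Finset.mem_filter] at hj
        rw [Finset.mem_filter]
        rcases hj with hj | hj
        · refine ⟨hj.1, ?_⟩
          rw [← hj.2, Nat.mod_mod_of_dvd _ h2Q]
        · refine ⟨hj.1, ?_⟩
          have h5 : j % 2 = (Q - c) % 2 := by rw [← hj.2, Nat.mod_mod_of_dvd _ h2Q]
          rw [h5]
          obtain ⟨b, hb⟩ := h2Q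
          omega
      · intro _ _ _; exact abs_nonneg _
    · rw [Finset.disjoint_left]
      intro j hj hj'
      rw [Finset.mem_filter] at hj hj'
      have : c = Q - c := hj.2.symm.trans hj'.2
      omega
  -- symmetric reflection of rows
  have hreflrow : ∀ c, 0 < c → c < Q → ∀ i < M, w ((Q - c) + Q * (M - 1 - i)) = w (c + Q * i) := by
    intro c hc0 hc i hi
    have h1 : Q * (i + 1) ≤ Q * M := Nat.mul_le_mul_left _ hi
    have h1' : Q * (i + 1) = Q * i + Q := by ring
    have h2 : Q * (M - 1 - i) = Q * M - Q * (i + 1) := by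
      rw [← Nat.mul_sub]; congr 1; omega
    have h3 : (Q - c) + Q * (M - 1 - i) = Q * M - (c + Q * i) := by
      rw [h2]; omega
    rw [h3, hsym _ (by omega) (by omega)]
  -- all classes vanish
  have hall : ∀ c < Q, ∀ i < M, w (c + Q * i) = 0 := by
    intro c hc
    have hsgn : ∀ i, (-1 : ℤ) ^ i * w (c + Q * i) = 0 → w (c + Q * i) = 0 := by
      intro i h
      rcases mul_eq_zero.mp h with h | h
      · exact absurd h (pow_ne_zero _ (by norm_num))
      · exact h
    rcases Nat.eq_zero_or_pos c with hc0 | hc0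
    · subst hc0
      have h5 := odd_zero M hM hq ρ hρp (fun i => (-1) ^ i * w (0 + Q * i)) (by simp [hw0]) (by
          intro i hi0' hi
          have h1 : Q * i < Q * M := Nat.mul_lt_mul_of_pos_left hi hQ0
          have h2 : 0 < Q * i := Nat.mul_pos hQ0 hi0'
          have e : 0 + Q * (M - i) = Q * M - Q * i := by rw [zero_add]; exact Nat.mul_sub _ _ _
          show (-1) ^ (M - i) * w (0 + Q * (M - i)) = -((-1) ^ i * w (0 + Q * i))
          rw [e, hsym _ h2 h1, zero_add]
          have h3 : (-1 : ℤ) ^ (M - i) = - (-1) ^ i := by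
            rcases Nat.even_or_odd i with he | ho
            · rw [he.neg_one_pow, Odd.neg_one_pow]
              obtain ⟨b, hb⟩ := he
              exact ⟨i0 - b, by omega⟩
            · rw [ho.neg_one_pow, Even.neg_one_pow]
              · norm_num
              · obtain ⟨b, hb⟩ := ho
                exact ⟨i0 - b, by omega⟩
          rw [h3]; ring) (hrel 0 hc) ((hnc 0 hc).trans (hpar 0))
      intro i hi
      exact hsgn i (h5 i hi)
    · by_cases hca : c = 2 ^ a
      · -- the middle class
        let w' : ℕ → ℤ := fun i => (-1) ^ i * w (c + Q * i)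
        have hrefl : ∀ i < M, w' (M - 1 - i) = w' i := by
          intro i hi
          simp only [w']
          have h1 := hreflrow c hc0 hc i hi
          have h2 : Q - c = c := by omega
          rw [h2] at h1
          rw [h1]
          have h3 : (-1 : ℤ) ^ (M - 1 - i) = (-1) ^ i := by
            rcases Nat.even_or_odd i with he | ho
            · rw [he.neg_one_pow, Even.neg_one_pow]
              obtain ⟨b, hb⟩ := he
              exact ⟨i0 - b, by omega⟩
            · rw [ho.neg_one_pow, Odd.neg_one_pow]
              obtain ⟨b, hb⟩ := ho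
              exact ⟨i0 - b - 1, by omega⟩
          rw [h3]
        let v : ℕ → ℤ := fun l => if l ≤ i0 then w' (i0 + l) else w' (l - (i0 + 1))
        have hv1 : ∀ k < i0 + 1, v k = w' (i0 + k) := by
          intro k hk; simp only [v]; rw [if_pos (by omega)]
        have hv2 : ∀ i < i0, v (i0 + 1 + i) = w' i := by
          intro i hi; simp only [v]; rw [if_neg (by omega)]; congr 1; omega
        have hMs : M = i0 + (i0 + 1) := by omega
        have hMs' : M = (i0 + 1) + i0 := by omega
        have h5 := even_zero M hM hq ρ hρp v (by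
            simp only [v]
            rw [if_pos (by omega)]
            simp only [w', add_zero]
            have : c + Q * i0 = 2 ^ a * M := by rw [hca, hi0, hQa]; ring
            rw [this, hwL, mul_zero]) (by
            intro l hl0 hl
            simp only [v]
            rcases Nat.lt_or_ge i0 l with h1 | h1
            · rw [if_pos (by omega), if_neg (by omega), ← hrefl (l - (i0 + 1)) (by omega)]
              congr 1; omega
            · rw [if_neg (by omega), if_pos h1, ← hrefl (i0 + l) (by omega)]
              congr 1; omega) (by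
            have h6 := hrel c hc
            have h7 : ∑ i ∈ range M, ((w' i : ℤ) : ℂ) * ρ ^ i = 0 := h6
            have h8 : ρ ^ M = 1 := hρp.pow_eq_one
            rw [hMs, Finset.sum_range_add] at h7
            rw [hMs', Finset.sum_range_add]
            have h9 : ∑ k ∈ range (i0 + 1), ((v k : ℤ) : ℂ) * ρ ^ k =
                ρ ^ (i0 + 1) * ∑ k ∈ range (i0 + 1), ((w' (i0 + k) : ℤ) : ℂ) * ρ ^ (i0 + k) := by
              rw [Finset.mul_sum]
              apply Finset.sum_congr rfl
              intro k hk
              rw [hv1 k (Finset.mem_range.mp hk)]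
              have : ρ ^ k = ρ ^ (i0 + 1) * ρ ^ (i0 + k) := by
                rw [← pow_add]
                have : i0 + 1 + (i0 + k) = M + k := by omega
                rw [this, pow_add, h8, one_mul]
              rw [this]; ring
            have h10 : ∑ i ∈ range i0, ((v (i0 + 1 + i) : ℤ) : ℂ) * ρ ^ (i0 + 1 + i) =
                ρ ^ (i0 + 1) * ∑ i ∈ range i0, ((w' i : ℤ) : ℂ) * ρ ^ i := by
              rw [Finset.mul_sum]
              apply Finset.sum_congr rfl
              intro i hi
              rw [hv2 i (Finset.mem_range.mp hi), pow_add]; ring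
            rw [h9, h10]
            linear_combination (ρ ^ (i0 + 1)) * h7) (by
            have h6 : ∑ i ∈ range M, |w' i| ≤ 20 := (hnc c hc).trans (hpar c)
            rw [hMs, Finset.sum_range_add] at h6
            rw [hMs', Finset.sum_range_add]
            have h9 : ∑ k ∈ range (i0 + 1), |v k| = ∑ k ∈ range (i0 + 1), |w' (i0 + k)| :=
              Finset.sum_congr rfl fun k hk => by rw [hv1 k (Finset.mem_range.mp hk)]
            have h10 : ∑ i ∈ range i0, |v (i0 + 1 + i)| = ∑ i ∈ range i0, |w' i| :=
              Finset.sum_congr rfl fun i hi => by rw [hv2 i (Finset.mem_range.mp hi)]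
            rw [h9, h10]
            linarith)
        intro i hi
        apply hsgn
        rcases Nat.lt_or_ge i i0 with h1 | h1
        · have := h5 (i0 + 1 + i) (by omega)
          rw [hv2 i h1] at this
          exact this
        · have := h5 (i - i0) (by omega)
          rw [hv1 (i - i0) (by omega)] at this
          have e : i0 + (i - i0) = i := by omega
          rw [e] at this
          exact this
      · have hrneq : rn Q (Q * (2 * M)) w (Q - c) = rn Q (Q * (2 * M)) w c := by
          rw [rn_row hQ0 w _ (by omega), rn_row hQ0 w c hc]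
          have h3 : 2 * M = M + M := by ring
          rw [h3, Finset.sum_range_add, Finset.sum_range_add]
          have z1 : ∀ c' : ℕ, ∑ i ∈ range M, |w (c' + Q * (M + i))| = 0 := by
            intro c'
            apply Finset.sum_eq_zero
            intro i _
            rw [hbig _ (by nlinarith [Nat.zero_le (Q * i)])]
            simp
          rw [z1, z1, add_zero, add_zero, ← Finset.sum_range_reflect]
          apply Finset.sum_congr rfl
          intro i hi
          rw [hreflrow c hc0 hc i (Finset.mem_range.mp hi)]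
        have h6 := hpar2 c hc0 hc hca
        rw [hrneq] at h6
        have h5 := short_zero 11 M hM hq ρ hρp (fun i => (-1) ^ i * w (c + Q * i)) (hrel c hc) (by
          have := hnc c hc
          push_cast
          linarith)
        intro i hi
        exact hsgn i (h5 i hi)
  intro j
  rcases Nat.lt_or_ge j (Q * M) with h | h
  · have h1 := hall (j % Q) (Nat.mod_lt _ hQ0) (j / Q) (Nat.div_lt_of_lt_mul h)
    rwa [Nat.mod_add_div] at h1
  · exact hbig j h

end

end Pool.Agent.Helper54.Mix
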