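import Pool.Agent.Helper54.Mix.Basic

/-!
# The moment identity `∑ cos((k+l)aα) cos((k-l)bα) |U_{ab}(s)|² = - cos(s(λ_k-λ_l))`
-/

set_option autoImplicit false

namespace Pool.Agent.Helper54.Mix

open Matrix

noncomputable section

lemma cos_sum_aux (n : ℕ) (x : ℝ) :
    2 * Real.sin (x / 2) * ∑ a : Fin n, Real.cos (x * (((a : ℕ) : ℝ) + 1)) =
      Real.sin (x * ((n : ℝ) + 1) - x / 2) - Real.sin (x / 2) := by
  rw [Fin.sum_univ_eq_sum_range (fun a : ℕ => Real.cos (x * ((a : ℝ) + 1))) n]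
  induction n with
  | zero => simp; ring_nf
  | succ n ih =>
    rw [Finset.sum_range_succ, mul_add, ih]
    have h : Real.sin (x * (((n + 1 : ℕ) : ℝ) + 1) - x / 2) - Real.sin (x * ((n : ℝ) + 1) - x / 2)
        = 2 * Real.sin (x / 2) * Real.cos (x * ((n : ℝ) + 1)) := by
      rw [Real.sin_sub_sin]
      push_cast
      congr 2 <;> ring_nf
    linarith

/-- `∑_{a=1}^{n} cos(m a π/(n+1))`. -/
lemma cos_sum (n : ℕ) (m : ℤ) :
    ∑ a : Fin n, Real.cos ((m : ℝ) * (((a : ℕ) : ℝ) + 1) * al n) =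
      (if (2 * ((n : ℤ) + 1)) ∣ m then ((n : ℝ) + 1) else 0) - (1 + (-1 : ℝ) ^ m.natAbs) / 2 := by
  have hN : ((n : ℝ) + 1) ≠ 0 := by positivity
  have hcos : Real.cos ((m : ℝ) * Real.pi) = (-1 : ℝ) ^ m.natAbs := by
    rcases Int.natAbs_eq m with h | h
    · conv_lhs => rw [h]
      rw [Int.cast_natCast, Real.cos_nat_mul_pi]
    · conv_lhs => rw [h]
      rw [Int.cast_neg, Int.cast_natCast, neg_mul, Real.cos_neg, Real.cos_nat_mul_pi]
  have hre : ∀ a : Fin n, Real.cos ((m : ℝ) * (((a : ℕ) : ℝ) + 1) * al n) =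
      Real.cos (((m : ℝ) * al n) * (((a : ℕ) : ℝ) + 1)) := by
    intro a; congr 1; ring
  by_cases hd : (2 * ((n : ℤ) + 1)) ∣ m
  · rw [if_pos hd]
    obtain ⟨c, rfl⟩ := hd
    have h1 : ∀ a : Fin n, Real.cos (((2 * ((n : ℤ) + 1) * c : ℤ) : ℝ) * (((a : ℕ) : ℝ) + 1) * al n) = 1 := by
      intro a
      have : ((2 * ((n : ℤ) + 1) * c : ℤ) : ℝ) * (((a : ℕ) : ℝ) + 1) * al n =
          ((c * ((a : ℕ) + 1 : ℤ) : ℤ) : ℝ) * (2 * Real.pi) := by
        rw [← al_mul n]; push_cast; ring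
      rw [this, Real.cos_int_mul_two_pi]
    rw [Finset.sum_congr rfl (fun a _ => h1 a)]
    have h2 : Even (2 * ((n : ℤ) + 1) * c).natAbs := by
      rw [Int.natAbs_even, mul_assoc]; exact even_two_mul _
    rw [h2.neg_one_pow]
    simp
  · rw [if_neg hd]
    have hs : Real.sin (((m : ℝ) * al n) / 2) ≠ 0 := by
      intro h0
      rw [Real.sin_eq_zero_iff] at h0
      obtain ⟨c, hc⟩ := h0
      apply hd
      refine ⟨c, ?_⟩
      have h3 : (m : ℝ) * al n = 2 * (c : ℝ) * Real.pi := by linarith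
      rw [← al_mul n] at h3
      have hal : al n ≠ 0 := by
        intro h; have := al_mul n; rw [h, mul_zero] at this; exact Real.pi_ne_zero this.symm
      have h4 : (m : ℝ) = 2 * (c : ℝ) * ((n : ℝ) + 1) := by
        apply mul_right_cancel₀ hal
        linarith
      have h5 : (m : ℝ) = ((2 * ((n : ℤ) + 1) * c : ℤ) : ℝ) := by rw [h4]; push_cast; ring
      exact_mod_cast h5
    have hS := cos_sum_aux n ((m : ℝ) * al n)
    rw [Finset.sum_congr rfl (fun a _ => hre a)]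
    have e1 : (m : ℝ) * al n * ((n : ℝ) + 1) - (m : ℝ) * al n / 2 = (m : ℝ) * Real.pi - (m : ℝ) * al n / 2 := by
      rw [← al_mul n]; ring
    rw [e1, Real.sin_sub, Real.sin_int_mul_pi, hcos] at hS
    have h6 : 2 * Real.sin ((m : ℝ) * al n / 2) ≠ 0 := mul_ne_zero two_ne_zero hs
    apply mul_left_cancel₀ h6
    rw [hS]
    ring

/-- orthogonality of the sine vectors, for all integer frequencies. -/
lemma sg_dot (n : ℕ) (j m : ℤ) :
    sg n j ⬝ᵥ sg n m = (((n : ℂ) + 1) / 2) *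
      ((if (2 * ((n : ℤ) + 1)) ∣ (j - m) then 1 else 0) - (if (2 * ((n : ℤ) + 1)) ∣ (j + m) then 1 else 0)) := by
  have h1 : sg n j ⬝ᵥ sg n m = ((∑ a : Fin n, Real.sin ((j : ℝ) * (((a : ℕ) : ℝ) + 1) * al n) *
      Real.sin ((m : ℝ) * (((a : ℕ) : ℝ) + 1) * al n) : ℝ) : ℂ) := by
    simp only [dotProduct, sg]
    push_cast
    rfl
  have h2 : ∀ a : Fin n, Real.sin ((j : ℝ) * (((a : ℕ) : ℝ) + 1) * al n) *
      Real.sin ((m : ℝ) * (((a : ℕ) : ℝ) + 1) * al n) =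
      (Real.cos (((j - m : ℤ) : ℝ) * (((a : ℕ) : ℝ) + 1) * al n) -
        Real.cos (((j + m : ℤ) : ℝ) * (((a : ℕ) : ℝ) + 1) * al n)) / 2 := by
    intro a
    have e1 : ((j - m : ℤ) : ℝ) * (((a : ℕ) : ℝ) + 1) * al n =
      (j : ℝ) * (((a : ℕ) : ℝ) + 1) * al n - (m : ℝ) * (((a : ℕ) : ℝ) + 1) * al n := by push_cast; ring
    have e2 : ((j + m : ℤ) : ℝ) * (((a : ℕ) : ℝ) + 1) * al n =
      (j : ℝ) * (((a : ℕ) : ℝ) + 1) * al n + (m : ℝ) * (((a : ℕ) : ℝ) + 1) * al n := by push_cast; ring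
    rw [e1, e2, Real.cos_sub, Real.cos_add]; ring
  rw [h1, Finset.sum_congr rfl (fun a _ => h2 a), ← Finset.sum_div, Finset.sum_sub_distrib, cos_sum, cos_sum]
  have hpar : (-1 : ℝ) ^ (j - m).natAbs = (-1 : ℝ) ^ (j + m).natAbs := by
    rcases Int.even_or_odd (j - m) with h | h
    · have h' : Even (j + m) := by
        have : j + m = (j - m) + 2 * m := by ring
        rw [this]; exact h.add (even_two_mul m)
      rw [(Int.natAbs_even.mpr h).neg_one_pow, (Int.natAbs_even.mpr h').neg_one_pow]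
    · have h' : Odd (j + m) := by
        have : j + m = (j - m) + 2 * m := by ring
        rw [this]; exact h.add_even (even_two_mul m)
      rw [(Int.natAbs_odd.mpr h).neg_one_pow, (Int.natAbs_odd.mpr h').neg_one_pow]
  rw [hpar]
  split_ifs <;> push_cast <;> ring

/-- the diagonal matrix of `cos(u a α)`. -/
def Dg (n : ℕ) (u : ℤ) : Matrix (Fin n) (Fin n) ℂ :=
  Matrix.diagonal fun a => ((Real.cos ((u : ℝ) * (((a : ℕ) : ℝ) + 1) * al n) : ℝ) : ℂ)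

lemma Dg_mulVec (n : ℕ) (u j : ℤ) :
    Dg n u *ᵥ sg n j = (1 / 2 : ℂ) • (sg n (j + u) + sg n (j - u)) := by
  funext a
  simp only [Dg, Matrix.mulVec_diagonal, Pi.smul_apply, Pi.add_apply, smul_eq_mul, sg]
  have e1 : ((j + u : ℤ) : ℝ) * (((a : ℕ) : ℝ) + 1) * al n =
    (j : ℝ) * (((a : ℕ) : ℝ) + 1) * al n + (u : ℝ) * (((a : ℕ) : ℝ) + 1) * al n := by push_cast; ring
  have e2 : ((j - u : ℤ) : ℝ) * (((a : ℕ) : ℝ) + 1) * al n =
    (j : ℝ) * (((a : ℕ) : ℝ) + 1) * al n - (u : ℝ) * (((a : ℕ) : ℝ) + 1) * al n := by push_cast; ring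
  rw [e1, e2, Real.sin_add, Real.sin_sub]
  push_cast
  ring

lemma sg_symm (n : ℕ) (a j : Fin n) : sg n ((j : ℕ) + 1 : ℤ) a = sg n ((a : ℕ) + 1 : ℤ) j := by
  simp only [sg]
  congr 2
  push_cast
  ring

/-- completeness -/
lemma sg_complete (n : ℕ) (a b : Fin n) :
    ∑ j : Fin n, sg n ((j : ℕ) + 1 : ℤ) a * sg n ((j : ℕ) + 1 : ℤ) b =
      (((n : ℂ) + 1) / 2) * (if a = b then 1 else 0) := by
  have h1 : ∑ j : Fin n, sg n ((j : ℕ) + 1 : ℤ) a * sg n ((j : ℕ) + 1 : ℤ) b =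
      sg n ((a : ℕ) + 1 : ℤ) ⬝ᵥ sg n ((b : ℕ) + 1 : ℤ) := by
    simp only [dotProduct]
    apply Finset.sum_congr rfl
    intro j _
    rw [sg_symm n a j, sg_symm n b j]
  rw [h1, sg_dot]
  have hna := a.isLt
  have hnb := b.isLt
  have h2 : ¬ (2 * ((n : ℤ) + 1)) ∣ (((a : ℕ) + 1 : ℤ) + ((b : ℕ) + 1 : ℤ)) := by
    intro h
    have := Int.le_of_dvd (by positivity) h
    omega
  rw [if_neg h2]
  by_cases hab : a = b
  · subst hab; simp
  · have h3 : ¬ (2 * ((n : ℤ) + 1)) ∣ (((a : ℕ) + 1 : ℤ) - ((b : ℕ) + 1 : ℤ)) := by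
      intro h
      have hne : ((a : ℕ) + 1 : ℤ) - ((b : ℕ) + 1 : ℤ) ≠ 0 := by
        intro h0; apply hab; ext; omega
      have h4 := Int.le_of_dvd (abs_pos.mpr hne) ((dvd_abs _ _).mpr h)
      have h5 : |((a : ℕ) + 1 : ℤ) - ((b : ℕ) + 1 : ℤ)| < n + 1 := by
        rw [abs_lt]; constructor <;> omega
      omega
    rw [if_neg h3, if_neg hab]; simp

/-- trace formula in the sine basis. -/
lemma trace_eq (n : ℕ) (B : Matrix (Fin n) (Fin n) ℂ) :
    B.trace = (2 / ((n : ℂ) + 1)) * ∑ j : Fin n, sg n ((j : ℕ) + 1 : ℤ) ⬝ᵥ (B *ᵥ sg n ((j : ℕ) + 1 : ℤ)) := by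
  have hN : ((n : ℂ) + 1) ≠ 0 := by exact_mod_cast (Nat.succ_ne_zero n)
  have h1 : ∑ j : Fin n, sg n ((j : ℕ) + 1 : ℤ) ⬝ᵥ (B *ᵥ sg n ((j : ℕ) + 1 : ℤ)) =
      ∑ a : Fin n, ∑ b : Fin n, B a b * ∑ j : Fin n, sg n ((j : ℕ) + 1 : ℤ) a * sg n ((j : ℕ) + 1 : ℤ) b := by
    simp only [dotProduct, Matrix.mulVec, Finset.mul_sum]
    rw [Finset.sum_comm]
    apply Finset.sum_congr rfl
    intro a _
    rw [Finset.sum_comm]
    apply Finset.sum_congr rfl
    intro b _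
    apply Finset.sum_congr rfl
    intro j _
    ring
  rw [h1]
  simp only [sg_complete]
  have h2 : ∀ a : Fin n, ∑ b : Fin n, B a b * ((((n : ℂ) + 1) / 2) * (if a = b then 1 else 0)) =
      B a a * (((n : ℂ) + 1) / 2) := by
    intro a
    rw [Finset.sum_eq_single a]
    · simp
    · intro b _ hb; rw [if_neg (Ne.symm hb)]; ring
    · simp
  rw [Finset.sum_congr rfl (fun a _ => h2 a), ← Finset.sum_mul, Matrix.trace]
  simp only [Matrix.diag_apply]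
  field_simp

end

end Pool.Agent.Helper54.Mix
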