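import Pool.Agent.Helper54.Mix.Kern

/-!
# Densities with prescribed moments at combinations of independent frequencies
-/

set_option autoImplicit false

namespace Pool.Agent.Helper54.Mix

open MeasureTheory

noncomputable section

/-- the Fourier coefficients of `(2/5) (1 + cos x)^3`. -/
def cf (k : ℤ) : ℝ :=
  if k = 0 then 1 else if k = 1 ∨ k = -1 then 3/4 else if k = 2 ∨ k = -2 then 3/10 else
    if k = 3 ∨ k = -3 then 1/20 else 0

/-- the nonnegative trigonometric polynomial `(2/5) (1 + cos x)^3`. -/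
def FF (x : ℝ) : ℝ := (2/5) * (1 + Real.cos x) ^ 3

lemma FF_nonneg (x : ℝ) : 0 ≤ FF x := by
  unfold FF
  have : 0 ≤ 1 + Real.cos x := by linarith [Real.neg_one_le_cos x]
  positivity

lemma FF_eq (x : ℝ) : ((FF x : ℝ) : ℂ) = ∑ k ∈ Finset.Icc (-3 : ℤ) 3, (cf k : ℂ) * Complex.exp (Complex.I * ((k : ℂ) * x)) := by
  have hIcc : Finset.Icc (-3 : ℤ) 3 = {-3, -2, -1, 0, 1, 2, 3} := by decide
  rw [hIcc]
  rw [Finset.sum_insert (by decide), Finset.sum_insert (by decide), Finset.sum_insert (by decide),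
    Finset.sum_insert (by decide), Finset.sum_insert (by decide), Finset.sum_insert (by decide),
    Finset.sum_singleton]
  have c0 : cf 0 = 1 := by simp [cf]
  have c1 : cf 1 = 3/4 := by simp [cf]
  have c1' : cf (-1) = 3/4 := by simp [cf]
  have c2 : cf 2 = 3/10 := by simp [cf]
  have c2' : cf (-2) = 3/10 := by simp [cf]
  have c3 : cf 3 = 1/20 := by simp [cf]
  have c3' : cf (-3) = 1/20 := by simp [cf]
  rw [c0, c1, c1', c2, c2', c3, c3']
  set z : ℂ := Complex.exp (Complex.I * x) with hz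
  set y : ℂ := Complex.exp (-(Complex.I * x)) with hy
  have hzy : z * y = 1 := by rw [hz, hy, ← Complex.exp_add]; simp
  have hcos : ((Real.cos x : ℝ) : ℂ) = (z + y) / 2 := by
    rw [hz, hy, Complex.ofReal_cos, Complex.cos]
    congr 3
    · ring_nf
    · ring_nf
  have e1 : Complex.exp (Complex.I * (((1 : ℤ) : ℂ) * x)) = z := by rw [hz]; congr 1; push_cast; ring
  have e2 : Complex.exp (Complex.I * (((2 : ℤ) : ℂ) * x)) = z ^ 2 := by
    rw [hz, ← Complex.exp_nat_mul]; congr 1; push_cast; ring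
  have e3 : Complex.exp (Complex.I * (((3 : ℤ) : ℂ) * x)) = z ^ 3 := by
    rw [hz, ← Complex.exp_nat_mul]; congr 1; push_cast; ring
  have f1 : Complex.exp (Complex.I * (((-1 : ℤ) : ℂ) * x)) = y := by rw [hy]; congr 1; push_cast; ring
  have f2 : Complex.exp (Complex.I * (((-2 : ℤ) : ℂ) * x)) = y ^ 2 := by
    rw [hy, ← Complex.exp_nat_mul]; congr 1; push_cast; ring
  have f3 : Complex.exp (Complex.I * (((-3 : ℤ) : ℂ) * x)) = y ^ 3 := by
    rw [hy, ← Complex.exp_nat_mul]; congr 1; push_cast; ring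
  have e0 : Complex.exp (Complex.I * (((0 : ℤ) : ℂ) * x)) = 1 := by simp
  rw [e0, e1, e2, e3, f1, f2, f3]
  unfold FF
  push_cast
  rw [← Complex.ofReal_cos, hcos]
  have h4 : y = z⁻¹ := by
    have hz0 : z ≠ 0 := Complex.exp_ne_zero _
    field_simp
    linear_combination hzy
  have hz0 : z ≠ 0 := Complex.exp_ne_zero _
  rw [h4]
  field_simp
  ring

/-- products of shifted copies -/
def GG {r : ℕ} (ν φ : Fin r → ℝ) (s : ℝ) : ℝ := ∏ a, FF (ν a * s - φ a)

lemma GG_nonneg {r : ℕ} (ν φ : Fin r → ℝ) (s : ℝ) : 0 ≤ GG ν φ s :=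
  Finset.prod_nonneg fun _ _ => FF_nonneg _

lemma GG_eq {r : ℕ} (ν φ : Fin r → ℝ) (s : ℝ) : ((GG ν φ s : ℝ) : ℂ) =
    ∑ κ ∈ Fintype.piFinset (fun _ : Fin r => Finset.Icc (-3 : ℤ) 3),
      (∏ a, ((cf (κ a) : ℂ) * Complex.exp (-(Complex.I * ((κ a : ℂ) * φ a))))) *
        Complex.exp (Complex.I * (((∑ a, (κ a : ℝ) * ν a : ℝ) : ℂ) * s)) := by
  unfold GG
  rw [Complex.ofReal_prod]
  simp only [FF_eq]
  rw [Finset.prod_univ_sum]
  apply Finset.sum_congr rfl
  intro κ _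
  have h1 : Complex.exp (Complex.I * (((∑ a, (κ a : ℝ) * ν a : ℝ) : ℂ) * s)) =
      ∏ a, Complex.exp (Complex.I * (((κ a : ℂ) * ν a) * s)) := by
    rw [← Complex.exp_sum]
    congr 1
    push_cast
    rw [Finset.sum_mul, Finset.mul_sum]
  rw [h1, ← Finset.prod_mul_distrib]
  apply Finset.prod_congr rfl
  intro a _
  rw [mul_assoc, ← Complex.exp_add]
  congr 2
  push_cast
  ring

lemma exists_gap {r : ℕ} (ν : Fin r → ℝ) (hind : ∀ m : Fin r → ℤ, ∑ a, (m a : ℝ) * ν a = 0 → m = 0) :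
    ∃ δ : ℝ, 0 < δ ∧ ∀ m : Fin r → ℤ, (∀ a, m a ∈ Finset.Icc (-5 : ℤ) 5) → m ≠ 0 → δ ≤ |∑ a, (m a : ℝ) * ν a| := by
  classical
  set S := (Fintype.piFinset (fun _ : Fin r => Finset.Icc (-5 : ℤ) 5)).erase 0 with hS
  by_cases hne : S.Nonempty
  · obtain ⟨m0, hm0, hmin⟩ := Finset.exists_min_image S (fun m => |∑ a, (m a : ℝ) * ν a|) hne
    refine ⟨|∑ a, (m0 a : ℝ) * ν a|, ?_, ?_⟩
    · rw [abs_pos]
      intro h0
      have := hind m0 h0
      rw [hS, Finset.mem_erase] at hm0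
      exact hm0.1 this
    · intro m hm hm0'
      apply hmin
      rw [hS, Finset.mem_erase, Fintype.mem_piFinset]
      exact ⟨hm0', hm⟩
  · refine ⟨1, one_pos, ?_⟩
    intro m hm hm0'
    exfalso
    apply hne
    refine ⟨m, ?_⟩
    rw [hS, Finset.mem_erase, Fintype.mem_piFinset]
    exact ⟨hm0', hm⟩

/-- the properties of the kernel we use -/
def GoodKernel {r : ℕ} (ν : Fin r → ℝ) (K : ℝ → ℝ) : Prop :=
  (∀ s, 0 ≤ K s) ∧ Integrable K ∧ ∫ s, K s = 1 ∧
    ∀ m : Fin r → ℤ, (∀ a, m a ∈ Finset.Icc (-5 : ℤ) 5) → m ≠ 0 →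
      ∫ s, (K s : ℂ) * Complex.exp (Complex.I * (((∑ a, (m a : ℝ) * ν a : ℝ) : ℂ) * s)) = 0

lemma exists_goodKernel {r : ℕ} (ν : Fin r → ℝ) (hind : ∀ m : Fin r → ℤ, ∑ a, (m a : ℝ) * ν a = 0 → m = 0) :
    ∃ K, GoodKernel ν K := by
  obtain ⟨δ, hδ, hgap⟩ := exists_gap ν hind
  obtain ⟨K, h0, h1, h2, h3⟩ := exists_kernel δ hδ
  exact ⟨K, h0, h1, h2, fun m hm hne => h3 _ (hgap m hm hne)⟩

lemma integrable_K_exp {K : ℝ → ℝ} (hK : Integrable K) (w : ℝ) :
    Integrable fun s : ℝ => (K s : ℂ) * Complex.exp (Complex.I * ((w : ℂ) * s)) := by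
  refine Integrable.mul_bdd (c := 1) hK.ofReal (by fun_prop) ?_
  refine Filter.Eventually.of_forall fun s => ?_
  have : Complex.I * ((w : ℂ) * s) = ((w * s : ℝ) : ℂ) * Complex.I := by push_cast; ring
  rw [this, Complex.norm_exp_ofReal_mul_I]

/-- the Fourier coefficients of the density `K G_φ`. -/
lemma integral_K_GG {r : ℕ} {ν : Fin r → ℝ} {K : ℝ → ℝ} (hK : GoodKernel ν K) (φ : Fin r → ℝ)
    (m : Fin r → ℤ) (hm : ∀ a, m a ∈ Finset.Icc (-2 : ℤ) 2) :
    ∫ s, (K s : ℂ) * ((GG ν φ s : ℝ) : ℂ) * Complex.exp (Complex.I * ((-(∑ a, (m a : ℝ) * ν a) : ℝ) * s)) =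
      ∏ a, ((cf (m a) : ℂ) * Complex.exp (-(Complex.I * ((m a : ℂ) * φ a)))) := by
  have h1 : ∀ s : ℝ, (K s : ℂ) * ((GG ν φ s : ℝ) : ℂ) * Complex.exp (Complex.I * ((-(∑ a, (m a : ℝ) * ν a) : ℝ) * s)) =
      ∑ κ ∈ Fintype.piFinset (fun _ : Fin r => Finset.Icc (-3 : ℤ) 3),
      (∏ a, ((cf (κ a) : ℂ) * Complex.exp (-(Complex.I * ((κ a : ℂ) * φ a))))) *
        ((K s : ℂ) * Complex.exp (Complex.I * (((∑ a, ((κ a - m a : ℤ) : ℝ) * ν a : ℝ) : ℂ) * s))) := by
    intro s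
    rw [GG_eq, Finset.mul_sum, Finset.sum_mul]
    apply Finset.sum_congr rfl
    intro κ _
    have : Complex.exp (Complex.I * (((∑ a, ((κ a - m a : ℤ) : ℝ) * ν a : ℝ) : ℂ) * s)) =
        Complex.exp (Complex.I * (((∑ a, (κ a : ℝ) * ν a : ℝ) : ℂ) * s)) *
        Complex.exp (Complex.I * ((-(∑ a, (m a : ℝ) * ν a) : ℝ) * s)) := by
      rw [← Complex.exp_add]
      congr 1
      have : (∑ a, ((κ a - m a : ℤ) : ℝ) * ν a : ℝ) = (∑ a, (κ a : ℝ) * ν a) + (-(∑ a, (m a : ℝ) * ν a)) := by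
        rw [← Finset.sum_neg_distrib, ← Finset.sum_add_distrib]
        apply Finset.sum_congr rfl
        intro a _
        push_cast; ring
      rw [this]
      push_cast
      ring
    rw [this]
    ring
  simp only [h1]
  rw [integral_finsetSum]
  · rw [Finset.sum_eq_single m]
    · rw [integral_const_mul]
      have h2 : ∫ s, (K s : ℂ) * Complex.exp (Complex.I * (((∑ a, ((m a - m a : ℤ) : ℝ) * ν a : ℝ) : ℂ) * s)) = 1 := by
        simp only [sub_self, Int.cast_zero, zero_mul, Finset.sum_const_zero, Complex.ofReal_zero, mul_zero,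
          Complex.exp_zero, mul_one]
        rw [integral_complex_ofReal, hK.2.2.1]; simp
      rw [h2, mul_one]
    · intro κ hκ hne
      rw [integral_const_mul]
      rw [Fintype.mem_piFinset] at hκ
      have h3 := hK.2.2.2 (fun a => κ a - m a) (fun a => by
        have h4 := hκ a
        have h5 := hm a
        rw [Finset.mem_Icc] at *
        constructor <;> omega) (by
        intro h0
        apply hne
        funext a
        have := congrFun h0 a
        simp at this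
        omega)
      rw [h3, mul_zero]
    · intro hnot
      exfalso
      apply hnot
      rw [Fintype.mem_piFinset]
      intro a
      have h5 := hm a
      rw [Finset.mem_Icc] at *
      constructor <;> omega
  · intro κ _
    exact (integrable_K_exp hK.2.1 _).const_mul _

end

end Pool.Agent.Helper54.Mix
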